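import Pool.Agent.N192.GP.Dec

set_option autoImplicit false
set_option linter.unusedSectionVars false

/-!
# The theorems in terms of the products
-/

open Module Function TensorProduct

noncomputable section

namespace Pool.Agent.N192.GP

open Pool.Agent.Y102 Pool.Agent.W516.DR Pool.Agent.H204R3.GP Pool.Agent.W516.KC
  Pool.Agent.H204R3.SP

section Gen

variable {W W' ι ι' κ κ' : Type} [AddCommGroup W] [Module ℚ W] [AddCommGroup W'] [Module ℚ W']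
  [Fintype ι] [Fintype ι'] [Fintype κ] [DecidableEq κ] [Fintype κ'] [DecidableEq κ']

theorem isTw_of_sum [DecidableEq ι] {F : ι → (W →ₗ[ℚ] ℂ)} {w : ℤ}
    {φ : MultilinearMap ℚ (fun _ : κ => W) ℚ} {P : Type} [Fintype P] (f : P → κ → ι)
    (a : P → QBar) (h : ∀ x, tau ^ w * ((φ x : ℚ) : ℂ) =
      ∑ p, algebraMap QBar ℂ (a p) * ∏ l, F (f p l) (x l)) : IsTw F w φ := by
  classical
  refine ⟨fun K => ∑ p, if f p = K then a p else 0, fun x => ?_⟩
  rw [h]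
  simp only [map_sum, Finset.sum_mul]
  rw [Finset.sum_comm]
  refine Finset.sum_congr rfl fun p _ => ?_
  rw [Finset.sum_eq_single (f p)]
  · rw [if_pos rfl]
  · intro K _ hK
    rw [if_neg (Ne.symm hK), map_zero, zero_mul]
  · intro h1
    exact absurd (Finset.mem_univ _) h1

/-- Classes in a tensor product of powers of two structures. -/
def IsMix (F : ι → (W →ₗ[ℚ] ℂ)) (F' : ι' → (W' →ₗ[ℚ] ℂ)) (w : ℤ)
    (φ : MultilinearMap ℚ (fun _ : κ => W) (MultilinearMap ℚ (fun _ : κ' => W') ℚ)) : Prop :=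
  ∃ a : (κ → ι) → (κ' → ι') → QBar, ∀ u v, tau ^ w * ((φ u v : ℚ) : ℂ) =
    ∑ J, ∑ J', algebraMap QBar ℂ (a J J') * ((∏ l, F (J l) (u l)) * ∏ l, F' (J' l) (v l))

end Gen

variable {I J : Type} [Fintype I] [DecidableEq I] [Fintype J] [DecidableEq J]
  {g : I → ℕ} {d : J → ℕ}

/-- The projections. -/
def prA (g : I → ℕ) (d : J → ℕ) : Bt (nn g d) →ₗ[ℚ] (∀ i, Fin (2 * g i) → ℚ) where
  toFun x := fun i => x (Sum.inl i)
  map_add' _ _ := rfl
  map_smul' _ _ := rfl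

def prV (g : I → ℕ) (d : J → ℕ) : Bt (nn g d) →ₗ[ℚ] (∀ j, Fin (d j) → ℚ) where
  toFun x := fun j => x (Sum.inr j)
  map_add' _ _ := rfl
  map_smul' _ _ := rfl

section

variable (A : ∀ i, AbVar (g i)) (V : ∀ j, DRS (d j))

/-- The de Rham classes of the product as linear functions. -/
def perTA (p : Σ i, Fin (g i) ⊕ Fin (g i)) : (∀ i, Fin (2 * g i) → ℚ) →ₗ[ℚ] ℂ :=
  ((A p.1).dR p.2).comp (LinearMap.proj p.1)

def perTV (p : Σ j, Fin (d j)) : (∀ j, Fin (d j) → ℚ) →ₗ[ℚ] ℂ :=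
  ((V p.1).eta p.2).comp (LinearMap.proj p.1)

/-- The indices. -/
def idA (p : Σ i, Fin (g i) ⊕ Fin (g i)) : Σ t : I ⊕ J, Fin (nn g d t) :=
  ⟨Sum.inl p.1, eqv (g p.1) p.2⟩

def idV (p : Σ j, Fin (d j)) : Σ t : I ⊕ J, Fin (nn g d t) := ⟨Sum.inr p.1, p.2⟩

theorem eB_idA (p : Σ i, Fin (g i) ⊕ Fin (g i)) (x : Bt (nn g d)) :
    eB (ηη A V) (idA p) x = perTA A p (prA g d x) := by
  rw [eB_apply]
  have h1 : ηA A p.1 (eqv (g p.1) p.2) = (A p.1).dR p.2 := by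
    unfold ηA
    rw [Basis.reindex_apply, Equiv.symm_apply_apply, (A p.1).coe_basis]
  exact LinearMap.congr_fun h1 (x (Sum.inl p.1))

theorem eB_idV (p : Σ j, Fin (d j)) (x : Bt (nn g d)) :
    eB (ηη A V) (idV p) x = perTV V p (prV g d x) := by
  rw [eB_apply]
  have h1 : (V p.1).basis p.2 = (V p.1).eta p.2 := by rw [(V p.1).coe_basis]
  exact LinearMap.congr_fun h1 (x (Sum.inr p.1))

theorem tw_perTA {κ : Type} [Fintype κ] [DecidableEq κ] {w : ℤ}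
    {φ : MultilinearMap ℚ (fun _ : κ => ∀ i, Fin (2 * g i) → ℚ) ℚ} (h : IsTw (eB (ηA A)) w φ) :
    IsTw (perTA A) w φ := by
  have h1 := IsTw.comp (F' := perTA A) (Equiv.sigmaCongrRight fun i => (eqv (g i)).symm)
    LinearMap.id (fun p x => by
      rw [eB_apply]
      have h2 : ηA A p.1 p.2 = (A p.1).dR ((eqv (g p.1)).symm p.2) := by
        unfold ηA
        rw [Basis.reindex_apply, (A p.1).coe_basis]
      rw [h2]
      rfl) h
  exact h1

theorem tw_perTV {κ : Type} [Fintype κ] [DecidableEq κ] {w : ℤ}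
    {φ : MultilinearMap ℚ (fun _ : κ => ∀ j, Fin (d j) → ℚ) ℚ}
    (h : IsTw (eB fun j => (V j).basis) w φ) : IsTw (perTV V) w φ := by
  have h1 := IsTw.comp (F' := perTV V) (Equiv.refl _)
    LinearMap.id (fun p x => by
      rw [eB_apply, (V p.1).coe_basis]
      rfl) h
  exact h1

end

variable {A : ∀ i, AbVar (g i)} {V : ∀ j, DRS (d j)} {r : I → ℕ}
  {κ κ' : Type} [Fintype κ] [DecidableEq κ] [Fintype κ'] [DecidableEq κ'] {w : ℤ}

/-- The form on the total space. -/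
def toB (φ : MultilinearMap ℚ (fun _ : κ => ∀ i, Fin (2 * g i) → ℚ)
    (MultilinearMap ℚ (fun _ : κ' => ∀ j, Fin (d j) → ℚ) ℚ)) :
    MultilinearMap ℚ (fun _ : κ ⊕ κ' => Bt (nn g d)) ℚ :=
  MultilinearMap.uncurrySum (N := fun _ : κ ⊕ κ' => Bt (nn g d))
    (((MultilinearMap.compLinearMapₗ fun _ : κ' => prV g d).compMultilinearMap
      (φ.compLinearMap fun _ => prA g d)))

theorem toB_apply (φ : MultilinearMap ℚ (fun _ : κ => ∀ i, Fin (2 * g i) → ℚ)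
    (MultilinearMap ℚ (fun _ : κ' => ∀ j, Fin (d j) → ℚ) ℚ)) (x : κ ⊕ κ' → Bt (nn g d)) :
    toB φ x = φ (fun l => prA g d (x (Sum.inl l))) (fun l => prV g d (x (Sum.inr l))) := rfl

theorem cur_toB (φ : MultilinearMap ℚ (fun _ : κ => ∀ i, Fin (2 * g i) → ℚ)
    (MultilinearMap ℚ (fun _ : κ' => ∀ j, Fin (d j) → ℚ) ℚ)) (v : κ' → ∀ j, Fin (d j) → ℚ)
    (u : κ → ∀ i, Fin (2 * g i) → ℚ) : cur (toB φ) v u = φ u v := rfl

theorem tw_toB {φ : MultilinearMap ℚ (fun _ : κ => ∀ i, Fin (2 * g i) → ℚ)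
    (MultilinearMap ℚ (fun _ : κ' => ∀ j, Fin (d j) → ℚ) ℚ)}
    (h : IsMix (perTA A) (perTV V) w φ) : IsTw (eB (ηη A V)) w (toB φ) := by
  obtain ⟨a, ha⟩ := h
  refine isTw_of_sum (P := (κ → Σ i, Fin (g i) ⊕ Fin (g i)) × (κ' → Σ j, Fin (d j)))
    (fun p => Sum.elim (fun l => idA (p.1 l)) fun l => idV (p.2 l)) (fun p => a p.1 p.2)
    fun x => ?_
  rw [toB_apply, ha, Fintype.sum_prod_type]
  refine Finset.sum_congr rfl fun J _ => Finset.sum_congr rfl fun J' _ => ?_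
  congr 1
  rw [Fintype.prod_sum_type]
  congr 1
  · refine Finset.prod_congr rfl fun l _ => ?_
    rw [Sum.elim_inl, eB_idA]
  · refine Finset.prod_congr rfl fun l _ => ?_
    rw [Sum.elim_inr, eB_idV]

/-- **The decomposition.** -/
theorem Good.top (h : Good A V r) {φ : MultilinearMap ℚ (fun _ : κ => ∀ i, (A i).H1)
    (MultilinearMap ℚ (fun _ : κ' => ∀ j, Fin (d j) → ℚ) ℚ)}
    (hφ : IsMix (perTA A) (perTV V) w φ) :
    ∃ (K : ℕ) (ψ : Fin K → MultilinearMap ℚ (fun _ : κ => ∀ i, (A i).H1) ℚ)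
      (χ : Fin K → MultilinearMap ℚ (fun _ : κ' => ∀ j, Fin (d j) → ℚ) ℚ) ,
      (∀ k, IsHodgeTensor (perT A) (ψ k) ∧ ∃ m : ℤ, (Fintype.card κ : ℤ) = 2 * m ∧
        IsTw (perTA A) m (ψ k) ∧ IsTw (perTV V) (w - m) (χ k)) ∧
      ∀ u v, φ u v = ∑ k, ψ k u * χ k v := by
  obtain ⟨K, ψ, χ, h1, h2, h3⟩ := h.main (tw_toB hφ)
  refine ⟨K, ψ, χ, fun k => ⟨h1 k, ?_⟩, fun u v => ?_⟩
  · obtain ⟨m, hm, e1, e2⟩ := h2 k
    exact ⟨m, hm, tw_perTA A e1, tw_perTV V e2⟩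
  · rw [← cur_toB, h3]

/-- **All de Rham-Betti classes of the product are Hodge classes.** -/
theorem Good.pure (h : Good A V r) {φ : MultilinearMap ℚ (fun _ : κ => ∀ i, (A i).H1) ℚ}
    (hφ : IsTw (perTA A) w φ) : IsHodgeTensor (perT A) φ := by
  let φ' : MultilinearMap ℚ (fun _ : κ => ∀ i, Fin (2 * g i) → ℚ)
      (MultilinearMap ℚ (fun _ : Fin 0 => ∀ j, Fin (d j) → ℚ) ℚ) :=
    (MultilinearMap.constLinearEquivOfIsEmpty (R := ℚ) (S := ℚ)
      (M₁ := fun _ : Fin 0 => ∀ j, Fin (d j) → ℚ) (M₂ := ℚ)).toLinearMap.compMultilinearMap φ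
  have h1 : ∀ u v, φ' u v = φ u := fun u v => rfl
  have h2 : IsMix (perTA A) (perTV V) w φ' := by
    obtain ⟨a, ha⟩ := hφ
    refine ⟨fun J _ => a J, fun u v => ?_⟩
    rw [h1, ha]
    refine Finset.sum_congr rfl fun J _ => ?_
    rw [Fintype.sum_unique, Finset.univ_eq_empty (α := Fin 0), Finset.prod_empty, mul_one]
  have h3 : ∀ lam, cur (toB φ') default ∈ actSub (JT A lam) 0 := fun lam =>
    h.cur_hodge (tw_toB h2) default lam
  have h4 : cur (toB φ') default = φ := MultilinearMap.ext fun u => rfl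
  rw [h4] at h3
  exact hodge_of_JT A fun lam => actsBy_zero_iff.1 (h3 lam)

end Pool.Agent.N192.GP
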