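import Pool.Agent.N192.GP.SepD
import Pool.Agent.N192.GP.Top

set_option autoImplicit false
set_option linter.unusedSectionVars false

/-!
# Abelian varieties of spin type: the number of the colours
-/

open Module Function TensorProduct

noncomputable section

namespace Pool.Agent.N192.GP

open Pool.Agent.Y102 Pool.Agent.W516.DR Pool.Agent.H204R3.GP Pool.Agent.W516.KC
  Pool.Agent.H204R3.SP

/-- The hypothesis in terms of matrices, with the number of the colours. -/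
def SpinMatK {g : ℕ} (A : AbVar g) (k r : ℕ) : Prop :=
  ∃ (N : ℕ) (E : Fin N → Matrix (Fin (2 * g)) (Fin (2 * g)) ℂ) (c : Fin N → Fin k), 3 ≤ r ∧
    r ≠ 5 ∧ (∀ i, E i * E i = 1) ∧ (∀ i j, i ≠ j → E i * E j = -(E j * E i)) ∧
    (∀ s, (Finset.univ.filter fun j => c j = s).card = r) ∧
    Submodule.span ℂ {Y | ∃ X ∈ A.NA, Y = toC X} =
      Submodule.span ℂ {Y | ∃ i j, i ≠ j ∧ c i = c j ∧ Y = E i * E j}

theorem SpinMatK.mat {g : ℕ} {A : AbVar g} {k r : ℕ} (h : SpinMatK A k r) : SpinMat A r := by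
  obtain ⟨N, E, c, h⟩ := h
  exact ⟨N, k, E, c, h⟩

theorem SpinMatK.spin {g : ℕ} {A : AbVar g} {k r : ℕ} (h : SpinMatK A k r) : SpinK A.NA k r := by
  obtain ⟨N, E, c, h3, h5, e1, e2, hc, hl⟩ := h
  refine ⟨N, fun i => matE (2 * g) (E i), c, ⟨fun i => ?_, fun i j hij => ?_⟩, hc, ?_⟩
  · rw [← map_mul, e1, map_one]
  · rw [← map_mul, e2 i j hij, map_neg, map_mul]
  · rw [← map_lie, hl, Submodule.map_span]
    unfold SP.soC
    congr 1
    ext Y
    constructor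
    · rintro ⟨_, ⟨i, j, a, b, rfl⟩, rfl⟩
      exact ⟨i, j, a, b, map_mul (matE (2 * g)) _ _⟩
    · rintro ⟨i, j, a, b, rfl⟩
      exact ⟨_, ⟨i, j, a, b, rfl⟩, map_mul (matE (2 * g)) _ _⟩

variable {I : Type} [Fintype I] [DecidableEq I] {g : I → ℕ} {A : ∀ i, AbVar (g i)}

theorem ggU_NA {i : I} {r : ℕ} (h : SpinMat (A i) r) :
    ggU ⟨2 * g i, DA A i⟩ = ((A i).NA : Submodule ℚ (Module.End ℚ (A i).H1)) := by
  rw [ggU_eq A (fun j : Empty => (j.elim : DRS (Empty.elim j)))]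
  exact gg_eq h

theorem spinK_ggU {i : I} {k r : ℕ} (h : SpinMatK (A i) k r) :
    SpinK (ggU ⟨2 * g i, DA A i⟩) k r := by
  rw [ggU_NA h.mat]
  exact h.spin

theorem noIdeals_ggU {i : I} {r : ℕ} (h : SpinMat (A i) r) (hN : NoIdeals (A i).NA) :
    NoIdeals (ggU ⟨2 * g i, DA A i⟩) := by
  rw [ggU_NA h]
  exact hN

end Pool.Agent.N192.GP
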