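import Pool.Agent.N192.GP.CxF
import Pool.Agent.N192.GP.SepE

set_option autoImplicit false
set_option linter.unusedSectionVars false
set_option linter.unusedVariables false

/-!
# The exceptional members for a given structure
-/

open Module Function TensorProduct

noncomputable section

namespace Pool.Agent.N192.GP

open Pool.Agent.Y102 Pool.Agent.W516.DR Pool.Agent.H204R3.GP Pool.Agent.W516.KC
  Pool.Agent.H204R3.SP

/-- Homomorphisms of abelian varieties (up to isogeny). -/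
def IsHomAb {g g' : ℕ} (A : AbVar g) (A' : AbVar g') (f : A.H1 →ₗ[ℚ] A'.H1) : Prop :=
  (∃ Q : (Fin g → ℂ) →ₗ[ℂ] (Fin g' → ℂ), ∀ w, A'.per (f w) = Q (A.per w)) ∧
    ∃ a : (Fin g' ⊕ Fin g') → (Fin g ⊕ Fin g) → QBar, ∀ p w, A'.dR p (f w) =
      ∑ q, algebraMap QBar ℂ (a p q) * A.dR q w

section

variable {I J : Type} [Fintype I] [DecidableEq I] [Fintype J] [DecidableEq J]
  {g : I → ℕ} {A : ∀ i, AbVar (g i)} {d : J → ℕ} {V : ∀ j, DRS (d j)}

/-- The converse of `sep_final`. -/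
theorem sepU_of_final {i : I} {j : J} (h : Sep (ηη A V) (Sum.inl i) (Sum.inr j)) :
    SepU ⟨2 * g i, DA A i⟩ ⟨d j, V j⟩ := by
  have h0 := map_resU (ηη A V) (σσ A V) (ρρ A V) (ρρ_NN A V)
  intro X hX
  rw [ggU_eq A V i] at hX
  obtain ⟨ℓ, ⟨hℓ, h1⟩, h2⟩ := h hX
  rw [← h0] at hℓ
  obtain ⟨y, hy, rfl⟩ := hℓ
  exact ⟨y, ⟨hy, h1⟩, h2⟩

/-- Linked members have homomorphisms. -/
theorem hom_of_linked {i i' : I} {r : ℕ} (h : Linked (ηη A V) (Sum.inl i) (Sum.inl i'))
    (h1 : SpinMat (A i) r) (h2 : SpinMat (A i') r) (h6 : 6 ≤ r)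
    (hn : gg (ηη A V) (Sum.inl i) ≠ ⊥) :
    ∃ f : (A i).H1 →ₗ[ℚ] (A i').H1, f ≠ 0 ∧ IsHomAb (A i) (A i') f := by
  have hn1 : Nontrivial (ℂ ⊗[ℚ] (Fin (nn g d (Sum.inl i)) → ℚ)) := by
    by_contra hc
    exact hn (gg_bot hc)
  have hn2 : Nontrivial (ℂ ⊗[ℚ] (Fin (nn g d (Sum.inl i')) → ℚ)) := by
    by_contra hc
    exact hn (h.symm.bot (gg_bot hc))
  obtain ⟨f, hf, hf1⟩ := exists_f h (gg_spin h1) (gg_spin h2) h6
  have hNN : ∀ (D : Derivation QBar ℂ ℂ) (lam : ℂ →ₗ[ℚ] ℚ),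
        (NN (ηη A V (Sum.inl i')) D lam).comp f = f.comp (NN (ηη A V (Sum.inl i)) D lam) := by
    intro D lam
    have h1 := hf1 _ _ (⟨gn (ηη A V) D lam, gn_mem_LG (ηη A V) D lam, rfl⟩ :
      (pr (Sum.inl i) (gn (ηη A V) D lam), pr (Sum.inl i') (gn (ηη A V) D lam)) ∈
        (LG (ηη A V)).map (prq (Sum.inl i) (Sum.inl i')))
    refine LinearMap.ext fun w => ?_
    have h2 := LinearMap.congr_fun h1 w
    simp only [pr_apply, LinearMap.comp_apply, LinearMap.sub_apply, LinearMap.smul_apply,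
      Module.End.one_apply, map_sub, map_smul] at h2
    exact sub_left_injective h2
  obtain ⟨a, ha⟩ := hom_of_comm (ηη A V) (s := Sum.inl i) (t := Sum.inl i') hNN
  have hdR : ∃ a : (Fin (g i') ⊕ Fin (g i')) → (Fin (g i) ⊕ Fin (g i)) → QBar,
      ∀ p w, (A i').dR p (f w) = ∑ q, algebraMap QBar ℂ (a p q) * (A i).dR q w := by
    refine ⟨fun p q => a (eqv (g i') p) (eqv (g i) q), fun p w => ?_⟩
    have h1 : (A i').dR p (f w) = ηA A i' (eqv (g i') p) (f w) := by
      unfold ηA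
      rw [Basis.reindex_apply, Equiv.symm_apply_apply, (A i').coe_basis]
    have h2 : ∀ q, ηA A i (eqv (g i) q) w = (A i).dR q w := by
      intro q
      unfold ηA
      rw [Basis.reindex_apply, Equiv.symm_apply_apply, (A i).coe_basis]
    have h3 : ηA A i' (eqv (g i') p) (f w) = ∑ q, algebraMap QBar ℂ (a (eqv (g i') p) q) *
        ηA A i q w := ha (eqv (g i') p) w
    refine h1.trans (h3.trans ?_)
    refine (Equiv.sum_comp (eqv (g i)) (fun q => algebraMap QBar ℂ (a (eqv (g i') p) q) *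
        ηA A i q w)).symm.trans ?_
    exact Finset.sum_congr rfl fun q _ => by rw [h2]
  exact ⟨f, hf, (A i).hodge_hom (A i') hdR, hdR⟩

/-- **The number of exceptional members.** -/
theorem exc_dim {r k : I → ℕ} (hsp : ∀ i, SpinMatK (A i) (k i) (r i)) (h6 : ∀ i, 6 ≤ r i)
    (hni : ∀ i, NoIdeals (A i).NA)
    (hom : ∀ i i', i ≠ i' → ∀ f : (A i).H1 →ₗ[ℚ] (A i').H1, IsHomAb (A i) (A i') f → f = 0)
    {m : ℕ} (U : DRS m) (hU : ∀ i, ¬SepU ⟨2 * g i, DA A i⟩ ⟨m, U⟩) :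
    ∑ i, k i * beta (r i) ≤ m := by
  let V : Unit → DRS m := fun _ => U
  have hgg : ∀ i, gg (ηη A V) (Sum.inl i) = (A i).NA := fun i => gg_eq (hsp i).mat
  have hni' : ∀ i, NoIdeals (gg (ηη A V) (Sum.inl i)) := fun i => by rw [hgg]; exact hni i
  have hK : ∀ i, SpinK (gg (ηη A V) (Sum.inl i)) (k i) (r i) := fun i => by
    rw [hgg]; exact (hsp i).spin
  have hperf : ∀ i, gg (ηη A V) (Sum.inl i) ≤
      brk (gg (ηη A V) (Sum.inl i)) (gg (ηη A V) (Sum.inl i)) := fun i =>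
    (hK i).spin.perf (by have := h6 i; omega)
  have hsep : ∀ i i', i ≠ i' → Sep (ηη A V) (Sum.inl i) (Sum.inl i') := by
    intro i i' hne
    by_cases hr : r i = r i'
    · rcases link_or_sep (hni' i) (hni' i') (hperf i) with h | h
      swap
      · exact h
      by_cases hb : gg (ηη A V) (Sum.inl i) = ⊥
      · unfold Sep
        rw [hb]
        exact bot_le
      obtain ⟨f, hf, hf1⟩ := hom_of_linked h (hsp i).mat (by rw [hr]; exact (hsp i').mat)
        (h6 i) hb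
      exact absurd (hom i i' hne f hf1) hf
    · exact sep_pair (hK i).spin (hK i').spin (by have := h6 i; omega) (by have := h6 i'; omega)
        hr ((h6 i).trans (le_max_left _ _))
  have h1 := fam_dim (η := ηη A V) (S := Finset.univ.map ⟨Sum.inl, Sum.inl_injective⟩)
    (u := Sum.inr ()) (k := Sum.elim k fun _ => 0) (r := Sum.elim r fun _ => 0)
    (fun s hs => by
      obtain ⟨i, -, rfl⟩ := Finset.mem_map.1 hs
      exact h6 i)
    (fun s hs => by
      obtain ⟨i, -, rfl⟩ := Finset.mem_map.1 hs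
      exact hK i)
    (fun s hs => by
      obtain ⟨i, -, rfl⟩ := Finset.mem_map.1 hs
      exact hni' i)
    (fun s hs t ht hst => by
      obtain ⟨i, -, rfl⟩ := Finset.mem_map.1 hs
      obtain ⟨i', -, rfl⟩ := Finset.mem_map.1 ht
      exact hsep i i' fun h => hst (by rw [h]))
    (fun s hs => by
      obtain ⟨i, -, rfl⟩ := Finset.mem_map.1 hs
      exact fun h => hU i (sepU_of_final (V := V) h))
  rw [Finset.sum_map] at h1
  exact h1

end

end Pool.Agent.N192.GP
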