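import Pool.Agent.N192.GP.Hom

set_option autoImplicit false
set_option linter.unusedSectionVars false

/-!
# Families of abelian varieties and of de Rham-Betti structures
-/

open Module Function TensorProduct

noncomputable section

namespace Pool.Agent.N192.GP

open Pool.Agent.Y102 Pool.Agent.W516.DR Pool.Agent.H204R3.GP Pool.Agent.W516.KC
  Pool.Agent.H204R3.SP

/-- A de Rham-Betti structure over the field of algebraic numbers, of rank `d`: a `ℚ̄`-structure on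
the space of the linear maps from `ℚ ^ d` to the complex numbers, given by a basis `eta`. -/
structure DRS (d : ℕ) where
  /-- the periods, as linear functions on the Betti side -/
  eta : Fin d → ((Fin d → ℚ) →ₗ[ℚ] ℂ)
  indep : LinearIndependent ℂ eta

theorem finrank_dual (d : ℕ) : finrank ℂ ((Fin d → ℚ) →ₗ[ℚ] ℂ) = d := by
  rw [Module.finrank_linearMap_self, Module.finrank_fin_fun]

/-- The basis. -/
def DRS.basis {d : ℕ} (V : DRS d) : Basis (Fin d) ℂ ((Fin d → ℚ) →ₗ[ℚ] ℂ) :=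
  Basis.mk V.indep (V.indep.span_eq_top_of_card_eq_finrank' (by
    rw [Fintype.card_fin, finrank_dual])).ge

theorem DRS.coe_basis {d : ℕ} (V : DRS d) :
    (V.basis : Fin d → ((Fin d → ℚ) →ₗ[ℚ] ℂ)) = V.eta := Basis.coe_mk _ _

/-- The indices of the two halves of the de Rham basis. -/
def eqv (g : ℕ) : Fin g ⊕ Fin g ≃ Fin (2 * g) := finSumFinEquiv.trans (finCongr (two_mul g).symm)

variable {I J : Type} [Fintype I] [DecidableEq I] [Fintype J] [DecidableEq J]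
  {g : I → ℕ} (A : ∀ i, AbVar (g i)) {d : J → ℕ} (V : ∀ j, DRS (d j))

/-- The ranks. -/
def nn (g : I → ℕ) (d : J → ℕ) : I ⊕ J → ℕ := Sum.elim (fun i => 2 * g i) d

/-- The bases of the abelian members. -/
def ηA (i : I) : Basis (Fin (2 * g i)) ℂ ((Fin (2 * g i) → ℚ) →ₗ[ℚ] ℂ) :=
  (A i).basis.reindex (eqv (g i))

/-- The bases. -/
def ηη : ∀ t : I ⊕ J, Basis (Fin (nn g d t)) ℂ ((Fin (nn g d t) → ℚ) →ₗ[ℚ] ℂ)
  | Sum.inl i => ηA A i
  | Sum.inr j => (V j).basis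

theorem NN_inl (i : I) (D : Derivation QBar ℂ ℂ) (lam : ℂ →ₗ[ℚ] ℚ) :
    (NN (ηη A V (Sum.inl i)) D lam : Module.End ℚ (A i).H1) = NN (A i).basis D lam :=
  NN_reindex (A i).basis (eqv (g i)) D lam

theorem gg_full (i : I) : (A i).Full (gg (ηη A V) (Sum.inl i)) := by
  refine full_of (A i) (gg_br (η := ηη A V) (Sum.inl i)) (fun D lam => ?_) fun m φ hφ X hX => ?_
  · refine ⟨gn (ηη A V) D lam, gn_mem_LG _ D lam, ?_⟩
    rw [pr_gn, X0_eq, X0_eq]
    exact congrArg (fun Z : Module.End ℚ (A i).H1 => Z - (tt D lam / 2) • (1 : Module.End ℚ (A i).H1))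
      (NN_inl A V i D lam)
  · obtain ⟨ℓ, hℓ, rfl⟩ := hX
    refine pr_kills (ηη A V) (t := Sum.inl i) (w := m) ?_ ?_ hℓ
    · rw [Fintype.card_prod, Fintype.card_fin, Fintype.card_fin]
      push_cast
      ring
    · exact (IsTw_reindex (A i).basis (eqv (g i))).2 hφ

/-- The hypothesis in terms of matrices. -/
def SpinMat {g : ℕ} (A : AbVar g) (r : ℕ) : Prop :=
  ∃ (N k : ℕ) (E : Fin N → Matrix (Fin (2 * g)) (Fin (2 * g)) ℂ) (c : Fin N → Fin k), 3 ≤ r ∧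
    r ≠ 5 ∧ (∀ i, E i * E i = 1) ∧ (∀ i j, i ≠ j → E i * E j = -(E j * E i)) ∧
    (∀ s, (Finset.univ.filter fun j => c j = s).card = r) ∧
    Submodule.span ℂ {Y | ∃ X ∈ A.NA, Y = toC X} =
      Submodule.span ℂ {Y | ∃ i j, i ≠ j ∧ c i = c j ∧ Y = E i * E j}

theorem SpinMat.three {g : ℕ} {A : AbVar g} {r : ℕ} (h : SpinMat A r) : 3 ≤ r := by
  obtain ⟨_, _, _, _, h3, _⟩ := h
  exact h3

theorem SpinMat.ne {g : ℕ} {A : AbVar g} {r : ℕ} (h : SpinMat A r) : r ≠ 5 := by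
  obtain ⟨_, _, _, _, _, h5, _⟩ := h
  exact h5

theorem SpinMat.spin {g : ℕ} {A : AbVar g} {r : ℕ} (h : SpinMat A r) : Spin A.NA r := by
  obtain ⟨N, k, E, c, h3, h5, e1, e2, hc, hl⟩ := h
  refine ⟨N, k, fun i => matE (2 * g) (E i), c, ⟨fun i => ?_, fun i j hij => ?_⟩, hc, ?_⟩
  · rw [← map_mul, e1, map_one]
  · rw [← map_mul, e2 i j hij, map_neg, map_mul]
  · rw [← map_lie, hl, Submodule.map_span]
    unfold SP.soC
    congr 1
    ext Y
    constructor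
    · rintro ⟨_, ⟨i, j, a, b, rfl⟩, rfl⟩
      exact ⟨i, j, a, b, map_mul (matE (2 * g)) _ _⟩
    · rintro ⟨i, j, a, b, rfl⟩
      exact ⟨_, ⟨i, j, a, b, rfl⟩, map_mul (matE (2 * g)) _ _⟩

variable {A V}

theorem gg_eq {i : I} {r : ℕ} (h : SpinMat (A i) r) :
    gg (ηη A V) (Sum.inl i) = ((A i).NA : Submodule ℚ (Module.End ℚ (A i).H1)) := by
  have h1 := gg_full A V i
  obtain ⟨N, k, E, c, h3, h5, e1, e2, hc, hl⟩ := h
  exact le_antisymm h1.le (h1.of_spinMat h3 h5 e1 e2 hc hl)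

theorem gg_spin {i : I} {r : ℕ} (h : SpinMat (A i) r) : Spin (gg (ηη A V) (Sum.inl i)) r := by
  rw [gg_eq h]
  exact h.spin

/-- The structure given by `eta` is small compared to orthogonal Lie algebras of rank `r`. -/
inductive SmallT {d : ℕ} (eta : Fin d → ((Fin d → ℚ) →ₗ[ℚ] ℂ)) (r : ℕ) : Prop
  | cm (h : ∀ X Y : Module.End ℚ (Fin d → ℚ),
      (∀ P, IsDeRhamBettiEnd QBar eta P → X * P = P * X) →
      (∀ P, IsDeRhamBettiEnd QBar eta P → Y * P = P * Y) → X * Y = Y * X)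
  | symm (h6 : 6 ≤ r) (w : ℤ) (B : (Fin d → ℚ) →ₗ[ℚ] (Fin d → ℚ) →ₗ[ℚ] ℚ)
      (hB : ∀ u, (∀ v, B u v = 0) → u = 0) (hs : ∀ u v, B u v = B v u)
      (b : Fin d → Fin d → QBar) (hb : ∀ u v, tau ^ w * ((B u v : ℚ) : ℂ) =
        ∑ i, ∑ j, algebraMap QBar ℂ (b i j) * (eta i u * eta j v)) (hd : d < r)
  | alt (h6 : 6 ≤ r) (w : ℤ) (B : (Fin d → ℚ) →ₗ[ℚ] (Fin d → ℚ) →ₗ[ℚ] ℚ)
      (hB : ∀ u, (∀ v, B u v = 0) → u = 0) (hs : ∀ u v, B u v = -B v u)
      (b : Fin d → Fin d → QBar) (hb : ∀ u v, tau ^ w * ((B u v : ℚ) : ℂ) =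
        ∑ i, ∑ j, algebraMap QBar ℂ (b i j) * (eta i u * eta j v)) (hd : d + 1 < r)
  | filt (h6 : 6 ≤ r) (m : ℕ) (F : ℕ → Submodule ℚ (Fin d → ℚ)) (h0 : F 0 = ⊥) (hm : F m = ⊤)
      (hmono : ∀ a, F a ≤ F (a + 1)) (hF : ∀ a ≤ m, IsDeRhamBettiSubspace QBar eta (F a))
      (hd : ∀ a < m, (finrank ℚ (F (a + 1)) - finrank ℚ (F a)) *
        (finrank ℚ (F (a + 1)) - finrank ℚ (F a)) < r * (r - 1) / 2)

theorem arith_symm {d r : ℕ} (h : d < r) (h6 : 6 ≤ r) : d * (d - 1) / 2 < r * (r - 1) / 2 := by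
  have e1 : d * (d - 1) ≤ (r - 1) * (r - 2) := Nat.mul_le_mul (by omega) (by omega)
  obtain ⟨s, rfl⟩ : ∃ s, r = s + 2 := ⟨r - 2, by omega⟩
  have e2 : (s + 2) * (s + 2 - 1) = (s + 2 - 1) * (s + 2 - 2) + 2 * (s + 1) := by
    simp only [Nat.add_sub_cancel]
    have e3 : s + 2 - 1 = s + 1 := by omega
    rw [e3]
    ring
  omega

theorem tw_one2 {W ι : Type} [AddCommGroup W] [Module ℚ W] [Fintype ι]
    {F : ι → (W →ₗ[ℚ] ℂ)} {w : ℤ} {B : W →ₗ[ℚ] W →ₗ[ℚ] ℚ} {b : ι → ι → QBar}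
    (hb : ∀ u v, tau ^ w * ((B u v : ℚ) : ℂ) =
        ∑ i, ∑ j, algebraMap QBar ℂ (b i j) * (F i u * F j v)) : IsTw F w (one2 B) := by
  refine ⟨fun J => b (J (0, 0)) (J (0, 1)), fun v => ?_⟩
  rw [one2_apply, hb, ← Fintype.sum_prod_type']
  refine (Fintype.sum_equiv ((Equiv.arrowCongr (Equiv.uniqueProd (Fin 2) (Fin 1))
    (Equiv.refl ι)).trans (finTwoArrowEquiv ι)) _ _ fun J => ?_).symm
  rw [Fintype.prod_prod_type, Fin.prod_univ_one, Fin.prod_univ_two]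
  rfl

/-- De Rham-Betti endomorphisms commute with the logarithmic derivatives. -/
theorem NN_comm_end {W ι : Type} [AddCommGroup W] [Module ℚ W] [FiniteDimensional ℚ W]
    [Fintype ι] [DecidableEq ι] (η : Basis ι ℂ (W →ₗ[ℚ] ℂ)) {P : Module.End ℚ W}
    (hP : IsDeRhamBettiEnd QBar (η : ι → (W →ₗ[ℚ] ℂ)) P) (D : Derivation QBar ℂ ℂ)
    (lam : ℂ →ₗ[ℚ] ℚ) : NN η D lam * P = P * NN η D lam := by
  obtain ⟨a, ha⟩ := hP
  have h1 : ∀ i z, etaL η i (P.baseChange ℂ z) = ∑ j, algebraMap QBar ℂ (a i j) * etaL η j z := by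
    intro i z
    induction z with
    | zero => simp only [map_zero, mul_zero, Finset.sum_const_zero]
    | add z z' hz hz' =>
      simp only [map_add, hz, hz', mul_add, Finset.sum_add_distrib]
    | tmul c w =>
      rw [LinearMap.baseChange_tmul, etaL_tmul, ha, Finset.mul_sum]
      refine Finset.sum_congr rfl fun j _ => ?_
      rw [etaL_tmul]
      ring
  refine LinearMap.ext fun w => ?_
  rw [Module.End.mul_apply, Module.End.mul_apply, NN_apply, NN_apply, ← cmp_bcg]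
  congr 1
  apply ext_etaL η
  intro i
  rw [etaL_XX_one, h1, ha, map_sum]
  refine Finset.sum_congr rfl fun j _ => ?_
  rw [Derivation.leibniz, Derivation.map_algebraMap, smul_zero, add_zero, smul_eq_mul,
    etaL_XX_one]

section Gen

variable {T : Type} [Fintype T] [DecidableEq T] {n : T → ℕ}
  {η : ∀ t, Basis (Fin (n t)) ℂ ((Fin (n t) → ℚ) →ₗ[ℚ] ℂ)}

/-- The action on a bilinear form. -/
theorem inv_of_tw {t : T} {w : ℤ} {B : (Fin (n t) → ℚ) →ₗ[ℚ] (Fin (n t) → ℚ) →ₗ[ℚ] ℚ}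
    {b : Fin (n t) → Fin (n t) → QBar} (hb : ∀ u v, tau ^ w * ((B u v : ℚ) : ℂ) =
        ∑ i, ∑ j, algebraMap QBar ℂ (b i j) * (η t i u * η t j v)) :
    ∀ ℓ ∈ LG η ⊓ tw0, ∀ u v, B (ℓ.1 t u) v + B u (ℓ.1 t v) = 0 := by
  intro ℓ hℓ
  have h1 := LL_acts η (tw_one2 hb) (LG_le_LL η hℓ.1)
  have h2 : ℓ.2 = 0 := hℓ.2
  rw [h2, mul_zero, actsBy_zero_iff, kills_one2] at h1
  exact h1

/-- Small structures are separated. -/
theorem sep_of_small {s t : T} {r : ℕ} (hs : Spin (gg η s) r) (h3 : 3 ≤ r)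
    (hV : SmallT (η t : Fin (n t) → ((Fin (n t) → ℚ) →ₗ[ℚ] ℂ)) r) : Sep η s t := by
  have hperf := hs.perf h3
  cases hV with
  | cm h1 =>
    refine sep_comm rfl hperf fun x hx y hy => ?_
    have key : ∀ x ∈ LG η, ∀ P : Module.End ℚ (Fin (n t) → ℚ),
        IsDeRhamBettiEnd QBar (η t : Fin (n t) → ((Fin (n t) → ℚ) →ₗ[ℚ] ℂ)) P →
        x.1 t * P = P * x.1 t := by
      intro x hx P hP
      have h2 : LG η ≤ cent t P := LG_le _ (cent_br t P) fun D lam => NN_comm_end (η t) hP D lam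
      exact h2 hx
    exact h1 _ _ (key x hx) (key y hy)
  | symm h6 w B hB hs' b hb hd =>
    exact sep_symm rfl hperf (hs.codim h6) hB hs' (inv_of_tw hb) (arith_symm hd h6)
  | alt h6 w B hB hs' b hb hd =>
    refine sep_alt rfl hperf (hs.codim h6) hB hs' (inv_of_tw hb) ?_
    have h3 := arith_symm hd h6
    rw [Nat.add_sub_cancel] at h3
    exact h3
  | filt h6 m F h0 hm hmono hF hd =>
    exact sep_filt rfl hperf (hs.codim h6) h0 hm hmono (fun a ha => LG_stab _ (hF a ha)) hd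

end Gen

end Pool.Agent.N192.GP
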