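import Pool.Agent.N192.GP.Ribet
import Pool.Agent.Y102.V15

set_option autoImplicit false
set_option linter.unusedSectionVars false

/-!
# Dimensions of orthogonal Lie algebras and codimensions of ideals
-/

open Module Function TensorProduct

noncomputable section

namespace Pool.Agent.N192.GP

open Pool.Agent.Y102

section Abs

variable {U : Type} [AddCommGroup U] [Module ℂ U]

/-- The products with increasing indices. -/
def up {r : ℕ} (E : Fin r → Module.End ℂ U) (p : Σ j : Fin r, Fin j) : Module.End ℂ U :=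
  E ⟨p.2, p.2.2.trans p.1.2⟩ * E p.1

theorem card_up (r : ℕ) : Fintype.card (Σ j : Fin r, Fin j) = r * (r - 1) / 2 := by
  rw [Fintype.card_sigma]
  simp only [Fintype.card_fin]
  rw [Fin.sum_univ_eq_sum_range fun i => i, Finset.sum_range_id]

theorem span_up {r : ℕ} {E : Fin r → Module.End ℂ U} (hE : SP.CE E) :
    Submodule.span ℂ (Set.range (up E)) = SP.soE E := by
  refine le_antisymm (Submodule.span_le.2 ?_) (Submodule.span_le.2 ?_)
  · rintro _ ⟨⟨j, i⟩, rfl⟩
    refine Submodule.subset_span ⟨⟨i, i.2.trans j.2⟩, j, ?_, rfl⟩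
    intro h
    exact absurd (congrArg Fin.val h) i.2.ne
  · rintro _ ⟨i, j, hij, rfl⟩
    rcases lt_or_gt_of_ne hij with h | h
    · exact Submodule.subset_span ⟨⟨j, ⟨i, h⟩⟩, rfl⟩
    · rw [hE.anti i j hij]
      exact Submodule.neg_mem _ (Submodule.subset_span ⟨⟨i, ⟨j, h⟩⟩, rfl⟩)

theorem finrank_soE_le [FiniteDimensional ℂ U] {r : ℕ} {E : Fin r → Module.End ℂ U}
    (hE : SP.CE E) : finrank ℂ (SP.soE E) ≤ r * (r - 1) / 2 := by
  rw [← span_up hE, ← card_up]
  exact finrank_range_le_card (R := ℂ) (up E)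

theorem indep_up [FiniteDimensional ℂ U] [Nontrivial U] {r : ℕ} {E : Fin r → Module.End ℂ U}
    (hE : SP.CE E) : LinearIndependent ℂ (up E) := by
  rw [Fintype.linearIndependent_iff]
  rintro g hg ⟨j, i⟩
  obtain ⟨l, hl⟩ : ∃ l : Fin r, l = ⟨i, i.2.trans j.2⟩ := ⟨_, rfl⟩
  have hlj : l ≠ j := by
    intro h
    rw [h] at hl
    exact absurd (congrArg Fin.val hl) i.2.ne'
  -- the bracket with `E j`
  have h1 : ∀ p : Σ j : Fin r, Fin j, up E p * E j - E j * up E p =
      (if j = p.1 then (2 : ℂ) • E ⟨p.2, p.2.2.trans p.1.2⟩ else 0) -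
        (if j = ⟨p.2, p.2.2.trans p.1.2⟩ then (2 : ℂ) • E p.1 else 0) := by
    intro p
    refine SP.Cl_br hE ?_ j
    intro h
    exact absurd (congrArg Fin.val h) p.2.2.ne
  have h2 : ∑ p : Σ j : Fin r, Fin j, g p •
      ((if j = p.1 then (2 : ℂ) • E ⟨p.2, p.2.2.trans p.1.2⟩ else 0) -
        (if j = ⟨p.2, p.2.2.trans p.1.2⟩ then (2 : ℂ) • E p.1 else 0)) = 0 := by
    have h3 : (∑ p, g p • up E p) * E j - E j * (∑ p, g p • up E p) = 0 := by
      rw [hg, zero_mul, mul_zero, sub_zero]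
    rw [Finset.sum_mul, Finset.mul_sum, ← Finset.sum_sub_distrib] at h3
    refine Eq.trans (Finset.sum_congr rfl fun p _ => ?_) h3
    rw [← h1, smul_mul_assoc, mul_smul_comm, smul_sub]
  -- the coefficient at `E l`
  have h4 : ∀ q : Fin r → ℂ, ∑ s, q s • E s = 0 → ∀ s, q s = 0 :=
    Fintype.linearIndependent_iff.1 (SP.Cl_indep hE)
  let q : Fin r → ℂ := fun s => ∑ p : Σ j : Fin r, Fin j, g p *
    ((if j = p.1 ∧ s = ⟨p.2, p.2.2.trans p.1.2⟩ then 2 else 0) -
      (if j = ⟨p.2, p.2.2.trans p.1.2⟩ ∧ s = p.1 then 2 else 0))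
  have h5 : ∑ s, q s • E s = 0 := by
    rw [← h2]
    simp only [q, Finset.sum_smul]
    rw [Finset.sum_comm]
    refine Finset.sum_congr rfl fun p _ => ?_
    simp only [mul_smul, sub_smul, smul_sub, Finset.sum_sub_distrib, ← Finset.smul_sum]
    congr 2
    · split_ifs with h
      · simp [h]
      · simp [h]
    · split_ifs with h
      · simp [h]
      · simp [h]
  have h6 := h4 q h5 l
  simp only [q] at h6
  rw [Finset.sum_eq_single ⟨j, i⟩] at h6
  · rw [if_pos ⟨rfl, hl⟩, if_neg (fun h => hlj h.2), sub_zero] at h6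
    exact (mul_eq_zero.1 h6).resolve_right two_ne_zero
  · rintro ⟨j', i'⟩ _ hne
    have h7 : ¬(j = j' ∧ l = ⟨i', i'.2.trans j'.2⟩) := by
      rintro ⟨rfl, h⟩
      apply hne
      rw [hl] at h
      have h9 : i = i' := Fin.ext (by simpa using congrArg Fin.val h)
      rw [h9]
    have h8 : ¬(j = ⟨i', i'.2.trans j'.2⟩ ∧ l = j') := by
      rintro ⟨h, h'⟩
      have e1 : (j : ℕ) = i' := congrArg Fin.val h
      have e2 : (l : ℕ) = i := congrArg Fin.val hl
      have e3 : (l : ℕ) = j' := congrArg Fin.val h'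
      have e4 := i'.2
      have e5 := i.2
      omega
    rw [if_neg h7, if_neg h8, sub_zero, mul_zero]
  · intro h
    exact absurd (Finset.mem_univ _) h

theorem finrank_soE [FiniteDimensional ℂ U] [Nontrivial U] {r : ℕ}
    {E : Fin r → Module.End ℂ U} (hE : SP.CE E) : finrank ℂ (SP.soE E) = r * (r - 1) / 2 := by
  rw [← span_up hE, ← card_up]
  exact finrank_span_eq_card (indep_up hE)

/-- The subfamily of one colour. -/
theorem exists_sub {N k r : ℕ} {E : Fin N → Module.End ℂ U} {c : Fin N → Fin k} (hE : SP.CE E)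
    {s : Fin k} (hs : (Finset.univ.filter fun j => c j = s).card = r) :
    ∃ E' : Fin r → Module.End ℂ U, SP.CE E' ∧ SP.soE E' = SP.soS E c s := by
  classical
  set F := Finset.univ.filter fun j => c j = s with hF
  let e : F ≃ Fin r := F.equivFinOfCardEq hs
  have hmem : ∀ a : F, c a.1 = s := fun a => (Finset.mem_filter.1 a.2).2
  have hinj : ∀ a b : Fin r, a ≠ b → (e.symm a).1 ≠ (e.symm b).1 := by
    intro a b hab h
    exact hab (e.symm.injective (Subtype.ext h))
  refine ⟨fun a => E (e.symm a).1, ⟨fun a => hE.sq _, fun a b hab =>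
    hE.anti _ _ (hinj a b hab)⟩, ?_⟩
  refine le_antisymm (Submodule.span_mono ?_) (Submodule.span_mono ?_)
  · rintro _ ⟨a, b, hab, rfl⟩
    exact ⟨_, _, hinj a b hab, hmem _, hmem _, rfl⟩
  · rintro _ ⟨i, j, hij, hi, hj, rfl⟩
    refine ⟨e ⟨i, Finset.mem_filter.2 ⟨Finset.mem_univ _, hi⟩⟩,
      e ⟨j, Finset.mem_filter.2 ⟨Finset.mem_univ _, hj⟩⟩, ?_, ?_⟩
    · intro h
      exact hij (congrArg Subtype.val (e.injective h))
    · simp

theorem finrank_soS_le [FiniteDimensional ℂ U] {N k r : ℕ} {E : Fin N → Module.End ℂ U}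
    {c : Fin N → Fin k} (hE : SP.CE E) {s : Fin k}
    (hs : (Finset.univ.filter fun j => c j = s).card = r) :
    finrank ℂ (SP.soS E c s) ≤ r * (r - 1) / 2 := by
  obtain ⟨E', h1, h2⟩ := exists_sub hE hs
  rw [← h2]
  exact finrank_soE_le h1

theorem finrank_soS [FiniteDimensional ℂ U] [Nontrivial U] {N k r : ℕ}
    {E : Fin N → Module.End ℂ U} {c : Fin N → Fin k} (hE : SP.CE E) {s : Fin k}
    (hs : (Finset.univ.filter fun j => c j = s).card = r) :
    finrank ℂ (SP.soS E c s) = r * (r - 1) / 2 := by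
  obtain ⟨E', h1, h2⟩ := exists_sub hE hs
  rw [← h2]
  exact finrank_soE h1

variable [FiniteDimensional ℂ U] [Nontrivial U]

/-- The codimension of an ideal. -/
theorem codim {N k r : ℕ} {E : Fin N → Module.End ℂ U} {c : Fin N → Fin k} (hE : SP.CE E)
    (h6 : 6 ≤ r) (hc : ∀ s, (Finset.univ.filter fun j => c j = s).card = r)
    (I : Submodule ℂ (Module.End ℂ U)) (hI : Idl I (SP.soC E c)) (hne : I ≠ SP.soC E c) :
    finrank ℂ I + r * (r - 1) / 2 ≤ finrank ℂ (SP.soC E c) := by
  obtain ⟨s, hs⟩ : ∃ s, ¬SP.soS E c s ≤ I := by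
    by_contra hcon
    push Not at hcon
    apply hne
    refine le_antisymm hI.1 (Submodule.span_le.2 ?_)
    rintro _ ⟨i, j, hij, hcij, rfl⟩
    exact hcon (c i) (Submodule.subset_span ⟨i, j, hij, rfl, hcij.symm, rfl⟩)
  have hs6 : 6 ≤ (Finset.univ.filter fun j => c j = s).card := by rw [hc]; exact h6
  have h1 : I ⊓ SP.soS E c s = ⊥ := by
    rcases SP.ColMain_simple hE hs6 (I ⊓ SP.soS E c s) inf_le_right (fun x hx y hy =>
      ⟨hI.2 x (SP.soS_le s hx) y hy.1, SP.soS_br hE hx hy.2⟩) with h | h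
    · exact h
    · exact absurd (inf_eq_right.1 h) hs
  have hpos : 0 < finrank ℂ (SP.soS E c s) := by
    rw [finrank_soS hE (hc s)]
    have h2 : 6 * 5 ≤ r * (r - 1) := Nat.mul_le_mul h6 (by omega)
    omega
  -- the centre is trivial
  let Z : Submodule ℂ (Module.End ℂ U) :=
    { carrier := {x | x ∈ SP.soS E c s ∧ ∀ y ∈ SP.soS E c s, y * x - x * y = 0}
      zero_mem' := ⟨Submodule.zero_mem _, fun y _ => by rw [mul_zero, zero_mul, sub_zero]⟩
      add_mem' := fun {a b} ha hb => ⟨Submodule.add_mem _ ha.1 hb.1, fun y hy => by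
        have h2 := ha.2 y hy
        have h3 := hb.2 y hy
        have h4 : y * (a + b) - (a + b) * y = (y * a - a * y) + (y * b - b * y) := by
          rw [mul_add, add_mul]
          abel
        rw [h4, h2, h3, add_zero]⟩
      smul_mem' := fun t a ha => ⟨Submodule.smul_mem _ t ha.1, fun y hy => by
        rw [mul_smul_comm, smul_mul_assoc, ← smul_sub, ha.2 y hy, smul_zero]⟩ }
  have hZ : Z = ⊥ := by
    rcases SP.ColMain_simple hE hs6 Z (fun x hx => hx.1) (fun x hx y hy => by
      rw [hy.2 x hx]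
      exact Z.zero_mem) with h | h
    · exact h
    · exfalso
      have h2 : SP.soS E c s ≤ ⊥ := by
        refine (SP.ColMain_perfect hE hs6).trans (Submodule.span_le.2 ?_)
        rintro _ ⟨x, hx, y, hy, rfl⟩
        have h3 : y ∈ Z := by rw [h]; exact hy
        rw [h3.2 x hx]
        exact Submodule.zero_mem _
      rw [le_bot_iff] at h2
      rw [h2, finrank_bot] at hpos
      exact lt_irrefl _ hpos
  have h2 : ∀ x ∈ I, SP.pS E c s x = 0 := by
    intro x hx
    have h3 : SP.pS E c s x ∈ Z := by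
      refine ⟨SP.pS_mem hE (hI.1 hx), fun y hy => ?_⟩
      have h4 := SP.pS_br hE (σ := s) (SP.soS_le s hy) (hI.1 hx)
      rw [SP.pS_same hE hy] at h4
      rw [← h4]
      have h5 : y * x - x * y ∈ I ⊓ SP.soS E c s := by
        refine ⟨hI.2 y (SP.soS_le s hy) x hx, ?_⟩
        have h6 := SP.Link_part hE hy (hI.1 hx)
        have h7 : y * x - x * y = y * SP.pS E c s x - SP.pS E c s x * y := by
          rw [← neg_sub, h6, neg_sub]
        rw [h7]
        exact SP.soS_br hE hy (SP.pS_mem hE (hI.1 hx))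
      rw [h1] at h5
      rw [(Submodule.mem_bot ℂ).1 h5, map_zero]
    rw [hZ] at h3
    exact (Submodule.mem_bot ℂ).1 h3
  have h3 := finrank_ker (SP.soC E c) (SP.pS E c s)
  have h4 : (SP.soC E c).map (SP.pS E c s) = SP.soS E c s := by
    refine le_antisymm ?_ fun x hx => ⟨x, SP.soS_le s hx, SP.pS_same hE hx⟩
    rintro _ ⟨x, hx, rfl⟩
    exact SP.pS_mem hE hx
  rw [h4, finrank_soS hE (hc s)] at h3
  have h5 : finrank ℂ I ≤ finrank ℂ (SP.soC E c ⊓ LinearMap.ker (SP.pS E c s) :
      Submodule ℂ (Module.End ℂ U)) :=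
    Submodule.finrank_mono fun x hx => ⟨hI.1 hx, h2 x hx⟩
  omega

end Abs

section Rat

variable {W : Type} [AddCommGroup W] [Module ℚ W] [FiniteDimensional ℚ W]

theorem finrank_cx (S : Submodule ℚ (Module.End ℚ W)) : finrank ℂ (cx S) = finrank ℚ S := by
  let b := Module.finBasis ℚ S
  have h1 : Submodule.span ℂ (Set.range fun i => (b i : Module.End ℚ W).baseChange ℂ) = cx S := by
    refine le_antisymm (Submodule.span_le.2 ?_) (Submodule.span_le.2 ?_)
    · rintro _ ⟨i, rfl⟩
      exact bc_mem (b i).2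
    · rintro _ ⟨P, hP, rfl⟩
      have h2 : P = ∑ i, b.repr ⟨P, hP⟩ i • (b i : Module.End ℚ W) := by
        have h3 := congrArg (fun x : S => (x : Module.End ℚ W)) (b.sum_repr ⟨P, hP⟩)
        simp only [AddSubmonoidClass.coe_finsetSum, SetLike.val_smul] at h3
        exact h3.symm
      have h3 : P.baseChange ℂ = ∑ i, (b.repr ⟨P, hP⟩ i : ℂ) •
          (b i : Module.End ℚ W).baseChange ℂ := by
        have h4 : (LinearMap.baseChangeHom ℚ ℂ W W) P = ∑ i, (b.repr ⟨P, hP⟩ i : ℂ) •
            (LinearMap.baseChangeHom ℚ ℂ W W) (b i : Module.End ℚ W) := by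
          conv_lhs => rw [h2]
          rw [map_sum]
          refine Finset.sum_congr rfl fun i _ => ?_
          rw [map_smul]
          exact (Rat.cast_smul_eq_qsmul ℂ _ _).symm
        exact h4
      rw [h3]
      exact Submodule.sum_mem _ fun i _ => Submodule.smul_mem _ _ (Submodule.subset_span ⟨i, rfl⟩)
  have h2 : LinearIndependent ℂ fun i => (b i : Module.End ℚ W).baseChange ℂ := by
    rw [Fintype.linearIndependent_iff]
    intro g hg i
    apply Pool.Agent.W516.DR.eq_zero_of_dual (k := ℚ)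
    intro lam
    have h3 : ∑ j, lam (g j) • b j = 0 := by
      apply Subtype.ext
      simp only [AddSubmonoidClass.coe_finsetSum, SetLike.val_smul, ZeroMemClass.coe_zero]
      refine LinearMap.ext fun w => ?_
      have h4 := congrArg (fun X : Module.End ℂ (ℂ ⊗[ℚ] W) =>
        Pool.Agent.W516.DR.cmp lam (X ((1 : ℂ) ⊗ₜ[ℚ] w))) hg
      simp only [LinearMap.zero_apply, map_zero, LinearMap.sum_apply, LinearMap.smul_apply,
        LinearMap.baseChange_tmul, map_sum, TensorProduct.smul_tmul', smul_eq_mul, mul_one,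
        Pool.Agent.W516.DR.cmp_tmul] at h4
      rw [LinearMap.sum_apply, LinearMap.zero_apply]
      exact h4
    exact Fintype.linearIndependent_iff.1 b.linearIndependent _ h3 i
  rw [← h1, finrank_span_eq_card h2, Fintype.card_fin]

theorem cx_idl {I 𝔤 : Submodule ℚ (Module.End ℚ W)} (h : Idl I 𝔤) : Idl (cx I) (cx 𝔤) := by
  refine ⟨cx_mono h.1, fun x hx y hy => ?_⟩
  induction hx using Submodule.span_induction with
  | mem x hx =>
    obtain ⟨P, hP, rfl⟩ := hx
    induction hy using Submodule.span_induction with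
    | mem y hy =>
      obtain ⟨Q, hQ, rfl⟩ := hy
      rw [← bc_br]
      exact bc_mem (h.2 P hP Q hQ)
    | zero => rw [mul_zero, zero_mul, sub_zero]; exact Submodule.zero_mem _
    | add a b _ _ ha hb =>
      rw [mul_add, add_mul, add_sub_add_comm]
      exact Submodule.add_mem _ ha hb
    | smul c a _ ha =>
      rw [mul_smul_comm, smul_mul_assoc, ← smul_sub]
      exact Submodule.smul_mem _ c ha
  | zero => rw [mul_zero, zero_mul, sub_zero]; exact Submodule.zero_mem _
  | add a b _ _ ha hb =>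
    rw [mul_add, add_mul, add_sub_add_comm]
    exact Submodule.add_mem _ ha hb
  | smul c a _ ha =>
    rw [mul_smul_comm, smul_mul_assoc, ← smul_sub]
    exact Submodule.smul_mem _ c ha

theorem cx_inj {I 𝔤 : Submodule ℚ (Module.End ℚ W)} (h : cx I = cx 𝔤) : I = 𝔤 :=
  le_antisymm (fun X hX => mem_of_bc (by rw [← h]; exact bc_mem hX))
    fun X hX => mem_of_bc (by rw [h]; exact bc_mem hX)

/-- The codimension of an ideal over the rational numbers. -/
theorem codimQ {N k r : ℕ} {E : Fin N → Module.End ℂ (ℂ ⊗[ℚ] W)} {c : Fin N → Fin k}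
    (hE : SP.CE E) (h6 : 6 ≤ r) (hc : ∀ s, (Finset.univ.filter fun j => c j = s).card = r)
    {𝔤 : Submodule ℚ (Module.End ℚ W)} (hg : cx 𝔤 = SP.soC E c)
    (I : Submodule ℚ (Module.End ℚ W)) (hI : Idl I 𝔤) (hne : I ≠ 𝔤) :
    finrank ℚ I + r * (r - 1) / 2 ≤ finrank ℚ 𝔤 := by
  rcases subsingleton_or_nontrivial (ℂ ⊗[ℚ] W) with hs | hn
  · exfalso
    apply hne
    apply cx_inj
    have h1 : ∀ S : Submodule ℂ (Module.End ℂ (ℂ ⊗[ℚ] W)), S = ⊥ := by
      intro S
      rw [eq_bot_iff]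
      intro x _
      rw [Submodule.mem_bot]
      exact LinearMap.ext fun v => Subsingleton.elim _ _
    rw [h1 (cx I), h1 (cx 𝔤)]
  · rw [← finrank_cx I, ← finrank_cx 𝔤, hg]
    refine codim hE h6 hc (cx I) (hg ▸ cx_idl hI) fun h => hne (cx_inj ?_)
    rw [h, hg]

/-- Lie algebras of spin type are perfect. -/
theorem perfQ {N k r : ℕ} {E : Fin N → Module.End ℂ (ℂ ⊗[ℚ] W)} {c : Fin N → Fin k}
    (hE : SP.CE E) (h3 : 3 ≤ r) (hc : ∀ s, (Finset.univ.filter fun j => c j = s).card = r)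
    {𝔤 : Submodule ℚ (Module.End ℚ W)} (hg : cx 𝔤 = SP.soC E c) : 𝔤 ≤ brk 𝔤 𝔤 := by
  intro X hX
  refine mem_of_bc ?_
  rcases subsingleton_or_nontrivial (ℂ ⊗[ℚ] W) with hs | hn
  · have h1 : X.baseChange ℂ = 0 := LinearMap.ext fun v => Subsingleton.elim _ _
    rw [h1]
    exact Submodule.zero_mem _
  have h1 := SP.soC_perfect hE (fun i => by rw [hc]; exact h3) (hg ▸ bc_mem hX)
  rw [← hg] at h1
  refine (Submodule.span_le.2 ?_) h1
  rintro _ ⟨x, hx, y, hy, rfl⟩
  induction hx using Submodule.span_induction with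
  | mem x hx =>
    obtain ⟨P, hP, rfl⟩ := hx
    induction hy using Submodule.span_induction with
    | mem y hy =>
      obtain ⟨Q, hQ, rfl⟩ := hy
      rw [← bc_br]
      exact bc_mem (Submodule.subset_span ⟨P, hP, Q, hQ, rfl⟩)
    | zero => rw [mul_zero, zero_mul, sub_zero]; exact Submodule.zero_mem _
    | add a b _ _ ha hb =>
      rw [mul_add, add_mul, add_sub_add_comm]
      exact Submodule.add_mem _ ha hb
    | smul c a _ ha =>
      rw [mul_smul_comm, smul_mul_assoc, ← smul_sub]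
      exact Submodule.smul_mem _ c ha
  | zero => rw [mul_zero, zero_mul, sub_zero]; exact Submodule.zero_mem _
  | add a b _ _ ha hb =>
    rw [mul_add, add_mul, add_sub_add_comm]
    exact Submodule.add_mem _ ha hb
  | smul c a _ ha =>
    rw [mul_smul_comm, smul_mul_assoc, ← smul_sub]
    exact Submodule.smul_mem _ c ha

end Rat

end Pool.Agent.N192.GP
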