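import Pool.Agent.N192.GP.MatP
import Pool.Agent.N192.GP.Cod

set_option autoImplicit false
set_option linter.unusedSectionVars false

/-!
# Skew matrices in the Clifford algebra
-/

open Module Matrix

noncomputable section

namespace Pool.Agent.N192.GP

open Pool.Agent.Y102

variable {U : Type} [AddCommGroup U] [Module ℂ U] {r : ℕ} {E : Fin r → Module.End ℂ U}

/-- The element of the Clifford algebra given by a skew matrix. -/
def cl (E : Fin r → Module.End ℂ U) : Mt r →ₗ[ℂ] Module.End ℂ U where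
  toFun Z := (1 / 4 : ℂ) • ∑ a, ∑ b, Z b a • (E b * E a)
  map_add' Z Z' := by
    simp only [Matrix.add_apply, add_smul, Finset.sum_add_distrib, smul_add]
  map_smul' c Z := by
    simp only [Matrix.smul_apply, smul_eq_mul, mul_smul, ← Finset.smul_sum, RingHom.id_apply]
    rw [smul_comm]

theorem cl_apply (Z : Mt r) : cl E Z = (1 / 4 : ℂ) • ∑ a, ∑ b, Z b a • (E b * E a) := rfl

theorem skew_diag {Z : Mt r} (hZ : Zᵀ = -Z) (a : Fin r) : Z a a = 0 := by
  have h1 := congrFun (congrFun hZ a) a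
  rw [transpose_apply, Matrix.neg_apply] at h1
  linear_combination (1 / 2 : ℂ) * h1

theorem skew_apply {Z : Mt r} (hZ : Zᵀ = -Z) (a b : Fin r) : Z a b = -Z b a := by
  have h1 := congrFun (congrFun hZ b) a
  rw [transpose_apply, Matrix.neg_apply] at h1
  exact h1

theorem cl_mem {Z : Mt r} (hZ : Zᵀ = -Z) : cl E Z ∈ SP.soE E := by
  rw [cl_apply]
  refine Submodule.smul_mem _ _ (Submodule.sum_mem _ fun a _ => Submodule.sum_mem _ fun b _ => ?_)
  by_cases h : b = a
  · subst h
    rw [skew_diag hZ, zero_smul]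
    exact Submodule.zero_mem _
  · exact Submodule.smul_mem _ _ (Submodule.subset_span ⟨b, a, h, rfl⟩)

/-- The bracket with the generators. -/
theorem cl_gen (hE : SP.CE E) {Z : Mt r} (hZ : Zᵀ = -Z) (a : Fin r) :
    cl E Z * E a - E a * cl E Z = ∑ b, Z b a • E b := by
  have h1 : cl E Z * E a - E a * cl E Z = (1 / 4 : ℂ) • ∑ c, ∑ b, Z b c •
      (E b * E c * E a - E a * (E b * E c)) := by
    rw [cl_apply, smul_mul_assoc, mul_smul_comm, ← smul_sub, Finset.sum_mul, Finset.mul_sum,
      ← Finset.sum_sub_distrib]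
    congr 1
    refine Finset.sum_congr rfl fun c _ => ?_
    rw [Finset.sum_mul, Finset.mul_sum, ← Finset.sum_sub_distrib]
    refine Finset.sum_congr rfl fun b _ => ?_
    rw [smul_mul_assoc, mul_smul_comm, smul_sub]
  have h2 : ∀ c b, Z b c • (E b * E c * E a - E a * (E b * E c)) =
      Z b c • ((if a = c then (2 : ℂ) • E b else 0) - (if a = b then (2 : ℂ) • E c else 0)) := by
    intro c b
    by_cases h : b = c
    · subst h
      rw [skew_diag hZ, zero_smul, zero_smul]
    · rw [SP.Cl_br hE h a]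
  rw [h1]
  simp only [h2, smul_sub, Finset.sum_sub_distrib, smul_ite, smul_zero]
  rw [Finset.sum_comm (f := fun c b => if a = b then Z b c • (2 : ℂ) • E c else 0)]
  simp only [Finset.sum_ite_eq, Finset.sum_ite_irrel, Finset.sum_const_zero, Finset.mem_univ,
    if_true]
  have h3 : ∀ x, Z a x • (2 : ℂ) • E x = -(Z x a • (2 : ℂ) • E x) := by
    intro x
    rw [skew_apply hZ a x, neg_smul]
  simp only [h3, Finset.sum_neg_distrib]
  rw [smul_neg, sub_neg_eq_add, Finset.smul_sum, ← Finset.sum_add_distrib]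
  refine Finset.sum_congr rfl fun b _ => ?_
  module

variable [FiniteDimensional ℂ U] [Nontrivial U]

theorem exists_cl (hE : SP.CE E) {x : Module.End ℂ U} (hx : x ∈ SP.soE E) :
    ∃ A : Mt r, Aᵀ = -A ∧ x = cl E A := by
  let c : Fin r → Fin 1 := fun _ => 0
  have hx' : x ∈ SP.soS E c 0 := by
    refine (Submodule.span_mono ?_) hx
    rintro _ ⟨i, j, hij, rfl⟩
    exact ⟨i, j, hij, rfl, rfl, rfl⟩
  obtain ⟨A, h1, -, h3⟩ := SP.Link_mat hE hx'
  have hA : (Matrix.of A)ᵀ = -Matrix.of A := by
    ext i j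
    rw [transpose_apply, Matrix.neg_apply, Matrix.of_apply, Matrix.of_apply]
    exact h1 j i
  refine ⟨Matrix.of A, hA, ?_⟩
  have h4 := SP.soE_rec hE hx
  rw [cl_apply]
  have h5 : x = (1 / 4 : ℂ) • (4 : ℂ) • x := by
    rw [smul_smul]
    norm_num
  rw [h5, h4]
  congr 1
  refine Finset.sum_congr rfl fun i _ => ?_
  rw [h3, Finset.sum_mul]
  refine Finset.sum_congr rfl fun m _ => ?_
  rw [smul_mul_assoc, Matrix.of_apply]

theorem cl_inj (hE : SP.CE E) {A B : Mt r} (hA : Aᵀ = -A) (hB : Bᵀ = -B)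
    (h : cl E A = cl E B) : A = B := by
  ext b a
  have h1 := cl_gen hE hA a
  rw [h, cl_gen hE hB a] at h1
  have h2 : ∑ b, (A b a - B b a) • E b = 0 := by
    simp only [sub_smul, Finset.sum_sub_distrib]
    rw [h1, sub_self]
  have h3 := Fintype.linearIndependent_iff.1 (SP.Cl_indep hE) _ h2 b
  exact sub_eq_zero.1 h3

theorem skew_br {A B : Mt r} (hA : Aᵀ = -A) (hB : Bᵀ = -B) :
    (A * B - B * A)ᵀ = -(A * B - B * A) := by
  rw [transpose_sub, transpose_mul, transpose_mul, hA, hB, neg_mul_neg, neg_mul_neg, neg_sub]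

theorem cl_br (hE : SP.CE E) {A B : Mt r} (hA : Aᵀ = -A) (hB : Bᵀ = -B) :
    cl E A * cl E B - cl E B * cl E A = cl E (A * B - B * A) := by
  have hmem : cl E A * cl E B - cl E B * cl E A ∈ SP.soE E := by
    let c : Fin r → Fin 1 := fun _ => 0
    have hs : SP.soS E c 0 = SP.soE E := by
      refine le_antisymm (Submodule.span_mono ?_) (Submodule.span_mono ?_)
      · rintro _ ⟨i, j, hij, -, -, rfl⟩
        exact ⟨i, j, hij, rfl⟩
      · rintro _ ⟨i, j, hij, rfl⟩
        exact ⟨i, j, hij, rfl, rfl, rfl⟩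
    have h1 := SP.soS_br hE (c := c) (σ := 0) (x := cl E A) (y := cl E B)
      (by rw [hs]; exact cl_mem hA) (by rw [hs]; exact cl_mem hB)
    rwa [hs] at h1
  obtain ⟨C, hC, h1⟩ := exists_cl hE hmem
  have h2 : C = A * B - B * A := by
    ext b a
    have h3 := cl_gen hE hC a
    rw [← h1] at h3
    have h4 : (cl E A * cl E B - cl E B * cl E A) * E a - E a * (cl E A * cl E B -
        cl E B * cl E A) = ∑ b, (A * B - B * A) b a • E b := by
      have h5 : (cl E A * cl E B - cl E B * cl E A) * E a - E a * (cl E A * cl E B -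
        cl E B * cl E A) = (cl E A * (cl E B * E a - E a * cl E B) -
          (cl E B * E a - E a * cl E B) * cl E A) - (cl E B * (cl E A * E a - E a * cl E A) -
          (cl E A * E a - E a * cl E A) * cl E B) := by
        simp only [mul_sub, sub_mul, mul_assoc]
        abel
      have h6 : ∀ (X Y : Mt r), Xᵀ = -X → cl E X * (∑ c, Y c a • E c) -
          (∑ c, Y c a • E c) * cl E X = ∑ b, (X * Y) b a • E b := by
        intro X Y hX
        rw [Finset.mul_sum, Finset.sum_mul, ← Finset.sum_sub_distrib]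
        have h7 : ∀ c, cl E X * Y c a • E c - Y c a • E c * cl E X =
            ∑ b, (X b c * Y c a) • E b := by
          intro c
          rw [mul_smul_comm, smul_mul_assoc, ← smul_sub, cl_gen hE hX, Finset.smul_sum]
          refine Finset.sum_congr rfl fun b _ => ?_
          rw [smul_smul, mul_comm]
        simp only [h7]
        rw [Finset.sum_comm]
        refine Finset.sum_congr rfl fun b _ => ?_
        rw [← Finset.sum_smul, Matrix.mul_apply]
      rw [h5, cl_gen hE hB, cl_gen hE hA, h6 A B hA, h6 B A hB, ← Finset.sum_sub_distrib]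
      refine Finset.sum_congr rfl fun b _ => ?_
      rw [← sub_smul, Matrix.sub_apply]
    rw [h3] at h4
    have h5 : ∑ b, (C b a - (A * B - B * A) b a) • E b = 0 := by
      simp only [sub_smul, Finset.sum_sub_distrib]
      rw [h4, sub_self]
    have h6 := Fintype.linearIndependent_iff.1 (SP.Cl_indep hE) _ h5 b
    exact sub_eq_zero.1 h6
  rw [h1, h2]

/-- Linear combinations of the generators. -/
theorem lin_anti (hE : SP.CE E) (u v : Fin r → ℂ) :
    (∑ a, u a • E a) * (∑ b, v b • E b) + (∑ b, v b • E b) * (∑ a, u a • E a) =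
      (2 * (u ⬝ᵥ v)) • (1 : Module.End ℂ U) := by
  have h1 : (∑ a, u a • E a) * (∑ b, v b • E b) + (∑ b, v b • E b) * (∑ a, u a • E a) =
      ∑ a, ∑ b, (u a * v b) • (E a * E b + E b * E a) := by
    rw [Finset.sum_mul_sum, Finset.sum_mul_sum, Finset.sum_comm (f := fun i j => v i • E i *
      u j • E j), ← Finset.sum_add_distrib]
    refine Finset.sum_congr rfl fun a _ => ?_
    rw [← Finset.sum_add_distrib]
    refine Finset.sum_congr rfl fun b _ => ?_
    rw [smul_mul_smul_comm, smul_mul_smul_comm, smul_add, mul_comm (v b)]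
  have h2 : ∀ a b, (u a * v b) • (E a * E b + E b * E a) =
      if a = b then (2 * (u a * v b)) • (1 : Module.End ℂ U) else 0 := by
    intro a b
    by_cases h : a = b
    · subst h
      rw [if_pos rfl, hE.sq]
      module
    · rw [if_neg h, hE.anti a b h, neg_add_cancel, smul_zero]
  rw [h1]
  simp only [h2, Finset.sum_ite_eq, Finset.mem_univ, if_true]
  rw [← Finset.sum_smul, ← Finset.mul_sum]
  rfl

/-- Skew matrices of rank two. -/
theorem cl_sq (hE : SP.CE E) {A : Mt r} (hs : Aᵀ = -A) (hc : A * (A * A) = (-4 : ℂ) • A)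
    (ht : trace (A * A) = -8) : cl E A * cl E A = -1 := by
  obtain ⟨e, f, hee, hff, hef, hA⟩ := rank_two hs hc ht
  obtain ⟨x, hx⟩ : ∃ x, x = ∑ a, e a • E a := ⟨_, rfl⟩
  obtain ⟨y, hy⟩ : ∃ y, y = ∑ a, f a • E a := ⟨_, rfl⟩
  have h1 := lin_anti hE e e
  have h2 := lin_anti hE f f
  have h3 := lin_anti hE e f
  rw [hee, ← hx] at h1
  rw [hff, ← hy] at h2
  rw [hef, ← hx, ← hy] at h3
  have hxx : x * x = 1 := by
    have h4 : (2 : ℂ) • (x * x) = (2 : ℂ) • (1 : Module.End ℂ U) := by
      rw [two_smul, h1, mul_one]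
    exact smul_right_injective _ two_ne_zero h4
  have hyy : y * y = 1 := by
    have h4 : (2 : ℂ) • (y * y) = (2 : ℂ) • (1 : Module.End ℂ U) := by
      rw [two_smul, h2, mul_one]
    exact smul_right_injective _ two_ne_zero h4
  have hxy : x * y = -(y * x) := by
    rw [mul_zero, zero_smul] at h3
    exact eq_neg_of_add_eq_zero_left h3
  have h4 : cl E A = y * x := by
    have h5 : ∑ a, ∑ b, A b a • (E b * E a) = (2 : ℂ) • (y * x - x * y) := by
      rw [hx, hy, Finset.sum_mul_sum, Finset.sum_mul_sum, Finset.sum_comm (f := fun i j => f i •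
        E i * e j • E j), Finset.sum_comm (f := fun i j => e i • E i * f j • E j),
        ← Finset.sum_sub_distrib, Finset.smul_sum]
      refine Finset.sum_congr rfl fun a _ => ?_
      rw [← Finset.sum_sub_distrib, Finset.smul_sum]
      refine Finset.sum_congr rfl fun b _ => ?_
      rw [hA, smul_mul_smul_comm, smul_mul_smul_comm]
      module
    rw [cl_apply, h5, hxy]
    module
  rw [h4, mul_assoc, ← mul_assoc x, hxy, neg_mul, mul_neg, mul_assoc, hxx, mul_one, hyy]

/-- The images of the basis elements under an isomorphism of orthogonal Lie algebras. -/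
structure RelE (E : Fin r → Module.End ℂ U) (y : Fin r → Fin r → Module.End ℂ U) : Prop where
  mem : ∀ i j, y i j ∈ SP.soE E
  anti : ∀ i j, y i j = -y j i
  br : ∀ i j k, i ≠ j → j ≠ k → i ≠ k → y i j * y j k - y j k * y i j = (2 : ℂ) • y i k
  three : ∀ i j, ∀ z ∈ SP.soE E,
      y i j * (y i j * (y i j * z - z * y i j) - (y i j * z - z * y i j) * y i j) -
        (y i j * (y i j * z - z * y i j) - (y i j * z - z * y i j) * y i j) * y i j =
        (-4 : ℂ) • (y i j * z - z * y i j)
  cas : ∀ z ∈ SP.soE E, ∑ i, ∑ j, (y i j * (y i j * z - z * y i j) -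
    (y i j * z - z * y i j) * y i j) = (-16 * ((r : ℂ) - 2)) • z

theorem RelE.sq (hE : SP.CE E) {y : Fin r → Fin r → Module.End ℂ U} (h : RelE E y) (h3 : 3 ≤ r)
    (h8 : r ≠ 8) {i j : Fin r} (hij : i ≠ j) : y i j * y i j = -1 := by
  choose Y hYs hY using fun i j => exists_cl hE (h.mem i j)
  have hneg : ∀ {X : Mt r}, Xᵀ = -X → (-X)ᵀ = -(-X) := by
    intro X hX
    rw [transpose_neg, hX]
  have hsm : ∀ {X : Mt r} (c : ℂ), Xᵀ = -X → (c • X)ᵀ = -(c • X) := by
    intro X c hX
    rw [transpose_smul, hX, smul_neg]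
  have hrel : Rel Y := by
    refine ⟨hYs, fun i j => ?_, fun i j k hij hjk hik => ?_, fun i j Z hZ => ?_, fun Z hZ => ?_⟩
    · refine cl_inj hE (hYs i j) (hneg (hYs j i)) ?_
      rw [map_neg, ← hY, ← hY, ← h.anti]
    · refine cl_inj hE (skew_br (hYs i j) (hYs j k)) (hsm _ (hYs i k)) ?_
      rw [← cl_br hE (hYs i j) (hYs j k), map_smul, ← hY, ← hY, ← hY]
      exact h.br i j k hij hjk hik
    · have s1 := skew_br (hYs i j) hZ
      have s2 := skew_br (hYs i j) s1
      have s3 := skew_br (hYs i j) s2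
      refine cl_inj hE s3 (hsm _ s1) ?_
      rw [map_smul, ← cl_br hE (hYs i j) s2, ← cl_br hE (hYs i j) s1, ← cl_br hE (hYs i j) hZ,
        ← hY]
      exact h.three i j _ (cl_mem hZ)
    · have hsk : ∀ i j, (Y i j * (Y i j * Z - Z * Y i j) - (Y i j * Z - Z * Y i j) * Y i j)ᵀ =
          -(Y i j * (Y i j * Z - Z * Y i j) - (Y i j * Z - Z * Y i j) * Y i j) := fun i j =>
        skew_br (hYs i j) (skew_br (hYs i j) hZ)
      refine cl_inj hE ?_ (hsm _ hZ) ?_
      · rw [transpose_sum, ← Finset.sum_neg_distrib]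
        refine Finset.sum_congr rfl fun i _ => ?_
        rw [transpose_sum, ← Finset.sum_neg_distrib]
        exact Finset.sum_congr rfl fun j _ => hsk i j
      · rw [map_sum, map_smul, ← h.cas _ (cl_mem hZ)]
        refine Finset.sum_congr rfl fun i _ => ?_
        rw [map_sum]
        refine Finset.sum_congr rfl fun j _ => ?_
        rw [← cl_br hE (hYs i j) (skew_br (hYs i j) hZ), ← cl_br hE (hYs i j) hZ, ← hY]
  rw [hY]
  exact cl_sq hE (hYs i j) (hrel.cube h3 h8 hij) (hrel.tr h3 hij)

end Pool.Agent.N192.GP
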