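import Pool.Agent.N192.GP.Univ

set_option autoImplicit false
set_option linter.unusedSectionVars false

/-!
# The class of the separated structures is closed under the tensor operations and extensions
-/

open Module Function TensorProduct

noncomputable section

namespace Pool.Agent.N192.GP

open Pool.Agent.Y102 Pool.Agent.W516.DR Pool.Agent.H204R3.GP Pool.Agent.W516.KC
  Pool.Agent.H204R3.SP

section NN

variable {W W' W'' ι ι' ι'' : Type} [AddCommGroup W] [Module ℚ W] [FiniteDimensional ℚ W]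
  [AddCommGroup W'] [Module ℚ W'] [FiniteDimensional ℚ W']
  [AddCommGroup W''] [Module ℚ W''] [FiniteDimensional ℚ W'']
  [Fintype ι] [DecidableEq ι] [Fintype ι'] [DecidableEq ι'] [Fintype ι''] [DecidableEq ι'']
  (η : Basis ι ℂ (W →ₗ[ℚ] ℂ)) (η' : Basis ι' ℂ (W' →ₗ[ℚ] ℂ)) (η'' : Basis ι'' ℂ (W'' →ₗ[ℚ] ℂ))

/-- Homomorphisms commute with the logarithmic derivatives. -/
theorem NN_hom {f : W' →ₗ[ℚ] W} (h : ∃ a : ι → ι' → QBar, ∀ i u, η i (f u) =
    ∑ j, algebraMap QBar ℂ (a i j) * η' j u) (D : Derivation QBar ℂ ℂ) (lam : ℂ →ₗ[ℚ] ℚ)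
    (u : W') : NN η D lam (f u) = f (NN η' D lam u) := by
  obtain ⟨a, ha⟩ := h
  have h1 : ∀ i z, etaL η i (f.baseChange ℂ z) =
      ∑ j, algebraMap QBar ℂ (a i j) * etaL η' j z := by
    intro i z
    induction z with
    | zero => simp only [map_zero, mul_zero, Finset.sum_const_zero]
    | add z z' hz hz' =>
      simp only [map_add, hz, hz', mul_add, Finset.sum_add_distrib]
    | tmul c w =>
      rw [LinearMap.baseChange_tmul, etaL_tmul, ha, Finset.mul_sum]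
      refine Finset.sum_congr rfl fun j _ => ?_
      rw [etaL_tmul]
      ring
  rw [NN_apply, NN_apply, ← cmp_bcg]
  congr 1
  apply ext_etaL η
  intro i
  rw [etaL_XX_one, h1, ha, map_sum]
  refine Finset.sum_congr rfl fun j _ => ?_
  rw [Derivation.leibniz, Derivation.map_algebraMap, smul_zero, add_zero, smul_eq_mul,
    etaL_XX_one]

/-- Bilinear maps. -/
theorem NN_bil {β : W' →ₗ[ℚ] W'' →ₗ[ℚ] W} {w : ℤ} (h : ∃ b : ι → ι' → ι'' → QBar, ∀ i u v,
    tau ^ w * η i (β u v) = ∑ j, ∑ k, algebraMap QBar ℂ (b i j k) * (η' j u * η'' k v))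
    (D : Derivation QBar ℂ ℂ) (lam : ℂ →ₗ[ℚ] ℚ) (u : W') (v : W'') :
    NN η D lam (β u v) = β (NN η' D lam u) v + β u (NN η'' D lam v) -
      ((w : ℚ) * tt D lam) • β u v := by
  obtain ⟨b, hb⟩ := h
  have htau : (tau : ℂ) ≠ 0 := AbVar.tau_ne
  have h1 : ∀ i z v, tau ^ w * etaL η i ((β.flip v).baseChange ℂ z) =
      ∑ j, ∑ k, algebraMap QBar ℂ (b i j k) * (etaL η' j z * η'' k v) := by
    intro i z v
    induction z with
    | zero => simp only [map_zero, mul_zero, zero_mul, Finset.sum_const_zero]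
    | add z z' hz hz' =>
      simp only [map_add, mul_add, add_mul, hz, hz', Finset.sum_add_distrib]
    | tmul c w =>
      rw [LinearMap.baseChange_tmul, etaL_tmul, LinearMap.flip_apply, mul_left_comm, hb,
        Finset.mul_sum]
      refine Finset.sum_congr rfl fun j _ => ?_
      rw [Finset.mul_sum]
      refine Finset.sum_congr rfl fun k _ => ?_
      rw [etaL_tmul]
      ring
  have h2 : ∀ i u z, tau ^ w * etaL η i ((β u).baseChange ℂ z) =
      ∑ j, ∑ k, algebraMap QBar ℂ (b i j k) * (η' j u * etaL η'' k z) := by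
    intro i u z
    induction z with
    | zero => simp only [map_zero, mul_zero, Finset.sum_const_zero]
    | add z z' hz hz' =>
      simp only [map_add, mul_add, hz, hz', Finset.sum_add_distrib]
    | tmul c w =>
      rw [LinearMap.baseChange_tmul, etaL_tmul, mul_left_comm, hb, Finset.mul_sum]
      refine Finset.sum_congr rfl fun j _ => ?_
      rw [Finset.mul_sum]
      refine Finset.sum_congr rfl fun k _ => ?_
      rw [etaL_tmul]
      ring
  have h3 : XX η D ((1 : ℂ) ⊗ₜ[ℚ] β u v) =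
      (β.flip v).baseChange ℂ (XX η' D ((1 : ℂ) ⊗ₜ[ℚ] u)) +
        (β u).baseChange ℂ (XX η'' D ((1 : ℂ) ⊗ₜ[ℚ] v)) -
        ((w : ℂ) * (D tau / tau)) ⊗ₜ[ℚ] β u v := by
    apply ext_etaL η
    intro i
    have e1 : tau ^ w * ((w : ℂ) * (D tau / tau) * η i (β u v) + D (η i (β u v))) =
        tau ^ w * (etaL η i ((β.flip v).baseChange ℂ (XX η' D ((1 : ℂ) ⊗ₜ[ℚ] u))) +
          etaL η i ((β u).baseChange ℂ (XX η'' D ((1 : ℂ) ⊗ₜ[ℚ] v)))) := by
      rw [mul_add (tau ^ w) (etaL η i _), h1, h2, ← Finset.sum_add_distrib]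
      have e2 := congrArg D (hb i u v)
      rw [Derivation.leibniz, Derivation.leibniz_zpow, map_sum] at e2
      have e3 : tau ^ w * ((w : ℂ) * (D tau / tau) * η i (β u v) + D (η i (β u v))) =
          tau ^ w • D (η i (β u v)) + η i (β u v) • w • tau ^ (w - 1) • D tau := by
        rw [smul_eq_mul, smul_eq_mul, zsmul_eq_mul, smul_eq_mul, zpow_sub_one₀ htau]
        field_simp
        ring
      rw [e3, e2]
      refine Finset.sum_congr rfl fun j _ => ?_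
      rw [map_sum, ← Finset.sum_add_distrib]
      refine Finset.sum_congr rfl fun k _ => ?_
      rw [Derivation.leibniz, Derivation.map_algebraMap, smul_zero, add_zero, smul_eq_mul,
        Derivation.leibniz, etaL_XX_one, etaL_XX_one, smul_eq_mul, smul_eq_mul]
      ring
    have e4 := mul_left_cancel₀ (zpow_ne_zero w htau) e1
    rw [etaL_XX_one, map_sub, map_add, ← e4, etaL_tmul]
    ring
  rw [NN_apply, h3, map_sub, map_add, cmp_bcg, cmp_bcg, cmp_tmul, NN_apply, NN_apply]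
  have h4 : lam ((w : ℂ) * (D tau / tau)) = (w : ℚ) * tt D lam := by
    have h5 : (w : ℂ) * (D tau / tau) = (w : ℚ) • (D tau / tau) := by
      rw [Rat.smul_def, Rat.cast_intCast]
    rw [h5, map_smul, smul_eq_mul]
    rfl
  rw [h4]
  rfl

end NN

/-! ### Homomorphisms and bilinear maps of structures -/

/-- homomorphisms -/
def IsH {V' V : UU} (f : (Fin V'.1 → ℚ) →ₗ[ℚ] (Fin V.1 → ℚ)) : Prop :=
  ∃ a : Fin V.1 → Fin V'.1 → QBar, ∀ i u, V.2.eta i (f u) =
    ∑ j, algebraMap QBar ℂ (a i j) * V'.2.eta j u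

/-- bilinear maps -/
def IsB {V' V'' V : UU} (w : ℤ)
    (β : (Fin V'.1 → ℚ) →ₗ[ℚ] (Fin V''.1 → ℚ) →ₗ[ℚ] (Fin V.1 → ℚ)) : Prop :=
  ∃ b : Fin V.1 → Fin V'.1 → Fin V''.1 → QBar, ∀ i u v,
    tau ^ w * V.2.eta i (β u v) =
      ∑ j, ∑ k, algebraMap QBar ℂ (b i j k) * (V'.2.eta j u * V''.2.eta k v)

/-- bilinear forms -/
def IsF {V' V : UU} (w : ℤ) (B : (Fin V'.1 → ℚ) →ₗ[ℚ] (Fin V.1 → ℚ) →ₗ[ℚ] ℚ) : Prop :=
  ∃ b : Fin V'.1 → Fin V.1 → QBar, ∀ u v,
    tau ^ w * ((B u v : ℚ) : ℂ) =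
      ∑ j, ∑ k, algebraMap QBar ℂ (b j k) * (V'.2.eta j u * V.2.eta k v)

theorem LU_hom {V' V : UU} {f : (Fin V'.1 → ℚ) →ₗ[ℚ] (Fin V.1 → ℚ)} (hf : IsH f) {ℓ : RU}
    (hℓ : ℓ ∈ LU) (u : Fin V'.1 → ℚ) : ℓ.1 V (f u) = f (ℓ.1 V' u) := by
  let 𝔢 : Submodule ℚ RU :=
    { carrier := {ℓ | ∀ u, ℓ.1 V (f u) = f (ℓ.1 V' u)}
      zero_mem' := fun u => (map_zero f).symm
      add_mem' := by
        intro x y hx hy u
        change x.1 V (f u) + y.1 V (f u) = f (x.1 V' u + y.1 V' u)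
        rw [hx u, hy u, map_add]
      smul_mem' := by
        intro c x hx u
        change c • x.1 V (f u) = f (c • x.1 V' u)
        rw [hx u, map_smul] }
  have h1 : LU ≤ 𝔢 := by
    refine LU_le (fun x hx y hy u => ?_) fun D lam u => ?_
    · change x.1 V (y.1 V (f u)) - y.1 V (x.1 V (f u)) = f (x.1 V' (y.1 V' u) - y.1 V' (x.1 V' u))
      rw [hx u, hy u, hx, hy, map_sub]
    · refine NN_hom V.2.basis V'.2.basis ?_ D lam u
      rw [V.2.coe_basis, V'.2.coe_basis]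
      exact hf
  exact h1 hℓ u

theorem LU_bil {V' V'' V : UU} {w : ℤ}
    {β : (Fin V'.1 → ℚ) →ₗ[ℚ] (Fin V''.1 → ℚ) →ₗ[ℚ] (Fin V.1 → ℚ)} (hβ : IsB w β) {ℓ : RU}
    (hℓ : ℓ ∈ LU) (u : Fin V'.1 → ℚ) (v : Fin V''.1 → ℚ) :
    ℓ.1 V (β u v) = β (ℓ.1 V' u) v + β u (ℓ.1 V'' v) - ((w : ℚ) * ℓ.2) • β u v := by
  let 𝔢 : Submodule ℚ RU :=
    { carrier := {ℓ | ∀ u v, ℓ.1 V (β u v) =
        β (ℓ.1 V' u) v + β u (ℓ.1 V'' v) - ((w : ℚ) * ℓ.2) • β u v}
      zero_mem' := by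
        intro u v
        change (0 : Fin V.1 → ℚ) = β 0 v + β u 0 - ((w : ℚ) * 0) • β u v
        rw [map_zero, LinearMap.zero_apply, map_zero, mul_zero, zero_smul, add_zero, sub_zero]
      add_mem' := by
        intro x y hx hy u v
        change x.1 V (β u v) + y.1 V (β u v) = β (x.1 V' u + y.1 V' u) v +
          β u (x.1 V'' v + y.1 V'' v) - ((w : ℚ) * (x.2 + y.2)) • β u v
        rw [hx u v, hy u v, map_add, map_add, LinearMap.add_apply]
        module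
      smul_mem' := by
        intro c x hx u v
        change c • x.1 V (β u v) = β (c • x.1 V' u) v + β u (c • x.1 V'' v) -
          ((w : ℚ) * (c * x.2)) • β u v
        rw [hx u v, map_smul, map_smul, LinearMap.smul_apply]
        module }
  have h1 : LU ≤ 𝔢 := by
    refine LU_le (fun x hx y hy u v => ?_) fun D lam u v => ?_
    · have e1 : (x * y - y * x).2 = 0 := brU_snd x y
      rw [e1, mul_zero, zero_smul, sub_zero]
      change x.1 V (y.1 V (β u v)) - y.1 V (x.1 V (β u v)) =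
        β (x.1 V' (y.1 V' u) - y.1 V' (x.1 V' u)) v + β u (x.1 V'' (y.1 V'' v) - y.1 V'' (x.1 V'' v))
      have key : ∀ x' y' : RU, x' ∈ 𝔢 → y' ∈ 𝔢 → x'.1 V (y'.1 V (β u v)) =
          β (x'.1 V' (y'.1 V' u)) v + β (y'.1 V' u) (x'.1 V'' v) -
            ((w : ℚ) * x'.2) • β (y'.1 V' u) v + (β (x'.1 V' u) (y'.1 V'' v) +
            β u (x'.1 V'' (y'.1 V'' v)) - ((w : ℚ) * x'.2) • β u (y'.1 V'' v)) -
          ((w : ℚ) * y'.2) • (β (x'.1 V' u) v + β u (x'.1 V'' v) -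
            ((w : ℚ) * x'.2) • β u v) := by
        intro x' y' hx' hy'
        rw [hy' u v, map_sub, map_add, map_smul, hx', hx', hx']
      rw [key x y hx hy, key y x hy hx]
      simp only [map_sub, LinearMap.sub_apply]
      module
    · refine NN_bil V.2.basis V'.2.basis V''.2.basis ?_ D lam u v
      rw [V.2.coe_basis, V'.2.coe_basis, V''.2.coe_basis]
      exact hβ
  exact h1 hℓ u v

/-! ### The trivial structure -/

/-- The trivial structure. -/
def V0 : UU := ⟨1, ⟨fun _ => (Algebra.linearMap ℚ ℂ).comp (LinearMap.proj 0), by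
  rw [Fintype.linearIndependent_iff]
  intro c hc i
  have h1 := LinearMap.congr_fun hc (fun _ => (1 : ℚ))
  rw [LinearMap.sum_apply, Fin.sum_univ_one] at h1
  have h2 : c 0 * (((1 : ℚ) : ℚ) : ℂ) = 0 := h1
  rw [Rat.cast_one, mul_one] at h2
  rw [Subsingleton.elim i 0]
  exact h2⟩⟩

theorem NN_V0 (D : Derivation QBar ℂ ℂ) (lam : ℂ →ₗ[ℚ] ℚ) : NN V0.2.basis D lam = 0 := by
  refine LinearMap.ext fun u => ?_
  rw [NN_apply]
  have h1 : XX V0.2.basis D ((1 : ℂ) ⊗ₜ[ℚ] u) = 0 := by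
    apply ext_etaL V0.2.basis
    intro i
    rw [etaL_XX_one, map_zero, V0.2.coe_basis]
    have h2 : V0.2.eta i u = algebraMap QBar ℂ (algebraMap ℚ QBar (u (0 : Fin 1))) := by
      rw [← IsScalarTower.algebraMap_apply]
      rfl
    rw [h2, Derivation.map_algebraMap]
  rw [h1, map_zero, LinearMap.zero_apply]

theorem LU_V0 {ℓ : RU} (hℓ : ℓ ∈ LU) : ℓ.1 V0 = 0 := by
  have h1 : LU ≤ atU V0 := by
    refine LU_le (fun x hx y hy => ?_) fun D lam => NN_V0 D lam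
    have e1 : x.1 V0 = 0 := hx
    have e2 : y.1 V0 = 0 := hy
    change (x * y - y * x).1 V0 = 0
    rw [brU_fst, e1, e2, mul_zero, sub_self]
  exact h1 hℓ

theorem LU_form {V' V : UU} {w : ℤ} {B : (Fin V'.1 → ℚ) →ₗ[ℚ] (Fin V.1 → ℚ) →ₗ[ℚ] ℚ}
    (hB : IsF w B) {ℓ : RU} (hℓ : ℓ ∈ LU) (u : Fin V'.1 → ℚ) (v : Fin V.1 → ℚ) :
    B (ℓ.1 V' u) v + B u (ℓ.1 V v) = (w : ℚ) * ℓ.2 * B u v := by
  let ι : ℚ →ₗ[ℚ] (Fin 1 → ℚ) := LinearMap.pi fun _ => LinearMap.id
  have h1 : IsB (V' := V') (V'' := V) (V := V0) w (B.compr₂ ι) := by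
    obtain ⟨b, hb⟩ := hB
    exact ⟨fun _ => b, fun i u v => hb u v⟩
  have h2 := LU_bil h1 hℓ u v
  rw [LU_V0 hℓ, LinearMap.zero_apply] at h2
  have h3 := congrFun h2 (0 : Fin 1)
  have h4 : (0 : ℚ) = B (ℓ.1 V' u) v + B u (ℓ.1 V v) - ((w : ℚ) * ℓ.2) * B u v := h3
  linarith

/-! ### Closure -/

section Closure

variable {s : UU} (hperf : ggU s ≤ brk (ggU s) (ggU s))

include hperf

theorem sepU_and {V V' : UU} (h : SepU s V) (h' : SepU s V') :
    ggU s ≤ (((LU ⊓ atU V) ⊓ atU V') ⊓ twU).map (prU s) := by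
  refine step (prU_hm s LU) hperf inf_le_left inf_le_left h h' fun x hx y hy => ?_
  have e1 : x.1 V = 0 := hx.2
  have e2 : y.1 V' = 0 := hy.2
  refine ⟨⟨⟨LU_br x hx.1 y hy.1, ?_⟩, ?_⟩, brU_snd x y⟩
  · change (x * y - y * x).1 V = 0
    rw [brU_fst, e1, mul_zero, zero_mul, sub_zero]
  · change (x * y - y * x).1 V' = 0
    rw [brU_fst, e2, mul_zero, zero_mul, sub_zero]

/-- Subquotients and extensions. -/
theorem sepU_middle {V' V V'' : UU} {f : (Fin V'.1 → ℚ) →ₗ[ℚ] (Fin V.1 → ℚ)}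
    {p : (Fin V.1 → ℚ) →ₗ[ℚ] (Fin V''.1 → ℚ)} (hf : IsH f) (hp : IsH p)
    (hex : ∀ u, p u = 0 → ∃ u', f u' = u) (h' : SepU s V') (h'' : SepU s V'') : SepU s V := by
  have h1 := sepU_and hperf h' h''
  have h0 : ((LU ⊓ atU V') ⊓ atU V'') ⊓ twU ≤ LU :=
    inf_le_left.trans (inf_le_left.trans inf_le_left)
  refine step (prU_hm s LU) hperf h0 h0 h1 h1
    fun x hx y hy => ⟨LU_br x hx.1.1.1 y hy.1.1.1, ?_⟩
  have key : ∀ z z' : RU, z ∈ (((LU ⊓ atU V') ⊓ atU V'') ⊓ twU) →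
      z' ∈ (((LU ⊓ atU V') ⊓ atU V'') ⊓ twU) → z.1 V * z'.1 V = 0 := by
    intro z z' hz hz'
    refine LinearMap.ext fun u => ?_
    have e1 : p (z'.1 V u) = 0 := by
      rw [← LU_hom hp hz'.1.1.1]
      have e2 : z'.1 V'' = 0 := hz'.1.2
      rw [e2, LinearMap.zero_apply]
    obtain ⟨u', hu'⟩ := hex _ e1
    have e3 : z.1 V' = 0 := hz.1.1.2
    rw [Module.End.mul_apply, ← hu', LU_hom hf hz.1.1.1, e3, LinearMap.zero_apply, map_zero,
      LinearMap.zero_apply]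
  change (x * y - y * x).1 V = 0
  rw [brU_fst, key x y hx hy, key y x hy hx, sub_zero]

/-- Quotients of tensor products. -/
theorem sepU_tensor {V' V'' V : UU} {w : ℤ}
    {β : (Fin V'.1 → ℚ) →ₗ[ℚ] (Fin V''.1 → ℚ) →ₗ[ℚ] (Fin V.1 → ℚ)} (hβ : IsB w β)
    (hs : Submodule.span ℚ {x | ∃ u v, β u v = x} = ⊤) (h' : SepU s V') (h'' : SepU s V'') :
    SepU s V := by
  refine (sepU_and hperf h' h'').trans (Submodule.map_mono fun x hx => ⟨hx.1.1.1, ?_⟩)
  have e1 : x.1 V' = 0 := hx.1.1.2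
  have e2 : x.1 V'' = 0 := hx.1.2
  have e3 : x.2 = 0 := hx.2
  have h1 : Submodule.span ℚ {x | ∃ u v, β u v = x} ≤ LinearMap.ker (x.1 V) := by
    rw [Submodule.span_le]
    rintro _ ⟨u, v, rfl⟩
    change x.1 V (β u v) = 0
    rw [LU_bil hβ hx.1.1.1, e1, e2, e3, LinearMap.zero_apply, LinearMap.zero_apply, map_zero,
      map_zero, LinearMap.zero_apply, mul_zero, zero_smul, add_zero, sub_zero]
  rw [hs] at h1
  exact LinearMap.ext fun u => h1 (Submodule.mem_top (x := u))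

/-- Duals. -/
theorem sepU_dual {V' V : UU} {w : ℤ} {B : (Fin V'.1 → ℚ) →ₗ[ℚ] (Fin V.1 → ℚ) →ₗ[ℚ] ℚ}
    (hB : IsF w B) (hn : ∀ v, (∀ u, B u v = 0) → v = 0) (h' : SepU s V') : SepU s V := by
  refine (sepU_and hperf h' h').trans (Submodule.map_mono fun x hx => ⟨hx.1.1.1, ?_⟩)
  have e1 : x.1 V' = 0 := hx.1.1.2
  have e3 : x.2 = 0 := hx.2
  refine LinearMap.ext fun v => hn _ fun u => ?_
  have h1 := LU_form hB hx.1.1.1 u v
  rw [e1, e3, LinearMap.zero_apply, map_zero, LinearMap.zero_apply, mul_zero, zero_mul,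
    zero_add] at h1
  exact h1

end Closure

end Pool.Agent.N192.GP
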