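import Mathlib

set_option autoImplicit false
set_option linter.unusedSectionVars false

/-!
# Counting the weights of representations of orthogonal Lie algebras
-/

open Module

noncomputable section

namespace Pool.Agent.N192.GP

section Half

variable {V : Type*} [AddCommGroup V] [Module ℂ V] [DecidableEq V]

theorem self_eq_neg_C {V : Type*} [AddCommGroup V] [Module ℂ V] {x : V} (h : x = -x) :
    x = 0 := by
  have h1 : (2 : ℂ) • x = 0 := by
    rw [two_smul]
    nth_rewrite 2 [h]
    exact add_neg_cancel x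
  exact (smul_eq_zero.1 h1).resolve_left two_ne_zero

theorem two_fin_le (n : ℕ) : ∀ X : Finset V, X.card ≤ n → (0 : V) ∉ X → (∀ x ∈ X, -x ∈ X) →
    2 * finrank ℂ (Submodule.span ℂ (X : Set V)) ≤ X.card := by
  induction n with
  | zero =>
    intro X hX _ _
    have h1 : X = ∅ := Finset.card_eq_zero.1 (by omega)
    subst h1
    simp
  | succ n ih =>
    intro X hX h0 hneg
    rcases X.eq_empty_or_nonempty with rfl | ⟨x, hx⟩
    · simp
    have hxn : -x ≠ x := by
      intro h
      have h1 : x = 0 := self_eq_neg_C h.symm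
      exact h0 (h1 ▸ hx)
    have hmem : -x ∈ X.erase x := Finset.mem_erase.2 ⟨hxn, hneg x hx⟩
    have hc : ((X.erase x).erase (-x)).card + 2 = X.card := by
      rw [Finset.card_erase_of_mem hmem, Finset.card_erase_of_mem hx]
      have h1 : 1 < X.card := Finset.one_lt_card.2 ⟨x, hx, -x, hneg x hx, hxn.symm⟩
      omega
    have h1 := ih ((X.erase x).erase (-x)) (by omega)
      (fun h => h0 (Finset.mem_of_mem_erase (Finset.mem_of_mem_erase h))) (by
        intro y hy
        have hy1 := Finset.mem_erase.1 hy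
        have hy2 := Finset.mem_erase.1 hy1.2
        refine Finset.mem_erase.2 ⟨fun h => hy2.1 (neg_injective h),
          Finset.mem_erase.2 ⟨fun h => hy1.1 (by rw [← h, neg_neg]), hneg y hy2.2⟩⟩)
    have h2 : Submodule.span ℂ (X : Set V) ≤
        Submodule.span ℂ (((X.erase x).erase (-x) : Finset V) : Set V) ⊔ Submodule.span ℂ {x} := by
      rw [Submodule.span_le]
      intro y hy
      by_cases h3 : y = x
      · refine Submodule.mem_sup_right ?_
        rw [h3]
        exact Submodule.mem_span_singleton_self x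
      by_cases h4 : y = -x
      · refine Submodule.mem_sup_right ?_
        rw [h4]
        exact Submodule.neg_mem _ (Submodule.mem_span_singleton_self x)
      · exact Submodule.mem_sup_left (Submodule.subset_span
          (Finset.mem_coe.2 (Finset.mem_erase.2 ⟨h4, Finset.mem_erase.2 ⟨h3, hy⟩⟩)))
    have : FiniteDimensional ℂ (Submodule.span ℂ
        (((X.erase x).erase (-x) : Finset V) : Set V)) :=
      FiniteDimensional.span_finset ℂ _
    have h3 := (Submodule.finrank_mono h2).trans (Submodule.finrank_add_le_finrank_add_finrank _ _)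
    have h4 : finrank ℂ (Submodule.span ℂ {x}) ≤ 1 := finrank_span_le_card {x} |>.trans (by simp)
    omega

theorem two_fin_le' {X : Finset V} (h0 : (0 : V) ∉ X) (hneg : ∀ x ∈ X, -x ∈ X) {x : V}
    (hx : x ∈ X) (hs : x ∈ Submodule.span ℂ {y | y ∈ X ∧ y ≠ x ∧ y ≠ -x}) :
    2 * finrank ℂ (Submodule.span ℂ (X : Set V)) + 2 ≤ X.card := by
  have hxn : -x ≠ x := by
    intro h
    have h1 : x = 0 := self_eq_neg_C h.symm
    exact h0 (h1 ▸ hx)
  have hmem : -x ∈ X.erase x := Finset.mem_erase.2 ⟨hxn, hneg x hx⟩
  have hc : ((X.erase x).erase (-x)).card + 2 = X.card := by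
    rw [Finset.card_erase_of_mem hmem, Finset.card_erase_of_mem hx]
    have h1 : 1 < X.card := Finset.one_lt_card.2 ⟨x, hx, -x, hneg x hx, hxn.symm⟩
    omega
  have h1 := two_fin_le _ ((X.erase x).erase (-x)) le_rfl
      (fun h => h0 (Finset.mem_of_mem_erase (Finset.mem_of_mem_erase h))) (by
        intro y hy
        have hy1 := Finset.mem_erase.1 hy
        have hy2 := Finset.mem_erase.1 hy1.2
        refine Finset.mem_erase.2 ⟨fun h => hy2.1 (neg_injective h),
          Finset.mem_erase.2 ⟨fun h => hy1.1 (by rw [← h, neg_neg]), hneg y hy2.2⟩⟩)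
  have hset : {y | y ∈ X ∧ y ≠ x ∧ y ≠ -x} = (((X.erase x).erase (-x) : Finset V) : Set V) := by
    ext y
    simp only [Set.mem_ofPred_eq, Finset.coe_erase, Set.mem_sdiff, Finset.mem_coe,
      Set.mem_singleton_iff]
    tauto
  rw [hset] at hs
  have h2 : Submodule.span ℂ (X : Set V) ≤
      Submodule.span ℂ (((X.erase x).erase (-x) : Finset V) : Set V) := by
    rw [Submodule.span_le]
    intro y hy
    by_cases h3 : y = x
    · rw [h3]; exact hs
    by_cases h4 : y = -x
    · rw [h4]
      exact Submodule.neg_mem _ hs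
    · exact Submodule.subset_span
        (Finset.mem_coe.2 (Finset.mem_erase.2 ⟨h4, Finset.mem_erase.2 ⟨h3, hy⟩⟩))
  have : FiniteDimensional ℂ (Submodule.span ℂ
      (((X.erase x).erase (-x) : Finset V) : Set V)) :=
    FiniteDimensional.span_finset ℂ _
  have h3 := Submodule.finrank_mono h2
  omega

end Half

section Flips

variable {m : ℕ}

/-- The change of the signs in `F`. -/
def flF (F : Finset (Fin m)) (χ : Fin m → ℂ) : Fin m → ℂ := fun l => if l ∈ F then -χ l else χ l

/-- `X` is closed under the change of two signs. -/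
def Cl2 (X : Set (Fin m → ℂ)) : Prop := ∀ χ ∈ X, ∀ i j, i ≠ j → flF {i, j} χ ∈ X

/-- `X` is closed under the change of one sign. -/
def Cl1 (X : Set (Fin m → ℂ)) : Prop := ∀ χ ∈ X, ∀ i, flF {i} χ ∈ X

theorem flF_empty (χ : Fin m → ℂ) : flF ∅ χ = χ := by
  funext l
  simp [flF]

theorem flF_ins {F : Finset (Fin m)} {i : Fin m} (hi : i ∉ F) (χ : Fin m → ℂ) :
    flF {i} (flF F χ) = flF (insert i F) χ := by
  funext l
  unfold flF
  by_cases h : l = i
  · subst h
    simp [hi]
  · simp [h]

variable {X : Set (Fin m → ℂ)}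

theorem Cl1.all (h : Cl1 X) {χ : Fin m → ℂ} (hχ : χ ∈ X) (F : Finset (Fin m)) : flF F χ ∈ X := by
  induction F using Finset.induction_on with
  | empty => rw [flF_empty]; exact hχ
  | insert i F hi ih =>
    rw [← flF_ins hi]
    exact h _ ih i

theorem Cl1.two (h : Cl1 X) : Cl2 X := fun _ hχ _ _ _ => h.all hχ _

theorem Cl2.all (h : Cl2 X) {χ : Fin m → ℂ} (hχ : χ ∈ X) {l : Fin m} (hl : χ l = 0)
    (F : Finset (Fin m)) : flF F χ ∈ X := by
  induction F using Finset.induction_on with
  | empty => rw [flF_empty]; exact hχ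
  | insert i F hi ih =>
    by_cases hil : i = l
    · have h1 : flF (insert i F) χ = flF F χ := by
        funext j
        unfold flF
        by_cases hj : j = i
        · subst hj
          subst hil
          simp [hl]
        · simp [hj]
      rw [h1]
      exact ih
    · have h1 : flF {i, l} (flF F χ) = flF (insert i F) χ := by
        funext j
        unfold flF
        by_cases hj : j = i
        · subst hj
          simp [hi]
        · by_cases hjl : j = l
          · subst hjl
            simp [hl]
          · simp [hj, hjl]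
      rw [← h1]
      exact h _ ih i l hil

theorem Cl2.neg (h : Cl2 X) {χ : Fin m → ℂ} (hχ : χ ∈ X) {l : Fin m} (hl : χ l = 0) : -χ ∈ X := by
  have h1 := h.all hχ hl Finset.univ
  have h2 : flF Finset.univ χ = -χ := by
    funext j
    simp [flF]
  rwa [h2] at h1

/-- The number of weights if there is one without vanishing coordinate. -/
theorem Cl2.card_ge (h : Cl2 X) (hfin : X.Finite) {χ : Fin m → ℂ} (hχ : χ ∈ X)
    (hne : ∀ i, χ i ≠ 0) (hm : 0 < m) : 2 ^ (m - 1) ≤ X.ncard := by
  classical
  let l : Fin m := ⟨0, hm⟩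
  have key : ∀ F : Finset (Fin m), l ∉ F → ∃ ψ ∈ X, ∀ i, i ≠ l → ψ i = flF F χ i := by
    intro F
    induction F using Finset.induction_on with
    | empty => intro _; exact ⟨χ, hχ, fun i _ => by rw [flF_empty]⟩
    | insert i F hi ih =>
      intro hl
      have hil : i ≠ l := fun h => hl (h ▸ Finset.mem_insert_self i F)
      obtain ⟨ψ, h1, h2⟩ := ih fun h => hl (Finset.mem_insert_of_mem h)
      refine ⟨flF {i, l} ψ, h ψ h1 i l hil, fun j hj => ?_⟩
      rw [← flF_ins hi]
      unfold flF
      have h3 := h2 j hj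
      unfold flF at h3
      by_cases hji : j = i
      · simp [hji] at h3 ⊢
        exact h3
      · simp [hji, hj] at h3 ⊢
        exact h3
  choose f hf1 hf2 using key
  let P : Finset (Finset (Fin m)) := (Finset.univ.erase l).powerset
  have hP : ∀ F ∈ P, l ∉ F := by
    intro F hF h
    exact (Finset.mem_erase.1 (Finset.mem_powerset.1 hF h)).1 rfl
  have hcard : P.card = 2 ^ (m - 1) := by
    rw [Finset.card_powerset, Finset.card_erase_of_mem (Finset.mem_univ _), Finset.card_univ,
      Fintype.card_fin]
  rw [← hcard, Set.ncard_eq_toFinset_card X hfin]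
  refine Finset.card_le_card_of_injOn (fun F => if hF : l ∉ F then f F hF else χ) ?_ ?_
  · intro F hF
    rw [Set.Finite.coe_toFinset]
    simp only [dif_pos (hP F hF)]
    exact hf1 F _
  · intro F hF F' hF' heq
    simp only [dif_pos (hP F hF), dif_pos (hP F' hF')] at heq
    have e1 : ∀ i, i ≠ l → flF F χ i = flF F' χ i := by
      intro i hi
      rw [← hf2 F (hP F hF) i hi, ← hf2 F' (hP F' hF') i hi, heq]
    ext i
    by_cases hi : i = l
    · rw [hi]
      exact ⟨fun h => absurd h (hP F hF), fun h => absurd h (hP F' hF')⟩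
    · have e2 := e1 i hi
      unfold flF at e2
      by_cases h1 : i ∈ F <;> by_cases h2 : i ∈ F'
      · exact ⟨fun _ => h2, fun _ => h1⟩
      · rw [if_pos h1, if_neg h2] at e2
        exact absurd (self_eq_neg.1 e2.symm) (hne i)
      · rw [if_neg h1, if_pos h2] at e2
        exact absurd (self_eq_neg.1 e2) (hne i)
      · exact ⟨fun h => absurd h h1, fun h => absurd h h2⟩

/-- The same if single signs may be changed. -/
theorem Cl1.card_ge (h : Cl1 X) (hfin : X.Finite) {χ : Fin m → ℂ} (hχ : χ ∈ X)
    (hne : ∀ i, χ i ≠ 0) : 2 ^ m ≤ X.ncard := by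
  classical
  have hcard : (Finset.univ : Finset (Finset (Fin m))).card = 2 ^ m := by
    rw [Finset.card_univ, Fintype.card_finset, Fintype.card_fin]
  rw [← hcard, Set.ncard_eq_toFinset_card X hfin]
  refine Finset.card_le_card_of_injOn (fun F => flF F χ) ?_ ?_
  · intro F _
    rw [Set.Finite.coe_toFinset]
    exact h.all hχ F
  · intro F _ F' _ heq
    ext i
    have e2 := congrFun heq i
    simp only [flF] at e2
    by_cases h1 : i ∈ F <;> by_cases h2 : i ∈ F'
    · exact ⟨fun _ => h2, fun _ => h1⟩
    · rw [if_pos h1, if_neg h2] at e2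
      exact absurd (self_eq_neg.1 e2.symm) (hne i)
    · rw [if_neg h1, if_pos h2] at e2
      exact absurd (self_eq_neg.1 e2) (hne i)
    · exact ⟨fun h => absurd h h1, fun h => absurd h h2⟩

/-- No weight without vanishing coordinate. -/
def Thin (X : Set (Fin m → ℂ)) : Prop := ∀ χ ∈ X, ∃ l, χ l = 0

/-- All coordinates occur. -/
def Occ (X : Set (Fin m → ℂ)) : Prop := ∀ i, ∃ χ ∈ X, χ i ≠ 0

theorem span_thin (h : Cl2 X) (ht : Thin X) (ho : Occ X) :
    Submodule.span ℂ (X \ {0}) = ⊤ := by
  classical
  rw [eq_top_iff, ← (Pi.basisFun ℂ (Fin m)).span_eq, Submodule.span_le]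
  rintro _ ⟨i, rfl⟩
  obtain ⟨χ, hχ, hi⟩ := ho i
  obtain ⟨l, hl⟩ := ht χ hχ
  have h1 := h.all hχ hl {i}
  have h0 : χ ≠ 0 := fun h => hi (by rw [h]; rfl)
  have h0' : flF {i} χ ≠ 0 := by
    intro h
    have h2 := congrFun h i
    simp [flF] at h2
    exact hi h2
  have h2 : (Pi.basisFun ℂ (Fin m)) i = (2 * χ i)⁻¹ • (χ - flF {i} χ) := by
    rw [Pi.basisFun_apply]
    funext j
    by_cases hj : j = i
    · subst hj
      simp [flF]
      field_simp
      ring
    · simp [flF, hj]
  rw [h2]
  exact Submodule.smul_mem _ _ (Submodule.sub_mem _ (Submodule.subset_span ⟨hχ, h0⟩)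
    (Submodule.subset_span ⟨h1, h0'⟩))

theorem thin_card (h : Cl2 X) (hfin : X.Finite) (ht : Thin X) (ho : Occ X) :
    2 * m ≤ (X \ {0}).ncard := by
  classical
  have hfin' : (X \ {0}).Finite := hfin.subset Set.sdiff_subset
  have h1 := two_fin_le _ hfin'.toFinset le_rfl (by simp) (by
    intro x hx
    rw [Set.Finite.mem_toFinset] at hx ⊢
    obtain ⟨l, hl⟩ := ht x hx.1
    exact ⟨h.neg hx.1 hl, fun h => hx.2 (neg_eq_zero.1 h)⟩)
  rw [Set.Finite.coe_toFinset, span_thin h ht ho, finrank_top, finrank_fin_fun] at h1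
  rwa [Set.ncard_eq_toFinset_card _ hfin']

/-- If two weights which are not opposite differ in one coordinate, there are more weights. -/
theorem thin_more (h : Cl2 X) (hfin : X.Finite) (ht : Thin X) (ho : Occ X) {χ : Fin m → ℂ}
    (hχ : χ ∈ X) {i : Fin m} (hi : χ i ≠ 0) {c : ℂ} (hc : c ≠ χ i) (hc' : c ≠ -χ i)
    (hψ : Function.update χ i c ∈ X) : 2 * m < X.ncard := by
  classical
  have hfin' : (X \ {0}).Finite := hfin.subset Set.sdiff_subset
  by_cases h0 : Function.update χ i c = 0
  · -- zero is a weight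
    rw [h0] at hψ
    have h1 := thin_card h hfin ht ho
    have h2 : (X \ {0}).ncard + 1 = X.ncard := Set.ncard_sdiff_singleton_add_one hψ hfin
    omega
  · obtain ⟨l, hl⟩ := ht χ hχ
    have hli : l ≠ i := fun h => hi (h ▸ hl)
    have h1 := h.all hχ hl {i}
    have hχ0 : χ ≠ 0 := fun h => hi (by rw [h]; rfl)
    have hχ0' : flF {i} χ ≠ 0 := by
      intro h
      have h2 := congrFun h i
      simp [flF] at h2
      exact hi h2
    have key := two_fin_le' (X := hfin'.toFinset) (x := Function.update χ i c) (by simp) (by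
      intro x hx
      rw [Set.Finite.mem_toFinset] at hx ⊢
      obtain ⟨l, hl⟩ := ht x hx.1
      exact ⟨h.neg hx.1 hl, fun h => hx.2 (neg_eq_zero.1 h)⟩)
      ((Set.Finite.mem_toFinset _).2 ⟨hψ, h0⟩) (by
        have e1 : Function.update χ i c =
            ((1 + c / χ i) / 2) • χ + ((1 - c / χ i) / 2) • flF {i} χ := by
          funext j
          by_cases hj : j = i
          · subst hj
            simp [flF]
            field_simp
            ring
          · simp [flF, hj]
            ring
        have e2 : ∀ ψ : Fin m → ℂ, ψ ∈ X → ψ ≠ 0 → ψ i ≠ c → ψ i ≠ -c →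
            ψ ∈ Submodule.span ℂ {y | y ∈ hfin'.toFinset ∧ y ≠ Function.update χ i c ∧
              y ≠ -Function.update χ i c} := by
          intro ψ h2 h3 h4 h5
          refine Submodule.subset_span ⟨(Set.Finite.mem_toFinset _).2 ⟨h2, h3⟩, ?_, ?_⟩
          · intro h6
            apply h4
            rw [h6]
            simp
          · intro h6
            apply h5
            rw [h6]
            simp
        have e3 := e2 χ hχ hχ0 hc.symm (fun h => hc' (by rw [h, neg_neg]))
        have e4 := e2 (flF {i} χ) h1 hχ0' (by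
          simp only [flF, Finset.mem_singleton, if_true]
          exact hc'.symm) (by
          simp only [flF, Finset.mem_singleton, if_true]
          exact fun h => hc.symm (neg_injective h))
        have e5 := Submodule.add_mem _ (Submodule.smul_mem _ ((1 + c / χ i) / 2) e3)
          (Submodule.smul_mem _ ((1 - c / χ i) / 2) e4)
        rwa [← e1] at e5)
    rw [Set.Finite.coe_toFinset, span_thin h ht ho, finrank_top, finrank_fin_fun] at key
    rw [← Set.ncard_eq_toFinset_card _ hfin'] at key
    have h2 : (X \ {0}).ncard ≤ X.ncard := Set.ncard_le_ncard Set.sdiff_subset hfin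
    omega

end Flips

end Pool.Agent.N192.GP
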