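import Pool.Agent.N192.GP.Split
import Pool.Agent.N192.GP.Inter

set_option autoImplicit false
set_option linter.unusedSectionVars false

/-!
# Linked and separated members of a family
-/

open Module Function TensorProduct

noncomputable section

namespace Pool.Agent.N192.GP

open Pool.Agent.Y102 Pool.Agent.W516.DR

/-- The Lie algebra `𝔤` has no proper ideals. -/
def NoIdeals {W : Type} [AddCommGroup W] [Module ℚ W] (𝔤 : Submodule ℚ (Module.End ℚ W)) : Prop :=
  ∀ I : Submodule ℚ (Module.End ℚ W), Idl I 𝔤 → I = ⊥ ∨ I = 𝔤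

variable {T : Type} [Fintype T] [DecidableEq T] {n : T → ℕ}
  (η : ∀ t, Basis (Fin (n t)) ℂ ((Fin (n t) → ℚ) →ₗ[ℚ] ℂ))

/-- The Lie algebra of a member of the family. -/
def gg (t : T) : Submodule ℚ (Module.End ℚ (Fin (n t) → ℚ)) := (LG η).map (pr t)

/-- The members `s` and `t` are linked. -/
def Linked (s t : T) : Prop := ∀ ℓ ∈ LG η, pr s ℓ = 0 ↔ pr t ℓ = 0

/-- The Lie algebra of `s` is separated from the member `t`. -/
def Sep (s t : T) : Prop := gg η s ≤ (LG η ⊓ at0 t).map (pr s)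

variable {η}

theorem Linked.refl (s : T) : Linked η s s := fun _ _ => Iff.rfl

theorem Linked.symm {s t : T} (h : Linked η s t) : Linked η t s := fun ℓ hℓ => (h ℓ hℓ).symm

theorem Linked.trans {s t u : T} (h : Linked η s t) (h' : Linked η t u) : Linked η s u :=
  fun ℓ hℓ => (h ℓ hℓ).trans (h' ℓ hℓ)

theorem gg_br (s : T) : Br (gg η s) := by
  rintro _ ⟨x, hx, rfl⟩ _ ⟨y, hy, rfl⟩
  exact ⟨x * y - y * x, LG_br η x hx y hy, pr_hm s (LG η) x hx y hy⟩

/-- The space of pairs. -/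
theorem qq_br {s t : T} : Br ((LG η).map (prq s t)) := by
  rintro _ ⟨x, hx, rfl⟩ _ ⟨y, hy, rfl⟩
  exact ⟨x * y - y * x, LG_br η x hx y hy,
    Prod.ext (pr_hm s (LG η) x hx y hy) (pr_hm t (LG η) x hx y hy)⟩

theorem qq_fst {s t : T} : ((LG η).map (prq s t)).map (LinearMap.fst ℚ _ _) = gg η s := by
  rw [← Submodule.map_comp]
  rfl

theorem qq_snd {s t : T} : ((LG η).map (prq s t)).map (LinearMap.snd ℚ _ _) = gg η t := by
  rw [← Submodule.map_comp]
  rfl

theorem Linked.inj {s t : T} (h : Linked η s t) {Y : Module.End ℚ (Fin (n t) → ℚ)}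
    (hY : ((0, Y) : Module.End ℚ (Fin (n s) → ℚ) × Module.End ℚ (Fin (n t) → ℚ)) ∈
      (LG η).map (prq s t)) : Y = 0 := by
  obtain ⟨ℓ, hℓ, h1⟩ := hY
  have e1 : pr s ℓ = 0 := congrArg Prod.fst h1
  have e2 : pr t ℓ = Y := congrArg Prod.snd h1
  rw [← e2]
  exact (h ℓ hℓ).1 e1

theorem Linked.inj' {s t : T} (h : Linked η s t) {X : Module.End ℚ (Fin (n s) → ℚ)}
    (hX : ((X, 0) : Module.End ℚ (Fin (n s) → ℚ) × Module.End ℚ (Fin (n t) → ℚ)) ∈
      (LG η).map (prq s t)) : X = 0 := by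
  obtain ⟨ℓ, hℓ, h1⟩ := hX
  have e1 : pr s ℓ = X := congrArg Prod.fst h1
  have e2 : pr t ℓ = 0 := congrArg Prod.snd h1
  rw [← e1]
  exact (h ℓ hℓ).2 e2

/-- Separation in terms of pairs. -/
theorem sep_of_pairs {s t : T} (hperf : gg η s ≤ brk (gg η s) (gg η s))
    (h : ∀ X ∈ gg η s, ((X, 0) : Module.End ℚ (Fin (n s) → ℚ) × Module.End ℚ (Fin (n t) → ℚ)) ∈
      (LG η).map (prq s t)) : Sep η s t := by
  have h1 : gg η s ≤ (LG η ⊓ LinearMap.ker (pr t)).map (pr s) := by
    intro X hX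
    obtain ⟨ℓ, hℓ, h1⟩ := h X hX
    exact ⟨ℓ, ⟨hℓ, congrArg Prod.snd h1⟩, congrArg Prod.fst h1⟩
  refine step (pr_hm s (LG η)) hperf inf_le_left inf_le_left h1 h1 fun x hx y hy => ?_
  refine ⟨LG_br η x hx.1 y hy.1, ?_⟩
  have e1 : pr t (x * y - y * x) = 0 := by
    rw [pr_hm t (LG η) x hx.1 y hy.1, LinearMap.mem_ker.1 hx.2, LinearMap.mem_ker.1 hy.2, mul_zero,
      sub_zero]
  rw [pr_apply, br_snd, zero_div, zero_smul, sub_zero] at e1
  exact e1

/-- Two members with simple Lie algebras are linked or separated. -/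
theorem link_or_sep {s t : T} (hs : NoIdeals (gg η s)) (ht : NoIdeals (gg η t))
    (hperf : gg η s ≤ brk (gg η s) (gg η s)) : Linked η s t ∨ Sep η s t := by
  obtain ⟨𝔮, h𝔮⟩ : ∃ 𝔮, 𝔮 = (LG η).map (prq s t) := ⟨_, rfl⟩
  have hbr : Br 𝔮 := h𝔮 ▸ qq_br
  have hfst : 𝔮.map (LinearMap.fst ℚ _ _) = gg η s := h𝔮 ▸ qq_fst
  have hsnd : 𝔮.map (LinearMap.snd ℚ _ _) = gg η t := h𝔮 ▸ qq_snd
  let I : Submodule ℚ (Module.End ℚ (Fin (n s) → ℚ)) :=
    (𝔮 ⊓ LinearMap.ker (LinearMap.snd ℚ _ _)).map (LinearMap.fst ℚ _ _)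
  let J : Submodule ℚ (Module.End ℚ (Fin (n t) → ℚ)) :=
    (𝔮 ⊓ LinearMap.ker (LinearMap.fst ℚ _ _)).map (LinearMap.snd ℚ _ _)
  have hI : ∀ X, X ∈ I ↔ (X, 0) ∈ 𝔮 := by
    intro X
    constructor
    · rintro ⟨⟨X', Y⟩, ⟨hp, h0⟩, rfl⟩
      have : Y = 0 := h0
      subst this
      exact hp
    · intro hp
      exact ⟨(X, 0), ⟨hp, rfl⟩, rfl⟩
  have hJ : ∀ Y, Y ∈ J ↔ (0, Y) ∈ 𝔮 := by
    intro Y
    constructor
    · rintro ⟨⟨X, Y'⟩, ⟨hp, h0⟩, rfl⟩
      have : X = 0 := h0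
      subst this
      exact hp
    · intro hp
      exact ⟨(0, Y), ⟨hp, rfl⟩, rfl⟩
  have hIi : Idl I (gg η s) := by
    refine ⟨fun X hX => ?_, fun W hW X hX => ?_⟩
    · rw [← hfst]
      exact ⟨_, (hI X).1 hX, rfl⟩
    · rw [← hfst] at hW
      obtain ⟨⟨W, V⟩, hp, rfl⟩ := hW
      refine (hI _).2 ?_
      have h1 := hbr _ hp _ ((hI X).1 hX)
      have h2 : ((W, V) : Module.End ℚ (Fin (n s) → ℚ) × Module.End ℚ (Fin (n t) → ℚ)) * (X, 0) -
          (X, 0) * (W, V) = (W * X - X * W, 0) := by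
        refine Prod.ext rfl ?_
        change V * 0 - 0 * V = 0
        rw [mul_zero, zero_mul, sub_zero]
      rw [h2] at h1
      exact h1
  have hJi : Idl J (gg η t) := by
    refine ⟨fun Y hY => ?_, fun W hW Y hY => ?_⟩
    · rw [← hsnd]
      exact ⟨_, (hJ Y).1 hY, rfl⟩
    · rw [← hsnd] at hW
      obtain ⟨⟨V, W⟩, hp, rfl⟩ := hW
      refine (hJ _).2 ?_
      have h1 := hbr _ hp _ ((hJ Y).1 hY)
      have h2 : ((V, W) : Module.End ℚ (Fin (n s) → ℚ) × Module.End ℚ (Fin (n t) → ℚ)) * (0, Y) -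
          (0, Y) * (V, W) = (0, W * Y - Y * W) := by
        refine Prod.ext ?_ rfl
        change V * 0 - 0 * V = 0
        rw [mul_zero, zero_mul, sub_zero]
      rw [h2] at h1
      exact h1
  by_cases hIg : I = gg η s
  · right
    refine sep_of_pairs hperf fun X hX => ?_
    rw [← h𝔮, ← hI, hIg]
    exact hX
  left
  have hI0 : I = ⊥ := (hs I hIi).resolve_right hIg
  have hJ0 : J = ⊥ := by
    refine (ht J hJi).resolve_right fun hJg => hIg ?_
    refine le_antisymm hIi.1 fun X hX => ?_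
    rw [← hfst] at hX
    obtain ⟨⟨X, Y⟩, hp, rfl⟩ := hX
    have h1 : Y ∈ J := by
      rw [hJg, ← hsnd]
      exact ⟨_, hp, rfl⟩
    have h2 := 𝔮.sub_mem hp ((hJ Y).1 h1)
    have h3 : ((X, Y) : Module.End ℚ (Fin (n s) → ℚ) × Module.End ℚ (Fin (n t) → ℚ)) - (0, Y) =
        (X, 0) := Prod.ext (sub_zero X) (sub_self Y)
    rw [h3] at h2
    exact (hI X).2 h2
  intro ℓ hℓ
  have hp : (pr s ℓ, pr t ℓ) ∈ 𝔮 := h𝔮 ▸ ⟨ℓ, hℓ, rfl⟩
  constructor
  · intro h0
    rw [h0] at hp
    have h1 := (hJ _).2 hp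
    rw [hJ0] at h1
    exact (Submodule.mem_bot ℚ).1 h1
  · intro h0
    rw [h0] at hp
    have h1 := (hI _).2 hp
    rw [hI0] at h1
    exact (Submodule.mem_bot ℚ).1 h1

variable {a : T → Prop} [DecidablePred a]

/-- **Families of endomorphisms which are compatible with the links are in the Lie algebra.** -/
theorem compat_mem (hperf : ∀ s, a s → gg η s ≤ brk (gg η s) (gg η s))
    (h1 : ∀ s t, a s → a t → Linked η s t ∨ Sep η s t) (h2 : ∀ s t, a s → ¬a t → Sep η s t)
    {X : ∀ t, Module.End ℚ (Fin (n t) → ℚ)} (hX0 : ∀ t, ¬a t → X t = 0)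
    (hX : ∀ t, a t → X t ∈ gg η t)
    (hXl : ∀ s t, a s → a t → Linked η s t → (X s, X t) ∈ (LG η).map (prq s t)) :
    ((X, 0) : RR n) ∈ LG η := by
  classical
  -- the elements for one member
  have key : ∀ s, a s → ∃ ℓ ∈ LG η, ℓ.2 = 0 ∧ ∀ t, ℓ.1 t =
      if a t ∧ Linked η s t then X t else 0 := by
    intro s hs
    let 𝔫 : Option T → Submodule ℚ (RR n) := fun t => match t with
      | none => LG η ⊓ tw0
      | some t => if a t ∧ Linked η s t then LG η else LG η ⊓ at0 t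
    have hn : ∀ t, Idl (𝔫 t) (LG η) := by
      intro t
      cases t with
      | none => exact idl_tw0 η
      | some t =>
        simp only [𝔫]
        split_ifs with h3
        · exact ⟨le_rfl, fun x hx y hy => LG_br η x hx y hy⟩
        · exact idl_at0 η t
    obtain ⟨ℓ, hℓ, hℓX⟩ := ribet (pr_hm s (LG η)) (hperf s hs) le_rfl hn Finset.univ (fun t _ => by
      cases t with
      | none => exact sep_tw0 rfl (hperf s hs)
      | some t =>
        simp only [𝔫]
        split_ifs with h3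
        · exact le_rfl
        · by_cases ht : a t
          · exact (h1 s t hs ht).resolve_left fun h4 => h3 ⟨ht, h4⟩
          · exact h2 s t hs ht) (hX s hs)
    have h3 : ∀ t, ℓ ∈ 𝔫 t := fun t =>
      (Submodule.mem_iInf _).1 ((Submodule.mem_iInf _).1 hℓ.2 t) (Finset.mem_univ t)
    have h4 : ℓ.2 = 0 := (h3 none).2
    have h5 : ∀ t, pr t ℓ = ℓ.1 t := by
      intro t
      rw [pr_apply, h4, zero_div, zero_smul, sub_zero]
    refine ⟨ℓ, hℓ.1, h4, fun t => ?_⟩
    split_ifs with h6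
    · have g1 := hXl s t hs h6.1 h6.2
      have g2 : (pr s ℓ, pr t ℓ) ∈ (LG η).map (prq s t) := ⟨ℓ, hℓ.1, rfl⟩
      have g3 := Submodule.sub_mem _ g1 g2
      have g4 : ((X s, X t) : Module.End ℚ (Fin (n s) → ℚ) × Module.End ℚ (Fin (n t) → ℚ)) -
          (pr s ℓ, pr t ℓ) = (0, X t - ℓ.1 t) := by
        refine Prod.ext ?_ ?_
        · change X s - pr s ℓ = 0
          rw [hℓX, sub_self]
        · change X t - pr t ℓ = X t - ℓ.1 t
          rw [h5]
      rw [g4] at g3
      exact (sub_eq_zero.1 (h6.2.inj g3)).symm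
    · have g1 := h3 (some t)
      simp only [𝔫, if_neg h6] at g1
      exact g1.2
  choose! ℓ hℓ hℓ2 hℓ1 using key
  let w : T → ℚ := fun s => ((Finset.univ.filter fun t => a t ∧ Linked η s t).card : ℚ)⁻¹
  have h3 : ((X, 0) : RR n) = ∑ s ∈ Finset.univ.filter a, w s • ℓ s := by
    refine Prod.ext (funext fun t => ?_) ?_
    · rw [Prod.fst_sum, Finset.sum_apply]
      change X t = _
      by_cases ht : a t
      · have h4 : ∀ s ∈ Finset.univ.filter a, (w s • ℓ s).1 t =
            if Linked η t s then w t • X t else 0 := by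
          intro s hs
          have hs' := (Finset.mem_filter.1 hs).2
          rw [Prod.smul_fst, Pi.smul_apply, hℓ1 s hs' t]
          by_cases h5 : Linked η t s
          · rw [if_pos ⟨ht, h5.symm⟩, if_pos h5]
            have h6 : w s = w t := by
              simp only [w]
              congr 3
              ext u
              rw [Finset.mem_filter, Finset.mem_filter]
              simp only [Finset.mem_univ, true_and]
              exact ⟨fun h7 => ⟨h7.1, h5.trans h7.2⟩, fun h7 => ⟨h7.1, h5.symm.trans h7.2⟩⟩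
            rw [h6]
          · rw [if_neg fun h6 => h5 h6.2.symm, if_neg h5, smul_zero]
        rw [Finset.sum_congr rfl h4, Finset.sum_ite, Finset.sum_const_zero, add_zero,
          Finset.sum_const, Finset.filter_filter]
        rw [← Nat.cast_smul_eq_nsmul ℚ, smul_smul]
        have h5 : ((Finset.univ.filter fun s => a s ∧ Linked η t s).card : ℚ) ≠ 0 := by
          have : 0 < (Finset.univ.filter fun s => a s ∧ Linked η t s).card :=
            Finset.card_pos.2 ⟨t, Finset.mem_filter.2 ⟨Finset.mem_univ t, ht, Linked.refl t⟩⟩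
          exact_mod_cast this.ne'
        simp only [w]
        rw [mul_inv_cancel₀ h5, one_smul]
      · rw [hX0 t ht]
        refine (Finset.sum_eq_zero fun s hs => ?_).symm
        have hs' := (Finset.mem_filter.1 hs).2
        rw [Prod.smul_fst, Pi.smul_apply, hℓ1 s hs' t, if_neg fun h5 => ht h5.1, smul_zero]
    · rw [Prod.snd_sum]
      refine (Finset.sum_eq_zero fun s hs => ?_).symm
      rw [Prod.smul_snd, hℓ2 s (Finset.mem_filter.1 hs).2, smul_zero]
  rw [h3]
  exact Submodule.sum_mem _ fun s hs => Submodule.smul_mem _ _ (hℓ s (Finset.mem_filter.1 hs).2)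

end Pool.Agent.N192.GP
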