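import Pool.Agent.N192.GP.LieC

set_option autoImplicit false
set_option linter.unusedSectionVars false
set_option linter.unusedVariables false

/-!
# Representations of Lie algebras with orthogonal quotients: the general case
-/

open Module LieModule

noncomputable section

namespace Pool.Agent.N192.GP

attribute [local instance 100] LieRing.ofAssociativeRing

variable {L : Type*} [LieRing L] [LieAlgebra ℂ L] [FiniteDimensional ℂ L]
  {U : Type*} [AddCommGroup U] [Module ℂ U] {σ : Type*} [DecidableEq σ] {r : ℕ}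
  {q : σ → L →ₗ[ℂ] End ℂ U} {Z : σ → ℕ → ℕ → End ℂ U}

theorem Dat.mono {S S' : Finset σ} (D : Dat r S q Z) (h : S' ⊆ S) : Dat r S' q Z where
  lie s hs := D.lie s (h hs)
  rel s hs := D.rel s (h hs)
  mem s hs := D.mem s (h hs)
  surj s hs a b ha hb hab := by
    obtain ⟨x, h1, h2⟩ := D.surj s (h hs) a b ha hb hab
    exact ⟨x, h1, fun t ht => h2 t (h ht)⟩
  simple s hs := D.simple s (h hs)
  ne s hs := D.ne s (h hs)

theorem sp_perfect {Z : ℕ → ℕ → End ℂ U} (h : SoRel r Z) (hr : 3 ≤ r) {J : Submodule ℂ (End ℂ U)}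
    (hJ : ∀ x ∈ sp r Z, ∀ y ∈ sp r Z, x * y - y * x ∈ J) : sp r Z ≤ J := by
  unfold sp
  rw [Submodule.span_le]
  rintro _ ⟨a, b, ha, hb, hab, rfl⟩
  obtain ⟨c, hc, hca, hcb⟩ : ∃ c, c < r ∧ c ≠ a ∧ c ≠ b := by
    by_contra hcon
    push Not at hcon
    have h1 := hcon 0 (by omega)
    have h2 := hcon 1 (by omega)
    have h3 := hcon 2 (by omega)
    omega
  have h1 := hJ _ (mem_sp ha hc hca.symm) _ (mem_sp hc hb hcb)
  rw [h.br a c b ha hc hb hca.symm hcb hab] at h1
  have h2 := J.smul_mem (2⁻¹ : ℂ) h1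
  rwa [smul_smul, inv_mul_cancel₀ two_ne_zero, one_smul] at h2

/-- The irreducible case. -/
theorem irr' {S : Finset σ} (h6 : 6 ≤ r) {M : Type*} [AddCommGroup M] [Module ℂ M]
    [LieRingModule L M] [LieModule ℂ L M] [FiniteDimensional ℂ M] [Nontrivial M]
    (hirr : ∀ N : LieSubmodule ℂ L M, N ≠ ⊥ → N = ⊤) (D : Dat r S q Z)
    (hker : ∀ x : L, (∀ m : M, ⁅x, m⁆ = 0) → ∀ s ∈ S, q s x = 0) :
    S.card * beta r ≤ finrank ℂ M := by
  let L' : LieSubalgebra ℂ (End ℂ M) := (toEnd ℂ L M).range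
  have hmem : ∀ x : L, toEnd ℂ L M x ∈ L' := fun x => ⟨x, rfl⟩
  -- the irreducibility
  have hirr' : IsIrreducible ℂ L' M := by
    refine IsIrreducible.mk fun N hN => ?_
    let N' : LieSubmodule ℂ L M :=
      { (N : Submodule ℂ M) with
        lie_mem := by
          intro x m hm
          have h1 : ⁅(⟨toEnd ℂ L M x, hmem x⟩ : L'), m⁆ ∈ N := N.lie_mem hm
          exact h1 }
    have h1 : N' ≠ ⊥ := by
      intro h
      apply hN
      rw [LieSubmodule.eq_bot_iff] at h ⊢
      exact fun m hm => h m hm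
    have h2 := hirr N' h1
    refine LieSubmodule.toSubmodule_injective (Submodule.ext fun m => ⟨fun _ => trivial, fun _ => ?_⟩)
    have h3 : m ∈ N' := by rw [h2]; exact LieSubmodule.mem_top m
    exact h3
  -- a linear section
  obtain ⟨τ, hτ⟩ : ∃ τ : L' →ₗ[ℂ] L, ∀ y : L', toEnd ℂ L M (τ y) = y := by
    have h1 : Function.Surjective ((toEnd ℂ L M : L →ₗ[ℂ] End ℂ M).rangeRestrict) :=
      LinearMap.surjective_rangeRestrict _
    obtain ⟨g, hg⟩ := LinearMap.exists_rightInverse_of_surjective _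
      (LinearMap.range_eq_top.2 h1)
    refine ⟨g, fun y => ?_⟩
    have h2 := congrArg Subtype.val (LinearMap.congr_fun hg y)
    exact h2
  have hker' : ∀ x y : L, toEnd ℂ L M x = toEnd ℂ L M y → ∀ s ∈ S, q s x = q s y := by
    intro x y hxy s hs
    have h1 := hker (x - y) (fun m => by
      have h2 : ⁅x - y, m⁆ = toEnd ℂ L M x m - toEnd ℂ L M y m := sub_lie x y m
      rw [h2, hxy, sub_self]) s hs
    rw [map_sub] at h1
    exact sub_eq_zero.1 h1
  have D' : Dat r S (fun s => q s ∘ₗ τ) Z := by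
    refine ⟨fun s hs x y => ?_, D.rel, fun s hs x => D.mem s hs _,
      fun s hs a b ha hb hab => ?_, D.simple, D.ne⟩
    · have h1 : toEnd ℂ L M (τ ⁅x, y⁆) = toEnd ℂ L M ⁅τ x, τ y⁆ := by
        rw [hτ, LieHom.map_lie, hτ, hτ]
        rfl
      change q s (τ ⁅x, y⁆) = _
      rw [hker' _ _ h1 s hs, D.lie s hs]
      rfl
    · obtain ⟨x, h1, h2⟩ := D.surj s hs a b ha hb hab
      have h3 : toEnd ℂ L M (τ ⟨toEnd ℂ L M x, hmem x⟩) = toEnd ℂ L M x := hτ _
      refine ⟨⟨toEnd ℂ L M x, hmem x⟩, ?_, fun t ht hts => ?_⟩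
      · change q s (τ _) = _
        rw [hker' _ _ h3 s hs, h1]
      · change q t (τ _) = _
        rw [hker' _ _ h3 t ht, h2 t ht hts]
  exact irr (L := L') h6 D'

/-- **The dimension of a representation `M` of a Lie algebra `L` with `n` orthogonal quotients of rank
`r`, the kernels of which contain the kernel of `M`, is at least `n beta r`.** -/
theorem dat_dim (h6 : 6 ≤ r) (n : ℕ) : ∀ {M : Type _} [AddCommGroup M] [Module ℂ M]
    [LieRingModule L M] [LieModule ℂ L M] [FiniteDimensional ℂ M] {S : Finset σ},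
    finrank ℂ M ≤ n → Dat r S q Z →
    (∀ x : L, (∀ m : M, ⁅x, m⁆ = 0) → ∀ s ∈ S, q s x = 0) →
    S.card * beta r ≤ finrank ℂ M := by
  classical
  induction n with
  | zero =>
    intro M _ _ _ _ _ S hn D hker
    rcases S.eq_empty_or_nonempty with rfl | ⟨s, hs⟩
    · simp
    exfalso
    have hs0 : Subsingleton M := finrank_zero_iff.1 (Nat.le_zero.1 hn)
    obtain ⟨x, h1, -⟩ := D.surj s hs 0 1 (by omega) (by omega) (by omega)
    have h2 := hker x (fun m => Subsingleton.elim _ _) s hs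
    exact D.ne s hs (h1.symm.trans h2)
  | succ n ih =>
    intro M _ _ _ _ _ S hn D hker
    rcases S.eq_empty_or_nonempty with rfl | ⟨s₀, hs₀⟩
    · simp
    by_cases hirr : ∀ N : LieSubmodule ℂ L M, N ≠ ⊥ → N = ⊤
    · have : Nontrivial M := by
        by_contra hs0
        rw [not_nontrivial_iff_subsingleton] at hs0
        obtain ⟨x, h1, -⟩ := D.surj s₀ hs₀ 0 1 (by omega) (by omega) (by omega)
        have h2 := hker x (fun m => Subsingleton.elim _ _) s₀ hs₀
        exact D.ne s₀ hs₀ (h1.symm.trans h2)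
      exact irr' h6 hirr D hker
    push Not at hirr
    obtain ⟨N, hN0, hN1⟩ := hirr
    have hfr : finrank ℂ (M ⧸ N) + finrank ℂ N = finrank ℂ M :=
      Submodule.finrank_quotient_add_finrank (N : Submodule ℂ M)
    have hN0' : (N : Submodule ℂ M) ≠ ⊥ := fun h => hN0 (by
      rw [LieSubmodule.eq_bot_iff]
      intro m hm
      have : m ∈ (N : Submodule ℂ M) := hm
      rw [h] at this
      exact (Submodule.mem_bot ℂ).1 this)
    have hN1' : (N : Submodule ℂ M) ≠ ⊤ := fun h => hN1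
      (LieSubmodule.toSubmodule_injective h)
    have hlt1 : finrank ℂ N < finrank ℂ M := Submodule.finrank_lt hN1'
    have hpos : 0 < finrank ℂ N := by
      have : Nontrivial (N : Submodule ℂ M) := (Submodule.nontrivial_iff_ne_bot).2 hN0'
      exact finrank_pos (R := ℂ) (M := (N : Submodule ℂ M))
    have hk1 : ∀ x : L, (∀ m : N, ⁅x, m⁆ = 0) ↔ ∀ m ∈ N, ⁅x, m⁆ = 0 := by
      intro x
      constructor
      · intro h m hm
        exact congrArg Subtype.val (h ⟨m, hm⟩)
      · intro h m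
        exact Subtype.ext (h m.1 m.2)
    have hk2 : ∀ x : L, (∀ m : M ⧸ N, ⁅x, m⁆ = 0) ↔ ∀ m : M, ⁅x, m⁆ ∈ N := by
      intro x
      constructor
      · intro h m
        have h1 : (LieSubmodule.Quotient.mk ⁅x, m⁆ : M ⧸ N) = 0 := h (LieSubmodule.Quotient.mk m)
        exact (LieSubmodule.Quotient.mk_eq_zero').1 h1
      · intro h m
        induction m using Quotient.inductionOn' with
        | h m => 
          have h1 : (LieSubmodule.Quotient.mk ⁅x, m⁆ : M ⧸ N) = 0 :=
            (LieSubmodule.Quotient.mk_eq_zero').2 (h m)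
          exact h1
    let S₁ := S.filter fun s => ∀ x : L, (∀ m : N, ⁅x, m⁆ = 0) → q s x = 0
    let S₂ := S.filter fun s => ∀ x : L, (∀ m : M ⧸ N, ⁅x, m⁆ = 0) → q s x = 0
    have i1 := ih (M := N) (S := S₁) (by omega) (D.mono (Finset.filter_subset _ _))
      fun x hx s hs => (Finset.mem_filter.1 hs).2 x hx
    have i2 := ih (M := M ⧸ N) (S := S₂) (by omega) (D.mono (Finset.filter_subset _ _))
      fun x hx s hs => (Finset.mem_filter.1 hs).2 x hx
    have hcov : S ⊆ S₁ ∪ S₂ := by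
      intro s hs
      by_contra hcon
      rw [Finset.mem_union, not_or] at hcon
      have h1 : ¬∀ x : L, (∀ m : N, ⁅x, m⁆ = 0) → q s x = 0 := fun h =>
        hcon.1 (Finset.mem_filter.2 ⟨hs, h⟩)
      have h2 : ¬∀ x : L, (∀ m : M ⧸ N, ⁅x, m⁆ = 0) → q s x = 0 := fun h =>
        hcon.2 (Finset.mem_filter.2 ⟨hs, h⟩)
      push Not at h1 h2
      obtain ⟨x₁, h1, h1'⟩ := h1
      obtain ⟨x₂, h2, h2'⟩ := h2
      rw [hk1] at h1
      rw [hk2] at h2
      let I₁ : Submodule ℂ L :=
        { carrier := {x | ∀ m ∈ N, ⁅x, m⁆ = 0}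
          zero_mem' := fun m _ => zero_lie m
          add_mem' := fun {a b} ha hb m hm => by rw [add_lie, ha m hm, hb m hm, add_zero]
          smul_mem' := fun c a ha m hm => by rw [smul_lie, ha m hm, smul_zero] }
      let I₂ : Submodule ℂ L :=
        { carrier := {x | ∀ m : M, ⁅x, m⁆ ∈ N}
          zero_mem' := fun m => by rw [zero_lie]; exact N.zero_mem
          add_mem' := fun {a b} ha hb m => by rw [add_lie]; exact N.add_mem (ha m) (hb m)
          smul_mem' := fun c a ha m => by rw [smul_lie]; exact N.smul_mem c (ha m) }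
      have hI₁ : ∀ z : L, ∀ x ∈ I₁, ⁅z, x⁆ ∈ I₁ := by
        intro z x hx m hm
        rw [lie_lie, hx m hm, hx _ (N.lie_mem hm), lie_zero, sub_zero]
      have hI₂ : ∀ z : L, ∀ x ∈ I₂, ⁅z, x⁆ ∈ I₂ := by
        intro z x hx m
        rw [lie_lie]
        exact N.sub_mem (N.lie_mem (hx m)) (hx _)
      -- every element is a value
      have hsur : ∀ z ∈ sp r (Z s), ∃ x : L, q s x = z := by
        intro z hz
        have h3 : sp r (Z s) ≤ (⊤ : Submodule ℂ L).map (q s) := by
          unfold sp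
          rw [Submodule.span_le]
          rintro _ ⟨a, b, ha, hb, hab, rfl⟩
          obtain ⟨x, hx, -⟩ := D.surj s hs a b ha hb hab
          exact ⟨x, trivial, hx⟩
        obtain ⟨x, -, hx⟩ := h3 hz
        exact ⟨x, hx⟩
      have hfull : ∀ I : Submodule ℂ L, (∀ z : L, ∀ x ∈ I, ⁅z, x⁆ ∈ I) →
          (∃ x ∈ I, q s x ≠ 0) → sp r (Z s) ≤ I.map (q s) := by
        rintro I hI ⟨x, hx, hx0⟩
        rcases D.simple s hs (I.map (q s)) (by
          rintro _ ⟨y, -, rfl⟩
          exact D.mem s hs y) (by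
          rintro z hz _ ⟨y, hy, rfl⟩
          obtain ⟨w, rfl⟩ := hsur z hz
          exact ⟨⁅w, y⁆, hI w y hy, D.lie s hs w y⟩) with h3 | h3
        · exfalso
          have h4 : q s x ∈ I.map (q s) := ⟨x, hx, rfl⟩
          rw [h3] at h4
          exact hx0 ((Submodule.mem_bot ℂ).1 h4)
        · exact h3.ge
      have hf1 := hfull I₁ hI₁ ⟨x₁, h1, h1'⟩
      have hf2 := hfull I₂ hI₂ ⟨x₂, h2, h2'⟩
      have hf0 : sp r (Z s) ≤ (I₁ ⊓ I₂).map (q s) := by
        refine sp_perfect (D.rel s hs) (by omega) fun z hz w hw => ?_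
        obtain ⟨x, hx, rfl⟩ := hf1 hz
        obtain ⟨y, hy, rfl⟩ := hf2 hw
        refine ⟨⁅x, y⁆, ⟨?_, hI₂ x y hy⟩, D.lie s hs x y⟩
        rw [← lie_skew]
        exact I₁.neg_mem (hI₁ y x hx)
      have hf00 : sp r (Z s) ≤ ⊥ := by
        refine sp_perfect (D.rel s hs) (by omega) fun z hz w hw => ?_
        obtain ⟨x, hx, rfl⟩ := hf0 hz
        obtain ⟨y, hy, rfl⟩ := hf0 hw
        rw [← D.lie s hs, Submodule.mem_bot]
        refine hker _ (fun m => ?_) s hs
        rw [lie_lie, hx.1 _ (hy.2 m), hy.1 _ (hx.2 m), sub_zero]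
      have h3 := hf00 (mem_sp (r := r) (Z := Z s) (a := 0) (b := 1) (by omega) (by omega)
        (by omega))
      exact D.ne s hs ((Submodule.mem_bot ℂ).1 h3)
    have hcard : S.card ≤ S₁.card + S₂.card :=
      (Finset.card_le_card hcov).trans (Finset.card_union_le _ _)
    calc S.card * beta r ≤ (S₁.card + S₂.card) * beta r := Nat.mul_le_mul_right _ hcard
      _ = S₁.card * beta r + S₂.card * beta r := add_mul _ _ _
      _ ≤ finrank ℂ N + finrank ℂ (M ⧸ N) := Nat.add_le_add i1 i2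
      _ = finrank ℂ M := by rw [← hfr, add_comm]

end Pool.Agent.N192.GP
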