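import Pool.Agent.N192.GP.SepF
import Pool.Agent.N192.GP.LieD

set_option autoImplicit false
set_option linter.unusedSectionVars false
set_option linter.unusedVariables false

/-!
# Structures of small dimension
-/

open Module Function TensorProduct

noncomputable section

namespace Pool.Agent.N192.GP

open Pool.Agent.Y102 Pool.Agent.W516.DR Pool.Agent.H204R3.GP Pool.Agent.W516.KC
  Pool.Agent.H204R3.SP

attribute [local instance 100] LieRing.ofAssociativeRing

/-- The Lie algebra `𝔤` is of spin type, with `k` colours, of rank `r`. -/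
def SpinK {W : Type} [AddCommGroup W] [Module ℚ W] [FiniteDimensional ℚ W]
    (𝔤 : Submodule ℚ (Module.End ℚ W)) (k r : ℕ) : Prop :=
  ∃ (N : ℕ) (E : Fin N → Module.End ℂ (ℂ ⊗[ℚ] W)) (c : Fin N → Fin k), SP.CE E ∧
    (∀ s, (Finset.univ.filter fun j => c j = s).card = r) ∧ cx 𝔤 = SP.soC E c

theorem SpinK.spin {W : Type} [AddCommGroup W] [Module ℚ W] [FiniteDimensional ℚ W]
    {𝔤 : Submodule ℚ (Module.End ℚ W)} {k r : ℕ} (h : SpinK 𝔤 k r) : Spin 𝔤 r := by
  obtain ⟨N, E, c, h⟩ := h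
  exact ⟨N, k, E, c, h⟩

section Abs

variable {U₁ U₂ : Type} [AddCommGroup U₁] [Module ℂ U₁] [FiniteDimensional ℂ U₁] [Nontrivial U₁]
  [AddCommGroup U₂] [Module ℂ U₂] [FiniteDimensional ℂ U₂]

/-- The subfamily of one colour. -/
theorem exists_enumZ {N k r : ℕ} {E : Fin N → Module.End ℂ U₁} {c : Fin N → Fin k} (hE : SP.CE E)
    (s : Fin k) (hs : (Finset.univ.filter fun j => c j = s).card = r) :
    ∃ Z : ℕ → ℕ → Module.End ℂ U₁, SoRel r Z ∧ sp r Z = SP.soS E c s ∧
      (∀ a b, a < r → b < r → a ≠ b → Z a b ≠ 0) := by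
  classical
  set F := Finset.univ.filter fun j => c j = s with hF
  let e : F ≃ Fin r := F.equivFinOfCardEq hs
  have hmem : ∀ a : F, c a.1 = s := fun a => (Finset.mem_filter.1 a.2).2
  let f : ℕ → Module.End ℂ U₁ := fun a => if h : a < r then E (e.symm ⟨a, h⟩).1 else 0
  have hf : ∀ a (h : a < r), f a = E (e.symm ⟨a, h⟩).1 := fun a h => dif_pos h
  have hsq : ∀ a, a < r → f a * f a = 1 := by
    intro a ha
    rw [hf a ha]
    exact hE.sq _
  have hanti : ∀ a b, a < r → b < r → a ≠ b → f a * f b = -(f b * f a) := by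
    intro a b ha hb hab
    rw [hf a ha, hf b hb]
    refine hE.anti _ _ fun h => hab ?_
    have h1 := e.symm.injective (Subtype.ext h)
    exact congrArg Fin.val h1
  refine ⟨fun a b => f a * f b, ⟨hanti, fun a b c ha hb hc hab hbc hac => ?_,
    fun a b c d ha hb hc hd hab hcd hac had hbc hbd => ?_⟩, ?_, fun a b ha hb hab h => ?_⟩
  · -- the bracket
    have e1 : f a * f b * (f b * f c) = f a * f c := by
      rw [mul_assoc, ← mul_assoc (f b) (f b), hsq b hb, one_mul]
    have e2 : f b * f c * (f a * f b) = -(f a * f c) := by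
      calc f b * f c * (f a * f b) = f b * f c * -(f b * f a) := by rw [hanti a b ha hb hab]
        _ = -(f b * (f c * f b) * f a) := by rw [mul_neg]; noncomm_ring
        _ = -(f b * -(f b * f c) * f a) := by rw [hanti c b hc hb hbc.symm]
        _ = f b * f b * (f c * f a) := by noncomm_ring
        _ = -(f a * f c) := by rw [hsq b hb, one_mul, hanti c a hc ha hac.symm]
    change f a * f b * (f b * f c) - f b * f c * (f a * f b) = (2 : ℂ) • (f a * f c)
    rw [e1, e2, sub_neg_eq_add, two_smul]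
  · change f a * f b * (f c * f d) = f c * f d * (f a * f b)
    calc f a * f b * (f c * f d) = f a * (f b * f c) * f d := by noncomm_ring
      _ = -(f a * f c * (f b * f d)) := by rw [hanti b c hb hc hbc]; noncomm_ring
      _ = -(f c * (f a * f d) * f b) := by
        rw [hanti a c ha hc hac, hanti b d hb hd hbd]
        noncomm_ring
      _ = f c * f d * (f a * f b) := by
        rw [hanti a d ha hd had]
        noncomm_ring
  · refine le_antisymm (Submodule.span_mono ?_) (Submodule.span_mono ?_)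
    · rintro _ ⟨a, b, ha, hb, hab, rfl⟩
      refine ⟨(e.symm ⟨a, ha⟩).1, (e.symm ⟨b, hb⟩).1, fun h => hab ?_, hmem _, hmem _, ?_⟩
      · have h1 := e.symm.injective (Subtype.ext h)
        exact congrArg Fin.val h1
      · rw [← hf a ha, ← hf b hb]
    · rintro _ ⟨i, j, hij, hi, hj, rfl⟩
      have mi : i ∈ F := Finset.mem_filter.2 ⟨Finset.mem_univ _, hi⟩
      have mj : j ∈ F := Finset.mem_filter.2 ⟨Finset.mem_univ _, hj⟩
      refine ⟨(e ⟨i, mi⟩).1, (e ⟨j, mj⟩).1, (e ⟨i, mi⟩).2, (e ⟨j, mj⟩).2, fun h => ?_, ?_⟩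
      · exact hij (congrArg Subtype.val (e.injective (Fin.ext h)))
      · change E i * E j = f _ * f _
        rw [hf _ (e ⟨i, mi⟩).2, hf _ (e ⟨j, mj⟩).2]
        simp
  · have h1 : f a * f b * (f a * f b) = -1 := by
      calc f a * f b * (f a * f b) = f a * (f b * f a) * f b := by noncomm_ring
        _ = -(f a * f a) * (f b * f b) := by rw [hanti b a hb ha hab.symm]; noncomm_ring
        _ = -1 := by rw [hsq a ha, hsq b hb, mul_one]
    have h2 : f a * f b = 0 := h
    rw [h2, mul_zero] at h1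
    exact one_ne_zero (neg_eq_zero.1 h1.symm)

/-- The dimension of a representation. -/
theorem abs_dim {N k r : ℕ} {E : Fin N → Module.End ℂ U₁} {c : Fin N → Fin k} (hE : SP.CE E)
    (h6 : 6 ≤ r) (hc : ∀ s, (Finset.univ.filter fun j => c j = s).card = r)
    (Q : Submodule ℂ (Module.End ℂ U₁ × Module.End ℂ U₂)) (hbr : Br Q)
    (hfst : Q.map (LinearMap.fst ℂ _ _) = SP.soC E c)
    (hinj : ∀ x ∈ Q, x.2 = 0 → x.1 = 0) : k * beta r ≤ finrank ℂ U₂ := by
  classical
  let L : LieSubalgebra ℂ (Module.End ℂ U₁ × Module.End ℂ U₂) :=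
    { Q with lie_mem' := fun {x y} hx hy => hbr x hx y hy }
  let : LieRingModule L U₂ :=
    { bracket := fun x m => x.1.2 m
      add_lie := fun x y m => rfl
      lie_add := fun x m n => map_add _ _ _
      leibniz_lie := fun x y m => by
        change x.1.2 (y.1.2 m) = (x.1.2 * y.1.2 - y.1.2 * x.1.2) m + y.1.2 (x.1.2 m)
        rw [LinearMap.sub_apply, Module.End.mul_apply, Module.End.mul_apply, sub_add_cancel] }
  let : LieModule ℂ L U₂ :=
    { smul_lie := fun t x m => rfl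
      lie_smul := fun t x m => map_smul _ _ _ }
  have : FiniteDimensional ℂ L := inferInstanceAs (FiniteDimensional ℂ Q)
  choose Z hZ1 hZ2 hZ3 using fun s : Fin k => exists_enumZ hE s (hc s)
  have hmem : ∀ x : L, x.1.1 ∈ SP.soC E c := by
    intro x
    rw [← hfst]
    exact ⟨x.1, x.2, rfl⟩
  let q : Fin k → L →ₗ[ℂ] Module.End ℂ U₁ := fun s =>
    (SP.pS E c s) ∘ₗ (LinearMap.fst ℂ _ _) ∘ₗ Q.subtype
  have hq : ∀ s (x : L), q s x = SP.pS E c s x.1.1 := fun s x => rfl
  have hs6 : ∀ s, 6 ≤ (Finset.univ.filter fun j => c j = s).card := by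
    intro s
    rw [hc]
    exact h6
  have D : Dat r (Finset.univ : Finset (Fin k)) q Z := by
    refine ⟨fun s _ x y => ?_, fun s _ => hZ1 s, fun s _ x => ?_, fun s _ a b ha hb hab => ?_,
      fun s _ J hJ hJ2 => ?_, fun s _ => hZ3 s 0 1 (by omega) (by omega) (by omega)⟩
    · rw [hq, hq, hq]
      exact SP.pS_br hE (hmem x) (hmem y)
    · rw [hq, hZ2]
      exact SP.pS_mem hE (hmem x)
    · have h1 : Z s a b ∈ SP.soS E c s := by
        rw [← hZ2]
        exact mem_sp ha hb hab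
      have h2 : Z s a b ∈ Q.map (LinearMap.fst ℂ _ _) := by
        rw [hfst]
        exact SP.soS_le s h1
      obtain ⟨x, hx, hx2⟩ := h2
      refine ⟨⟨x, hx⟩, ?_, fun t _ hts => ?_⟩
      · rw [hq]
        change SP.pS E c s x.1 = _
        have hx3 : x.1 = Z s a b := hx2
        rw [hx3]
        exact SP.pS_same hE h1
      · rw [hq]
        change SP.pS E c t x.1 = _
        have hx3 : x.1 = Z s a b := hx2
        rw [hx3]
        exact SP.pS_other hE hts h1
    · rw [hZ2] at hJ hJ2 ⊢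
      exact SP.ColMain_simple hE (hs6 s) J hJ hJ2
  have h1 := dat_dim (L := L) (M := U₂) h6 (finrank ℂ U₂) le_rfl D (fun x hx s _ => by
    have h2 : x.1.2 = 0 := LinearMap.ext fun m => hx m
    rw [hq, hinj x.1 x.2 h2, map_zero])
  rwa [Finset.card_univ, Fintype.card_fin] at h1

end Abs

/-- Endomorphisms all components of which are zero. -/
theorem cmpE_ext {W : Type} [AddCommGroup W] [Module ℚ W] [FiniteDimensional ℚ W]
    {X : Module.End ℂ (ℂ ⊗[ℚ] W)} (h : ∀ lam : ℂ →ₗ[ℚ] ℚ, cmpE lam X = 0) : X = 0 := by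
  have h1 : ∀ w : W, X ((1 : ℂ) ⊗ₜ[ℚ] w) = 0 := by
    intro w
    refine eq_zero_of_cmp (k := ℚ) fun lam => ?_
    rw [← cmpE_apply, h lam, LinearMap.zero_apply]
  refine LinearMap.ext fun z => ?_
  induction z with
  | zero => rw [map_zero, map_zero]
  | add z z' h h' => rw [map_add, map_add, h, h']
  | tmul a w =>
    have h2 : a ⊗ₜ[ℚ] w = a • ((1 : ℂ) ⊗ₜ[ℚ] w) := by
      rw [TensorProduct.smul_tmul', smul_eq_mul, mul_one]
    rw [h2, map_smul, h1, smul_zero, map_smul, LinearMap.zero_apply, smul_zero]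

variable {W₁ W₂ : Type} [AddCommGroup W₁] [Module ℚ W₁] [FiniteDimensional ℚ W₁]
  [AddCommGroup W₂] [Module ℚ W₂] [FiniteDimensional ℚ W₂]
  {𝔮 : Submodule ℚ (Module.End ℚ W₁ × Module.End ℚ W₂)}

theorem pair_dim (hbr : Br 𝔮) {k r : ℕ} (h6 : 6 ≤ r) [Nontrivial W₁]
    (h1 : SpinK (𝔮.map (LinearMap.fst ℚ _ _)) k r) (hinj : ∀ X, (X, 0) ∈ 𝔮 → X = 0) :
    k * beta r ≤ finrank ℚ W₂ := by
  obtain ⟨N, E, c, hE, hc, hg⟩ := h1
  have hn : Nontrivial (ℂ ⊗[ℚ] W₁) := by
    have h2 : 0 < finrank ℂ (ℂ ⊗[ℚ] W₁) := by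
      rw [Module.finrank_baseChange]
      exact finrank_pos
    exact Module.nontrivial_of_finrank_pos h2
  have h2 := abs_dim (U₁ := ℂ ⊗[ℚ] W₁) (U₂ := ℂ ⊗[ℚ] W₂) hE h6 hc (cx2 𝔮) (cx2_br hbr)
    (by rw [← hg, ← cx2_fst]) (fun x hx hx2 => by
      refine cmpE_ext fun lam => hinj _ ?_
      have h3 := cx2_comp hx lam
      have h4 : cmpE lam x.2 = 0 := by
        rw [hx2]
        refine LinearMap.ext fun w => ?_
        rw [cmpE_apply, LinearMap.zero_apply, map_zero]
        rfl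
      rwa [h4] at h3)
  rwa [Module.finrank_baseChange] at h2

/-- Structures of dimension smaller than the sum of the ranks. -/
theorem sepU_dim {s V : UU} {k r : ℕ} (hs : SpinK (ggU s) k r) (h6 : 6 ≤ r)
    (hni : NoIdeals (ggU s)) (hd : V.1 < k * beta r) : SepU s V := by
  rcases subsingleton_or_nontrivial (Fin s.1 → ℚ) with hs0 | hn
  · intro X _
    refine ⟨0, ⟨Submodule.zero_mem _, Submodule.zero_mem _⟩, ?_⟩
    rw [map_zero]
    exact LinearMap.ext fun v => Subsingleton.elim _ _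
  have hg : gg (fun b => (σp s V b).2.basis) false = ggU s := pair_gg s V
  refine sepU_of_pair ?_
  obtain ⟨η, hη⟩ : ∃ η : ∀ b, Basis (Fin (σp s V b).1) ℂ ((Fin (σp s V b).1 → ℚ) →ₗ[ℚ] ℂ),
    η = fun b => (σp s V b).2.basis := ⟨_, rfl⟩
  rw [← hη] at hg ⊢
  have hperf : gg η false ≤ brk (gg η false) (gg η false) := by
    rw [hg]
    exact hs.spin.perf (by omega)
  obtain ⟨𝔮, h𝔮⟩ : ∃ 𝔮, 𝔮 = (LG η ⊓ tw0).map (prq false true) := ⟨_, rfl⟩
  have hbr : Br 𝔮 := h𝔮 ▸ prq_br
  have hfst : 𝔮.map (LinearMap.fst ℚ _ _) = gg η false := h𝔮 ▸ prq_fst hperf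
  let I : Submodule ℚ (Module.End ℚ (Fin (σp s V false).1 → ℚ)) :=
    (𝔮 ⊓ LinearMap.ker (LinearMap.snd ℚ _ _)).map (LinearMap.fst ℚ _ _)
  have hI : ∀ X, X ∈ I ↔ (X, 0) ∈ 𝔮 := by
    intro X
    constructor
    · rintro ⟨⟨X', Y⟩, ⟨hp, h0⟩, rfl⟩
      have : Y = 0 := h0
      subst this
      exact hp
    · intro hp
      exact ⟨(X, 0), ⟨hp, rfl⟩, rfl⟩
  have hIdl : Idl I (gg η false) := by
    refine ⟨?_, ?_⟩
    · rintro _ ⟨p, hp, rfl⟩
      rw [← hfst]
      exact ⟨p, hp.1, rfl⟩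
    · intro X hX Y hY
      rw [← hfst] at hX
      obtain ⟨p, hp, rfl⟩ := hX
      rw [hI] at hY ⊢
      have h1 := hbr p hp _ hY
      have h2 : p * ((Y, 0) : Module.End ℚ (Fin (σp s V false).1 → ℚ) ×
          Module.End ℚ (Fin (σp s V true).1 → ℚ)) - (Y, 0) * p = (p.1 * Y - Y * p.1, 0) := by
        refine Prod.ext rfl ?_
        change p.2 * 0 - 0 * p.2 = 0
        rw [mul_zero, zero_mul, sub_zero]
      rw [h2] at h1
      exact h1
  have hni' : NoIdeals (gg η false) := by rw [hg]; exact hni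
  rcases hni' I hIdl with h0 | h0
  · exfalso
    have hn' : Nontrivial (Fin (σp s V false).1 → ℚ) := hn
    have hk : SpinK (𝔮.map (LinearMap.fst ℚ _ _)) k r := by
      rw [hfst, hg]
      exact hs
    have h1 := pair_dim hbr h6 hk (fun X hX => by
      have h2 : X ∈ I := (hI X).2 hX
      rw [h0] at h2
      exact (Submodule.mem_bot ℚ).1 h2)
    rw [Module.finrank_fin_fun] at h1
    exact absurd hd (not_lt.2 h1)
  · intro X hX
    change X ∈ gg η false at hX
    rw [← h0, hI, h𝔮] at hX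
    obtain ⟨ℓ, hℓ, h9⟩ := hX
    have h10 : pr true ℓ = 0 := congrArg Prod.snd h9
    have h11 : pr false ℓ = X := congrArg Prod.fst h9
    refine ⟨ℓ, ⟨hℓ.1, ?_⟩, h11⟩
    have h12 : ℓ.2 = 0 := hℓ.2
    rw [pr_apply, h12, zero_div, zero_smul, sub_zero] at h10
    exact h10

end Pool.Agent.N192.GP
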