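import Pool.Agent.N192.GP.LieG
import Pool.Agent.N192.GP.SepD

set_option autoImplicit false
set_option linter.unusedSectionVars false
set_option linter.unusedVariables false

/-!
# Several members which are not separated from a given one
-/

open Module Function TensorProduct

noncomputable section

namespace Pool.Agent.N192.GP

open Pool.Agent.Y102 Pool.Agent.W516.DR Pool.Agent.H204R3.GP Pool.Agent.W516.KC
  Pool.Agent.H204R3.SP

attribute [local instance 100] LieRing.ofAssociativeRing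

section Cx

variable {T : Type} [Fintype T] [DecidableEq T] {n : T → ℕ}

/-- The families of endomorphisms over the rational numbers. -/
abbrev EQ (n : T → ℕ) : Type := ∀ t, Module.End ℚ (Fin (n t) → ℚ)

/-- The families of complex endomorphisms. -/
abbrev EC (n : T → ℕ) : Type := ∀ t, Module.End ℂ (ℂ ⊗[ℚ] (Fin (n t) → ℚ))

/-- The complex span of a space of families. -/
def cxF (𝔮 : Submodule ℚ (EQ n)) : Submodule ℂ (EC n) :=
  Submodule.span ℂ {P | ∃ p ∈ 𝔮, P = fun t => (p t).baseChange ℂ}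

variable {𝔮 : Submodule ℚ (EQ n)}

theorem cxF_mem {p : EQ n} (hp : p ∈ 𝔮) : (fun t => (p t).baseChange ℂ : EC n) ∈ cxF 𝔮 :=
  Submodule.subset_span ⟨p, hp, rfl⟩

theorem cxF_mono {𝔮' : Submodule ℚ (EQ n)} (h : 𝔮' ≤ 𝔮) : cxF 𝔮' ≤ cxF 𝔮 :=
  Submodule.span_mono fun _ ⟨p, hp, hP⟩ => ⟨p, h hp, hP⟩

theorem cxF_br (h : ∀ x ∈ 𝔮, ∀ y ∈ 𝔮, x * y - y * x ∈ 𝔮) :
    ∀ x ∈ cxF 𝔮, ∀ y ∈ cxF 𝔮, x * y - y * x ∈ cxF 𝔮 := by
  intro x hx y hy
  induction hx using Submodule.span_induction with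
  | mem x hx =>
    obtain ⟨P, hP, rfl⟩ := hx
    induction hy using Submodule.span_induction with
    | mem y hy =>
      obtain ⟨Q, hQ, rfl⟩ := hy
      have h1 := cxF_mem (h P hP Q hQ)
      have h2 : (fun t => ((P * Q - Q * P) t).baseChange ℂ : EC n) =
          (fun t => (P t).baseChange ℂ) * (fun t => (Q t).baseChange ℂ) -
            (fun t => (Q t).baseChange ℂ) * (fun t => (P t).baseChange ℂ) := by
        funext t
        exact bc_br _ _
      rw [h2] at h1
      exact h1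
    | zero => rw [mul_zero, zero_mul, sub_zero]; exact Submodule.zero_mem _
    | add a b _ _ ha hb =>
      rw [mul_add, add_mul, add_sub_add_comm]
      exact Submodule.add_mem _ ha hb
    | smul c a _ ha =>
      rw [mul_smul_comm, smul_mul_assoc, ← smul_sub]
      exact Submodule.smul_mem _ c ha
  | zero => rw [mul_zero, zero_mul, sub_zero]; exact Submodule.zero_mem _
  | add a b _ _ ha hb =>
    rw [mul_add, add_mul, add_sub_add_comm]
    exact Submodule.add_mem _ ha hb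
  | smul c a _ ha =>
    rw [mul_smul_comm, smul_mul_assoc, ← smul_sub]
    exact Submodule.smul_mem _ c ha

theorem cxF_proj (t : T) : (cxF 𝔮).map (LinearMap.proj t) = cx (𝔮.map (LinearMap.proj t)) := by
  unfold cxF
  rw [Submodule.map_span]
  congr 1
  ext X
  constructor
  · rintro ⟨_, ⟨p, hp, rfl⟩, rfl⟩
    exact ⟨p t, ⟨p, hp, rfl⟩, rfl⟩
  · rintro ⟨_, ⟨p, hp, rfl⟩, rfl⟩
    exact ⟨_, ⟨p, hp, rfl⟩, rfl⟩

theorem cxF_comp {P : EC n} (h : P ∈ cxF 𝔮) (lam : ℂ →ₗ[ℚ] ℚ) :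
    (fun t => cmpE lam (P t) : EQ n) ∈ 𝔮 := by
  have key : ∀ lam : ℂ →ₗ[ℚ] ℚ, (fun t => cmpE lam (P t) : EQ n) ∈ 𝔮 := by
    induction h using Submodule.span_induction with
    | mem P hP =>
      intro lam
      obtain ⟨p, hp, rfl⟩ := hP
      have h1 : (fun t => cmpE lam ((p t).baseChange ℂ) : EQ n) = lam 1 • p := by
        funext t
        refine LinearMap.ext fun w => ?_
        rw [cmpE_apply, LinearMap.baseChange_tmul, cmp_tmul]
        rfl
      rw [h1]
      exact Submodule.smul_mem _ _ hp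
    | zero =>
      intro lam
      have h1 : (fun t => cmpE lam ((0 : EC n) t) : EQ n) = 0 := by
        funext t
        refine LinearMap.ext fun w => ?_
        rw [cmpE_apply, Pi.zero_apply, LinearMap.zero_apply, map_zero]
        rfl
      exact h1 ▸ Submodule.zero_mem _
    | add a b _ _ ha hb =>
      intro lam
      have h1 : (fun t => cmpE lam ((a + b) t) : EQ n) =
          (fun t => cmpE lam (a t)) + (fun t => cmpE lam (b t)) := by
        funext t
        refine LinearMap.ext fun w => ?_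
        change cmpE lam (a t + b t) w = cmpE lam (a t) w + cmpE lam (b t) w
        rw [cmpE_apply, cmpE_apply, cmpE_apply, LinearMap.add_apply, map_add]
      rw [h1]
      exact Submodule.add_mem _ (ha lam) (hb lam)
    | smul c a _ ha =>
      intro lam
      have h1 : (fun t => cmpE lam ((c • a) t) : EQ n) =
          fun t => cmpE (lam ∘ₗ LinearMap.mulLeft ℚ c) (a t) := by
        funext t
        refine LinearMap.ext fun w => ?_
        rw [cmpE_apply, cmpE_apply, Pi.smul_apply, LinearMap.smul_apply]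
        induction a t ((1 : ℂ) ⊗ₜ[ℚ] w) with
        | zero => rw [smul_zero, map_zero, map_zero]
        | add x y hx hy => rw [smul_add, map_add, map_add, hx, hy]
        | tmul d v => rw [TensorProduct.smul_tmul', cmp_tmul, cmp_tmul]; rfl
      rw [h1]
      exact ha _
  exact key lam

end Cx

section Dim

variable {T : Type} [Fintype T] [DecidableEq T] {n : T → ℕ}
  {η : ∀ t, Basis (Fin (n t)) ℂ ((Fin (n t) → ℚ) →ₗ[ℚ] ℂ)}

/-- **Several members which are not separated from the member `u`.** -/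
theorem fam_dim {S : Finset T} {u : T} {k r : T → ℕ} (h6 : ∀ s ∈ S, 6 ≤ r s)
    (hK : ∀ s ∈ S, SpinK (gg η s) (k s) (r s)) (hni : ∀ s ∈ S, NoIdeals (gg η s))
    (hsep : ∀ s ∈ S, ∀ t ∈ S, s ≠ t → Sep η s t) (hnot : ∀ s ∈ S, ¬Sep η s u) :
    ∑ s ∈ S, k s * beta (r s) ≤ n u := by
  classical
  have hnt : ∀ s : S, Nontrivial (ℂ ⊗[ℚ] (Fin (n s.1) → ℚ)) := by
    intro s
    by_contra h
    refine hnot s.1 s.2 ?_
    unfold Sep
    rw [gg_bot h]
    exact bot_le
  have hperf : ∀ s ∈ S, gg η s ≤ brk (gg η s) (gg η s) := fun s hs =>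
    (hK s hs).spin.perf (by have := h6 s hs; omega)
  choose N E c hE hc hg using fun s : S => hK s.1 s.2
  choose Z hZ1 hZ2 hZ3 using fun x : (Σ s : S, Fin (k s.1)) =>
    exists_enumZ (hE x.1) x.2 (hc x.1 x.2)
  let 𝔮 : Submodule ℚ (EQ n) := (LG η ⊓ tw0).map (LinearMap.fst ℚ _ _)
  have hbr : ∀ x ∈ 𝔮, ∀ y ∈ 𝔮, x * y - y * x ∈ 𝔮 := by
    rintro _ ⟨x, hx, rfl⟩ _ ⟨y, hy, rfl⟩
    exact ⟨x * y - y * x, (idl_tw0 η).2 x hx.1 y hy, rfl⟩
  have hprj : ∀ {𝔞 : Submodule ℚ (RR n)}, 𝔞 ≤ tw0 → ∀ t : T,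
      (𝔞.map (LinearMap.fst ℚ _ _)).map (LinearMap.proj t) = 𝔞.map (pr t) := by
    intro 𝔞 h𝔞 t
    ext X
    constructor
    · rintro ⟨_, ⟨x, hx, rfl⟩, rfl⟩
      refine ⟨x, hx, ?_⟩
      have h1 : x.2 = 0 := h𝔞 hx
      rw [pr_apply, h1, zero_div, zero_smul, sub_zero]
      rfl
    · rintro ⟨x, hx, rfl⟩
      refine ⟨x.1, ⟨x, hx, rfl⟩, ?_⟩
      have h1 : x.2 = 0 := h𝔞 hx
      rw [pr_apply, h1, zero_div, zero_smul, sub_zero]
      rfl
  have h𝔮 : ∀ s ∈ S, 𝔮.map (LinearMap.proj s) = gg η s := by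
    intro s hs
    rw [hprj inf_le_right]
    exact le_antisymm (Submodule.map_mono inf_le_left) (sep_tw0 rfl (hperf s hs))
  let L : LieSubalgebra ℂ (EC n) :=
    { cxF 𝔮 with lie_mem' := fun {x y} hx hy => cxF_br hbr x hx y hy }
  let : LieRingModule L (ℂ ⊗[ℚ] (Fin (n u) → ℚ)) :=
    { bracket := fun x m => x.1 u m
      add_lie := fun x y m => rfl
      lie_add := fun x m n => map_add _ _ _
      leibniz_lie := fun x y m => by
        change x.1 u (y.1 u m) = (x.1 u * y.1 u - y.1 u * x.1 u) m + y.1 u (x.1 u m)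
        rw [LinearMap.sub_apply, Module.End.mul_apply, Module.End.mul_apply, sub_add_cancel] }
  let : LieModule ℂ L (ℂ ⊗[ℚ] (Fin (n u) → ℚ)) :=
    { smul_lie := fun t x m => rfl
      lie_smul := fun t x m => map_smul _ _ _ }
  have : FiniteDimensional ℂ L := inferInstanceAs (FiniteDimensional ℂ (cxF 𝔮))
  have hmem : ∀ (s : S) (x : L), x.1 s.1 ∈ SP.soC (E s) (c s) := by
    intro s x
    rw [← hg s, ← h𝔮 s.1 s.2, ← cxF_proj]
    exact ⟨x.1, x.2, rfl⟩
  let q : ∀ x : (Σ s : S, Fin (k s.1)), L →ₗ[ℂ] Module.End ℂ (ℂ ⊗[ℚ] (Fin (n x.1.1) → ℚ)) :=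
    fun x => (SP.pS (E x.1) (c x.1) x.2) ∘ₗ (LinearMap.proj x.1.1) ∘ₗ (cxF 𝔮).subtype
  have hq : ∀ x (y : L), q x y = SP.pS (E x.1) (c x.1) x.2 (y.1 x.1.1) := fun x y => rfl
  have hs6 : ∀ (s : S) σ, 6 ≤ (Finset.univ.filter fun j => c s j = σ).card := by
    intro s σ
    rw [hc]
    exact h6 s.1 s.2
  -- the separation of the members of `S` from each other
  have hlift : ∀ s ∈ S, gg η s ≤ ((LG η ⊓ tw0) ⊓ ⨅ t ∈ S.erase s, (LG η ⊓ at0 t)).map (pr s) := by
    intro s hs
    let 𝔫 : T → Submodule ℚ (RR n) := fun t => if t = s then LG η ⊓ tw0 else LG η ⊓ at0 t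
    have h1 : ∀ t, Idl (𝔫 t) (LG η) := by
      intro t
      by_cases ht : t = s
      · simp only [𝔫, if_pos ht]
        exact idl_tw0 η
      · simp only [𝔫, if_neg ht]
        exact idl_at0 η t
    refine (ribet (pr_hm s (LG η)) (hperf s hs) le_rfl h1 S (fun t ht => ?_)).trans
      (Submodule.map_mono fun x hx => ?_)
    · by_cases hts : t = s
      · simp only [𝔫, if_pos hts]
        exact sep_tw0 rfl (hperf s hs)
      · simp only [𝔫, if_neg hts]
        exact hsep s hs t ht (Ne.symm hts)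
    · have h2 : ∀ t ∈ S, x ∈ 𝔫 t := fun t ht =>
        (Submodule.mem_iInf _).1 ((Submodule.mem_iInf _).1 hx.2 t) ht
      refine ⟨?_, ?_⟩
      · have h3 := h2 s hs
        simp only [𝔫, if_true] at h3
        exact h3
      · simp only [SetLike.mem_coe, Submodule.mem_iInf]
        intro t ht
        have h3 := h2 t (Finset.mem_of_mem_erase ht)
        simp only [𝔫, if_neg (Finset.ne_of_mem_erase ht)] at h3
        exact h3
  have D : DatG (fun x : (Σ s : S, Fin (k s.1)) => r x.1.1) Finset.univ q Z := by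
    refine ⟨fun x _ y z => ?_, fun x _ => hZ1 x, fun x _ y => ?_, fun x _ a b ha hb hab => ?_,
      fun x _ J hJ hJ2 => ?_, fun x _ => ?_⟩
    · rw [hq, hq, hq]
      exact SP.pS_br (hE x.1) (hmem x.1 y) (hmem x.1 z)
    · rw [hq, hZ2]
      exact SP.pS_mem (hE x.1) (hmem x.1 y)
    · obtain ⟨s, σ⟩ := x
      have h1 : Z ⟨s, σ⟩ a b ∈ SP.soS (E s) (c s) σ := by
        rw [← hZ2 ⟨s, σ⟩]
        exact mem_sp ha hb hab
      have h2 : Z ⟨s, σ⟩ a b ∈ cx (((((LG η ⊓ tw0) ⊓ ⨅ t ∈ S.erase s.1, (LG η ⊓ at0 t)).map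
          (LinearMap.fst ℚ _ _))).map (LinearMap.proj s.1)) := by
        have h3 : Z ⟨s, σ⟩ a b ∈ cx (gg η s.1) := by
          rw [hg s]
          exact SP.soS_le σ h1
        rw [hprj (inf_le_left.trans inf_le_right)]
        exact cx_mono (hlift s.1 s.2) h3
      rw [← cxF_proj] at h2
      obtain ⟨y, hy, hy2⟩ := h2
      have hy2' : y s.1 = Z ⟨s, σ⟩ a b := hy2
      have hy0 : ∀ t ∈ S, t ≠ s.1 → y t = 0 := by
        intro t ht hts
        have h3 : ∀ y ∈ cxF (n := n) (((LG η ⊓ tw0) ⊓ ⨅ t ∈ S.erase s.1, (LG η ⊓ at0 t)).map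
          (LinearMap.fst ℚ (EQ n) ℚ)), y t = 0 := by
          intro y hy
          induction hy using Submodule.span_induction with
          | mem y hy =>
            obtain ⟨_, ⟨ℓ, hℓ, rfl⟩, rfl⟩ := hy
            have h4 := (Submodule.mem_iInf _).1 ((Submodule.mem_iInf _).1 hℓ.2 t)
              (Finset.mem_erase.2 ⟨hts, ht⟩)
            have h5 : ℓ.1 t = 0 := h4.2
            change (ℓ.1 t).baseChange ℂ = 0
            rw [h5, LinearMap.baseChange_zero]
          | zero => rfl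
          | add y z _ _ hy hz => rw [Pi.add_apply, hy, hz, add_zero]
          | smul c y _ hy => rw [Pi.smul_apply, hy, smul_zero]
        exact h3 y hy
      have hyL : y ∈ cxF 𝔮 := cxF_mono (𝔮 := 𝔮) (Submodule.map_mono inf_le_left) hy
      refine ⟨⟨y, hyL⟩, ?_, fun x _ hx => ?_⟩
      · rw [hq]
        change SP.pS (E s) (c s) σ (y s.1) = _
        rw [hy2']
        exact SP.pS_same (hE s) h1
      · rw [hq]
        obtain ⟨t, τ⟩ := x
        change SP.pS (E t) (c t) τ (y t.1) = _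
        by_cases hts : t = s
        · subst hts
          rw [hy2']
          refine SP.pS_other (hE t) (fun h => hx ?_) h1
          rw [h]
        · rw [hy0 t.1 t.2 (fun h => hts (Subtype.ext h)), map_zero]
    · rw [hZ2] at hJ hJ2 ⊢
      exact SP.ColMain_simple (hE x.1) (hs6 x.1 x.2) J hJ hJ2
    · have h7 := h6 x.1.1 x.1.2
      exact hZ3 x 0 1 (by omega) (by omega) (by omega)
  -- the kernel
  have hker0 : ∀ s ∈ S, ∀ ℓ ∈ LG η ⊓ tw0, ℓ.1 u = 0 → ℓ.1 s = 0 := by
    intro s hs ℓ hℓ hu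
    let I : Submodule ℚ (Module.End ℚ (Fin (n s) → ℚ)) := ((LG η ⊓ at0 u) ⊓ tw0).map (pr s)
    have hI : Idl I (gg η s) := by
      refine ⟨Submodule.map_mono (inf_le_left.trans inf_le_left), ?_⟩
      rintro _ ⟨x, hx, rfl⟩ _ ⟨y, hy, rfl⟩
      exact ⟨x * y - y * x, ⟨(idl_at0 η u).2 x hx y hy.1, br_snd x y⟩,
        pr_hm s (LG η) x hx y hy.1.1⟩
    rcases hni s hs I hI with h0 | h0
    · have h1 : pr s ℓ ∈ I := ⟨ℓ, ⟨⟨hℓ.1, hu⟩, hℓ.2⟩, rfl⟩
      rw [h0, Submodule.mem_bot] at h1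
      have h2 : ℓ.2 = 0 := hℓ.2
      rwa [pr_apply, h2, zero_div, zero_smul, sub_zero] at h1
    · exfalso
      refine hnot s hs ?_
      unfold Sep
      rw [← h0]
      exact Submodule.map_mono inf_le_left
  have h1 := datG_dim (L := L) (M := ℂ ⊗[ℚ] (Fin (n u) → ℚ))
    (finrank ℂ (ℂ ⊗[ℚ] (Fin (n u) → ℚ))) (fun x _ => h6 x.1.1 x.1.2) le_rfl D
    (fun x hx y _ => by
      have h2 : x.1 u = 0 := LinearMap.ext fun m => hx m
      have h3 : x.1 y.1.1 = 0 := by
        refine cmpE_ext fun lam => ?_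
        obtain ⟨ℓ, hℓ, h4⟩ := cxF_comp x.2 lam
        have h5 : ∀ t, ℓ.1 t = cmpE lam (x.1 t) := fun t => congrFun h4 t
        rw [← h5]
        refine hker0 y.1.1 y.1.2 ℓ hℓ ?_
        rw [h5, h2]
        refine LinearMap.ext fun w => ?_
        rw [cmpE_apply, LinearMap.zero_apply, map_zero]
        rfl
      rw [hq, h3, map_zero])
  rw [Module.finrank_baseChange, Module.finrank_fin_fun, Fintype.sum_sigma] at h1
  simp only [Finset.sum_const, Finset.card_univ, Fintype.card_fin, smul_eq_mul] at h1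
  rwa [Finset.sum_coe_sort S (fun s => k s * beta (r s))] at h1

end Dim

end Pool.Agent.N192.GP
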