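import Pool.Agent.N192.GP.AbFam

set_option autoImplicit false
set_option linter.unusedSectionVars false

/-!
# The decomposition of the de Rham-Betti classes
-/

open Module Function TensorProduct

noncomputable section

namespace Pool.Agent.N192.GP

open Pool.Agent.Y102 Pool.Agent.W516.DR Pool.Agent.H204R3.GP Pool.Agent.W516.KC
  Pool.Agent.H204R3.SP

section Forms

variable {W κ : Type} [AddCommGroup W] [Module ℚ W] [Fintype κ] [DecidableEq κ]

/-- The forms on which an endomorphism acts by a scalar. -/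
def actSub (X : Module.End ℚ W) (c : ℚ) : Submodule ℚ (MultilinearMap ℚ (fun _ : κ => W) ℚ) where
  carrier := {φ | ActsBy X φ c}
  zero_mem' := fun v => by
    simp only [zero_apply, Finset.sum_const_zero, mul_zero]
  add_mem' := fun {φ ψ} h1 h2 v => by
    simp only [add_apply, Finset.sum_add_distrib]
    rw [h1 v, h2 v, mul_add]
  smul_mem' := fun t φ h v => by
    simp only [smul_apply, smul_eq_mul, ← Finset.mul_sum]
    rw [h v]
    ring

theorem mem_actSub {X : Module.End ℚ W} {c : ℚ} {φ : MultilinearMap ℚ (fun _ : κ => W) ℚ} :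
    φ ∈ actSub X c ↔ ActsBy X φ c := Iff.rfl

/-- Hodge classes in an odd number of variables vanish. -/
theorem hodge_odd {W T : Type} [AddCommGroup W] [Module ℚ W] [AddCommGroup T] [Module ℂ T]
    {per : W →+ T} {φ : MultilinearMap ℚ (fun _ : κ => W) ℚ} (h : IsHodgeTensor per φ)
    (hodd : Odd (Fintype.card κ)) : φ = 0 := by
  obtain ⟨Ψ, h1, h2⟩ := h
  refine MultilinearMap.ext fun v => ?_
  have h3 := h2 (-1) (by rw [norm_neg, norm_one]) fun l => per (v l)
  have h4 : Ψ (fun l => (-1 : ℂ) • per (v l)) = -Ψ fun l => per (v l) := by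
    have h5 : (fun l => (-1 : ℂ) • per (v l)) = fun l => ((-1 : ℝ)) • per (v l) := by
      funext l
      rw [neg_smul, neg_smul, one_smul, one_smul]
    rw [h5, MultilinearMap.map_smul_univ, Finset.prod_const, Finset.card_univ, hodd.neg_one_pow,
      neg_one_smul]
  rw [h4, h1] at h3
  have h5 : ((φ v : ℚ) : ℝ) = 0 := by linarith
  rw [zero_apply]
  exact_mod_cast h5

/-- Changing the indices and the space. -/
theorem IsTw.comp {W' ι ι' : Type} [AddCommGroup W'] [Module ℚ W'] [Fintype ι] [Fintype ι']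
    {F : ι → (W →ₗ[ℚ] ℂ)} {F' : ι' → (W' →ₗ[ℚ] ℂ)} (e : ι ≃ ι') (θ : W' →ₗ[ℚ] W)
    (h : ∀ i x, F' (e i) x = F i (θ x)) {w : ℤ} {φ : MultilinearMap ℚ (fun _ : κ => W) ℚ}
    (hφ : IsTw F w φ) : IsTw F' w (φ.compLinearMap fun _ => θ) := by
  obtain ⟨a, ha⟩ := hφ
  refine ⟨fun J' => a (e.symm ∘ J'), fun v => ?_⟩
  rw [MultilinearMap.compLinearMap_apply, ha]
  refine Fintype.sum_equiv (Equiv.arrowCongr (Equiv.refl κ) e) _ _ fun J' => ?_
  have h1 : e.symm ∘ (Equiv.arrowCongr (Equiv.refl κ) e) J' = J' := by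
    funext l
    simp [Equiv.arrowCongr]
  beta_reduce
  rw [h1]
  congr 1
  refine Finset.prod_congr rfl fun l _ => ?_
  rw [← h]
  rfl

end Forms

variable {I J : Type} [Fintype I] [DecidableEq I] [Fintype J] [DecidableEq J]
  {g : I → ℕ} {d : J → ℕ}

/-- The inclusion of the abelian part. -/
def inA (g : I → ℕ) (d : J → ℕ) : (∀ i, Fin (2 * g i) → ℚ) →ₗ[ℚ] Bt (nn g d) where
  toFun u := fun t => match t with
    | Sum.inl i => u i
    | Sum.inr _ => 0
  map_add' u v := by
    funext t
    cases t with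
    | inl i => rfl
    | inr j => exact (add_zero _).symm
  map_smul' c u := by
    funext t
    cases t with
    | inl i => rfl
    | inr j => exact (smul_zero c).symm

/-- The inclusion of the other part. -/
def inV (g : I → ℕ) (d : J → ℕ) : (∀ j, Fin (d j) → ℚ) →ₗ[ℚ] Bt (nn g d) where
  toFun u := fun t => match t with
    | Sum.inl _ => 0
    | Sum.inr j => u j
  map_add' u v := by
    funext t
    cases t with
    | inl i => exact (add_zero _).symm
    | inr j => rfl
  map_smul' c u := by
    funext t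
    cases t with
    | inl i => exact (smul_zero c).symm
    | inr j => rfl

theorem act_inA (X : ∀ t, Module.End ℚ (Fin (nn g d t) → ℚ)) (u : ∀ i, Fin (2 * g i) → ℚ) :
    act X (inA g d u) = inA g d (act (n := fun i => 2 * g i) (fun i => X (Sum.inl i)) u) := by
  funext t
  cases t with
  | inl i => rfl
  | inr j => exact map_zero (X (Sum.inr j))

theorem act_inV (X : ∀ t, Module.End ℚ (Fin (nn g d t) → ℚ)) (v : ∀ j, Fin (d j) → ℚ) :
    act X (inV g d v) = inV g d (act (n := d) (fun j => X (Sum.inr j)) v) := by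
  funext t
  cases t with
  | inl i => exact map_zero (X (Sum.inl i))
  | inr j => rfl

variable {κ κ' : Type} [Fintype κ] [DecidableEq κ] [Fintype κ'] [DecidableEq κ']

/-- A form as a function of the variables in the abelian part. -/
def cur (φ : MultilinearMap ℚ (fun _ : κ ⊕ κ' => Bt (nn g d)) ℚ) :
    MultilinearMap ℚ (fun _ : κ' => ∀ j, Fin (d j) → ℚ)
      (MultilinearMap ℚ (fun _ : κ => ∀ i, Fin (2 * g i) → ℚ) ℚ) where
  toFun v :=
    { toFun := fun u => φ (Sum.elim (fun l => inA g d (u l)) fun l => inV g d (v l))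
      map_update_add' := by
        intro _ u l x y
        have h1 : ∀ z, (Sum.elim (fun l' => inA g d (update u l z l')) fun l => inV g d (v l)) =
            update (Sum.elim (fun l' => inA g d (u l')) fun l => inV g d (v l)) (Sum.inl l)
              (inA g d z) := by
          intro z
          funext l'
          rcases l' with l' | l'
          · by_cases h : l' = l
            · subst h
              rw [update_self, Sum.elim_inl, update_self]
            · rw [update_of_ne (by simpa using h), Sum.elim_inl, Sum.elim_inl, update_of_ne h]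
          · rw [update_of_ne (by simp), Sum.elim_inr, Sum.elim_inr]
        rw [h1, h1, h1, map_add, MultilinearMap.map_update_add]
      map_update_smul' := by
        intro _ u l c x
        have h1 : ∀ z, (Sum.elim (fun l' => inA g d (update u l z l')) fun l => inV g d (v l)) =
            update (Sum.elim (fun l' => inA g d (u l')) fun l => inV g d (v l)) (Sum.inl l)
              (inA g d z) := by
          intro z
          funext l'
          rcases l' with l' | l'
          · by_cases h : l' = l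
            · subst h
              rw [update_self, Sum.elim_inl, update_self]
            · rw [update_of_ne (by simpa using h), Sum.elim_inl, Sum.elim_inl, update_of_ne h]
          · rw [update_of_ne (by simp), Sum.elim_inr, Sum.elim_inr]
        rw [h1, h1, map_smul, MultilinearMap.map_update_smul] }
  map_update_add' := by
    intro _ v l x y
    refine MultilinearMap.ext fun u => ?_
    have h1 : ∀ z, (Sum.elim (fun l' => inA g d (u l')) fun l' => inV g d (update v l z l')) =
        update (Sum.elim (fun l' => inA g d (u l')) fun l => inV g d (v l)) (Sum.inr l)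
          (inV g d z) := by
      intro z
      funext l'
      rcases l' with l' | l'
      · rw [update_of_ne (by simp), Sum.elim_inl, Sum.elim_inl]
      · by_cases h : l' = l
        · subst h
          rw [update_self, Sum.elim_inr, update_self]
        · rw [update_of_ne (by simpa using h), Sum.elim_inr, Sum.elim_inr, update_of_ne h]
    change φ (Sum.elim (fun l' => inA g d (u l')) fun l' => inV g d (update v l (x + y) l')) =
      φ (Sum.elim (fun l' => inA g d (u l')) fun l' => inV g d (update v l x l')) +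
      φ (Sum.elim (fun l' => inA g d (u l')) fun l' => inV g d (update v l y l'))
    rw [h1, h1, h1, map_add, MultilinearMap.map_update_add]
  map_update_smul' := by
    intro _ v l c x
    refine MultilinearMap.ext fun u => ?_
    have h1 : ∀ z, (Sum.elim (fun l' => inA g d (u l')) fun l' => inV g d (update v l z l')) =
        update (Sum.elim (fun l' => inA g d (u l')) fun l => inV g d (v l)) (Sum.inr l)
          (inV g d z) := by
      intro z
      funext l'
      rcases l' with l' | l'
      · rw [update_of_ne (by simp), Sum.elim_inl, Sum.elim_inl]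
      · by_cases h : l' = l
        · subst h
          rw [update_self, Sum.elim_inr, update_self]
        · rw [update_of_ne (by simpa using h), Sum.elim_inr, Sum.elim_inr, update_of_ne h]
    change φ (Sum.elim (fun l' => inA g d (u l')) fun l' => inV g d (update v l (c • x) l')) =
      c • φ (Sum.elim (fun l' => inA g d (u l')) fun l' => inV g d (update v l x l'))
    rw [h1, h1, map_smul, MultilinearMap.map_update_smul]

theorem cur_apply (φ : MultilinearMap ℚ (fun _ : κ ⊕ κ' => Bt (nn g d)) ℚ)
    (v : κ' → ∀ j, Fin (d j) → ℚ) (u : κ → ∀ i, Fin (2 * g i) → ℚ) :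
    cur φ v u = φ (Sum.elim (fun l => inA g d (u l)) fun l => inV g d (v l)) := rfl

/-- The action on the two kinds of variables. -/
theorem cur_acts {φ : MultilinearMap ℚ (fun _ : κ ⊕ κ' => Bt (nn g d)) ℚ}
    {X : ∀ t, Module.End ℚ (Fin (nn g d t) → ℚ)} {c : ℚ} (h : ActsBy (act X) φ c)
    (v : κ' → ∀ j, Fin (d j) → ℚ) (u : κ → ∀ i, Fin (2 * g i) → ℚ) :
    (∑ l, cur φ v (update u l (act (n := fun i => 2 * g i) (fun i => X (Sum.inl i)) (u l)))) +
      (∑ l, cur φ (update v l (act (n := d) (fun j => X (Sum.inr j)) (v l))) u) =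
      c * cur φ v u := by
  have h1 := h (Sum.elim (fun l => inA g d (u l)) fun l => inV g d (v l))
  rw [Fintype.sum_sum_type] at h1
  rw [cur_apply, ← h1]
  congr 1
  · refine Finset.sum_congr rfl fun l _ => ?_
    rw [cur_apply, Sum.elim_inl, act_inA]
    congr 1
    funext l'
    rcases l' with l' | l'
    · by_cases h : l' = l
      · subst h
        rw [update_self, Sum.elim_inl, update_self]
      · rw [update_of_ne (by simpa using h), Sum.elim_inl, Sum.elim_inl, update_of_ne h]
    · rw [update_of_ne (by simp), Sum.elim_inr, Sum.elim_inr]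
  · refine Finset.sum_congr rfl fun l _ => ?_
    rw [cur_apply, Sum.elim_inr, act_inV]
    congr 1
    funext l'
    rcases l' with l' | l'
    · rw [update_of_ne (by simp), Sum.elim_inl, Sum.elim_inl]
    · by_cases h : l' = l
      · subst h
        rw [update_self, Sum.elim_inr, update_self]
      · rw [update_of_ne (by simpa using h), Sum.elim_inr, Sum.elim_inr, update_of_ne h]

/-- The conditions for the family. -/
structure Good (A : ∀ i, AbVar (g i)) (V : ∀ j, DRS (d j)) (r : I → ℕ) : Prop where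
  spin : ∀ i, SpinMat (A i) (r i)
  four : ∀ i i', i ≠ i' → r i ≤ 4 → 6 ≤ r i'
  same : ∀ i i', i ≠ i' → r i = r i' → NoIdeals (A i).NA ∧ NoIdeals (A i').NA
  small : ∀ i j, Sep (ηη A V) (Sum.inl i) (Sum.inr j)

section Main

variable {A : ∀ i, AbVar (g i)} {V : ∀ j, DRS (d j)} {r : I → ℕ}

/-- The abelian members. -/
def isA (t : I ⊕ J) : Prop := t.isLeft = true

instance : DecidablePred (isA : I ⊕ J → Prop) := fun t => inferInstanceAs (Decidable (t.isLeft = true))

theorem Good.perf (h : Good A V r) (s : I ⊕ J) (hs : isA s) :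
    gg (ηη A V) s ≤ brk (gg (ηη A V) s) (gg (ηη A V) s) := by
  rcases s with i | j
  · exact (gg_spin (h.spin i)).perf (h.spin i).three
  · exact absurd hs (by simp [isA])

theorem Good.six (h : Good A V r) {i i' : I} (hne : i ≠ i') (hr : r i = r i') : 6 ≤ r i := by
  by_contra hcon
  have h1 := (h.spin i).ne
  have h2 := h.four i i' hne (by omega)
  omega

theorem Good.noIdeals (h : Good A V r) {i i' : I} (hne : i ≠ i') (hr : r i = r i') :
    NoIdeals (gg (ηη A V) (Sum.inl i)) := by
  have h1 := (h.same i i' hne hr).1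
  have h2 := gg_eq (V := V) (h.spin i)
  rw [← h2] at h1
  exact h1

theorem Good.sep_ne (h : Good A V r) {i i' : I} (hr : r i ≠ r i') :
    Sep (ηη A V) (Sum.inl i) (Sum.inl i') := by
  have hne : i ≠ i' := fun h' => hr (by rw [h'])
  refine sep_pair (gg_spin (h.spin i)) (gg_spin (h.spin i')) (h.spin i).three (h.spin i').three hr ?_
  by_contra hcon
  have h1 := (h.spin i).ne
  have h2 := (h.spin i').ne
  have h3 : r i ≤ max (r i) (r i') := le_max_left _ _
  have h4 : r i' ≤ max (r i) (r i') := le_max_right _ _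
  have h5 := h.four i i' hne (by omega)
  omega

theorem Good.dich (h : Good A V r) (s t : I ⊕ J) (hs : isA s) (ht : isA t) :
    Linked (ηη A V) s t ∨ Sep (ηη A V) s t := by
  rcases s with i | j
  swap
  · exact absurd hs (by simp [isA])
  rcases t with i' | j
  swap
  · exact absurd ht (by simp [isA])
  by_cases hne : i = i'
  · subst hne
    exact Or.inl (Linked.refl _)
  by_cases hr : r i = r i'
  · exact link_or_sep (h.noIdeals hne hr) (h.noIdeals (Ne.symm hne) hr.symm) (h.perf _ hs)
  · exact Or.inr (h.sep_ne hr)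

theorem Good.sepV (h : Good A V r) (s t : I ⊕ J) (hs : isA s) (ht : ¬isA t) :
    Sep (ηη A V) s t := by
  rcases s with i | j
  swap
  · exact absurd hs (by simp [isA])
  rcases t with i' | j
  · exact absurd rfl ht
  exact h.small i j

/-- Linked and separated members are trivial. -/
theorem bot_of_both {T : Type} [Fintype T] [DecidableEq T] {n : T → ℕ}
    {η : ∀ t, Basis (Fin (n t)) ℂ ((Fin (n t) → ℚ) →ₗ[ℚ] ℂ)} {s t : T} (h1 : Linked η s t)
    (h2 : Sep η s t) (hperf : gg η s ≤ brk (gg η s) (gg η s)) : gg η s = ⊥ := by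
  have h3 : gg η s ≤ ((LG η ⊓ at0 t) ⊓ tw0).map (pr s) := by
    refine step (pr_hm s (LG η)) hperf inf_le_left inf_le_left h2 h2 fun x hx y hy => ?_
    exact ⟨(idl_at0 η t).2 x hx.1 y hy, br_snd x y⟩
  rw [eq_bot_iff]
  intro X hX
  obtain ⟨ℓ, hℓ, rfl⟩ := h3 hX
  rw [Submodule.mem_bot]
  refine (h1 ℓ hℓ.1.1).2 ?_
  have e1 : ℓ.2 = 0 := hℓ.2
  have e2 : ℓ.1 t = 0 := hℓ.1.2
  rw [pr_apply, e1, e2, zero_div, zero_smul, sub_zero]

/-- The complex structure. -/
theorem Good.J_mem (h : Good A V r) (lam : ℝ →ₗ[ℚ] ℚ) :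
    ∃ X : ∀ t, Module.End ℚ (Fin (nn g d t) → ℚ), ((X, 0) : RR (nn g d)) ∈ LG (ηη A V) ∧
      (∀ i, X (Sum.inl i) = (A i).cmpE lam AbVar.JJ) ∧ ∀ j, X (Sum.inr j) = 0 := by
  let X : ∀ t, Module.End ℚ (Fin (nn g d t) → ℚ) := fun t => match t with
    | Sum.inl i => (A i).cmpE lam AbVar.JJ
    | Sum.inr j => 0
  have hXm : ∀ i, ∀ lam, ((A i).cmpE lam AbVar.JJ : Module.End ℚ (A i).H1) ∈
      gg (ηη A V) (Sum.inl i) := by
    intro i lam
    rw [gg_eq (h.spin i)]
    exact (A i).MA_le_NA ((A i).J_mem lam)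
  refine ⟨X, compat_mem (a := isA) h.perf h.dich h.sepV ?_ ?_ ?_, fun i => rfl, fun j => rfl⟩
  · intro t ht
    rcases t with i | j
    · exact absurd rfl ht
    · rfl
  · intro t ht
    rcases t with i | j
    · exact hXm i lam
    · exact absurd ht (by simp [isA])
  · intro s t hs ht hst
    rcases s with i | j
    swap
    · exact absurd hs (by simp [isA])
    rcases t with i' | j
    swap
    · exact absurd ht (by simp [isA])
    by_cases hne : i = i'
    · subst hne
      obtain ⟨ℓ, hℓ, h1⟩ := hXm i lam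
      exact ⟨ℓ, hℓ, Prod.ext h1 h1⟩
    by_cases hr : r i = r i'
    · refine link_compat hst (gg_spin (h.spin i)) (by rw [hr]; exact gg_spin (h.spin i'))
        (h.six hne hr) (h.noIdeals (Ne.symm hne) hr.symm)
        (Js := fun lam => (A i).cmpE lam AbVar.JJ) (Jt := fun lam => (A i').cmpE lam AbVar.JJ)
        (hXm i) (hXm i') (fun f hf lam => ?_) (fun f hf => J_zero (A i) (A i') hf) lam
      refine J_comp (A i) (A i') ((A i).hodge_hom (A i') ?_) lam
      obtain ⟨a, ha⟩ := hom_of_comm (ηη A V) (s := Sum.inl i) (t := Sum.inl i') hf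
      refine ⟨fun p q => a (eqv (g i') p) (eqv (g i) q), fun p w => ?_⟩
      have h1 : (A i').dR p (f w) = ηA A i' (eqv (g i') p) (f w) := by
        unfold ηA
        rw [Basis.reindex_apply, Equiv.symm_apply_apply, (A i').coe_basis]
      have h2 : ∀ q, ηA A i (eqv (g i) q) w = (A i).dR q w := by
        intro q
        unfold ηA
        rw [Basis.reindex_apply, Equiv.symm_apply_apply, (A i).coe_basis]
      have h3 : ηA A i' (eqv (g i') p) (f w) = ∑ q, algebraMap QBar ℂ (a (eqv (g i') p) q) *
          ηA A i q w := ha (eqv (g i') p) w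
      refine h1.trans (h3.trans ?_)
      refine (Equiv.sum_comp (eqv (g i)) (fun q => algebraMap QBar ℂ (a (eqv (g i') p) q) *
          ηA A i q w)).symm.trans ?_
      exact Finset.sum_congr rfl fun q _ => by rw [h2]
    · have h1 := bot_of_both hst (h.sep_ne hr) (h.perf _ hs)
      have h2 := hst.bot h1
      have e1 : ((A i).cmpE lam AbVar.JJ : Module.End ℚ (A i).H1) = 0 := by
        have h3 := hXm i lam
        rw [h1] at h3
        exact (Submodule.mem_bot ℚ).1 h3
      have e2 : ((A i').cmpE lam AbVar.JJ : Module.End ℚ (A i').H1) = 0 := by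
        have h3 := hXm i' lam
        rw [h2] at h3
        exact (Submodule.mem_bot ℚ).1 h3
      have h3 : (X (Sum.inl i), X (Sum.inl i')) = 0 := Prod.ext e1 e2
      rw [h3]
      exact Submodule.zero_mem _

/-- The normalized parts. -/
theorem Good.pr_mem (h : Good A V r) {ℓ : RR (nn g d)} (hℓ : ℓ ∈ LG (ηη A V)) :
    ∃ X : ∀ t, Module.End ℚ (Fin (nn g d t) → ℚ), ((X, 0) : RR (nn g d)) ∈ LG (ηη A V) ∧
      (∀ i, X (Sum.inl i) = pr (Sum.inl i) ℓ) ∧ ∀ j, X (Sum.inr j) = 0 := by
  let X : ∀ t, Module.End ℚ (Fin (nn g d t) → ℚ) := fun t => match t with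
    | Sum.inl i => pr (Sum.inl i) ℓ
    | Sum.inr j => 0
  refine ⟨X, compat_mem (a := isA) h.perf h.dich h.sepV ?_ ?_ ?_, fun i => rfl, fun j => rfl⟩
  · intro t ht
    rcases t with i | j
    · exact absurd rfl ht
    · rfl
  · intro t ht
    rcases t with i | j
    · exact ⟨ℓ, hℓ, rfl⟩
    · exact absurd ht (by simp [isA])
  · intro s t hs ht hst
    rcases s with i | j
    swap
    · exact absurd hs (by simp [isA])
    rcases t with i' | j
    swap
    · exact absurd ht (by simp [isA])
    exact ⟨ℓ, hℓ, rfl⟩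

variable {w : ℤ} {φ : MultilinearMap ℚ (fun _ : κ ⊕ κ' => Bt (nn g d)) ℚ}

/-- Elements of the Lie algebra which act trivially on the second part. -/
theorem cur_kills (hφ : IsTw (eB (ηη A V)) w φ) {X : ∀ t, Module.End ℚ (Fin (nn g d t) → ℚ)}
    (hX : ((X, 0) : RR (nn g d)) ∈ LG (ηη A V)) (hX0 : ∀ j, X (Sum.inr j) = 0)
    (v : κ' → ∀ j, Fin (d j) → ℚ) :
    ActsBy (act (n := fun i => 2 * g i) fun i => X (Sum.inl i)) (cur φ v) 0 := by
  have h1 := LG_le_LL _ hX (κ ⊕ κ') w φ hφ
  rw [mul_zero] at h1
  intro u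
  have h2 := cur_acts h1 v u
  have h3 : ∑ l, cur φ (update v l (act (n := d) (fun j => X (Sum.inr j)) (v l))) u = 0 := by
    refine Finset.sum_eq_zero fun l _ => ?_
    have h4 : act (n := d) (fun j => X (Sum.inr j)) (v l) = 0 := by
      funext j
      exact LinearMap.congr_fun (hX0 j) (v l j)
    rw [h4, (cur φ).map_coord_zero l (update_self _ _ _), zero_apply]
  rw [h3, add_zero] at h2
  exact h2

/-- The forms of the abelian part are Hodge classes. -/
theorem Good.cur_hodge (h : Good A V r) (hφ : IsTw (eB (ηη A V)) w φ)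
    (v : κ' → ∀ j, Fin (d j) → ℚ) (lam : ℝ →ₗ[ℚ] ℚ) : cur φ v ∈ actSub (JT A lam) 0 := by
  obtain ⟨X, hX, h1, h2⟩ := h.J_mem lam
  have h3 := cur_kills hφ hX h2 v
  have h4 : (act (n := fun i => 2 * g i) fun i => X (Sum.inl i)) = JT A lam := by
    refine LinearMap.ext fun u => funext fun i => ?_
    exact LinearMap.congr_fun (h1 i) (u i)
  rw [h4] at h3
  exact h3

/-- The forms of the abelian part are de Rham-Betti classes. -/
theorem Good.cur_tw (h : Good A V r) (hφ : IsTw (eB (ηη A V)) w φ) {m : ℤ}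
    (hm : (Fintype.card κ : ℤ) = 2 * m) (v : κ' → ∀ j, Fin (d j) → ℚ)
    (D : Derivation QBar ℂ ℂ) (lam : ℂ →ₗ[ℚ] ℚ) :
    cur φ v ∈ actSub (NN (eB (ηA A)) D lam) (m * tt D lam) := by
  obtain ⟨X, hX, h1, h2⟩ := h.pr_mem (gn_mem_LG _ D lam)
  have h3 := cur_kills hφ hX h2 v
  have h4 : NN (eB (ηA A)) D lam = (act (n := fun i => 2 * g i) fun i => X (Sum.inl i)) +
      (tt D lam / 2) • (1 : Module.End ℚ (∀ i, Fin (2 * g i) → ℚ)) := by
    refine LinearMap.ext fun u => funext fun i => ?_
    have e1 : (show Fin (2 * g i) → ℚ from X (Sum.inl i) (u i)) =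
        NN (ηA A i) D lam (u i) - (tt D lam / 2) • (u i) :=
      LinearMap.congr_fun (h1 i) (u i)
    rw [NN_eB]
    exact sub_eq_iff_eq_add.1 e1.symm
  rw [mem_actSub, h4]
  have h5 := h3.add ((actsBy_one (φ := cur φ v)).smul (tt D lam / 2))
  have h6 : 0 + tt D lam / 2 * (Fintype.card κ : ℚ) = m * tt D lam := by
    have : (Fintype.card κ : ℚ) = 2 * m := by exact_mod_cast hm
    rw [this]
    ring
  rw [h6] at h5
  exact h5

/-- **The decomposition.** -/
theorem Good.main (h : Good A V r) (hφ : IsTw (eB (ηη A V)) w φ) :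
    ∃ (K : ℕ) (ψ : Fin K → MultilinearMap ℚ (fun _ : κ => ∀ i, (A i).H1) ℚ)
      (χ : Fin K → MultilinearMap ℚ (fun _ : κ' => ∀ j, Fin (d j) → ℚ) ℚ) ,
      (∀ k, IsHodgeTensor (perT A) (ψ k)) ∧
      (∀ k, ∃ m : ℤ, (Fintype.card κ : ℤ) = 2 * m ∧ IsTw (eB (ηA A)) m (ψ k) ∧
        IsTw (eB fun j => (V j).basis) (w - m) (χ k)) ∧
      ∀ u v, cur φ v u = ∑ k, ψ k u * χ k v := by
  have hH : ∀ v, IsHodgeTensor (perT A) (cur φ v) := fun v => hodge_of_JT A fun lam =>
    actsBy_zero_iff.1 (h.cur_hodge hφ v lam)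
  rcases Nat.even_or_odd (Fintype.card κ) with heven | hodd
  swap
  · refine ⟨0, Fin.elim0, Fin.elim0, fun k => k.elim0, fun k => k.elim0, fun u v => ?_⟩
    rw [hodge_odd (hH v) hodd, Fin.sum_univ_zero]
    rfl
  obtain ⟨m, hm⟩ : ∃ m : ℤ, (Fintype.card κ : ℤ) = 2 * m := by
    obtain ⟨m, hm⟩ := heven
    exact ⟨m, by rw [hm]; push_cast; ring⟩
  let M : Submodule ℚ (MultilinearMap ℚ (fun _ : κ => ∀ i, Fin (2 * g i) → ℚ) ℚ) :=
    Submodule.span ℚ (Set.range (cur φ))
  let b := Module.finBasis ℚ M
  have hM : ∀ v, cur φ v ∈ M := fun v => Submodule.subset_span ⟨v, rfl⟩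
  have hM1 : ∀ lam, M ≤ actSub (JT A lam) 0 := by
    intro lam
    refine Submodule.span_le.2 ?_
    rintro _ ⟨v, rfl⟩
    exact h.cur_hodge hφ v lam
  have hM2 : ∀ D lam, M ≤ actSub (NN (eB (ηA A)) D lam) (m * tt D lam) := by
    intro D lam
    refine Submodule.span_le.2 ?_
    rintro _ ⟨v, rfl⟩
    exact h.cur_tw hφ hm v D lam
  choose c hc using fun k => LinearMap.exists_extend (b.coord k)
  have hc' : ∀ k (x : M), c k x = b.coord k x := fun k x => LinearMap.congr_fun (hc k) x
  refine ⟨finrank ℚ M, fun k => (b k : MultilinearMap ℚ (fun _ : κ => ∀ i, Fin (2 * g i) → ℚ) ℚ),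
    fun k => (c k).compMultilinearMap (cur φ), fun k => ?_, fun k => ?_, fun u v => ?_⟩
  · exact hodge_of_JT A fun lam => actsBy_zero_iff.1 (hM1 lam (b k).2)
  · refine ⟨m, hm, tw_of_acts _ fun D lam => hM2 D lam (b k).2, tw_of_acts _ fun D lam v => ?_⟩
    have h1 : ∑ l, cur φ (update v l (NN (eB fun j => (V j).basis) D lam (v l))) =
        (((w - m : ℤ) : ℚ) * tt D lam) • cur φ v := by
      refine MultilinearMap.ext fun u => ?_
      have h2 := cur_acts (LG_le_LL _ (gn_mem_LG (ηη A V) D lam) (κ ⊕ κ') w φ hφ) v u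
      have h3 := h.cur_tw hφ hm v D lam u
      have h4 : ∀ x, act (n := fun i => 2 * g i)
          (fun i => (gn (ηη A V) D lam).1 (Sum.inl i)) x = NN (eB (ηA A)) D lam x := by
        intro x
        funext i
        rw [NN_eB]
        rfl
      have h5 : ∀ x, act (n := d) (fun j => (gn (ηη A V) D lam).1 (Sum.inr j)) x =
          NN (eB fun j => (V j).basis) D lam x := by
        intro x
        funext j
        rw [NN_eB]
        rfl
      simp only [h4, h5] at h2
      rw [h3] at h2
      have h6 : (gn (ηη A V) D lam).2 = tt D lam := rfl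
      rw [h6] at h2
      rw [sum_apply, smul_apply, smul_eq_mul]
      push_cast
      linear_combination h2
    have h2 := congrArg (c k) h1
    rw [map_sum, map_smul, smul_eq_mul] at h2
    exact h2
  · have h1 := b.sum_repr ⟨cur φ v, hM v⟩
    have h2 := congrArg (fun x : M =>
      (x : MultilinearMap ℚ (fun _ : κ => ∀ i, Fin (2 * g i) → ℚ) ℚ) u) h1
    simp only [AddSubmonoidClass.coe_finsetSum, SetLike.val_smul, sum_apply,
      smul_apply, smul_eq_mul] at h2
    rw [← h2]
    refine Finset.sum_congr rfl fun k _ => ?_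
    rw [LinearMap.compMultilinearMap_apply]
    have h3 := hc' k ⟨cur φ v, hM v⟩
    rw [Basis.coord_apply] at h3
    rw [← h3]
    ring

end Main

end Pool.Agent.N192.GP
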