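import Pool.Agent.N192.GP.Wt

set_option autoImplicit false
set_option linter.unusedSectionVars false
set_option linter.unusedVariables false

/-!
# The dimension of the representations of orthogonal Lie algebras, continued
-/

open Module

noncomputable section

namespace Pool.Agent.N192.GP

variable {M : Type*} [AddCommGroup M] [Module ℂ M] {r : ℕ} {Y : ℕ → ℕ → End ℂ M} {m : ℕ}
  [FiniteDimensional ℂ M]

/-- The short root vectors shift one coordinate. -/
theorem SoRel.shift_mem (h : SoRel r Y) (hm : 2 * m < r) {χ : Fin m → ℂ} {v : M}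
    (hv : v ∈ WS Y m χ) (i : Fin m) :
    (Y (2 * i) (2 * m) + Complex.I • Y (2 * i + 1) (2 * m)) v ∈
        WS Y m (Function.update χ i (χ i + 2)) ∧
      (Y (2 * i) (2 * m) - Complex.I • Y (2 * i + 1) (2 * m)) v ∈
        WS Y m (Function.update χ i (χ i - 2)) := by
  have hi := i.2
  have hc : ∀ l : Fin m, l ≠ i → ∀ e, e = 2 * (i : ℕ) ∨ e = 2 * (i : ℕ) + 1 →
      Y e (2 * m) * Hh Y l = Hh Y l * Y e (2 * m) := by
    intro l hl e he
    have h4 := l.2
    have h6 : (l : ℕ) ≠ i := fun h => hl (Fin.ext h)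
    unfold Hh
    rw [mul_smul_comm, smul_mul_assoc]
    congr 1
    exact h.comm _ _ _ _ (by omega) (by omega) (by omega) (by omega) (by omega)
      (by omega) (by omega) (by omega) (by omega) (by omega)
  constructor
  · refine mem_WS.2 fun l => ?_
    by_cases hl : l = i
    · subst hl
      rw [Function.update_self]
      exact gen_shift (h.plus (a := 2 * l) (b := 2 * l + 1) (c := 2 * m) (by omega) (by omega)
        (by omega) (by omega) (by omega) (by omega)) (mem_WS.1 hv l)
    · rw [Function.update_of_ne hl]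
      refine gen_map (T' := Hh Y l) ?_ (mem_WS.1 hv l)
      rw [add_mul, mul_add, smul_mul_assoc, mul_smul_comm, hc l hl _ (Or.inl rfl),
        hc l hl _ (Or.inr rfl)]
  · refine mem_WS.2 fun l => ?_
    by_cases hl : l = i
    · subst hl
      rw [Function.update_self, sub_eq_add_neg]
      refine gen_shift ?_ (mem_WS.1 hv l)
      rw [neg_smul, ← sub_eq_add_neg]
      exact h.minus (a := 2 * l) (b := 2 * l + 1) (c := 2 * m) (by omega) (by omega)
        (by omega) (by omega) (by omega) (by omega)
    · rw [Function.update_of_ne hl]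
      refine gen_map (T' := Hh Y l) ?_ (mem_WS.1 hv l)
      rw [sub_mul, mul_sub, smul_mul_assoc, mul_smul_comm, hc l hl _ (Or.inl rfl),
        hc l hl _ (Or.inr rfl)]

theorem two_pow_ge {m : ℕ} (hm : 3 ≤ m) : 2 * m + 1 ≤ 2 ^ m := by
  induction m, hm using Nat.le_induction with
  | base => norm_num
  | succ n hn ih =>
    rw [pow_succ]
    omega

/-- Representations in odd rank. -/
theorem SoRel.odd (h : SoRel r Y) (hm : r = 2 * m + 1) (hm3 : 3 ≤ m) {c d : ℕ} (hc : c < r)
    (hd : d < r) (hcd : c ≠ d) (hne : Y c d ≠ 0) : r ≤ finrank ℂ M := by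
  have ho := h.occ (m := m) (by omega) (by omega) hc hd hcd hne
  have hle := h.ncard_le (m := m) (by omega)
  have hfin := h.fin (m := m) (by omega)
  have hcl1 := h.cl1 (m := m) (by omega)
  have hcl2 := hcl1.two
  by_cases ht : Thin (XX Y m)
  swap
  · unfold Thin at ht
    push Not at ht
    obtain ⟨χ, hχ, hχ0⟩ := ht
    have h1 := hcl1.card_ge hfin hχ hχ0
    have h2 := two_pow_ge hm3
    omega
  by_contra hcon
  -- the weights cannot be moved away from zero
  have hA : ∀ χ ∈ XX Y m, ∀ l, χ l = 0 → ∀ t, t ≠ 0 → Function.update χ l t ∉ XX Y m := by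
    intro χ hχ l hl t ht0 hmem
    have h1 := thin_more hcl2 hfin ht ho hmem (i := l) (by rw [Function.update_self]; exact ht0)
      (c := 0) (by rw [Function.update_self]; exact ht0.symm) (by
        rw [Function.update_self]
        exact fun h => ht0 (neg_eq_zero.1 h.symm)) (by
        rw [Function.update_idem, ← hl, Function.update_eq_self]
        exact hχ)
    omega
  have hB : ∀ χ : Fin m → ℂ, ∀ l, χ l = 0 → ∀ v ∈ WS Y m χ,
      Y (2 * l) (2 * m) v = 0 ∧ Y (2 * l + 1) (2 * m) v = 0 := by
    intro χ l hl v hv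
    by_cases hχ : WS Y m χ = ⊥
    · rw [hχ, Submodule.mem_bot] at hv
      rw [hv, map_zero, map_zero]
      exact ⟨rfl, rfl⟩
    obtain ⟨h1, h2⟩ := h.shift_mem (m := m) (by omega) hv l
    have h3 : WS Y m (Function.update χ l (χ l + 2)) = ⊥ := by
      by_contra h4
      exact hA χ hχ l hl (χ l + 2) (by rw [hl, zero_add]; exact two_ne_zero) h4
    have h3' : WS Y m (Function.update χ l (χ l - 2)) = ⊥ := by
      by_contra h4
      exact hA χ hχ l hl (χ l - 2) (by rw [hl, zero_sub]; exact neg_ne_zero.2 two_ne_zero) h4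
    rw [h3, Submodule.mem_bot, LinearMap.add_apply, LinearMap.smul_apply] at h1
    rw [h3', Submodule.mem_bot, LinearMap.sub_apply, LinearMap.smul_apply] at h2
    constructor
    · have e3 : (2 : ℂ) • Y (2 * l) (2 * m) v =
          (Y (2 * l) (2 * m) v + Complex.I • Y (2 * l + 1) (2 * m) v) +
            (Y (2 * l) (2 * m) v - Complex.I • Y (2 * l + 1) (2 * m) v) := by module
      rw [h1, h2, add_zero] at e3
      exact (smul_eq_zero.1 e3).resolve_left two_ne_zero
    · have e3 : (2 : ℂ) • Complex.I • Y (2 * l + 1) (2 * m) v =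
          (Y (2 * l) (2 * m) v + Complex.I • Y (2 * l + 1) (2 * m) v) -
            (Y (2 * l) (2 * m) v - Complex.I • Y (2 * l + 1) (2 * m) v) := by module
      rw [h1, h2, sub_zero] at e3
      exact (smul_eq_zero.1 ((smul_eq_zero.1 e3).resolve_left two_ne_zero)).resolve_left
        Complex.I_ne_zero
  -- the other coordinates vanish
  have hC : ∀ χ ∈ XX Y m, ∀ l, χ l = 0 → ∀ i, χ i = 0 := by
    intro χ hχ l hl i
    by_cases hil : i = l
    · rw [hil]; exact hl
    have hil' : (i : ℕ) ≠ l := fun h => hil (Fin.ext h)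
    have hi := i.2
    have hl2 := l.2
    obtain ⟨v, hv, hv0⟩ := (Submodule.ne_bot_iff _).1 hχ
    obtain ⟨h1, h2⟩ := h.shift_mem (m := m) (by omega) hv i
    have k1 := (hB _ l (by rw [Function.update_of_ne (Ne.symm hil)]; exact hl) _ h1).1
    have k2 := (hB _ l (by rw [Function.update_of_ne (Ne.symm hil)]; exact hl) _ h2).1
    rw [LinearMap.add_apply, LinearMap.smul_apply, map_add, map_smul] at k1
    rw [LinearMap.sub_apply, LinearMap.smul_apply, map_sub, map_smul] at k2
    have k3 : Y (2 * l) (2 * m) (Y (2 * i) (2 * m) v) = 0 := by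
      have e3 : (2 : ℂ) • Y (2 * l) (2 * m) (Y (2 * i) (2 * m) v) =
          (Y (2 * l) (2 * m) (Y (2 * i) (2 * m) v) +
            Complex.I • Y (2 * l) (2 * m) (Y (2 * i + 1) (2 * m) v)) +
            (Y (2 * l) (2 * m) (Y (2 * i) (2 * m) v) -
              Complex.I • Y (2 * l) (2 * m) (Y (2 * i + 1) (2 * m) v)) := by module
      rw [k1, k2, add_zero] at e3
      exact (smul_eq_zero.1 e3).resolve_left two_ne_zero
    have k4 : Y (2 * l) (2 * m) (Y (2 * i + 1) (2 * m) v) = 0 := by
      have e3 : (2 : ℂ) • Complex.I • Y (2 * l) (2 * m) (Y (2 * i + 1) (2 * m) v) =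
          (Y (2 * l) (2 * m) (Y (2 * i) (2 * m) v) +
            Complex.I • Y (2 * l) (2 * m) (Y (2 * i + 1) (2 * m) v)) -
            (Y (2 * l) (2 * m) (Y (2 * i) (2 * m) v) -
              Complex.I • Y (2 * l) (2 * m) (Y (2 * i + 1) (2 * m) v)) := by module
      rw [k1, k2, sub_zero] at e3
      exact (smul_eq_zero.1 ((smul_eq_zero.1 e3).resolve_left two_ne_zero)).resolve_left
        Complex.I_ne_zero
    have k5 := (hB χ l hl v hv).1
    have hanti : Y (2 * m) (2 * l) = -Y (2 * l) (2 * m) :=
      h.anti _ _ (by omega) (by omega) (by omega)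
    have key : ∀ e, e < r → e ≠ 2 * m → e ≠ 2 * l → Y (2 * l) (2 * m) (Y e (2 * m) v) = 0 →
        Y e (2 * l) v = 0 := by
      intro e he he1 he2 h0
      have e1 := congrArg (fun f : End ℂ M => f v)
        (h.br e (2 * m) (2 * l) he (by omega) (by omega) he1 (by omega) he2)
      simp only [LinearMap.sub_apply, Module.End.mul_apply, LinearMap.smul_apply, hanti,
        LinearMap.neg_apply, k5, h0, neg_zero, map_zero, sub_zero] at e1
      exact (smul_eq_zero.1 e1.symm).resolve_left two_ne_zero
    have k6 := key (2 * i) (by omega) (by omega) (by omega) k3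
    have k7 := key (2 * i + 1) (by omega) (by omega) (by omega) k4
    have k8 : Y (2 * l) (2 * i + 1) v = 0 := by
      rw [h.anti (2 * l) (2 * i + 1) (by omega) (by omega) (by omega), LinearMap.neg_apply, k7,
        neg_zero]
    have k9 : Y (2 * i) (2 * i + 1) v = 0 := by
      have e1 := congrArg (fun f : End ℂ M => f v)
        (h.br (2 * i) (2 * l) (2 * i + 1) (by omega) (by omega) (by omega) (by omega) (by omega)
          (by omega))
      simp only [LinearMap.sub_apply, Module.End.mul_apply, LinearMap.smul_apply, k6, k8, map_zero,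
        sub_zero] at e1
      exact (smul_eq_zero.1 e1.symm).resolve_left two_ne_zero
    by_contra hχi
    have h6 : v ∈ (Hh Y i).maxGenEigenspace 0 := by
      rw [End.mem_maxGenEigenspace]
      refine ⟨1, ?_⟩
      rw [pow_one, zero_smul, sub_zero]
      change (-Complex.I • Y (2 * i) (2 * i + 1)) v = 0
      rw [LinearMap.smul_apply, k9, smul_zero]
    have h5 : Disjoint ((Hh Y i).maxGenEigenspace 0) ((Hh Y i).maxGenEigenspace (χ i)) :=
      End.disjoint_genEigenspace _ (Ne.symm hχi) ⊤ ⊤
    exact hv0 (Submodule.disjoint_def.1 h5 v h6 (mem_WS.1 hv i))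
  obtain ⟨χ, hχ, hχ0⟩ := ho ⟨0, by omega⟩
  obtain ⟨l, hl⟩ := ht χ hχ
  exact hχ0 (hC χ hχ l hl _)

/-- Representations in even rank. -/
theorem SoRel.even (h : SoRel r Y) (hm : r = 2 * m) (hm3 : 3 ≤ m) {c d : ℕ} (hc : c < r)
    (hd : d < r) (hcd : c ≠ d) (hne : Y c d ≠ 0) : 2 * m ≤ finrank ℂ M ∨
      2 ^ (m - 1) ≤ finrank ℂ M := by
  have ho := h.occ (m := m) (by omega) (by omega) hc hd hcd hne
  have hle := h.ncard_le (m := m) (by omega)
  have hfin := h.fin (m := m) (by omega)
  have hcl2 := h.cl2 (m := m) (by omega)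
  by_cases ht : Thin (XX Y m)
  · left
    have h1 := thin_card hcl2 hfin ht ho
    have h2 : (XX Y m \ {0}).ncard ≤ (XX Y m).ncard := Set.ncard_le_ncard Set.sdiff_subset hfin
    omega
  · right
    unfold Thin at ht
    push Not at ht
    obtain ⟨χ, hχ, hχ0⟩ := ht
    exact (hcl2.card_ge hfin hχ hχ0 (by omega)).trans hle

/-- The smallest dimension of a representation. -/
def beta (r : ℕ) : ℕ := if r = 6 then 4 else r

/-- **The dimension of the nontrivial representations of the orthogonal Lie algebra of rank `r ≥ 6` is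
at least `r`, or four if the rank is six.** -/
theorem SoRel.dim (h : SoRel r Y) (h6 : 6 ≤ r) {c d : ℕ} (hc : c < r)
    (hd : d < r) (hcd : c ≠ d) (hne : Y c d ≠ 0) : beta r ≤ finrank ℂ M := by
  unfold beta
  rcases Nat.even_or_odd' r with ⟨m, hm | hm⟩
  · have h1 := h.even hm (by omega) hc hd hcd hne
    split_ifs with h2
    · have hm3 : m = 3 := by omega
      subst hm3
      norm_num at h1
      omega
    · have h3 : 2 * m ≤ 2 ^ (m - 1) := by
        obtain ⟨n, rfl⟩ : ∃ n, m = n + 1 := ⟨m - 1, by omega⟩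
        have h4 := two_pow_ge (m := n) (by omega)
        rw [Nat.add_sub_cancel]
        rcases Nat.lt_or_ge n 4 with h5 | h5
        · have h7 : n = 3 := by omega
          subst h7
          norm_num
        · obtain ⟨q, rfl⟩ : ∃ q, n = q + 1 := ⟨n - 1, by omega⟩
          have h8 := two_pow_ge (m := q) (by omega)
          rw [pow_succ]
          omega
      omega
  · rw [if_neg (by omega)]
    exact h.odd hm (by omega) hc hd hcd hne

end Pool.Agent.N192.GP
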