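import Pool.Agent.N192.GP.ClM

set_option autoImplicit false
set_option linter.unusedSectionVars false

/-!
# Endomorphisms of the orthogonal Lie algebra of rank eight
-/

open Matrix

namespace Pool.Agent.N192.GP

variable {r : ℕ}

theorem con_three' {Y : Mt r}
    (hY : ∀ Z : Mt r, Zᵀ = -Z →
      Y * (Y * (Y * Z - Z * Y) - (Y * Z - Z * Y) * Y) - (Y * (Y * Z - Z * Y) -
        (Y * Z - Z * Y) * Y) * Y = (-4 : ℂ) • (Y * Z - Z * Y)) (B : Mt r) :
    con (mm (Y * (Y * Y)) B + (-3 : ℂ) • mm (Y * Y) (Y * B) + (3 : ℂ) • mm Y (Y * (Y * B)) +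
      (-1 : ℂ) • mm 1 (Y * (Y * (Y * B))) + (4 : ℂ) • mm Y B + (-4 : ℂ) • mm 1 (Y * B)) = 0 := by
  rw [← con_zero]
  refine con_congr fun Z hZ => ?_
  have h2 := hY Z hZ
  have h3 : (Y * (Y * (Y * Z - Z * Y) - (Y * Z - Z * Y) * Y) - (Y * (Y * Z - Z * Y) -
      (Y * Z - Z * Y) * Y) * Y - (-4 : ℂ) • (Y * Z - Z * Y)) * B = 0 := by
    rw [sub_eq_zero.2 h2, zero_mul]
  rw [LinearMap.zero_apply, ← h3]
  simp only [LinearMap.add_apply, LinearMap.smul_apply, mm_apply]
  simp only [mul_sub, sub_mul, smul_mul_assoc, one_mul, mul_assoc]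
  module

theorem con_four {Y : Mt r} (h : Yᵀ = -Y)
    (hY : ∀ Z : Mt r, Zᵀ = -Z →
      Y * (Y * (Y * Z - Z * Y) - (Y * Z - Z * Y) * Y) - (Y * (Y * Z - Z * Y) -
        (Y * Z - Z * Y) * Y) * Y = (-4 : ℂ) • (Y * Z - Z * Y)) :
    (8 : ℂ) • (Y * (Y * (Y * Y))) + (8 - 3 * trace (Y * Y)) • (Y * Y) -
      (trace (Y * (Y * (Y * Y))) + 4 * trace (Y * Y)) • (1 : Mt r) = 0 := by
  have h1 := con_three' hY Y
  simp only [con_add, con_smul, con_mm] at h1
  have h3 : (Y * (Y * Y))ᵀ = -(Y * (Y * Y)) := by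
    rw [transpose_mul, transpose_mul, h]
    simp only [mul_neg, neg_mul, neg_neg, mul_assoc]
  have h2 : (Y * Y)ᵀ = Y * Y := by rw [transpose_mul, h, neg_mul_neg]
  have h4 : (Y * (Y * (Y * Y)))ᵀ = Y * (Y * (Y * Y)) := by
    rw [transpose_mul, h3, h]
    simp only [mul_neg, neg_mul, neg_neg, mul_assoc]
  rw [tr_skew h, tr_skew h3, h, h2, h3, h4] at h1
  simp only [mul_neg, neg_mul, neg_neg, one_mul, mul_assoc] at h1
  rw [← h1]
  module

theorem con_five {Y : Mt r} (h : Yᵀ = -Y)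
    (hY : ∀ Z : Mt r, Zᵀ = -Z →
      Y * (Y * (Y * Z - Z * Y) - (Y * Z - Z * Y) * Y) - (Y * (Y * Z - Z * Y) -
        (Y * Z - Z * Y) * Y) * Y = (-4 : ℂ) • (Y * Z - Z * Y)) :
    (-8 : ℂ) • (Y * (Y * (Y * (Y * Y)))) + (trace (Y * Y) - 8) • (Y * (Y * Y)) +
      (3 * trace (Y * (Y * (Y * Y))) + 4 * trace (Y * Y)) • Y = 0 := by
  have h1 := con_three' hY (Y * Y)
  simp only [con_add, con_smul, con_mm] at h1
  have h3 : (Y * (Y * Y))ᵀ = -(Y * (Y * Y)) := by
    rw [transpose_mul, transpose_mul, h]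
    simp only [mul_neg, neg_mul, neg_neg, mul_assoc]
  have h2 : (Y * Y)ᵀ = Y * Y := by rw [transpose_mul, h, neg_mul_neg]
  have h4 : (Y * (Y * (Y * Y)))ᵀ = Y * (Y * (Y * Y)) := by
    rw [transpose_mul, h3, h]
    simp only [mul_neg, neg_mul, neg_neg, mul_assoc]
  have h5 : (Y * (Y * (Y * (Y * Y))))ᵀ = -(Y * (Y * (Y * (Y * Y)))) := by
    rw [transpose_mul, h4, h]
    simp only [mul_neg, neg_mul, neg_neg, mul_assoc]
  rw [tr_skew h3, tr_skew h5, h2, h3, h4, h5] at h1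
  simp only [mul_neg, neg_mul, neg_neg, one_mul, mul_assoc] at h1
  rw [← h1]
  module

/-- **The two types for rank eight.** -/
theorem dich8 {Y : Mt r} (h : Yᵀ = -Y) (ht : trace (Y * Y) = -8)
    (hY : ∀ Z : Mt r, Zᵀ = -Z →
      Y * (Y * (Y * Z - Z * Y) - (Y * Z - Z * Y) * Y) - (Y * (Y * Z - Z * Y) -
        (Y * Z - Z * Y) * Y) * Y = (-4 : ℂ) • (Y * Z - Z * Y)) :
    Y * (Y * Y) = (-4 : ℂ) • Y ∨ Y * Y = -1 := by
  obtain ⟨t, ht4⟩ : ∃ t, t = trace (Y * (Y * (Y * Y))) := ⟨_, rfl⟩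
  have h4 := con_four h hY
  have h5 := con_five h hY
  rw [ht, ← ht4] at h4 h5
  -- multiplication of the first relation by `Y`
  have h6 : (8 : ℂ) • (Y * (Y * (Y * (Y * Y)))) + (32 : ℂ) • (Y * (Y * Y)) -
      (t - 32) • Y = 0 := by
    have e1 := congrArg (fun Z => Y * Z) h4
    simp only [mul_zero] at e1
    rw [← e1]
    simp only [mul_sub, mul_add, mul_smul_comm, mul_one]
    module
  have h7 : Y * (Y * Y) = (-(t / 8)) • Y := by
    have e1 : (16 : ℂ) • (Y * (Y * Y)) + (2 * t) • Y = 0 := by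
      have e2 := congrArg₂ (· + ·) h5 h6
      simp only [add_zero] at e2
      rw [← e2]
      module
    have e3 : Y * (Y * Y) - (-(t / 8)) • Y = (1 / 16 : ℂ) • ((16 : ℂ) • (Y * (Y * Y)) +
        (2 * t) • Y) := by module
    rw [← sub_eq_zero, e3, e1, smul_zero]
  have h8 : Y * (Y * (Y * Y)) = (-(t / 8)) • (Y * Y) := by rw [h7, mul_smul_comm]
  have h9 : (32 - t) • (Y * Y + 1) = 0 := by
    rw [h8] at h4
    rw [← h4]
    module
  rcases smul_eq_zero.1 h9 with h0 | h0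
  · left
    have e1 : t = 32 := by linear_combination -h0
    rw [h7, e1]
    norm_num
  · right
    exact eq_neg_of_add_eq_zero_left h0

open Pool.Agent.Y102 Module

variable {U : Type} [AddCommGroup U] [Module ℂ U] {E : Fin r → Module.End ℂ U}
  [FiniteDimensional ℂ U] [Nontrivial U]

theorem cl_two (hE : SP.CE E) {Y : Mt r} (hY : Yᵀ = -Y) (h : Y * Y = -1) (a : Fin r) :
    cl E Y * (cl E Y * E a - E a * cl E Y) - (cl E Y * E a - E a * cl E Y) * cl E Y = -E a := by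
  rw [cl_gen hE hY, Finset.mul_sum, Finset.sum_mul, ← Finset.sum_sub_distrib]
  have h7 : ∀ c, cl E Y * Y c a • E c - Y c a • E c * cl E Y = ∑ b, (Y b c * Y c a) • E b := by
    intro c
    rw [mul_smul_comm, smul_mul_assoc, ← smul_sub, cl_gen hE hY, Finset.smul_sum]
    refine Finset.sum_congr rfl fun b _ => ?_
    rw [smul_smul, mul_comm]
  simp only [h7]
  rw [Finset.sum_comm]
  have h8 : ∀ b, ∑ c, (Y b c * Y c a) • E b = (if b = a then (-1 : ℂ) else 0) • E b := by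
    intro b
    rw [← Finset.sum_smul, ← Matrix.mul_apply, h, Matrix.neg_apply, Matrix.one_apply]
    split_ifs <;> simp
  simp only [h8, ite_smul, zero_smul, Finset.sum_ite_eq', Finset.mem_univ, if_true, neg_smul,
    one_smul]

theorem RelE.dich (hE : SP.CE E) {y : Fin r → Fin r → Module.End ℂ U} (h : RelE E y)
    (h3 : 3 ≤ r) {i j : Fin r} (hij : i ≠ j) : y i j * y i j = -1 ∨ (r = 8 ∧ ∀ a,
      y i j * (y i j * E a - E a * y i j) - (y i j * E a - E a * y i j) * y i j = -E a) := by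
  choose Y hYs hY using fun i j => exists_cl hE (h.mem i j)
  have hneg : ∀ {X : Mt r}, Xᵀ = -X → (-X)ᵀ = -(-X) := by
    intro X hX
    rw [transpose_neg, hX]
  have hsm : ∀ {X : Mt r} (c : ℂ), Xᵀ = -X → (c • X)ᵀ = -(c • X) := by
    intro X c hX
    rw [transpose_smul, hX, smul_neg]
  have hrel : Rel Y := by
    refine ⟨hYs, fun i j => ?_, fun i j k hij hjk hik => ?_, fun i j Z hZ => ?_, fun Z hZ => ?_⟩
    · refine cl_inj hE (hYs i j) (hneg (hYs j i)) ?_
      rw [map_neg, ← hY, ← hY, ← h.anti]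
    · refine cl_inj hE (skew_br (hYs i j) (hYs j k)) (hsm _ (hYs i k)) ?_
      rw [← cl_br hE (hYs i j) (hYs j k), map_smul, ← hY, ← hY, ← hY]
      exact h.br i j k hij hjk hik
    · have s1 := skew_br (hYs i j) hZ
      have s2 := skew_br (hYs i j) s1
      have s3 := skew_br (hYs i j) s2
      refine cl_inj hE s3 (hsm _ s1) ?_
      rw [map_smul, ← cl_br hE (hYs i j) s2, ← cl_br hE (hYs i j) s1, ← cl_br hE (hYs i j) hZ,
        ← hY]
      exact h.three i j _ (cl_mem hZ)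
    · have hsk : ∀ i j, (Y i j * (Y i j * Z - Z * Y i j) - (Y i j * Z - Z * Y i j) * Y i j)ᵀ =
          -(Y i j * (Y i j * Z - Z * Y i j) - (Y i j * Z - Z * Y i j) * Y i j) := fun i j =>
        skew_br (hYs i j) (skew_br (hYs i j) hZ)
      refine cl_inj hE ?_ (hsm _ hZ) ?_
      · rw [transpose_sum, ← Finset.sum_neg_distrib]
        refine Finset.sum_congr rfl fun i _ => ?_
        rw [transpose_sum, ← Finset.sum_neg_distrib]
        exact Finset.sum_congr rfl fun j _ => hsk i j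
      · rw [map_sum, map_smul, ← h.cas _ (cl_mem hZ)]
        refine Finset.sum_congr rfl fun i _ => ?_
        rw [map_sum]
        refine Finset.sum_congr rfl fun j _ => ?_
        rw [← cl_br hE (hYs i j) (skew_br (hYs i j) hZ), ← cl_br hE (hYs i j) hZ, ← hY]
  have ht := hrel.tr h3 hij
  rcases dich8 (hYs i j) ht (hrel.three i j) with h1 | h1
  · left
    rw [hY]
    exact cl_sq hE (hYs i j) h1 ht
  · right
    constructor
    · rw [h1, trace_neg, trace_one, Fintype.card_fin] at ht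
      have h2 : (r : ℂ) = (8 : ℕ) := by
        push_cast
        linear_combination -ht
      exact_mod_cast h2
    · intro a
      rw [hY]
      exact cl_two hE (hYs i j) h1 a

end Pool.Agent.N192.GP
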