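import Mathlib

set_option autoImplicit false

/-!
# Lemmas of Goursat and Ribet

Lie algebras are subspaces of associative algebras which are closed under the brackets.
-/

namespace Pool.Agent.N192.GP

open Module

variable {k R P : Type} [Field k] [Ring R] [Algebra k R] [Ring P] [Algebra k P]

/-- closed under the brackets -/
def Br (𝔩 : Submodule k R) : Prop := ∀ x ∈ 𝔩, ∀ y ∈ 𝔩, x * y - y * x ∈ 𝔩

/-- an ideal -/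
def Idl (𝔫 𝔩 : Submodule k R) : Prop := 𝔫 ≤ 𝔩 ∧ ∀ x ∈ 𝔩, ∀ y ∈ 𝔫, x * y - y * x ∈ 𝔫

theorem Idl.symm {𝔫 𝔩 : Submodule k R} (h : Idl 𝔫 𝔩) {x y : R} (hx : x ∈ 𝔫) (hy : y ∈ 𝔩) :
    x * y - y * x ∈ 𝔫 := by
  have h1 := 𝔫.neg_mem (h.2 y hy x hx)
  rwa [neg_sub] at h1

/-- the span of the brackets -/
def brk (𝔤 𝔥 : Submodule k P) : Submodule k P :=
  Submodule.span k {Z | ∃ X ∈ 𝔤, ∃ Y ∈ 𝔥, Z = X * Y - Y * X}

/-- a homomorphism of Lie algebras on `𝔩` -/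
def Hm (p : R →ₗ[k] P) (𝔩 : Submodule k R) : Prop :=
  ∀ x ∈ 𝔩, ∀ y ∈ 𝔩, p (x * y - y * x) = p x * p y - p y * p x

/-- the basic step -/
theorem step {𝔩 𝔪 𝔫 𝔢 : Submodule k R} {p : R →ₗ[k] P} (hp : Hm p 𝔩) {𝔤 : Submodule k P}
    (hperf : 𝔤 ≤ brk 𝔤 𝔤) (h1 : 𝔪 ≤ 𝔩) (h2 : 𝔫 ≤ 𝔩) (hm : 𝔤 ≤ 𝔪.map p) (hn : 𝔤 ≤ 𝔫.map p)
    (he : ∀ x ∈ 𝔪, ∀ y ∈ 𝔫, x * y - y * x ∈ 𝔢) : 𝔤 ≤ 𝔢.map p := by
  refine hperf.trans ?_
  unfold brk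
  rw [Submodule.span_le]
  rintro _ ⟨X, hX, Y, hY, rfl⟩
  obtain ⟨x, hx, rfl⟩ := hm hX
  obtain ⟨y, hy, rfl⟩ := hn hY
  exact ⟨x * y - y * x, he x hx y hy, hp x (h1 hx) y (h2 hy)⟩

/-- The lemma of Ribet. -/
theorem ribet {B : Type} {𝔩 : Submodule k R} {p : R →ₗ[k] P} (hp : Hm p 𝔩)
    {𝔤 : Submodule k P} (hperf : 𝔤 ≤ brk 𝔤 𝔤) (hg : 𝔤 ≤ 𝔩.map p) {𝔫 : B → Submodule k R}
    (hn : ∀ b, Idl (𝔫 b) 𝔩) (S : Finset B) (hb : ∀ b ∈ S, 𝔤 ≤ (𝔫 b).map p) :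
    𝔤 ≤ (𝔩 ⊓ ⨅ b ∈ S, 𝔫 b).map p := by
  classical
  induction S using Finset.induction_on with
  | empty =>
    simpa using hg
  | insert b S hbS ih =>
    have h1 := ih fun b' hb' => hb b' (Finset.mem_insert_of_mem hb')
    have h2 := hb b (Finset.mem_insert_self b S)
    refine step hp hperf (𝔪 := 𝔩 ⊓ ⨅ b ∈ S, 𝔫 b) (𝔫 := 𝔫 b) inf_le_left (hn b).1 h1 h2 ?_
    intro x hx y hy
    have hx1 := hx.1
    have hx2 : ∀ b' ∈ S, x ∈ 𝔫 b' := fun b' hb' =>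
      (Submodule.mem_iInf _).1 ((Submodule.mem_iInf _).1 hx.2 b') hb'
    have hy1 := (hn b).1 hy
    have h3 : x * y - y * x ∈ 𝔫 b := (hn b).2 x hx1 y hy
    refine ⟨(hn b).1 h3, ?_⟩
    simp only [SetLike.mem_coe, Submodule.mem_iInf]
    intro b' hb'
    rcases Finset.mem_insert.1 hb' with rfl | hb'
    · exact h3
    · exact (hn b').symm (hx2 b' hb') hy1

/-- A chain of ideals with `[𝔫 0, 𝔫 k] ⊆ 𝔫 (k + 1)`. -/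
theorem nilp {𝔩 : Submodule k R} {p : R →ₗ[k] P} (hp : Hm p 𝔩) {𝔤 : Submodule k P}
    (hperf : 𝔤 ≤ brk 𝔤 𝔤) {𝔫 : ℕ → Submodule k R} (hn : ∀ b, 𝔫 b ≤ 𝔩)
    (h0 : 𝔤 ≤ (𝔫 0).map p) (hs : ∀ b, ∀ x ∈ 𝔫 0, ∀ y ∈ 𝔫 b, x * y - y * x ∈ 𝔫 (b + 1)) (b : ℕ) :
    𝔤 ≤ (𝔫 b).map p := by
  induction b with
  | zero => exact h0
  | succ b ih => exact step hp hperf (hn 0) (hn b) h0 ih (hs b)

variable [FiniteDimensional k R]

/-- The dimension of a kernel. -/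
theorem finrank_ker {Q : Type} [AddCommGroup Q] [Module k Q] (𝔩 : Submodule k R)
    (q : R →ₗ[k] Q) : finrank k (𝔩 ⊓ LinearMap.ker q : Submodule k R) + finrank k (𝔩.map q) =
      finrank k 𝔩 := by
  have h1 := LinearMap.finrank_range_add_finrank_ker (q.domRestrict 𝔩)
  have h2 : LinearMap.range (q.domRestrict 𝔩) = 𝔩.map q := by
    ext x
    simp
  have h3 : finrank k (LinearMap.ker (q.domRestrict 𝔩)) =
      finrank k (𝔩 ⊓ LinearMap.ker q : Submodule k R) := by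
    have h4 : 𝔩 ⊓ LinearMap.ker q = (LinearMap.ker (q.domRestrict 𝔩)).map 𝔩.subtype := by
      ext x
      constructor
      · rintro ⟨hx, hx'⟩
        exact ⟨⟨x, hx⟩, hx', rfl⟩
      · rintro ⟨⟨x, hx⟩, hx', rfl⟩
        exact ⟨hx, hx'⟩
    rw [h4]
    exact (LinearEquiv.finrank_eq (Submodule.equivMapOfInjective _ 𝔩.subtype_injective _))
  rw [h2, h3] at h1
  omega

/-- An ideal of small codimension is mapped onto `𝔤`. -/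
theorem full_of_finrank {𝔩 𝔫 : Submodule k R} {p : R →ₗ[k] P} (hp : Hm p 𝔩)
    {𝔤 : Submodule k P} (hg : 𝔩.map p = 𝔤) (hn : Idl 𝔫 𝔩) {δ : ℕ}
    (hid : ∀ I : Submodule k P, Idl I 𝔤 → I ≠ 𝔤 → finrank k I + δ ≤ finrank k 𝔤)
    (hd : finrank k 𝔩 < finrank k 𝔫 + δ) : 𝔤 ≤ 𝔫.map p := by
  have h1 : Idl (𝔫.map p) 𝔤 := by
    refine ⟨hg ▸ Submodule.map_mono hn.1, ?_⟩
    intro X hX Y hY
    rw [← hg] at hX
    obtain ⟨x, hx, rfl⟩ := hX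
    obtain ⟨y, hy, rfl⟩ := hY
    exact ⟨x * y - y * x, hn.2 x hx y hy, hp x hx y (hn.1 hy)⟩
  by_contra h
  have h2 := hid _ h1 fun he => h he.ge
  have h3 := finrank_ker 𝔩 p
  have h4 := finrank_ker 𝔫 p
  have h5 : finrank k (𝔫 ⊓ LinearMap.ker p : Submodule k R) ≤
      finrank k (𝔩 ⊓ LinearMap.ker p : Submodule k R) :=
    Submodule.finrank_mono (inf_le_inf_right _ hn.1)
  rw [hg] at h3
  omega

theorem finrank_inf_ge (𝔩 𝔪 : Submodule k R) {Q : Type} [AddCommGroup Q] [Module k Q]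
    [FiniteDimensional k Q] (q : 𝔪 →ₗ[k] Q) {𝔢 : Submodule k R} (h1 : 𝔩 ≤ 𝔪)
    (h : ∀ x (hx : x ∈ 𝔩), q ⟨x, h1 hx⟩ = 0 → x ∈ 𝔢) :
    finrank k 𝔩 ≤ finrank k (𝔩 ⊓ 𝔢 : Submodule k R) + finrank k Q := by
  let f : 𝔩 →ₗ[k] Q := q ∘ₗ Submodule.inclusion h1
  have h2 := LinearMap.finrank_range_add_finrank_ker f
  have h3 := Submodule.finrank_le (LinearMap.range f)
  have h4 : finrank k (LinearMap.ker f) ≤ finrank k (𝔩 ⊓ 𝔢 : Submodule k R) := by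
    have h5 : (LinearMap.ker f).map 𝔩.subtype ≤ 𝔩 ⊓ 𝔢 := by
      rintro _ ⟨⟨x, hx⟩, hx', rfl⟩
      exact ⟨hx, h x hx hx'⟩
    have h6 := Submodule.finrank_mono h5
    rwa [← (LinearEquiv.finrank_eq (Submodule.equivMapOfInjective _ 𝔩.subtype_injective
      (LinearMap.ker f)))] at h6
  omega

end Pool.Agent.N192.GP
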