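import Pool.Agent.N192.GP.Tw
import Pool.Agent.N192.GP.Ribet

set_option autoImplicit false
set_option linter.unusedSectionVars false

/-!
# Families of de Rham-Betti structures
-/

open Module Function TensorProduct

noncomputable section

namespace Pool.Agent.N192.GP

open Pool.Agent.Y102 Pool.Agent.W516.DR Pool.Agent.H204R3.GP Pool.Agent.W516.KC
  Pool.Agent.H204R3.SP

/-! ### Maps to another structure -/

theorem cmp_bcg {W W' : Type} [AddCommGroup W] [Module ℚ W] [AddCommGroup W'] [Module ℚ W']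
    [FiniteDimensional ℚ W] [FiniteDimensional ℚ W']
    (lam : ℂ →ₗ[ℚ] ℚ) (f : W →ₗ[ℚ] W') (z : ℂ ⊗[ℚ] W) :
    cmp lam (f.baseChange ℂ z) = f (cmp lam z) := by
  induction z with
  | zero => simp only [map_zero]
  | add z z' h h' => simp only [map_add, h, h']
  | tmul a w => rw [LinearMap.baseChange_tmul, cmp_tmul, cmp_tmul, map_smul]

/-- Reindexing does not change the logarithmic derivative. -/
theorem NN_reindex {W ι ι' : Type} [AddCommGroup W] [Module ℚ W] [FiniteDimensional ℚ W]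
    [Fintype ι] [DecidableEq ι] [Fintype ι'] [DecidableEq ι'] (η : Basis ι ℂ (W →ₗ[ℚ] ℂ))
    (e : ι ≃ ι') (D : Derivation QBar ℂ ℂ) (lam : ℂ →ₗ[ℚ] ℚ) :
    NN (η.reindex e) D lam = NN η D lam := by
  refine LinearMap.ext fun u => ?_
  rw [NN_apply, NN_apply]
  congr 1
  apply ext_etaL η
  intro i
  rw [etaL_XX_one]
  have h1 := etaL_XX_one (η.reindex e) D u (e i)
  have h2 : ∀ z, etaL (η.reindex e) (e i) z = etaL η i z := by
    intro z
    induction z with
    | zero => simp only [map_zero]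
    | add z z' h h' => simp only [map_add, h, h']
    | tmul a w =>
      rw [etaL_tmul, etaL_tmul, Basis.reindex_apply, Equiv.symm_apply_apply]
  rw [h2, Basis.reindex_apply, Equiv.symm_apply_apply] at h1
  exact h1

theorem IsTw_reindex {W ι ι' κ : Type} [AddCommGroup W] [Module ℚ W] [FiniteDimensional ℚ W]
    [Fintype ι] [DecidableEq ι] [Fintype ι'] [DecidableEq ι'] [Fintype κ] [DecidableEq κ]
    (η : Basis ι ℂ (W →ₗ[ℚ] ℂ)) (e : ι ≃ ι') {w : ℤ}
    {φ : MultilinearMap ℚ (fun _ : κ => W) ℚ} :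
    IsTw (η.reindex e) w φ ↔ IsTw η w φ := by
  rw [tw_iff, tw_iff]
  simp only [NN_reindex]

/-! ### Families -/

section Fam

variable {T : Type} [Fintype T] [DecidableEq T] {n : T → ℕ}

/-- The Betti side of the sum. -/
abbrev Bt (n : T → ℕ) : Type := ∀ t, Fin (n t) → ℚ

variable (η : ∀ t, Basis (Fin (n t)) ℂ ((Fin (n t) → ℚ) →ₗ[ℚ] ℂ))

/-- The basis of the de Rham side of the sum. -/
def eB : Basis (Σ t, Fin (n t)) ℂ (Bt n →ₗ[ℚ] ℂ) :=
  (Pi.basis η).map (LinearMap.lsum ℚ (fun t => Fin (n t) → ℚ) ℂ)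

theorem eB_apply (p : Σ t, Fin (n t)) (v : Bt n) : eB η p v = η p.1 p.2 (v p.1) := by
  unfold eB
  rw [Basis.map_apply, Pi.basis_apply, LinearMap.lsum_apply, LinearMap.sum_apply,
    Finset.sum_eq_single p.1]
  · rw [LinearMap.comp_apply, Pi.single_eq_same, LinearMap.proj_apply]
  · intro t _ ht
    rw [LinearMap.comp_apply, Pi.single_eq_of_ne ht, LinearMap.zero_apply]
  · intro h
    exact absurd (Finset.mem_univ _) h

theorem eB_same (t : T) (i : Fin (n t)) (x : ℂ ⊗[ℚ] (Fin (n t) → ℚ)) :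
    etaL (eB η) ⟨t, i⟩ ((LinearMap.single ℚ (fun t => Fin (n t) → ℚ) t).baseChange ℂ x) =
      etaL (η t) i x := by
  induction x with
  | zero => simp only [map_zero]
  | add x y hx hy => rw [map_add, map_add, hx, hy, map_add]
  | tmul c u =>
    rw [LinearMap.baseChange_tmul, etaL_tmul, eB_apply, etaL_tmul, LinearMap.coe_single,
      Pi.single_eq_same]

theorem eB_ne {s t : T} (h : s ≠ t) (i : Fin (n t)) (x : ℂ ⊗[ℚ] (Fin (n s) → ℚ)) :
    etaL (eB η) ⟨t, i⟩ ((LinearMap.single ℚ (fun t => Fin (n t) → ℚ) s).baseChange ℂ x) = 0 := by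
  induction x with
  | zero => simp only [map_zero]
  | add x y hx hy => rw [map_add, map_add, hx, hy, add_zero]
  | tmul c u =>
    rw [LinearMap.baseChange_tmul, etaL_tmul, eB_apply, LinearMap.coe_single,
      Pi.single_eq_of_ne h.symm, map_zero, mul_zero]

theorem NN_eB (D : Derivation QBar ℂ ℂ) (lam : ℂ →ₗ[ℚ] ℚ) (v : Bt n) (t : T) :
    NN (eB η) D lam v t = NN (η t) D lam (v t) := by
  have h1 : XX (eB η) D ((1 : ℂ) ⊗ₜ[ℚ] v) = ∑ s,
      (LinearMap.single ℚ (fun t => Fin (n t) → ℚ) s).baseChange ℂ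
        (XX (η s) D ((1 : ℂ) ⊗ₜ[ℚ] v s)) := by
    apply ext_etaL (eB η)
    rintro ⟨t, i⟩
    rw [etaL_XX_one, map_sum, Finset.sum_eq_single t]
    · rw [eB_same, etaL_XX_one, eB_apply]
    · intro s _ hs
      rw [eB_ne η hs]
    · intro h
      exact absurd (Finset.mem_univ _) h
  rw [NN_apply, h1, map_sum, Finset.sum_apply, Finset.sum_eq_single t]
  · rw [cmp_bcg, LinearMap.coe_single, Pi.single_eq_same, NN_apply]
  · intro s _ hs
    rw [cmp_bcg, LinearMap.coe_single, Pi.single_eq_of_ne hs.symm]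
  · intro h
    exact absurd (Finset.mem_univ _) h

/-- The algebra of the block diagonal endomorphisms, with a scalar acting on the twist. -/
abbrev RR (n : T → ℕ) : Type := (∀ t, Module.End ℚ (Fin (n t) → ℚ)) × ℚ

/-- The action of the block diagonal endomorphisms. -/
def act : (∀ t, Module.End ℚ (Fin (n t) → ℚ)) →ₐ[ℚ] Module.End ℚ (Bt n) where
  toFun Y := LinearMap.pi fun t => (Y t).comp (LinearMap.proj t)
  map_one' := rfl
  map_mul' _ _ := rfl
  map_zero' := rfl
  map_add' _ _ := rfl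
  commutes' c := by
    refine LinearMap.ext fun v => funext fun t => ?_
    rfl

theorem act_apply (Y : ∀ t, Module.End ℚ (Fin (n t) → ℚ)) (v : Bt n) (t : T) :
    act Y v t = Y t (v t) := rfl

/-- The Lie algebra of the sum: all block diagonal endomorphisms and all scalars which respect all
de Rham-Betti forms in all twists. -/
def LL : Submodule ℚ (RR n) where
  carrier := {ℓ | ∀ (κ : Type) [Fintype κ] [DecidableEq κ] (w : ℤ)
    (φ : MultilinearMap ℚ (fun _ : κ => Bt n) ℚ), IsTw (eB η) w φ →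
      ActsBy (act ℓ.1) φ ((w : ℚ) * ℓ.2)}
  zero_mem' := by
    intro κ _ _ w φ _ v
    rw [Prod.snd_zero, mul_zero, zero_mul, Prod.fst_zero, map_zero]
    exact Finset.sum_eq_zero fun k _ => φ.map_coord_zero k (update_self _ _ _)
  add_mem' := by
    intro x y hx hy κ _ _ w φ hφ
    rw [Prod.snd_add, mul_add, Prod.fst_add, map_add]
    exact (hx κ w φ hφ).add (hy κ w φ hφ)
  smul_mem' := by
    intro c x hx κ _ _ w φ hφ
    have h1 := (hx κ w φ hφ).smul c
    rw [Prod.smul_snd, Prod.smul_fst, map_smul, smul_eq_mul, mul_left_comm]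
    exact h1

theorem LL_br : Br (LL η) := by
  intro x hx y hy κ _ _ w φ hφ
  have h1 := actsBy_bracket (hx κ w φ hφ) (hy κ w φ hφ)
  rw [← actsBy_zero_iff] at h1
  have h2 : (x * y - y * x).2 = 0 := by
    rw [Prod.snd_sub, Prod.snd_mul, Prod.snd_mul, mul_comm, sub_self]
  rw [h2, mul_zero, Prod.fst_sub, Prod.fst_mul, Prod.fst_mul, map_sub, map_mul, map_mul]
  exact h1

/-- The components of the logarithmic derivatives. -/
def gn (D : Derivation QBar ℂ ℂ) (lam : ℂ →ₗ[ℚ] ℚ) : RR n :=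
  (fun t => NN (η t) D lam, tt D lam)

theorem gn_mem (D : Derivation QBar ℂ ℂ) (lam : ℂ →ₗ[ℚ] ℚ) : gn η D lam ∈ LL η := by
  intro κ _ _ w φ hφ
  have h1 : act (gn η D lam).1 = NN (eB η) D lam := by
    refine LinearMap.ext fun v => funext fun t => ?_
    rw [NN_eB]
    rfl
  rw [h1]
  exact NN_acts (eB η) hφ D lam

/-- Forms on one member of the family. -/
def lift {κ : Type} (t : T) (φ : MultilinearMap ℚ (fun _ : κ => Fin (n t) → ℚ) ℚ) :
    MultilinearMap ℚ (fun _ : κ => Bt n) ℚ := φ.compLinearMap fun _ => LinearMap.proj t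

theorem lift_apply {κ : Type} (t : T) (φ : MultilinearMap ℚ (fun _ : κ => Fin (n t) → ℚ) ℚ)
    (v : κ → Bt n) : lift t φ v = φ fun l => v l t := rfl

theorem lift_update {κ : Type} [DecidableEq κ] (t : T)
    (φ : MultilinearMap ℚ (fun _ : κ => Fin (n t) → ℚ) ℚ) (v : κ → Bt n) (j : κ) (u : Bt n) :
    lift t φ (update v j u) = φ (update (fun l => v l t) j (u t)) := by
  rw [lift_apply]
  congr 1
  funext l
  by_cases hl : l = j
  · subst hl
    rw [update_self, update_self]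
  · rw [update_of_ne hl, update_of_ne hl]

theorem lift_tw {κ : Type} [Fintype κ] [DecidableEq κ] {t : T} {w : ℤ}
    {φ : MultilinearMap ℚ (fun _ : κ => Fin (n t) → ℚ) ℚ} (h : IsTw (η t) w φ) :
    IsTw (eB η) w (lift t φ) := by
  refine tw_of_acts (eB η) fun D lam v => ?_
  rw [lift_apply, ← NN_acts (η t) h D lam]
  refine Finset.sum_congr rfl fun j _ => ?_
  rw [lift_update, NN_eB]

theorem LL_acts {κ : Type} [Fintype κ] [DecidableEq κ] {t : T} {w : ℤ}
    {φ : MultilinearMap ℚ (fun _ : κ => Fin (n t) → ℚ) ℚ} (h : IsTw (η t) w φ) {ℓ : RR n}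
    (hℓ : ℓ ∈ LL η) : ActsBy (ℓ.1 t) φ ((w : ℚ) * ℓ.2) := by
  intro v
  have h1 := hℓ κ w _ (lift_tw η h) fun l => Pi.single t (v l)
  rw [lift_apply] at h1
  have h2 : (fun l => (Pi.single t (v l) : Bt n) t) = v := by
    funext l
    rw [Pi.single_eq_same]
  rw [h2] at h1
  rw [← h1]
  refine Finset.sum_congr rfl fun j _ => ?_
  rw [lift_update, h2, act_apply, Pi.single_eq_same]

/-- The normalized projection. -/
def pr (t : T) : RR n →ₗ[ℚ] Module.End ℚ (Fin (n t) → ℚ) where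
  toFun ℓ := ℓ.1 t - (ℓ.2 / 2) • 1
  map_add' x y := by
    rw [Prod.fst_add, Prod.snd_add, Pi.add_apply, add_div, add_smul]
    abel
  map_smul' c x := by
    rw [Prod.smul_fst, Prod.smul_snd, Pi.smul_apply, RingHom.id_apply, smul_sub, smul_smul,
      smul_eq_mul, mul_div_assoc]

theorem pr_apply (t : T) (ℓ : RR n) : pr t ℓ = ℓ.1 t - (ℓ.2 / 2) • 1 := rfl

theorem pr_hm (t : T) (𝔩 : Submodule ℚ (RR n)) : Hm (pr t) 𝔩 := by
  intro x _ y _
  have h2 : (x * y - y * x).2 = 0 := by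
    rw [Prod.snd_sub, Prod.snd_mul, Prod.snd_mul, mul_comm, sub_self]
  rw [pr_apply, pr_apply, pr_apply, h2, Prod.fst_sub, Prod.fst_mul, Prod.fst_mul, Pi.sub_apply,
    Pi.mul_apply, Pi.mul_apply]
  simp only [sub_mul, mul_sub, smul_mul_assoc, mul_smul_comm, one_mul, mul_one]
  module

end Fam

end Pool.Agent.N192.GP
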