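import Mathlib

set_option autoImplicit false
set_option linter.unusedSectionVars false

/-!
# Representations of orthogonal Lie algebras: rotations by a right angle
-/

open Module

noncomputable section

namespace Pool.Agent.N192.GP

section Ban

variable {𝔸 : Type*} [NormedRing 𝔸] [NormedAlgebra ℂ 𝔸] [CompleteSpace 𝔸]

theorem exp_shift (T X : 𝔸) (z t : ℂ) (h : T * X = X * T + t • X) :
    NormedSpace.exp (z • T) * X = Complex.exp (z * t) • (X * NormedSpace.exp (z • T)) := by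
  have h1 : SemiconjBy X (z • T + algebraMap ℂ _ (z * t)) (z • T) := by
    change X * (z • T + algebraMap ℂ _ (z * t)) = z • T * X
    rw [smul_mul_assoc, h, mul_add, ← Algebra.commutes, ← Algebra.smul_def, smul_add, smul_smul,
      mul_smul_comm]
  letI : NormedAlgebra ℚ 𝔸 := NormedAlgebra.restrictScalars ℚ ℂ 𝔸
  have h2 := h1.exp_right
  have h3 : NormedSpace.exp (z • T + algebraMap ℂ 𝔸 (z * t)) =
      NormedSpace.exp (z • T) * algebraMap ℂ _ (NormedSpace.exp (z * t)) := by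
    rw [NormedSpace.exp_add_of_commute (Algebra.commutes _ _).symm,
      NormedSpace.algebraMap_exp_comm]
  have h4 : X * NormedSpace.exp (z • T + algebraMap ℂ _ (z * t)) = NormedSpace.exp (z • T) * X := h2
  rw [← h4, h3, ← Algebra.commutes, ← Algebra.smul_def, ← Complex.exp_eq_exp_ℂ, mul_smul_comm]

theorem exists_flip_ban (T : 𝔸) : ∃ G G' : 𝔸, G * G' = 1 ∧
    G' * G = 1 ∧ (∀ X, X * T = T * X → X * G = G * X) ∧
    (∀ X, T * X = X * T + (2 : ℂ) • X → G * X = -(X * G)) ∧
    ∀ X, T * X = X * T - (2 : ℂ) • X → G * X = -(X * G) := by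
  let z : ℂ := Real.pi * Complex.I / 2
  have hz : Complex.exp (z * 2) = -1 := by
    have h1 : z * 2 = Real.pi * Complex.I := by
      simp only [z]
      ring
    rw [h1, Complex.exp_pi_mul_I]
  have hz' : Complex.exp (z * (-2)) = -1 := by
    rw [mul_neg, Complex.exp_neg, hz]
    norm_num
  obtain ⟨u, hu⟩ : IsUnit (NormedSpace.exp (z • T)) := by
    letI : NormedAlgebra ℚ 𝔸 := NormedAlgebra.restrictScalars ℚ ℂ 𝔸
    exact NormedSpace.isUnit_exp _
  refine ⟨u, u⁻¹.val, u.mul_inv, u.inv_mul, fun X hX => ?_, fun X hX => ?_, fun X hX => ?_⟩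
  · have h1 := exp_shift T X z 0 (by rw [hX, zero_smul, add_zero])
    rw [mul_zero, Complex.exp_zero, one_smul] at h1
    rw [hu]
    exact h1.symm
  · rw [hu, exp_shift T X z 2 hX, hz, neg_smul, one_smul]
  · rw [hu, exp_shift T X z (-2) (by rw [hX, neg_smul, sub_eq_add_neg]), hz', neg_smul, one_smul]

end Ban

section Mat

attribute [local instance] Matrix.linftyOpNormedRing Matrix.linftyOpNormedAlgebra

theorem exists_flip_mat {n : ℕ} (T : Matrix (Fin n) (Fin n) ℂ) :
    ∃ G G' : Matrix (Fin n) (Fin n) ℂ, G * G' = 1 ∧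
    G' * G = 1 ∧ (∀ X, X * T = T * X → X * G = G * X) ∧
    (∀ X, T * X = X * T + (2 : ℂ) • X → G * X = -(X * G)) ∧
    ∀ X, T * X = X * T - (2 : ℂ) • X → G * X = -(X * G) :=
  exists_flip_ban T

end Mat

variable {M : Type*} [AddCommGroup M] [Module ℂ M]

/-- The operator `exp (π i T / 2)`. -/
theorem exists_flip [FiniteDimensional ℂ M] (T : End ℂ M) : ∃ G G' : End ℂ M, G * G' = 1 ∧
    G' * G = 1 ∧ (∀ X, X * T = T * X → X * G = G * X) ∧
    (∀ X, T * X = X * T + (2 : ℂ) • X → G * X = -(X * G)) ∧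
    ∀ X, T * X = X * T - (2 : ℂ) • X → G * X = -(X * G) := by
  let e : End ℂ M ≃ₐ[ℂ] Matrix (Fin (finrank ℂ M)) (Fin (finrank ℂ M)) ℂ :=
    LinearMap.toMatrixAlgEquiv (finBasis ℂ M)
  obtain ⟨G, G', h1, h2, h3, h4, h5⟩ := exists_flip_mat (e T)
  refine ⟨e.symm G, e.symm G', ?_, ?_, fun X hX => ?_, fun X hX => ?_, fun X hX => ?_⟩
  · rw [← map_mul, h1, map_one]
  · rw [← map_mul, h2, map_one]
  · apply e.injective
    rw [map_mul, map_mul, e.apply_symm_apply]
    refine h3 _ ?_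
    rw [← map_mul, hX, map_mul]
  · apply e.injective
    rw [map_mul, map_neg, map_mul, e.apply_symm_apply]
    refine h4 _ ?_
    rw [← map_mul, hX, map_add, map_mul, map_smul]
  · apply e.injective
    rw [map_mul, map_neg, map_mul, e.apply_symm_apply]
    refine h5 _ ?_
    rw [← map_mul, hX, map_sub, map_mul, map_smul]

/-- The relations of the orthogonal Lie algebra of rank `r`. -/
structure SoRel (r : ℕ) (Y : ℕ → ℕ → End ℂ M) : Prop where
  anti : ∀ a b, a < r → b < r → a ≠ b → Y a b = -Y b a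
  br : ∀ a b c, a < r → b < r → c < r → a ≠ b → b ≠ c → a ≠ c →
    Y a b * Y b c - Y b c * Y a b = (2 : ℂ) • Y a c
  comm : ∀ a b c d, a < r → b < r → c < r → d < r → a ≠ b → c ≠ d → a ≠ c → a ≠ d → b ≠ c →
    b ≠ d → Y a b * Y c d = Y c d * Y a b

variable {r : ℕ} {Y : ℕ → ℕ → End ℂ M}

theorem SoRel.br' (h : SoRel r Y) {a b c : ℕ} (ha : a < r) (hb : b < r) (hc : c < r) (hab : a ≠ b)
    (hbc : b ≠ c) (hac : a ≠ c) : Y a b * Y a c - Y a c * Y a b = -((2 : ℂ) • Y b c) := by
  have h1 := h.br b a c hb ha hc hab.symm hac hbc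
  rw [h.anti a b ha hb hab]
  rw [neg_mul, mul_neg, ← neg_sub', h1]

/-- The weight vectors `Y a c ± i Y b c` for `- i Y a b`. -/
theorem SoRel.plus (h : SoRel r Y) {a b c : ℕ} (ha : a < r) (hb : b < r) (hc : c < r)
    (hab : a ≠ b) (hbc : b ≠ c) (hac : a ≠ c) :
    (-Complex.I • Y a b) * (Y a c + Complex.I • Y b c) =
      (Y a c + Complex.I • Y b c) * (-Complex.I • Y a b) +
        (2 : ℂ) • (Y a c + Complex.I • Y b c) := by
  have h1 := h.br a b c ha hb hc hab hbc hac
  have h2 := h.br' ha hb hc hab hbc hac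
  have h3 : Y a b * Y b c = Y b c * Y a b + (2 : ℂ) • Y a c := by rw [← h1]; abel
  have h4 : Y a b * Y a c = Y a c * Y a b - (2 : ℂ) • Y b c := by
    rw [sub_eq_add_neg, ← h2]; abel
  rw [mul_add, add_mul, smul_mul_smul_comm, smul_mul_assoc, smul_mul_smul_comm, mul_smul_comm,
    h3, h4]
  simp only [smul_add, smul_sub, smul_smul]
  have h5 : -Complex.I * Complex.I = 1 := by rw [neg_mul, Complex.I_mul_I, neg_neg]
  have h6 : Complex.I * -Complex.I = 1 := by rw [mul_neg, Complex.I_mul_I, neg_neg]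
  rw [h5, h6]
  module

theorem SoRel.minus (h : SoRel r Y) {a b c : ℕ} (ha : a < r) (hb : b < r) (hc : c < r)
    (hab : a ≠ b) (hbc : b ≠ c) (hac : a ≠ c) :
    (-Complex.I • Y a b) * (Y a c - Complex.I • Y b c) =
      (Y a c - Complex.I • Y b c) * (-Complex.I • Y a b) -
        (2 : ℂ) • (Y a c - Complex.I • Y b c) := by
  have h1 := h.br a b c ha hb hc hab hbc hac
  have h2 := h.br' ha hb hc hab hbc hac
  have h3 : Y a b * Y b c = Y b c * Y a b + (2 : ℂ) • Y a c := by rw [← h1]; abel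
  have h4 : Y a b * Y a c = Y a c * Y a b - (2 : ℂ) • Y b c := by
    rw [sub_eq_add_neg, ← h2]; abel
  rw [mul_sub, sub_mul, smul_mul_smul_comm, smul_mul_assoc, smul_mul_smul_comm, mul_smul_comm,
    h3, h4]
  simp only [smul_add, smul_sub, smul_smul]
  have h5 : -Complex.I * Complex.I = 1 := by rw [neg_mul, Complex.I_mul_I, neg_neg]
  have h6 : Complex.I * -Complex.I = 1 := by rw [mul_neg, Complex.I_mul_I, neg_neg]
  rw [h5, h6]
  module

/-- The rotation by a right angle in the plane `a b`. -/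
theorem SoRel.exists_rot [FiniteDimensional ℂ M] (h : SoRel r Y) {a b : ℕ} (ha : a < r)
    (hb : b < r) (hab : a ≠ b) : ∃ G G' : End ℂ M, G * G' = 1 ∧ G' * G = 1 ∧
      (∀ X, X * Y a b = Y a b * X → X * G = G * X) ∧
      ∀ c, c < r → c ≠ a → c ≠ b → G * Y a c = -(Y a c * G) ∧ G * Y b c = -(Y b c * G) := by
  obtain ⟨G, G', h1, h2, h3, h4, h5⟩ := exists_flip (-Complex.I • Y a b)
  refine ⟨G, G', h1, h2, fun X hX => h3 X (by rw [mul_smul_comm, smul_mul_assoc, hX]),
    fun c hc hca hcb => ?_⟩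
  have e1 := h4 _ (h.plus ha hb hc hab hcb.symm hca.symm)
  have e2 := h5 _ (h.minus ha hb hc hab hcb.symm hca.symm)
  rw [mul_add, add_mul, mul_smul_comm, smul_mul_assoc] at e1
  rw [mul_sub, sub_mul, mul_smul_comm, smul_mul_assoc] at e2
  have e3 : (2 : ℂ) • (G * Y a c) = (2 : ℂ) • (-(Y a c * G)) := by
    have := congrArg₂ (· + ·) e1 e2
    calc (2 : ℂ) • (G * Y a c) = G * Y a c + Complex.I • (G * Y b c) +
          (G * Y a c - Complex.I • (G * Y b c)) := by module
      _ = _ := by rw [this]; module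
  have e4 : (2 : ℂ) • Complex.I • (G * Y b c) = (2 : ℂ) • Complex.I • (-(Y b c * G)) := by
    have := congrArg₂ (· - ·) e1 e2
    calc (2 : ℂ) • Complex.I • (G * Y b c) = G * Y a c + Complex.I • (G * Y b c) -
          (G * Y a c - Complex.I • (G * Y b c)) := by module
      _ = _ := by rw [this]; module
  exact ⟨smul_right_injective _ (two_ne_zero (α := ℂ)) e3,
    smul_right_injective _ Complex.I_ne_zero (smul_right_injective _ (two_ne_zero (α := ℂ)) e4)⟩

end Pool.Agent.N192.GP
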