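import Pool.Agent.N192.GP.JJ

set_option autoImplicit false
set_option linter.unusedSectionVars false

/-!
# Homomorphisms between members of a family
-/

open Module Function TensorProduct

noncomputable section

namespace Pool.Agent.N192.GP

open Pool.Agent.Y102 Pool.Agent.W516.DR Pool.Agent.H204R3.GP Pool.Agent.W516.KC
  Pool.Agent.H204R3.SP

section Hom

variable {T : Type} [Fintype T] [DecidableEq T] {n : T → ℕ}
  (η : ∀ t, Basis (Fin (n t)) ℂ ((Fin (n t) → ℚ) →ₗ[ℚ] ℂ))

/-- Maps which commute with the logarithmic derivatives are homomorphisms. -/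
theorem hom_of_comm {s t : T} {f : (Fin (n s) → ℚ) →ₗ[ℚ] (Fin (n t) → ℚ)}
    (h : ∀ (D : Derivation QBar ℂ ℂ) (lam : ℂ →ₗ[ℚ] ℚ),
      (NN (η t) D lam).comp f = f.comp (NN (η s) D lam)) :
    ∃ a : Fin (n t) → Fin (n s) → QBar, ∀ i u, η t i (f u) =
      ∑ j, algebraMap QBar ℂ (a i j) * η s j u := by
  let P : Module.End ℚ (Bt n) :=
    (LinearMap.single ℚ (fun t => Fin (n t) → ℚ) t).comp (f.comp (LinearMap.proj s))
  have hP : ∀ v, P v = Pi.single t (f (v s)) := fun v => rfl
  have h1 : ∀ (D : Derivation QBar ℂ ℂ) (lam : ℂ →ₗ[ℚ] ℚ),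
      X0 (eB η) tau D lam * P = P * X0 (eB η) tau D lam := by
    intro D lam
    rw [X0_eq]
    refine LinearMap.ext fun v => ?_
    simp only [Module.End.mul_apply, LinearMap.sub_apply, LinearMap.smul_apply,
      Module.End.one_apply, map_sub, map_smul]
    congr 1
    funext t'
    rw [NN_eB, hP, hP, NN_eB]
    by_cases ht : t' = t
    · subst ht
      rw [Pi.single_eq_same, Pi.single_eq_same]
      exact LinearMap.congr_fun (h D lam) (v s)
    · rw [Pi.single_eq_of_ne ht, Pi.single_eq_of_ne ht, map_zero]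
  obtain ⟨a, ha⟩ := end_of_comm (eB η) P h1
  refine ⟨fun i j => a ⟨t, i⟩ ⟨s, j⟩, fun i u => ?_⟩
  have h2 := ha ⟨t, i⟩ (Pi.single s u)
  rw [eB_apply, hP, Pi.single_eq_same] at h2
  simp only [Pi.single_eq_same] at h2
  rw [h2, Fintype.sum_sigma, Finset.sum_eq_single s]
  · refine Finset.sum_congr rfl fun j _ => ?_
    rw [eB_apply, Pi.single_eq_same]
  · intro t' _ ht'
    refine Finset.sum_eq_zero fun j _ => ?_
    rw [eB_apply, Pi.single_eq_of_ne ht', map_zero, mul_zero]
  · intro h3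
    exact absurd (Finset.mem_univ _) h3

end Hom

section Two

/-- The components of the complex structures are compatible with homomorphisms. -/
theorem J_comp {g g' : ℕ} (A : AbVar g) (A' : AbVar g') {f : A.H1 →ₗ[ℚ] A'.H1}
    (h : ∃ Q : (Fin g → ℂ) →ₗ[ℂ] (Fin g' → ℂ), ∀ w, A'.per (f w) = Q (A.per w))
    (lam : ℝ →ₗ[ℚ] ℚ) : (A'.cmpE lam AbVar.JJ).comp f = f.comp (A.cmpE lam AbVar.JJ) := by
  obtain ⟨Q, hQ⟩ := h
  have h1 : ∀ x : Fin g → ℂ, A'.cmp lam (Q x) = f (A.cmp lam x) := by
    intro x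
    rw [A.eq_sum x]
    simp only [map_sum]
    refine Finset.sum_congr rfl fun j _ => ?_
    have h2 : ∀ (c : ℝ) (y : Fin g → ℂ), Q (c • y) = c • Q y := fun c y =>
      LinearMap.map_smul_of_tower Q c y
    rw [h2, ← hQ, A'.cmp_smul_per, A.cmp_smul_per, map_smul]
  refine LinearMap.ext fun w => ?_
  rw [LinearMap.comp_apply, LinearMap.comp_apply, A'.cmpE_apply, A.cmpE_apply, AbVar.JJ_apply,
    AbVar.JJ_apply, hQ, ← map_smul, h1]

theorem J_zero {g g' : ℕ} (A : AbVar g) (A' : AbVar g') {f : A.H1 →ₗ[ℚ] A'.H1}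
    (h : ∀ lam, (A'.cmpE lam AbVar.JJ).comp f = 0) : f = 0 := by
  refine LinearMap.ext fun w => A'.per_inj ?_
  rw [LinearMap.zero_apply, map_zero]
  have h1 : Complex.I • A'.per (f w) = 0 := A'.cmp_sep fun lam => by
    have h2 := LinearMap.congr_fun (h lam) w
    rw [LinearMap.comp_apply, A'.cmpE_apply, AbVar.JJ_apply, LinearMap.zero_apply] at h2
    exact h2
  exact (smul_eq_zero.1 h1).resolve_left Complex.I_ne_zero

/-- The total period map. -/
def perT {I : Type} {g : I → ℕ} (A : ∀ i, AbVar (g i)) :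
    (∀ i, (A i).H1) →+ (∀ i, Fin (g i) → ℂ) where
  toFun v := fun i => (A i).per (v i)
  map_zero' := by
    funext i
    exact map_zero (A i).per
  map_add' u v := by
    funext i
    exact map_add (A i).per (u i) (v i)

variable {I : Type} [Fintype I] [DecidableEq I] {g : I → ℕ} (A : ∀ i, AbVar (g i))

/-- The components of the complex structure of the product. -/
def JT (lam : ℝ →ₗ[ℚ] ℚ) : Module.End ℚ (∀ i, (A i).H1) :=
  LinearMap.pi fun i => ((A i).cmpE lam AbVar.JJ).comp (LinearMap.proj i)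

theorem JT_apply (lam : ℝ →ₗ[ℚ] ℚ) (v : ∀ i, (A i).H1) (i : I) :
    JT A lam v i = (A i).cmpE lam AbVar.JJ (v i) := rfl

/-- Forms killed by the complex structure are Hodge classes. -/
theorem hodge_of_JT {κ : Type} [Fintype κ] [DecidableEq κ]
    {ψ : MultilinearMap ℚ (fun _ : κ => ∀ i, (A i).H1) ℚ} (h : ∀ lam, Kills (JT A lam) ψ) :
    Pool.Agent.H204R3.GP.IsHodgeTensor (perT A) ψ := by
  let b : Basis (Σ i, Fin (2 * g i)) ℚ (∀ i, (A i).H1) := Pi.basis fun i => (A i).bas
  let b' : Basis (Σ i, Fin (2 * g i)) ℝ (∀ i, Fin (g i) → ℂ) := Pi.basis fun i => (A i).lam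
  have hb : ∀ p, b' p = perT A (b p) := by
    rintro ⟨i, j⟩
    funext i'
    change (Pi.basis fun i => (A i).lam) ⟨i, j⟩ i' =
      (A i').per ((Pi.basis fun i => (A i).bas) ⟨i, j⟩ i')
    rw [Pi.basis_apply, Pi.basis_apply]
    by_cases hi : i' = i
    · subst hi
      rw [Pi.single_eq_same, Pi.single_eq_same, (A i').per_bas]
    · rw [Pi.single_eq_of_ne hi, Pi.single_eq_of_ne hi, map_zero]
  rw [hodge_iff (perT A) b b' hb, kills_bcm_iff]
  intro lam
  have h1 : Pool.Agent.W516.DR.cmpE lam (Jt b b') = JT A lam := by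
    have h2 : ∀ (x : ∀ i, Fin (g i) → ℂ) (i : I),
        Pool.Agent.W516.DR.cmp lam (eqT b b' x) i = (A i).cmp lam (x i) := by
      intro x i
      have h3 : x = ∑ p, b'.repr x p • b' p := (b'.sum_repr x).symm
      have h4 : Pool.Agent.W516.DR.cmp lam (eqT b b' x) = ∑ p, lam (b'.repr x p) • b p := by
        conv_lhs => rw [h3]
        rw [map_sum, map_sum]
        refine Finset.sum_congr rfl fun p _ => ?_
        rw [map_smul, eqT_basis, TensorProduct.smul_tmul', smul_eq_mul, mul_one,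
          Pool.Agent.W516.DR.cmp_tmul]
      rw [h4]
      funext q
      rw [(A i).cmp_apply, Finset.sum_apply, Finset.sum_apply, Fintype.sum_sigma,
        Finset.sum_eq_single i]
      · rw [Finset.sum_eq_single q]
        · rw [Pi.smul_apply, Pi.smul_apply]
          change lam ((Pi.basis fun i => (A i).lam).repr x ⟨i, q⟩) •
            (Pi.basis fun i => (A i).bas) ⟨i, q⟩ i q = _
          rw [Pi.basis_repr, Pi.basis_apply, Pi.single_eq_same]
          unfold AbVar.bas
          rw [Pi.basisFun_apply, Pi.single_eq_same, smul_eq_mul, mul_one]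
        · intro q' _ hq'
          rw [Pi.smul_apply, Pi.smul_apply]
          change _ • (Pi.basis fun i => (A i).bas) ⟨i, q'⟩ i q = _
          rw [Pi.basis_apply, Pi.single_eq_same]
          unfold AbVar.bas
          rw [Pi.basisFun_apply, Pi.single_eq_of_ne (Ne.symm hq'), smul_zero]
        · intro h5
          exact absurd (Finset.mem_univ _) h5
      · intro i' _ hi'
        refine Finset.sum_eq_zero fun q' _ => ?_
        rw [Pi.smul_apply, Pi.smul_apply]
        change _ • (Pi.basis fun i => (A i).bas) ⟨i', q'⟩ i q = _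
        rw [Pi.basis_apply, Pi.single_eq_of_ne (Ne.symm hi')]
        exact smul_zero _
      · intro h5
        exact absurd (Finset.mem_univ _) h5
    refine LinearMap.ext fun v => funext fun i => ?_
    rw [Pool.Agent.W516.DR.cmpE_apply]
    have h3 : Jt b b' ((1 : ℝ) ⊗ₜ[ℚ] v) = eqT b b' (Complex.I • perT A v) := by
      unfold Jt
      rw [LinearMap.comp_apply, LinearMap.comp_apply, LinearEquiv.coe_coe, LinearEquiv.coe_coe]
      congr 1
      have h4 : (eqT b b').symm ((1 : ℝ) ⊗ₜ[ℚ] v) = perT A v := by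
        rw [LinearEquiv.symm_apply_eq]
        -- the identification of the rational vectors
        let f1 : (∀ i, (A i).H1) →ₗ[ℚ] ℝ ⊗[ℚ] (∀ i, (A i).H1) :=
          ((eqT b b').toLinearMap.toAddMonoidHom.comp (perT A)).toRatLinearMap
        let f2 : (∀ i, (A i).H1) →ₗ[ℚ] ℝ ⊗[ℚ] (∀ i, (A i).H1) := TensorProduct.mk ℚ ℝ _ 1
        have h5 : f1 = f2 := by
          refine b.ext fun p => ?_
          change eqT b b' (perT A (b p)) = (1 : ℝ) ⊗ₜ[ℚ] b p
          rw [← hb, eqT_basis]
        exact (LinearMap.congr_fun h5 v).symm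
      rw [h4]
      rfl
    rw [h3, h2, JT_apply, (A i).cmpE_apply, AbVar.JJ_apply]
    rfl
  rw [h1]
  exact h lam

end Two

end Pool.Agent.N192.GP
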