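import Mathlib

set_option autoImplicit false
set_option linter.unusedSectionVars false

/-!
# The number operator
-/

open Module Polynomial

noncomputable section

namespace Pool.Agent.N192.GP

section Inv

variable {W : Type*} [AddCommGroup W] [Module ℂ W] {ι : Type*}

/-- The eigenvalues of a sum of commuting involutions. -/
theorem sum_inv [DecidableEq ι] (S : Finset ι) (σ : ι → End ℂ W) (h1 : ∀ a, σ a * σ a = 1)
    (h2 : ∀ a b, σ a * σ b = σ b * σ a) : ∀ (l : ℤ), l < -S.card → ∀ x : W,
      ∑ a ∈ S, σ a x = (l : ℂ) • x → x = 0 := by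
  induction S using Finset.induction_on with
  | empty =>
    intro l hl x hx
    rw [Finset.sum_empty] at hx
    have h3 : (l : ℂ) ≠ 0 := by
      rw [Finset.card_empty] at hl
      have : l ≠ 0 := by omega
      exact_mod_cast this
    exact (smul_eq_zero.1 hx.symm).resolve_left h3
  | insert b S hb ih =>
    intro l hl x hx
    rw [Finset.card_insert_of_notMem hb] at hl
    rw [Finset.sum_insert hb] at hx
    have hbb : ∀ v, σ b (σ b v) = v := fun v => LinearMap.congr_fun (h1 b) v
    have hab : ∀ a v, σ a (σ b v) = σ b (σ a v) := fun a v => LinearMap.congr_fun (h2 a b) v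
    have e1 : ∑ a ∈ S, σ a (σ b x) = (l : ℂ) • σ b x - x := by
      simp only [hab]
      rw [← map_sum, ← map_smul, ← hx, map_add, hbb]
      abel
    have e0 : ∑ a ∈ S, σ a x = (l : ℂ) • x - σ b x := by
      rw [← hx]
      abel
    have e2 : x + σ b x = 0 := by
      refine ih (l - 1) (by push_cast at hl ⊢; omega) _ ?_
      simp only [map_add, Finset.sum_add_distrib]
      rw [e0, e1]
      push_cast
      module
    have e3 : x - σ b x = 0 := by
      refine ih (l + 1) (by push_cast at hl ⊢; omega) _ ?_
      simp only [map_sub, Finset.sum_sub_distrib]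
      rw [e0, e1]
      push_cast
      module
    have e4 : (2 : ℂ) • x = 0 := by
      have : (2 : ℂ) • x = (x + σ b x) + (x - σ b x) := by module
      rw [this, e2, e3, add_zero]
    exact (smul_eq_zero.1 e4).resolve_left two_ne_zero

end Inv

variable {W : Type*} [Ring W] [Algebra ℂ W]

theorem shiftP {y u : W} {j : ℂ} (h : y * u = u * y + j • u) (p : ℂ[X]) :
    aeval y p * u = u * aeval y (p.comp (X + C j)) := by
  have h1 : SemiconjBy u (y + algebraMap ℂ W j) y := by
    change u * (y + algebraMap ℂ W j) = y * u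
    rw [h, mul_add, ← Algebra.commutes, ← Algebra.smul_def]
  have h2 : ∀ n : ℕ, u * (y + algebraMap ℂ W j) ^ n = y ^ n * u := fun n => h1.pow_right n
  induction p using Polynomial.induction_on' with
  | add p q hp hq => rw [map_add, add_mul, hp, hq, add_comp, map_add, mul_add]
  | monomial n a =>
    rw [monomial_comp, aeval_monomial, map_mul, map_pow, map_add, aeval_X, aeval_C, aeval_C,
      mul_assoc, ← h2, ← mul_assoc, Algebra.commutes, mul_assoc]

/-- The polynomial `X (X ^ 2 + 1) (X ^ 2 + 4)`. -/
def QQ : ℂ[X] := X * (X ^ 2 + 1) * (X ^ 2 + 4)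

theorem CC {j : ℂ} (hj : j * j = -1) : (C j * C j : ℂ[X]) = -1 := by
  rw [← C_mul, hj, C_neg, C_1]

theorem QQ_eq {j : ℂ} (hj : j * j = -1) :
    QQ = X * (X - C j) * (X + C j) * (X - 2 * C j) * (X + 2 * C j) := by
  have h := CC hj
  unfold QQ
  linear_combination (5 * X ^ 3 + 4 * X * (1 - C j * C j)) * h

/-- The polynomial which gives the parity. -/
def GG : ℂ[X] := 1 + C (2 / 3) * (X ^ 4 + 4 * X ^ 2)

theorem GG_add {j : ℂ} (hj : j * j = -1) : GG + GG.comp (X + C j) =
    C (4 / 3) * (X * (X - C j) * (X + C j) * (X + 2 * C j)) := by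
  have h := CC hj
  have h3 : (C (4 / 3) : ℂ[X]) = 4 * C (1 / 3) := by
    have : (4 : ℂ[X]) = C 4 := rfl
    rw [this, ← C_mul]
    norm_num
  have h4 : (3 : ℂ[X]) * C (1 / 3) = 1 := by
    have : (3 : ℂ[X]) = C 3 := rfl
    rw [this, ← C_mul]
    norm_num
  have h5 : (C (2 / 3) : ℂ[X]) = 2 * C (1 / 3) := by
    have : (2 : ℂ[X]) = C 2 := rfl
    rw [this, ← C_mul]
    norm_num
  unfold GG
  simp only [add_comp, mul_comp, C_comp, pow_comp, X_comp, one_comp, ofNat_comp]
  rw [h3, h5]
  linear_combination (2 * C (1 / 3) * (8 * X ^ 2 + 8 * C j * X + C j * C j + 3)) * h - 2 * h4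

theorem GG_sq : (GG - 1) * (GG + 1) = C (4 / 9) * (X * (X ^ 2 + 3) * QQ) := by
  have h3 : (C (4 / 9) : ℂ[X]) = 4 * (C (1 / 3) * C (1 / 3)) := by
    have : (4 : ℂ[X]) = C 4 := rfl
    rw [this, ← C_mul, ← C_mul]
    norm_num
  have h4 : (3 : ℂ[X]) * C (1 / 3) = 1 := by
    have : (3 : ℂ[X]) = C 3 := rfl
    rw [this, ← C_mul]
    norm_num
  have h5 : (C (2 / 3) : ℂ[X]) = 2 * C (1 / 3) := by
    have : (2 : ℂ[X]) = C 2 := rfl
    rw [this, ← C_mul]
    norm_num
  unfold GG QQ
  rw [h3, h5]
  linear_combination (-4 * C (1 / 3) * (X ^ 4 + 4 * X ^ 2)) * h4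

theorem GG_one : (X ^ 2 + 1) * (GG - 1) = C (2 / 3) * (X * QQ) := by
  unfold GG QQ
  ring

/-- The operators which raise the eigenvalues by `j` anticommute with the parity. -/
theorem anti_GG {y u : W} {j : ℂ} (hj : j * j = -1) (h : y * u = u * y + j • u)
    (hQ : aeval y QQ = 0) : aeval y GG * u = -(u * aeval y GG) := by
  have h1 := shiftP h GG
  obtain ⟨x, hx⟩ : ∃ x, x = u * aeval y (X * (X - C j) * (X + C j) * (X + 2 * C j)) := ⟨_, rfl⟩
  have h2 : x * aeval y (X - 2 * C j) = 0 := by
    rw [hx, mul_assoc, ← map_mul]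
    have e1 : X * (X - C j) * (X + C j) * (X + 2 * C j) * (X - 2 * C j) = QQ := by
      rw [QQ_eq hj]
      ring
    rw [e1, hQ, mul_zero]
  have h3 : x * y = (2 * j) • x := by
    rw [map_sub, map_mul, aeval_X, aeval_C, mul_sub, sub_eq_zero] at h2
    rw [h2, map_ofNat, ← map_ofNat (algebraMap ℂ W) 2, ← map_mul, ← Algebra.commutes,
      ← Algebra.smul_def]
  have h4 : y * x = (3 * j) • x := by
    have e1 : y * x = x * y + j • x := by
      have e2 : ∀ p : ℂ[X], y * aeval y p = aeval y p * y := by
        intro p
        have e3 := congrArg (aeval y) (mul_comm X p)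
        rwa [map_mul, map_mul, aeval_X] at e3
      rw [hx, ← mul_assoc, h, add_mul, mul_assoc, e2, ← mul_assoc, smul_mul_assoc]
    rw [e1, h3]
    module
  have h5 : ∀ p : ℂ[X], aeval y p * x = (p.eval (3 * j)) • x := by
    intro p
    induction p using Polynomial.induction_on' with
    | add p q hp hq => rw [map_add, add_mul, hp, hq, eval_add, add_smul]
    | monomial n a =>
      have e1 : ∀ n : ℕ, y ^ n * x = (3 * j) ^ n • x := by
        intro n
        induction n with
        | zero => rw [pow_zero, pow_zero, one_mul, one_smul]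
        | succ n ih => rw [pow_succ, mul_assoc, h4, mul_smul_comm, ih, smul_smul, pow_succ,
            mul_comm]
      rw [aeval_monomial, eval_monomial, mul_assoc, e1, mul_smul_comm, ← Algebra.smul_def,
        smul_smul, mul_comm]
  have h6 : x = 0 := by
    have e1 := h5 QQ
    rw [hQ, zero_mul] at e1
    have e2 : QQ.eval (3 * j) = 120 * j := by
      unfold QQ
      simp only [eval_mul, eval_add, eval_X, eval_pow, eval_one, eval_ofNat]
      linear_combination (3 * j * (81 * (j * j) - 36)) * hj
    have e3 : (120 * j : ℂ) ≠ 0 := by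
      refine mul_ne_zero (by norm_num) fun h0 => ?_
      rw [h0, mul_zero] at hj
      norm_num at hj
    rw [e2] at e1
    exact (smul_eq_zero.1 e1.symm).resolve_left e3
  have h7 : u * aeval y (GG + GG.comp (X + C j)) = 0 := by
    rw [GG_add hj, map_mul, aeval_C, ← mul_assoc, ← Algebra.commutes, mul_assoc, ← hx, h6,
      mul_zero]
  rw [map_add, mul_add, add_comm] at h7
  rw [h1]
  exact eq_neg_of_add_eq_zero_left h7

variable {F : Fin 8 → W} {y : W}

/-- **The equation for the number operator.** -/
theorem number (hsq : ∀ a, F a * F a = 1) (hanti : ∀ a b, a ≠ b → F a * F b = -(F b * F a))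
    (h1 : ∑ a, (y * F a - F a * y) * F a = (4 : ℂ) • y)
    (h2 : ∀ a, y * (y * F a - F a * y) - (y * F a - F a * y) * y = -F a) : aeval y QQ = 0 := by
  have hI : Complex.I * Complex.I = -1 := Complex.I_mul_I
  have hI' : (-Complex.I) * (-Complex.I) = -1 := by rw [neg_mul_neg, hI]
  -- raising and lowering operators
  obtain ⟨up, hup⟩ : ∃ up : Fin 8 → W, ∀ a, up a = F a - Complex.I • (y * F a - F a * y) :=
    ⟨_, fun _ => rfl⟩
  obtain ⟨dn, hdn⟩ : ∃ dn : Fin 8 → W, ∀ a, dn a = F a + Complex.I • (y * F a - F a * y) :=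
    ⟨_, fun _ => rfl⟩
  have hup' : ∀ a, y * up a = up a * y + Complex.I • up a := by
    intro a
    have e1 : y * up a - up a * y = Complex.I • up a := by
      have e2 : y * up a - up a * y = (y * F a - F a * y) - Complex.I •
          (y * (y * F a - F a * y) - (y * F a - F a * y) * y) := by
        rw [hup, mul_sub, sub_mul, mul_smul_comm, smul_mul_assoc, smul_sub]
        abel
      rw [e2, h2, hup, smul_sub, smul_smul, hI]
      module
    rw [← e1]
    abel
  have hdn' : ∀ a, y * dn a = dn a * y + (-Complex.I) • dn a := by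
    intro a
    have e1 : y * dn a - dn a * y = (-Complex.I) • dn a := by
      have e2 : y * dn a - dn a * y = (y * F a - F a * y) + Complex.I •
          (y * (y * F a - F a * y) - (y * F a - F a * y) * y) := by
        rw [hdn, mul_add, add_mul, mul_smul_comm, smul_mul_assoc, smul_sub]
        abel
      rw [e2, h2, hdn, smul_add, smul_smul, neg_mul, hI]
      module
    rw [← e1]
    abel
  have hF : ∀ a, F a = (1 / 2 : ℂ) • (up a + dn a) := by
    intro a
    rw [hup, hdn]
    module
  have hlin : ∀ a b : ℂ, aeval y (C a * (X + C b)) = a • y + (a * b) • (1 : W) := by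
    intro a b
    rw [map_mul, map_add, aeval_X, aeval_C, aeval_C, mul_add, ← Algebra.smul_def, ← map_mul,
      Algebra.algebraMap_eq_smul_one]
  have hFu : ∑ a, F a * up a = aeval y (C (4 * Complex.I) * (X - 2 * C Complex.I)) := by
    have e1 : ∀ a, F a * up a = 1 + Complex.I • ((y * F a - F a * y) * F a) := by
      intro a
      have e2 : F a * (y * F a - F a * y) = -((y * F a - F a * y) * F a) := by
        rw [mul_sub, sub_mul, ← mul_assoc (F a) (F a), hsq, one_mul, mul_assoc y, hsq, mul_one,
          mul_assoc (F a) y]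
        abel
      rw [hup, mul_sub, hsq, mul_smul_comm, e2, smul_neg, sub_neg_eq_add]
    simp only [e1, Finset.sum_add_distrib, ← Finset.smul_sum]
    rw [h1, Finset.sum_const, Finset.card_univ, Fintype.card_fin]
    have e4 : (X - 2 * C Complex.I : ℂ[X]) = X + C (-(2 * Complex.I)) := by
      rw [C_neg, C_mul]
      exact sub_eq_add_neg _ _
    rw [e4, hlin]
    have e5 : 4 * Complex.I * -(2 * Complex.I) = 8 := by linear_combination -8 * hI
    rw [e5]
    module
  have hFd : ∑ a, F a * dn a = aeval y (C (-(4 * Complex.I)) * (X + 2 * C Complex.I)) := by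
    have e1 : ∀ a, F a * dn a = 1 - Complex.I • ((y * F a - F a * y) * F a) := by
      intro a
      have e2 : F a * (y * F a - F a * y) = -((y * F a - F a * y) * F a) := by
        rw [mul_sub, sub_mul, ← mul_assoc (F a) (F a), hsq, one_mul, mul_assoc y, hsq, mul_one,
          mul_assoc (F a) y]
        abel
      rw [hdn, mul_add, hsq, mul_smul_comm, e2, smul_neg, ← sub_eq_add_neg]
    simp only [e1, Finset.sum_sub_distrib, ← Finset.smul_sum]
    rw [h1, Finset.sum_const, Finset.card_univ, Fintype.card_fin]
    have e4 : (X + 2 * C Complex.I : ℂ[X]) = X + C (2 * Complex.I) := by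
      rw [C_mul]
      rfl
    rw [e4, hlin]
    have e5 : -(4 * Complex.I) * (2 * Complex.I) = 8 := by linear_combination -8 * hI
    rw [e5]
    module
  -- conjugation by the generators
  let σ : Fin 8 → End ℂ W := fun a => LinearMap.mulLeft ℂ (F a) ∘ₗ LinearMap.mulRight ℂ (F a)
  have hσ : ∀ a x, σ a x = F a * (x * F a) := fun a x => rfl
  refine sum_inv Finset.univ σ (fun a => LinearMap.ext fun x => ?_) (fun a b =>
    LinearMap.ext fun x => ?_) (-12) (by rw [Finset.card_univ, Fintype.card_fin]; norm_num) _ ?_
  · change F a * (F a * (x * F a) * F a) = x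
    rw [mul_assoc (F a), ← mul_assoc, hsq, one_mul, mul_assoc, hsq, mul_one]
  · change F a * (F b * (x * F b) * F a) = F b * (F a * (x * F a) * F b)
    by_cases hab : a = b
    · rw [hab]
    · have e1 := hanti a b hab
      have e2 := hanti b a (Ne.symm hab)
      calc F a * (F b * (x * F b) * F a) = F a * F b * x * (F b * F a) := by noncomm_ring
        _ = F b * F a * x * (F a * F b) := by rw [e1, e2]; noncomm_ring
        _ = F b * (F a * (x * F a) * F b) := by noncomm_ring
  · simp only [hσ]
    have e1 : ∀ a, F a * (aeval y QQ * F a) = (1 / 2 : ℂ) •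
        (F a * up a * aeval y (QQ.comp (X + C Complex.I)) +
          F a * dn a * aeval y (QQ.comp (X + C (-Complex.I)))) := by
      intro a
      have e2 : aeval y QQ * F a = (1 / 2 : ℂ) • (aeval y QQ * up a + aeval y QQ * dn a) := by
        rw [← mul_add, ← mul_smul_comm, ← hF]
      rw [e2, shiftP (hup' a), shiftP (hdn' a), mul_smul_comm, mul_add, mul_assoc, mul_assoc]
    simp only [e1, ← Finset.smul_sum, Finset.sum_add_distrib, ← Finset.sum_mul]
    rw [hFu, hFd, ← map_mul, ← map_mul, ← map_add]
    have e3 : (C (4 * Complex.I) * (X - 2 * C Complex.I) * QQ.comp (X + C Complex.I) +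
        C (-(4 * Complex.I)) * (X + 2 * C Complex.I) * QQ.comp (X + C (-Complex.I)) : ℂ[X]) =
        C (-24) * QQ := by
      have h := CC hI
      have e4 : (C (4 * Complex.I) : ℂ[X]) = 4 * C Complex.I := by rw [C_mul]; rfl
      have e5 : (C (-(4 * Complex.I)) : ℂ[X]) = -(4 * C Complex.I) := by rw [C_neg, C_mul]; rfl
      have e6 : (C (-24) : ℂ[X]) = -24 := by rw [C_neg]; rfl
      rw [e4, e5, e6, QQ_eq hI]
      simp only [add_comp, mul_comp, sub_comp, C_comp, X_comp, ofNat_comp, C_neg]
      linear_combination (24 * X * (X - C Complex.I) * (X + C Complex.I) * (X - 2 * C Complex.I) *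
        (X + 2 * C Complex.I)) * h
    rw [e3, map_mul, aeval_C, ← Algebra.smul_def, smul_smul]
    norm_num

/-- **The parity.** -/
theorem parity (hsq : ∀ a, F a * F a = 1) (hanti : ∀ a b, a ≠ b → F a * F b = -(F b * F a))
    (h1 : ∑ a, (y * F a - F a * y) * F a = (4 : ℂ) • y)
    (h2 : ∀ a, y * (y * F a - F a * y) - (y * F a - F a * y) * y = -F a) :
    ∃ g : W, g * g = 1 ∧ (y * y + 1) * (g - 1) = 0 ∧ (∀ a, g * F a = -(F a * g)) ∧
      ∀ z, y * z = z * y → g * z = z * g := by
  have hQ := number hsq hanti h1 h2
  have hI : Complex.I * Complex.I = -1 := Complex.I_mul_I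
  refine ⟨aeval y GG, ?_, ?_, fun a => ?_, fun z hz => ?_⟩
  · have e1 := congrArg (aeval y) GG_sq
    rw [map_mul, map_mul, map_mul, hQ, mul_zero, mul_zero, map_sub, map_add, map_one] at e1
    have e2 : (aeval y GG - 1) * (aeval y GG + 1) = aeval y GG * aeval y GG - 1 := by
      noncomm_ring
    rw [e2] at e1
    exact sub_eq_zero.1 e1
  · have e1 := congrArg (aeval y) GG_one
    rw [map_mul, map_mul, map_mul, hQ, mul_zero, mul_zero, map_sub, map_add, map_one, map_pow,
      aeval_X, pow_two] at e1
    exact e1
  · have hup : y * (F a - Complex.I • (y * F a - F a * y)) =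
        (F a - Complex.I • (y * F a - F a * y)) * y +
          Complex.I • (F a - Complex.I • (y * F a - F a * y)) := by
      have e1 : y * (F a - Complex.I • (y * F a - F a * y)) -
          (F a - Complex.I • (y * F a - F a * y)) * y =
          Complex.I • (F a - Complex.I • (y * F a - F a * y)) := by
        have e2 : y * (F a - Complex.I • (y * F a - F a * y)) -
            (F a - Complex.I • (y * F a - F a * y)) * y = (y * F a - F a * y) - Complex.I •
            (y * (y * F a - F a * y) - (y * F a - F a * y) * y) := by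
          rw [mul_sub, sub_mul, mul_smul_comm, smul_mul_assoc, smul_sub]
          abel
        rw [e2, h2, smul_sub, smul_smul, hI]
        module
      rw [← e1]
      abel
    have hdn : y * (F a + Complex.I • (y * F a - F a * y)) =
        (F a + Complex.I • (y * F a - F a * y)) * y +
          (-Complex.I) • (F a + Complex.I • (y * F a - F a * y)) := by
      have e1 : y * (F a + Complex.I • (y * F a - F a * y)) -
          (F a + Complex.I • (y * F a - F a * y)) * y =
          (-Complex.I) • (F a + Complex.I • (y * F a - F a * y)) := by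
        have e2 : y * (F a + Complex.I • (y * F a - F a * y)) -
            (F a + Complex.I • (y * F a - F a * y)) * y = (y * F a - F a * y) + Complex.I •
            (y * (y * F a - F a * y) - (y * F a - F a * y) * y) := by
          rw [mul_add, add_mul, mul_smul_comm, smul_mul_assoc, smul_sub]
          abel
        rw [e2, h2, smul_add, smul_smul, neg_mul, hI]
        module
      rw [← e1]
      abel
    have e1 := anti_GG hI hup hQ
    have e2 := anti_GG (j := -Complex.I) (by rw [neg_mul_neg, hI]) hdn hQ
    have e3 : F a = (1 / 2 : ℂ) • ((F a - Complex.I • (y * F a - F a * y)) +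
        (F a + Complex.I • (y * F a - F a * y))) := by module
    have e4 : aeval y GG * F a = (1 / 2 : ℂ) • (aeval y GG * (F a - Complex.I •
        (y * F a - F a * y)) + aeval y GG * (F a + Complex.I • (y * F a - F a * y))) := by
      rw [← mul_add, ← mul_smul_comm, ← e3]
    have e5 : F a * aeval y GG = (1 / 2 : ℂ) • ((F a - Complex.I •
        (y * F a - F a * y)) * aeval y GG + (F a + Complex.I • (y * F a - F a * y)) *
        aeval y GG) := by
      rw [← add_mul, ← smul_mul_assoc, ← e3]
    rw [e4, e5, e1, e2]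
    module
  · have hc : Commute y z := hz
    have h3 : ∀ p : ℂ[X], aeval y p * z = z * aeval y p := by
      intro p
      induction p using Polynomial.induction_on' with
      | add p q hp hq => rw [map_add, add_mul, mul_add, hp, hq]
      | monomial n a =>
        rw [aeval_monomial, mul_assoc, (hc.pow_left n).eq, ← mul_assoc, Algebra.commutes,
          mul_assoc]
    exact h3 GG

end Pool.Agent.N192.GP
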