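import Pool.Agent.N192.GP.Inter
import Pool.Agent.N192.GP.Eight
import Pool.Agent.N192.GP.Num

set_option autoImplicit false
set_option linter.unusedSectionVars false
set_option linter.unusedVariables false

/-!
# The intertwining map of two linked Lie algebras: all ranks
-/

open Module

noncomputable section

namespace Pool.Agent.N192.GP

open Pool.Agent.Y102

/-- A homomorphism defined on a Lie algebra of spin type, which maps the generators to elements of
square `-1`. -/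
structure Hq {U U' : Type} [AddCommGroup U] [Module ℂ U] [AddCommGroup U'] [Module ℂ U']
    {N k : ℕ} (E : Fin N → Module.End ℂ U) (c : Fin N → Fin k)
    (𝔮 : Submodule ℂ (Module.End ℂ U × Module.End ℂ U')) : Prop where
  br : Br 𝔮
  fst : 𝔮.map (LinearMap.fst ℂ _ _) = SP.soC E c
  inj : ∀ Y, ((0, Y) : Module.End ℂ U × Module.End ℂ U') ∈ 𝔮 → Y = 0
  sq : ∀ i j, i ≠ j → c i = c j → ∀ y, (E i * E j, y) ∈ 𝔮 → y * y = -1

section

variable {U U' : Type} [AddCommGroup U] [Module ℂ U] [AddCommGroup U'] [Module ℂ U']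
    {N k : ℕ} {E : Fin N → Module.End ℂ U} {c : Fin N → Fin k}
    {𝔮 : Submodule ℂ (Module.End ℂ U × Module.End ℂ U')} (h : Hq E c 𝔮)
include h

theorem Hq.mem_fst {x : Module.End ℂ U} (hx : x ∈ SP.soC E c) : ∃ y, (x, y) ∈ 𝔮 := by
  rw [← h.fst] at hx
  obtain ⟨⟨x', y⟩, hp, rfl⟩ := hx
  exact ⟨y, hp⟩

theorem Hq.fst_mem {x : Module.End ℂ U} {y : Module.End ℂ U'} (hp : (x, y) ∈ 𝔮) :
    x ∈ SP.soC E c := by
  rw [← h.fst]
  exact ⟨_, hp, rfl⟩

theorem Hq.uniq {x : Module.End ℂ U} {y y' : Module.End ℂ U'} (hp : (x, y) ∈ 𝔮)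
    (hp' : (x, y') ∈ 𝔮) : y = y' := by
  have h1 := 𝔮.sub_mem hp hp'
  have h2 : ((x, y) : Module.End ℂ U × Module.End ℂ U') - (x, y') = (0, y - y') :=
    Prod.ext (sub_self x) rfl
  rw [h2] at h1
  exact sub_eq_zero.1 (h.inj _ h1)

theorem Hq.brk {x x' : Module.End ℂ U} {y y' : Module.End ℂ U'} (hp : (x, y) ∈ 𝔮)
    (hp' : (x', y') ∈ 𝔮) : (x * x' - x' * x, y * y' - y' * y) ∈ 𝔮 :=
  h.br _ hp _ hp'

variable [Nontrivial U] [Nontrivial U'] (hE : SP.CE E) {r : ℕ}
  (hc : ∀ s, (Finset.univ.filter fun j => c j = s).card = r) (h6 : 6 ≤ r)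

include hE hc h6

/-- **The intertwining map.** -/
theorem Hq.exists_T : ∃ T : U →ₗ[ℂ] U', T ≠ 0 ∧
    ∀ x y, (x, y) ∈ 𝔮 → y.comp T = T.comp x := by
  classical
  -- base points
  have hbase : ∀ s : Fin k, ∃ i, c i = s := by
    intro s
    have h1 : (Finset.univ.filter fun j => c j = s).Nonempty := by
      rw [← Finset.card_pos, hc]
      omega
    obtain ⟨i, hi⟩ := h1
    exact ⟨i, (Finset.mem_filter.1 hi).2⟩
  choose b0 hb0 using hbase
  let ι : Type := {a : Fin N // a ≠ b0 (c a)}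
  have hcb : ∀ a : ι, c (b0 (c a.1)) = c a.1 := fun a => hb0 _
  let F : ι → Module.End ℂ U := fun a => E a.1 * E (b0 (c a.1))
  have hFm : ∀ a, F a ∈ SP.soC E c := fun a =>
    Submodule.subset_span ⟨a.1, b0 (c a.1), a.2, (hcb a).symm, rfl⟩
  choose F' hF' using fun a => h.mem_fst (hFm a)
  -- relations for two elements of the same colour
  have hsame : ∀ a b : ι, a ≠ b → c a.1 = c b.1 → ∀ γ, (E a.1 * E b.1, γ) ∈ 𝔮 →
      F' a * F' b = -(F' b * F' a) ∧ γ = -(F' a * F' b) := by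
    intro a b hab hcab γ hγ
    have hab' : a.1 ≠ b.1 := fun h' => hab (Subtype.ext h')
    have hbo : b.1 ≠ b0 (c a.1) := by rw [hcab]; exact b.2
    have hFb : F b = E b.1 * E (b0 (c a.1)) := by rw [hcab]
    have hFa : F a = E a.1 * E (b0 (c a.1)) := rfl
    refine rel_anti (h.sq _ _ a.2 (hcb a).symm _ (hF' a)) ?_ ?_
    · have g1 := h.brk (hF' a) (hF' b)
      rw [hFa, hFb, e_ab0 hE hab' a.2 hbo] at g1
      exact h.uniq g1 (𝔮.smul_mem (-2 : ℂ) hγ)
    · have g1 := h.brk hγ (hF' a)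
      rw [hFa, e_aba hE hab' a.2 hbo, ← hFb] at g1
      exact h.uniq g1 (𝔮.smul_mem (-2 : ℂ) (hF' b))
  have hne : ∀ a b : ι, a ≠ b → b.1 ≠ a.1 ∧ b.1 ≠ b0 (c a.1) := by
    intro a b hab
    refine ⟨fun h' => hab (Subtype.ext h'.symm), fun h' => ?_⟩
    have h1 : c b.1 = c a.1 := by rw [h', hb0]
    exact b.2 (by rw [h1]; exact h')
  have htwo : Two F F' := by
    refine ⟨fun a => SP.simple_sq hE a.2, fun a => h.sq _ _ a.2 (hcb a).symm _ (hF' a),
      fun a b hab => ?_⟩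
    have hab' : a.1 ≠ b.1 := fun h' => hab (Subtype.ext h')
    by_cases hcab : c a.1 = c b.1
    · obtain ⟨γ, hγ⟩ := h.mem_fst (x := E a.1 * E b.1)
        (Submodule.subset_span ⟨_, _, hab', hcab, rfl⟩)
      have g1 := (hsame a b hab hcab γ hγ).1
      have hbo : b.1 ≠ b0 (c a.1) := (hne a b hab).2
      have hFb : F b = E b.1 * E (b0 (c a.1)) := by rw [hcab]
      have hFa : F a = E a.1 * E (b0 (c a.1)) := rfl
      refine ⟨-1, by ring, ?_, by rw [g1, neg_one_smul]⟩
      rw [neg_one_smul, hFa, hFb]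
      have e1 : E a.1 * E (b0 (c a.1)) * (E b.1 * E (b0 (c a.1))) = -(E a.1 * E b.1) := by
        rw [mul_assoc, ← mul_assoc (E (b0 (c a.1))), hE.anti _ _ (Ne.symm hbo), neg_mul, mul_neg,
          mul_assoc (E b.1), hE.sq, mul_one]
      have e2 : E b.1 * E (b0 (c a.1)) * (E a.1 * E (b0 (c a.1))) = -(E b.1 * E a.1) := by
        rw [mul_assoc, ← mul_assoc (E (b0 (c a.1))), hE.anti _ _ (Ne.symm a.2), neg_mul, mul_neg,
          mul_assoc (E a.1), hE.sq, mul_one]
      rw [e1, e2, hE.anti _ _ hab']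
    · have e1 : F a * F b = F b * F a := by
        refine SP.Col_comm hE a.2 (hne a b hab).1 (hne a b hab).2 ?_ ?_
        · exact ((hne b a (Ne.symm hab)).2).symm
        · intro h'
          apply hcab
          rw [← hb0 (c a.1), ← h', hb0]
      refine ⟨1, one_mul 1, by rw [one_smul, e1], ?_⟩
      have g1 := h.brk (hF' a) (hF' b)
      rw [e1, sub_self] at g1
      rw [one_smul, ← sub_eq_zero]
      exact h.inj _ g1
  obtain ⟨T₀, hT₀⟩ := exists_hom (U := U) (U' := U')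
  obtain ⟨T₁, hT₁, ε, hε, h1⟩ := htwo.exists hT₀ Finset.univ
  have hG1 : ∀ a b : ι, a ≠ b → F b * E a.1 = E a.1 * F b := by
    intro a b hab
    have g1 := (hne b a (Ne.symm hab)).1
    have g2 := (hne b a (Ne.symm hab)).2
    change E b.1 * E (b0 (c b.1)) * E a.1 = E a.1 * (E b.1 * E (b0 (c b.1)))
    rw [mul_assoc, hE.anti _ _ (Ne.symm g2), mul_neg, ← mul_assoc, hE.anti _ _ (Ne.symm g1), neg_mul,
      neg_neg, mul_assoc]
  have hG2 : ∀ a : ι, F a * E a.1 = -(E a.1 * F a) := by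
    intro a
    change E a.1 * E (b0 (c a.1)) * E a.1 = -(E a.1 * (E a.1 * E (b0 (c a.1))))
    rw [mul_assoc, hE.anti _ _ (Ne.symm a.2), mul_neg]
  obtain ⟨T, hT, ε', -, h2, h3⟩ := Two.fix (F := F) (F' := F') hT₁ hε
    (fun a => h1 a (Finset.mem_univ a)) (G := fun a : ι => E a.1) (fun a => hE.sq _) hG1 hG2
    Finset.univ
  have hT' : ∀ a, (F' a).comp T = T.comp (F a) := by
    intro a
    rw [h2 a, h3 a (Finset.mem_univ a), one_smul]
  refine ⟨T, hT, fun x y hxy => ?_⟩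
  -- all elements
  have key : ∀ x ∈ SP.soC E c, ∃ y, (x, y) ∈ 𝔮 ∧ y.comp T = T.comp x := by
    intro x hx
    induction hx using Submodule.span_induction with
    | mem x hx =>
      obtain ⟨i, j, hij, hcij, rfl⟩ := hx
      by_cases hj : j = b0 (c i)
      · have hi : i ≠ b0 (c i) := fun h' => hij (h'.trans hj.symm)
        have e1 : F ⟨i, hi⟩ = E i * E j := by rw [hj]
        refine ⟨F' ⟨i, hi⟩, ?_, ?_⟩
        · rw [← e1]
          exact hF' _
        · rw [← e1]
          exact hT' _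
      · have hj' : j ≠ b0 (c j) := by rw [← hcij]; exact hj
        by_cases hi : i = b0 (c i)
        · have e1 : F ⟨j, hj'⟩ = E j * E i := by
            rw [hi]
            change E j * E (b0 (c j)) = _
            rw [← hcij]
          have e2 : E i * E j = -F ⟨j, hj'⟩ := by rw [e1, hE.anti i j hij]
          refine ⟨-F' ⟨j, hj'⟩, ?_, ?_⟩
          · rw [e2]
            exact 𝔮.neg_mem (hF' ⟨j, hj'⟩)
          · rw [e2, LinearMap.neg_comp, LinearMap.comp_neg, hT']
        · obtain ⟨γ, hγ⟩ := h.mem_fst (x := E i * E j)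
            (Submodule.subset_span ⟨_, _, hij, hcij, rfl⟩)
          have hab : (⟨i, hi⟩ : ι) ≠ ⟨j, hj'⟩ := fun h' => hij (congrArg Subtype.val h')
          have g1 := (hsame ⟨i, hi⟩ ⟨j, hj'⟩ hab hcij γ hγ).2
          have hbo : j ≠ b0 (c i) := hj
          have hFb : F ⟨j, hj'⟩ = E j * E (b0 (c i)) := by
            change E j * E (b0 (c j)) = _
            rw [← hcij]
          have e1 : E i * E j = -(F ⟨i, hi⟩ * F ⟨j, hj'⟩) := by
            rw [hFb]
            change _ = -(E i * E (b0 (c i)) * (E j * E (b0 (c i))))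
            rw [mul_assoc, ← mul_assoc (E (b0 (c i))), hE.anti _ _ (Ne.symm hbo), neg_mul, mul_neg,
              mul_assoc (E j), hE.sq, mul_one, neg_neg]
          refine ⟨γ, hγ, ?_⟩
          rw [g1, e1, LinearMap.neg_comp, LinearMap.comp_neg, Module.End.mul_eq_comp,
            Module.End.mul_eq_comp, LinearMap.comp_assoc, hT', ← LinearMap.comp_assoc, hT',
            LinearMap.comp_assoc]
    | zero => exact ⟨0, 𝔮.zero_mem, by rw [LinearMap.zero_comp, LinearMap.comp_zero]⟩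
    | add a b _ _ ha hb =>
      obtain ⟨y, hy, hy'⟩ := ha
      obtain ⟨z, hz, hz'⟩ := hb
      exact ⟨y + z, 𝔮.add_mem hy hz, by rw [LinearMap.add_comp, LinearMap.comp_add, hy', hz']⟩
    | smul t a _ ha =>
      obtain ⟨y, hy, hy'⟩ := ha
      exact ⟨t • y, 𝔮.smul_mem t hy, by rw [LinearMap.smul_comp, LinearMap.comp_smul, hy']⟩
  obtain ⟨y', hy', h4⟩ := key x (h.fst_mem hxy)
  rw [h.uniq hxy hy']
  exact h4

end

end Pool.Agent.N192.GP
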