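import Pool.Agent.N192.GP.InterH

set_option autoImplicit false
set_option linter.unusedSectionVars false
set_option linter.unusedVariables false

/-!
# The intertwining map of two linked Lie algebras, including triality
-/

open Module

noncomputable section

namespace Pool.Agent.N192.GP

open Pool.Agent.Y102

section Ring

variable {R : Type*} [Ring R] [Algebra ℂ R]

/-- Two elements with the relations of two adjacent rotations; if one has square `-1`, so has the
other. -/
theorem adj_sq {α β : R} (hα : α * α = -1)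
    (h1 : α * (α * β - β * α) - (α * β - β * α) * α = (-4 : ℂ) • β)
    (h2 : β * (β * α - α * β) - (β * α - α * β) * β = (-4 : ℂ) • α) : β * β = -1 := by
  have e1 : α * (α * β - β * α) - (α * β - β * α) * α = -β - β - (2 : ℂ) • (α * β * α) := by
    have : α * (α * β - β * α) - (α * β - β * α) * α =
        α * α * β + β * (α * α) - (2 : ℂ) • (α * β * α) := by
      rw [two_smul]
      noncomm_ring
    rw [this, hα]
    noncomm_ring
  have e2 : α * β * α = β := by
    rw [e1] at h1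
    have h3 : (2 : ℂ) • (α * β * α - β) = 0 := by
      have : (2 : ℂ) • (α * β * α - β) = -((-β - β - (2 : ℂ) • (α * β * α)) - (-4 : ℂ) • β) := by
        module
      rw [this, h1, sub_self, neg_zero]
    exact sub_eq_zero.1 ((smul_eq_zero.1 h3).resolve_left two_ne_zero)
  have e3 : β * α = -(α * β) := by
    have h3 : α * (α * β * α) = α * β := by rw [e2]
    rw [← mul_assoc, ← mul_assoc, hα, neg_one_mul, neg_mul] at h3
    rw [← h3, neg_neg]
  have e4 : β * (β * α - α * β) - (β * α - α * β) * β = (4 : ℂ) • (α * (β * β)) := by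
    have f1 : β * (β * α) = α * (β * β) := by
      rw [e3, mul_neg, ← mul_assoc, e3, neg_mul, neg_neg, mul_assoc]
    have f2 : β * (α * β) = -(α * (β * β)) := by
      rw [← mul_assoc, e3, neg_mul, mul_assoc]
    rw [mul_sub, sub_mul, f1, f2, mul_assoc, f2, mul_assoc]
    module
  rw [e4] at h2
  have e5 : (4 : ℂ) • (β * β + 1) = 0 := by
    have h3 : (4 : ℂ) • (β * β + 1) = -(α * ((4 : ℂ) • (α * (β * β)) - (-4 : ℂ) • α)) := by
      rw [mul_sub, mul_smul_comm, mul_smul_comm, ← mul_assoc, hα, neg_one_mul]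
      module
    rw [h3, h2, sub_self, mul_zero, neg_zero]
  exact eq_neg_of_add_eq_zero_left ((smul_eq_zero.1 e5).resolve_left (by norm_num))

end Ring

/-- The compression to an invariant subspace. -/
theorem exists_rho {U' : Type} [AddCommGroup U'] [Module ℂ U'] (P : Submodule ℂ U') :
    ∃ ρ : Module.End ℂ U' →ₗ[ℂ] Module.End ℂ P, ∀ y, (∀ v ∈ P, y v ∈ P) →
      ∀ v : P, ((ρ y v : P) : U') = y v := by
  obtain ⟨π, hπ⟩ := LinearMap.exists_leftInverse_of_injective P.subtype P.ker_subtype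
  refine ⟨{ toFun := fun y => π ∘ₗ y ∘ₗ P.subtype
            map_add' := fun y z => by
              rw [LinearMap.add_comp, LinearMap.comp_add]
            map_smul' := fun t y => by
              rw [LinearMap.smul_comp, LinearMap.comp_smul]
              rfl }, fun y hy v => ?_⟩
  have h1 := LinearMap.congr_fun hπ ⟨y v, hy v v.2⟩
  change ((π (y v) : P) : U') = y v
  have h2 : π (y v) = ⟨y v, hy v v.2⟩ := h1
  rw [h2]

variable {U U' : Type} [AddCommGroup U] [Module ℂ U] [AddCommGroup U'] [Module ℂ U']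
    {N k N' k' : ℕ} {E : Fin N → Module.End ℂ U} {c : Fin N → Fin k}
    {E' : Fin N' → Module.End ℂ U'} {c' : Fin N' → Fin k'}
    {𝔮 : Submodule ℂ (Module.End ℂ U × Module.End ℂ U')}

/-- The intertwining map with values in an invariant subspace. -/
theorem Lk.exists_T_of (h : Lk E c E' c' 𝔮) [Nontrivial U] (hE : SP.CE E) {r : ℕ}
    (hc : ∀ s, (Finset.univ.filter fun j => c j = s).card = r) (h6 : 6 ≤ r)
    {P : Submodule ℂ U'} (hP0 : P ≠ ⊥) (hPi : ∀ y ∈ SP.soC E' c', ∀ v ∈ P, y v ∈ P)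
    (hP : ∀ i j, i ≠ j → c i = c j → ∀ y, (E i * E j, y) ∈ 𝔮 → ∀ v ∈ P, y (y v) = -v) :
    ∃ T : U →ₗ[ℂ] U', T ≠ 0 ∧ ∀ x y, (x, y) ∈ 𝔮 → y.comp T = T.comp x := by
  obtain ⟨ρ, hρ⟩ := exists_rho P
  have hρ' : ∀ {x y}, (x, y) ∈ 𝔮 → ∀ v : P, ((ρ y v : P) : U') = y v := fun {x y} hp =>
    hρ y (hPi y (h.snd_mem hp))
  have hnt : Nontrivial P := (Submodule.nontrivial_iff_ne_bot).2 hP0
  let 𝔮' : Submodule ℂ (Module.End ℂ U × Module.End ℂ P) :=
    𝔮.map (LinearMap.prodMap LinearMap.id ρ)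
  have hm : ∀ {x y}, (x, y) ∈ 𝔮 → (x, ρ y) ∈ 𝔮' := fun {x y} hp => ⟨(x, y), hp, rfl⟩
  have hm' : ∀ {x Y}, (x, Y) ∈ 𝔮' → ∃ y, (x, y) ∈ 𝔮 ∧ ρ y = Y := by
    rintro x Y ⟨⟨x', y⟩, hp, he⟩
    have e1 : x' = x := congrArg Prod.fst he
    have e2 : ρ y = Y := congrArg Prod.snd he
    subst e1
    exact ⟨y, hp, e2⟩
  have hH : Hq E c 𝔮' := by
    refine ⟨?_, ?_, fun Y hY => ?_, fun i j hij hcij Y hY => ?_⟩
    · rintro ⟨x, Y⟩ hx ⟨x', Y'⟩ hx'
      obtain ⟨y, hy, rfl⟩ := hm' hx
      obtain ⟨y', hy', rfl⟩ := hm' hx'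
      have h1 := h.brk hy hy'
      have h2 := hm h1
      have h3 : ρ (y * y' - y' * y) = ρ y * ρ y' - ρ y' * ρ y := by
        refine LinearMap.ext fun v => Subtype.ext ?_
        rw [hρ' h1, LinearMap.sub_apply, LinearMap.sub_apply, Submodule.coe_sub,
          Module.End.mul_apply, Module.End.mul_apply, Module.End.mul_apply, Module.End.mul_apply,
          hρ' hy, hρ' hy', hρ' hy', hρ' hy]
      rw [h3] at h2
      exact h2
    · rw [← h.fst]
      ext x
      constructor
      · rintro ⟨⟨x', Y⟩, hp, rfl⟩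
        obtain ⟨y, hy, -⟩ := hm' hp
        exact ⟨(x', y), hy, rfl⟩
      · rintro ⟨⟨x', y⟩, hp, rfl⟩
        exact ⟨(x', ρ y), hm hp, rfl⟩
    · obtain ⟨y, hy, rfl⟩ := hm' hY
      rw [h.inj y hy, map_zero]
    · obtain ⟨y, hy, rfl⟩ := hm' hY
      refine LinearMap.ext fun v => Subtype.ext ?_
      rw [Module.End.mul_apply, hρ' hy, hρ' hy, hP i j hij hcij y hy v v.2]
      rfl
  obtain ⟨T, hT0, hT⟩ := hH.exists_T hE hc h6
  refine ⟨P.subtype.comp T, fun h0 => hT0 ?_, fun x y hxy => ?_⟩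
  · refine LinearMap.ext fun u => Subtype.ext ?_
    exact LinearMap.congr_fun h0 u
  · refine LinearMap.ext fun u => ?_
    have h1 := LinearMap.congr_fun (hT x (ρ y) (hm hxy)) u
    have h2 := congrArg Subtype.val h1
    rw [LinearMap.comp_apply, LinearMap.comp_apply, hρ' hxy] at h2
    exact h2

section Link

variable (h : Lk E c E' c' 𝔮)
  [FiniteDimensional ℂ U] [Nontrivial U] [FiniteDimensional ℂ U'] [Nontrivial U']
  (hE : SP.CE E) (hE' : SP.CE E') {r : ℕ}
  (hc : ∀ s, (Finset.univ.filter fun j => c j = s).card = r)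
  (hc' : ∀ s, (Finset.univ.filter fun j => c' j = s).card = r) (h6 : 6 ≤ r)

include h hE hE' hc hc' h6

/-- The squares. -/
theorem Lk.dich {i j : Fin N} (hij : i ≠ j) (hcij : c i = c j) {t : Fin k'}
    (ht1 : ∀ x y, (x, y) ∈ 𝔮 → x ∈ SP.soS E c (c i) → y ∈ SP.soS E' c' t)
    (ht2 : ∀ y ∈ SP.soS E' c' t, ∃ x ∈ SP.soS E c (c i), (x, y) ∈ 𝔮) {y : Module.End ℂ U'}
    (hy : (E i * E j, y) ∈ 𝔮) : y * y = -1 ∨ (r = 8 ∧ ∀ a, c' a = t →
      y * (y * E' a - E' a * y) - (y * E' a - E' a * y) * y = -E' a) := by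
  obtain ⟨e, he, he1, he2⟩ := exists_enum (hc (c i))
  obtain ⟨e', he', he1', he2'⟩ := exists_enum (hc' t)
  have hF := enum_CE hE he
  have hF' := enum_CE hE' he'
  have hso := enum_soE (E := E) he he1 he2
  have hso' := enum_soE (E := E') he' he1' he2'
  have hppm : ∀ a b, pp (fun a => E (e a)) a b ∈ SP.soS E c (c i) := by
    intro a b
    unfold pp
    split_ifs with hab
    · exact Submodule.zero_mem _
    · exact Submodule.subset_span ⟨_, _, fun h' => hab (he h'), he1 a, he1 b, rfl⟩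
  choose Y hY using fun a b => h.mem_fst (SP.soS_le (c i) (hppm a b))
  have hrel : RelE (fun a => E' (e' a)) Y := by
    refine ⟨fun a b => ?_, fun a b => ?_, fun a b d hab hbd had => ?_, fun a b z hz => ?_,
      fun z hz => ?_⟩
    · rw [hso']
      exact ht1 _ _ (hY a b) (hppm a b)
    · refine h.uniq (hY a b) ?_
      have h1 := 𝔮.neg_mem (hY b a)
      have h2 : pp (fun a => E (e a)) a b = -pp (fun a => E (e a)) b a := by
        unfold pp
        by_cases hab : a = b
        · rw [if_pos hab, if_pos hab.symm, neg_zero]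
        · rw [if_neg hab, if_neg (Ne.symm hab), hF.anti a b hab]
      rw [h2]
      exact h1
    · refine h.uniq (h.brk (hY a b) (hY b d)) ?_
      have h1 := 𝔮.smul_mem (2 : ℂ) (hY a d)
      have h2 : pp (fun a => E (e a)) a b * pp (fun a => E (e a)) b d -
          pp (fun a => E (e a)) b d * pp (fun a => E (e a)) a b =
          (2 : ℂ) • pp (fun a => E (e a)) a d := by
        unfold pp
        rw [if_neg hab, if_neg hbd, if_neg had]
        exact SP.simple_br hF hab hbd had
      rw [h2]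
      exact h1
    · rw [hso'] at hz
      obtain ⟨w, hw, hp⟩ := ht2 z hz
      by_cases hab : a = b
      · have h1 : Y a b = 0 := by
          refine h.uniq (hY a b) ?_
          unfold pp
          rw [if_pos hab]
          exact 𝔮.zero_mem
        rw [h1]
        simp
      · have g1 := h.brk (hY a b) hp
        have g2 := h.brk (hY a b) g1
        have g3 := h.brk (hY a b) g2
        refine h.uniq g3 ?_
        have g4 := 𝔮.smul_mem (-4 : ℂ) g1
        have g5 := three_C hE (c := c) (fun h' => hab (he h') : e a ≠ e b) (SP.soS_le (c i) hw)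
        have g6 : pp (fun a => E (e a)) a b = E (e a) * E (e b) := by
          unfold pp
          rw [if_neg hab]
        rw [g6] at g4 ⊢
        rw [g5]
        exact g4
    · rw [hso'] at hz
      obtain ⟨w, hw, hp⟩ := ht2 z hz
      have g1 : ∀ a b, (pp (fun a => E (e a)) a b * (pp (fun a => E (e a)) a b * w -
          w * pp (fun a => E (e a)) a b) - (pp (fun a => E (e a)) a b * w -
          w * pp (fun a => E (e a)) a b) * pp (fun a => E (e a)) a b,
          Y a b * (Y a b * z - z * Y a b) - (Y a b * z - z * Y a b) * Y a b) ∈ 𝔮 :=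
        fun a b => h.brk (hY a b) (h.brk (hY a b) hp)
      have g2 := 𝔮.sum_mem (t := Finset.univ) fun a _ => 𝔮.sum_mem (t := Finset.univ)
        fun b _ => g1 a b
      have g3 : ∀ f : Fin r → Fin r → Module.End ℂ U × Module.End ℂ U',
          ∑ a, ∑ b, f a b = (∑ a, ∑ b, (f a b).1, ∑ a, ∑ b, (f a b).2) := by
        intro f
        refine Prod.ext ?_ ?_
        · simp only [Prod.fst_sum]
        · simp only [Prod.snd_sum]
      rw [g3] at g2
      simp only at g2
      rw [cas_pp hF (by rw [hso]; exact hw)] at g2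
      exact h.uniq g2 (𝔮.smul_mem (-16 * ((r : ℂ) - 2)) hp)
  obtain ⟨a, rfl⟩ := he2 i rfl
  obtain ⟨b, rfl⟩ := he2 j hcij.symm
  have hab : a ≠ b := fun h' => hij (by rw [h'])
  have h2 : Y a b = y := by
    refine h.uniq (hY a b) ?_
    unfold pp
    rw [if_neg hab]
    exact hy
  rcases hrel.dich hF' (by omega) hab with h1 | ⟨h1, h3⟩
  · left
    rwa [h2] at h1
  · right
    refine ⟨h1, fun d hd => ?_⟩
    obtain ⟨d', rfl⟩ := he2' d hd
    have h4 := h3 d'
    rwa [h2] at h4

/-- The parity of the element `y`. -/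
theorem Lk.exists_g {i j : Fin N} (hij : i ≠ j) (hcij : c i = c j) {t : Fin k'}
    (ht1 : ∀ x y, (x, y) ∈ 𝔮 → x ∈ SP.soS E c (c i) → y ∈ SP.soS E' c' t)
    (ht2 : ∀ y ∈ SP.soS E' c' t, ∃ x ∈ SP.soS E c (c i), (x, y) ∈ 𝔮) {y : Module.End ℂ U'}
    (hy : (E i * E j, y) ∈ 𝔮) : ∃ g : Module.End ℂ U', g * g = 1 ∧ (y * y + 1) * (g - 1) = 0 ∧
      (g = -1 ∨ ∀ a, c' a = t → g * E' a = -(E' a * g)) ∧ ∀ z, y * z = z * y → g * z = z * g := by
  rcases h.dich hE hE' hc hc' h6 hij hcij ht1 ht2 hy with h1 | ⟨h8, h1⟩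
  · refine ⟨-1, by simp, by rw [h1]; simp, Or.inl rfl, fun z _ => by simp⟩
  · subst h8
    obtain ⟨e', he', he1', he2'⟩ := exists_enum (hc' t)
    have hF' := enum_CE hE' he'
    have hys : y ∈ SP.soE fun a => E' (e' a) := by
      rw [enum_soE he' he1' he2']
      exact ht1 _ _ hy (Submodule.subset_span ⟨i, j, hij, rfl, hcij.symm, rfl⟩)
    obtain ⟨g, g1, g2, g3, g4⟩ := parity (F := fun a => E' (e' a)) hF'.sq hF'.anti
      (SP.soE_rec hF' hys).symm fun a => h1 _ (he1' a)
    refine ⟨g, g1, g2, Or.inr fun a ha => ?_, g4⟩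
    obtain ⟨d', rfl⟩ := he2' a ha
    exact g3 d'

end Link

end Pool.Agent.N192.GP
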