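import Pool.Agent.N192.GP.InterP

set_option autoImplicit false
set_option linter.unusedSectionVars false
set_option linter.unusedVariables false

/-!
# The intertwining map of two linked Lie algebras: all ranks
-/

open Module

noncomputable section

namespace Pool.Agent.N192.GP

open Pool.Agent.Y102

section

variable {U' : Type} [AddCommGroup U'] [Module ℂ U'] {N' k' : ℕ}
    {E' : Fin N' → Module.End ℂ U'} {c' : Fin N' → Fin k'}

theorem soS_gen (hE' : SP.CE E') {τ : Fin k'} {a : Fin N'} (ha : c' a ≠ τ) {x : Module.End ℂ U'}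
    (hx : x ∈ SP.soS E' c' τ) : x * E' a = E' a * x := by
  induction hx using Submodule.span_induction with
  | mem x hx =>
    obtain ⟨i, j, hij, hi, hj, rfl⟩ := hx
    have h1 := SP.Cl_br hE' hij a
    rw [if_neg fun h => ha (by rw [h, hj]), if_neg fun h => ha (by rw [h, hi]), sub_zero,
      sub_eq_zero] at h1
    exact h1
  | zero => rw [zero_mul, mul_zero]
  | add u v _ _ hu hv => rw [add_mul, mul_add, hu, hv]
  | smul t u _ hu => rw [smul_mul_assoc, mul_smul_comm, hu]

theorem exists_pair {N k r : ℕ} {c : Fin N → Fin k}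
    (hc : ∀ s, (Finset.univ.filter fun j => c j = s).card = r) (h6 : 6 ≤ r) (s : Fin k) :
    ∃ i j : Fin N, i ≠ j ∧ c i = s ∧ c j = s := by
  have h1 : 1 < (Finset.univ.filter fun j => c j = s).card := by
    rw [hc]
    omega
  obtain ⟨i, hi, j, hj, hij⟩ := Finset.one_lt_card.1 h1
  exact ⟨i, j, hij, (Finset.mem_filter.1 hi).2, (Finset.mem_filter.1 hj).2⟩

end

variable {U U' : Type} [AddCommGroup U] [Module ℂ U] [AddCommGroup U'] [Module ℂ U']
    {N k N' k' : ℕ} {E : Fin N → Module.End ℂ U} {c : Fin N → Fin k}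
    {E' : Fin N' → Module.End ℂ U'} {c' : Fin N' → Fin k'}
    {𝔮 : Submodule ℂ (Module.End ℂ U × Module.End ℂ U')} (h : Lk E c E' c' 𝔮)

section Adj

include h

/-- The condition for the pair `a b`. -/
def Sq (E : Fin N → Module.End ℂ U) (𝔮 : Submodule ℂ (Module.End ℂ U × Module.End ℂ U'))
    (P : Submodule ℂ U') (a b : Fin N) : Prop :=
  ∀ y, (E a * E b, y) ∈ 𝔮 → ∀ v ∈ P, y (y v) = -v

theorem Sq.symm' (hE : SP.CE E) {P : Submodule ℂ U'} {a b : Fin N} (hab : a ≠ b)
    (hs : Sq E 𝔮 P a b) : Sq E 𝔮 P b a := by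
  intro y hy v hv
  have h1 := 𝔮.neg_mem hy
  have h2 : -((E b * E a, y) : Module.End ℂ U × Module.End ℂ U') = (E a * E b, -y) := by
    rw [hE.anti a b hab]
    rfl
  rw [h2] at h1
  have h3 := hs _ h1 v hv
  simpa using h3

theorem Sq.step (hE : SP.CE E) {P : Submodule ℂ U'}
    (hPi : ∀ y ∈ SP.soC E' c', ∀ v ∈ P, y v ∈ P) {a b d : Fin N} (hab : a ≠ b) (had : a ≠ d)
    (hbd : b ≠ d) (cab : c a = c b) (cad : c a = c d) (hs : Sq E 𝔮 P a b) : Sq E 𝔮 P a d := by
  intro y hy v hv
  obtain ⟨z, hz⟩ := h.mem_fst (x := E a * E b) (Submodule.subset_span ⟨_, _, hab, cab, rfl⟩)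
  obtain ⟨ρ, hρ⟩ := exists_rho P
  have hρ' : ∀ {x y}, (x, y) ∈ 𝔮 → ∀ v : P, ((ρ y v : P) : U') = y v := fun {x y} hp =>
    hρ y (hPi y (h.snd_mem hp))
  have hbr : ∀ {x y x' y'}, (x, y) ∈ 𝔮 → (x', y') ∈ 𝔮 → ρ (y * y' - y' * y) =
      ρ y * ρ y' - ρ y' * ρ y := by
    intro x y x' y' hy hy'
    refine LinearMap.ext fun v => Subtype.ext ?_
    rw [hρ' (h.brk hy hy'), LinearMap.sub_apply, LinearMap.sub_apply, Submodule.coe_sub,
      Module.End.mul_apply, Module.End.mul_apply, Module.End.mul_apply, Module.End.mul_apply,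
      hρ' hy, hρ' hy', hρ' hy', hρ' hy]
  have hanti : ∀ i j l : Fin N, i ≠ j → i ≠ l → j ≠ l →
      E i * E j * (E i * E l) = (-1 : ℂ) • (E i * E l * (E i * E j)) := by
    intro i j l hij hil hjl
    have e1 : E i * E j * (E i * E l) = -(E j * E l) := by
      rw [mul_assoc, ← mul_assoc (E j), hE.anti j i (Ne.symm hij), neg_mul, mul_neg,
        mul_assoc (E i), ← mul_assoc (E i) (E i), hE.sq, one_mul]
    have e2 : E i * E l * (E i * E j) = -(E l * E j) := by
      rw [mul_assoc, ← mul_assoc (E l), hE.anti l i (Ne.symm hil), neg_mul, mul_neg,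
        mul_assoc (E i), ← mul_assoc (E i) (E i), hE.sq, one_mul]
    rw [e1, e2, hE.anti j l hjl, neg_one_smul]
  have hα : ρ z * ρ z = -1 := by
    refine LinearMap.ext fun v => Subtype.ext ?_
    rw [Module.End.mul_apply, hρ' hz, hρ' hz, hs z hz v v.2]
    rfl
  have key : ∀ {x y x' y'}, (x, y) ∈ 𝔮 → (x', y') ∈ 𝔮 → x * x = -1 → x * x' = (-1 : ℂ) • (x' * x) →
      ρ y * (ρ y * ρ y' - ρ y' * ρ y) - (ρ y * ρ y' - ρ y' * ρ y) * ρ y = (-4 : ℂ) • ρ y' := by
    intro x y x' y' hy hy' hx hxx
    have g1 := h.brk hy (h.brk hy hy')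
    have g2 := two_of_sign hx hxx
    rw [g2] at g1
    have g3 := h.uniq g1 (𝔮.smul_mem (-2 * (1 - (-1)) : ℂ) hy')
    rw [← hbr hy hy', ← hbr hy (h.brk hy hy'), g3, map_smul]
    norm_num
  have h1 := key hz hy (SP.simple_sq hE hab) (hanti a b d hab had hbd)
  have h2 := key hy hz (SP.simple_sq hE had) (hanti a d b had hab (Ne.symm hbd))
  have h3 := adj_sq hα h1 h2
  have h4 := congrArg Subtype.val (LinearMap.congr_fun h3 ⟨v, hv⟩)
  rw [Module.End.mul_apply, hρ' hy, hρ' hy] at h4
  exact h4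

theorem Sq.all (hE : SP.CE E) {P : Submodule ℂ U'}
    (hPi : ∀ y ∈ SP.soC E' c', ∀ v ∈ P, y v ∈ P) {a b i j : Fin N} (hab : a ≠ b)
    (cab : c a = c b) (hs : Sq E 𝔮 P a b) (hij : i ≠ j) (ci : c i = c a) (cj : c j = c a) :
    Sq E 𝔮 P i j := by
  by_cases h1 : i = a
  · subst h1
    by_cases h2 : j = b
    · subst h2
      exact hs
    · exact Sq.step h hE hPi hab hij (Ne.symm h2) cab cj.symm hs
  · by_cases h2 : j = a
    · subst h2
      refine Sq.symm' h hE (Ne.symm hij) ?_
      by_cases h3 : i = b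
      · subst h3
        exact hs
      · exact Sq.step h hE hPi hab (Ne.symm hij) (Ne.symm h3) cab ci.symm hs
    · -- `a j`, `j a`, `j i`, `i j`
      have g1 : Sq E 𝔮 P a j := by
        by_cases h3 : j = b
        · subst h3
          exact hs
        · exact Sq.step h hE hPi hab (Ne.symm h2) (Ne.symm h3) cab cj.symm hs
      have g2 := Sq.symm' h hE (Ne.symm h2) g1
      have g3 := Sq.step h hE hPi h2 (Ne.symm hij) (Ne.symm h1) cj (cj.trans ci.symm) g2
      exact Sq.symm' h hE (Ne.symm hij) g3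

end Adj

section Main

variable [FiniteDimensional ℂ U] [Nontrivial U] [FiniteDimensional ℂ U'] [Nontrivial U']
  (hE : SP.CE E) (hE' : SP.CE E') {r : ℕ}
  (hc : ∀ s, (Finset.univ.filter fun j => c j = s).card = r)
  (hc' : ∀ s, (Finset.univ.filter fun j => c' j = s).card = r) (h6 : 6 ≤ r)

include h hE hE' hc hc' h6

theorem Lk.exists_P : ∃ P : Submodule ℂ U', P ≠ ⊥ ∧ (∀ y ∈ SP.soC E' c', ∀ v ∈ P, y v ∈ P) ∧
    ∀ i j, i ≠ j → c i = c j → ∀ y, (E i * E j, y) ∈ 𝔮 → ∀ v ∈ P, y (y v) = -v := by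
  classical
  choose i0 j0 hij0 hi0 hj0 using exists_pair hc h6
  choose t ht1 ht2 using h.colour hE hE' hc hc' h6
  have tinj : ∀ s s', t s = t s' → s = s' := by
    intro s s' hss
    by_contra hne
    obtain ⟨a, b, hab, ha, hb⟩ := exists_pair hc' h6 (t s)
    have hy : E' a * E' b ∈ SP.soS E' c' (t s) :=
      Submodule.subset_span ⟨a, b, hab, ha, hb, rfl⟩
    obtain ⟨x, hx, hp⟩ := ht2 s _ hy
    obtain ⟨x', hx', hp'⟩ := ht2 s' _ (hss ▸ hy)
    have h1 := 𝔮.sub_mem hp hp'
    have h2 : ((x, E' a * E' b) : Module.End ℂ U × Module.End ℂ U') - (x', E' a * E' b) =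
        (x - x', 0) := Prod.ext rfl (sub_self _)
    rw [h2] at h1
    have h3 : x = x' := sub_eq_zero.1 (h.inj' _ h1)
    have h4 := SP.pS_same hE hx
    rw [h3, SP.pS_other hE hne hx', ← h3] at h4
    rw [← h4] at hp
    have h5 : E' a * E' b = 0 := h.inj _ hp
    have h6 := SP.simple_sq hE' hab
    rw [h5, mul_zero] at h6
    exact one_ne_zero (neg_eq_zero.1 h6.symm)
  choose y0 hy0 using fun s => h.mem_fst (x := E (i0 s) * E (j0 s))
    (Submodule.subset_span ⟨_, _, hij0 s, (hi0 s).trans (hj0 s).symm, rfl⟩)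
  have hy0m : ∀ s, y0 s ∈ SP.soS E' c' (t s) := fun s => ht1 s _ _ (hy0 s)
    (Submodule.subset_span ⟨_, _, hij0 s, hi0 s, hj0 s, rfl⟩)
  choose g g1 g2 g3 g4 using fun s => h.exists_g hE hE' hc hc' h6 (hij0 s)
    ((hi0 s).trans (hj0 s).symm) (t := t s) (by rw [hi0 s]; exact ht1 s)
    (by rw [hi0 s]; exact ht2 s) (hy0 s)
  -- the parities commute with the Lie algebra
  have hgo : ∀ s a, c' a ≠ t s → g s * E' a = E' a * g s := fun s a ha =>
    g4 s _ (soS_gen hE' ha (hy0m s))
  have hgC : ∀ s, ∀ y ∈ SP.soC E' c', g s * y = y * g s := by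
    intro s y hy
    induction hy using Submodule.span_induction with
    | mem y hy =>
      obtain ⟨i, j, hij, hcij, rfl⟩ := hy
      by_cases hi : c' i = t s
      · rcases g3 s with h1 | h1
        · rw [h1]
          simp
        · rw [← mul_assoc, h1 i hi, neg_mul, mul_assoc, h1 j (hcij ▸ hi), mul_neg, neg_neg,
            mul_assoc]
      · rw [← mul_assoc, hgo s i hi, mul_assoc, hgo s j (by rw [← hcij]; exact hi), mul_assoc]
    | zero => rw [mul_zero, zero_mul]
    | add u v _ _ hu hv => rw [mul_add, add_mul, hu, hv]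
    | smul t u _ hu => rw [mul_smul_comm, smul_mul_assoc, hu]
  have hgg : ∀ s s', g s * g s' = g s' * g s := by
    intro s s'
    refine g4 s _ ?_
    exact (hgC s' (y0 s) (SP.soS_le _ (hy0m s))).symm
  let P : Submodule ℂ U' :=
    { carrier := {v | ∀ s, g s v = -v}
      zero_mem' := fun s => by rw [map_zero, neg_zero]
      add_mem' := fun {u v} hu hv s => by rw [map_add, hu s, hv s, neg_add]
      smul_mem' := fun z v hv s => by rw [map_smul, hv s, smul_neg] }
  have hPi : ∀ y ∈ SP.soC E' c', ∀ v ∈ P, y v ∈ P := by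
    intro y hy v hv s
    have h1 := LinearMap.congr_fun (hgC s y hy) v
    rw [Module.End.mul_apply, Module.End.mul_apply, hv s, map_neg] at h1
    exact h1
  have hP0 : ∀ S : Finset (Fin k), ∃ v : U', v ≠ 0 ∧ ∀ s ∈ S, g s v = -v := by
    intro S
    induction S using Finset.induction_on with
    | empty =>
      obtain ⟨v, hv⟩ := exists_ne (0 : U')
      exact ⟨v, hv, fun s hs => absurd hs (Finset.notMem_empty s)⟩
    | insert b S hb ih =>
      obtain ⟨v, hv, hvS⟩ := ih
      have hbb : ∀ w, g b (g b w) = w := fun w => LinearMap.congr_fun (g1 b) w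
      by_cases hw : v - g b v = 0
      · have hbv : g b v = v := (sub_eq_zero.1 hw).symm
        rcases g3 b with h1 | h1
        · exfalso
          rw [h1] at hbv
          have h2 : -v = v := hbv
          have h3 : (2 : ℂ) • v = 0 := by
            rw [two_smul]
            nth_rewrite 1 [← h2]
            rw [neg_add_cancel]
          exact hv ((smul_eq_zero.1 h3).resolve_left two_ne_zero)
        · obtain ⟨a, -, -, ha, -⟩ := exists_pair hc' h6 (t b)
          refine ⟨E' a v, fun h0 => hv ?_, fun s hs => ?_⟩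
          · have h2 := LinearMap.congr_fun (hE'.sq a) v
            rw [Module.End.mul_apply, h0, map_zero] at h2
            exact h2.symm
          · rcases Finset.mem_insert.1 hs with rfl | hs
            · have h2 := LinearMap.congr_fun (h1 a ha) v
              rw [Module.End.mul_apply, LinearMap.neg_apply, Module.End.mul_apply, hbv] at h2
              exact h2
            · have hne : c' a ≠ t s := by
                rw [ha]
                intro h2
                rw [tinj _ _ h2] at hb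
                exact hb hs
              have h2 := LinearMap.congr_fun (hgo s a hne) v
              rw [Module.End.mul_apply, Module.End.mul_apply, hvS s hs, map_neg] at h2
              exact h2
      · refine ⟨_, hw, fun s hs => ?_⟩
        rcases Finset.mem_insert.1 hs with rfl | hs
        · rw [map_sub, hbb]
          abel
        · have h2 := LinearMap.congr_fun (hgg s b) v
          rw [Module.End.mul_apply, Module.End.mul_apply, hvS s hs, map_neg] at h2
          rw [map_sub, hvS s hs, h2]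
          abel
  obtain ⟨v, hv, hvP⟩ := hP0 Finset.univ
  refine ⟨P, ?_, hPi, fun i j hij hcij => ?_⟩
  · rw [Submodule.ne_bot_iff]
    exact ⟨v, fun s => hvP s (Finset.mem_univ s), hv⟩
  · have hs0 : Sq E 𝔮 P (i0 (c i)) (j0 (c i)) := by
      intro y hy v hv
      rw [h.uniq hy (hy0 (c i))]
      have h1 := LinearMap.congr_fun (g2 (c i)) v
      rw [Module.End.mul_apply, LinearMap.sub_apply, Module.End.one_apply, hv (c i),
        LinearMap.zero_apply, LinearMap.add_apply, Module.End.mul_apply, Module.End.one_apply] at h1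
      have h2 : (-2 : ℂ) • (y0 (c i) (y0 (c i) v) + v) = 0 := by
        rw [← h1, map_sub, map_sub, map_neg, map_neg]
        module
      exact eq_neg_of_add_eq_zero_left ((smul_eq_zero.1 h2).resolve_left (by norm_num))
    exact Sq.all h hE hPi (hij0 _) ((hi0 _).trans (hj0 _).symm) hs0 hij (hi0 _).symm
      (by rw [← hcij, hi0])

/-- **The intertwining map, for all ranks.** -/
theorem Lk.exists_T' : ∃ T : U →ₗ[ℂ] U', T ≠ 0 ∧
    ∀ x y, (x, y) ∈ 𝔮 → y.comp T = T.comp x := by
  obtain ⟨P, hP0, hPi, hP⟩ := h.exists_P hE hE' hc hc' h6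
  exact h.exists_T_of hE hc h6 hP0 hPi hP

end Main

end Pool.Agent.N192.GP
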