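import Mathlib

set_option autoImplicit false

/-!
# Intertwining maps between modules over commuting and anticommuting operators
-/

open Module

namespace Pool.Agent.N192.GP

variable {U U' : Type} [AddCommGroup U] [Module ℂ U] [AddCommGroup U'] [Module ℂ U'] {ι : Type}

/-- commuting or anticommuting operators with square `-1` on two spaces -/
structure Two (F : ι → Module.End ℂ U) (F' : ι → Module.End ℂ U') : Prop where
  sq : ∀ a, F a * F a = -1
  sq' : ∀ a, F' a * F' a = -1
  comm : ∀ a b, a ≠ b → ∃ s : ℂ, s * s = 1 ∧ F a * F b = s • (F b * F a) ∧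
    F' a * F' b = s • (F' b * F' a)

variable {F : ι → Module.End ℂ U} {F' : ι → Module.End ℂ U'}

theorem Two.step (h : Two F F') {b : ι} {T T' : U →ₗ[ℂ] U'} {δ : ℂ}
    (hδ : δ * δ = 1) (hT' : T' = T - δ • ((F' b).comp (T.comp (F b)))) :
    (F' b).comp T' = δ • (T'.comp (F b)) ∧ ∀ a, a ≠ b → ∀ ε : ℂ,
      (F' a).comp T = ε • (T.comp (F a)) → (F' a).comp T' = ε • (T'.comp (F a)) := by
  have hsq : ∀ u, F b (F b u) = -u := fun u => LinearMap.congr_fun (h.sq b) u
  have hsq' : ∀ u, F' b (F' b u) = -u := fun u => LinearMap.congr_fun (h.sq' b) u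
  constructor
  · refine LinearMap.ext fun u => ?_
    rw [hT']
    simp only [LinearMap.comp_apply, LinearMap.sub_apply, LinearMap.smul_apply, map_sub, map_smul,
      hsq, hsq', smul_sub, smul_neg, smul_smul, hδ, one_smul, map_neg]
    abel
  · intro a hab ε hε
    obtain ⟨s, hs, h1, h2⟩ := h.comm a b hab
    have h1' : ∀ u, F a (F b u) = s • F b (F a u) := fun u => LinearMap.congr_fun h1 u
    have h2' : ∀ u, F' a (F' b u) = s • F' b (F' a u) := fun u => LinearMap.congr_fun h2 u
    have hε' : ∀ u, F' a (T u) = ε • T (F a u) := fun u => LinearMap.congr_fun hε u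
    refine LinearMap.ext fun u => ?_
    rw [hT']
    simp only [LinearMap.comp_apply, LinearMap.sub_apply, LinearMap.smul_apply, map_sub, map_smul,
      h2', hε', h1', smul_sub, smul_smul]
    congr 2
    linear_combination (δ * ε) * hs

theorem Two.exists [DecidableEq ι] (h : Two F F') {T₀ : U →ₗ[ℂ] U'} (h0 : T₀ ≠ 0) (S : Finset ι) :
    ∃ T : U →ₗ[ℂ] U', T ≠ 0 ∧ ∃ ε : ι → ℂ, (∀ a, ε a * ε a = 1) ∧
      ∀ a ∈ S, (F' a).comp T = ε a • (T.comp (F a)) := by
  induction S using Finset.induction_on with
  | empty => exact ⟨T₀, h0, fun _ => 1, fun _ => one_mul 1, fun a ha => absurd ha (Finset.notMem_empty a)⟩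
  | insert b S hb ih =>
    obtain ⟨T, hT, ε, hε, hS⟩ := ih
    have key : ∀ δ : ℂ, δ * δ = 1 → T - δ • ((F' b).comp (T.comp (F b))) ≠ 0 →
        ∃ T : U →ₗ[ℂ] U', T ≠ 0 ∧ ∃ ε : ι → ℂ, (∀ a, ε a * ε a = 1) ∧
          ∀ a ∈ insert b S, (F' a).comp T = ε a • (T.comp (F a)) := by
      intro δ hδ hne
      obtain ⟨h1, h2⟩ := h.step (b := b) (T := T) hδ rfl
      refine ⟨_, hne, Function.update ε b δ, fun a => ?_, fun a ha => ?_⟩
      · by_cases hab : a = b
        · rw [hab, Function.update_self, hδ]
        · rw [Function.update_of_ne hab, hε]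
      · by_cases hab : a = b
        · rw [hab, Function.update_self]
          exact h1
        · rw [Function.update_of_ne hab]
          exact h2 a hab _ (hS a ((Finset.mem_insert.1 ha).resolve_left hab))
    by_cases h1 : T - (1 : ℂ) • ((F' b).comp (T.comp (F b))) ≠ 0
    · exact key 1 (by ring) h1
    · refine key (-1) (by ring) fun h2 => hT ?_
      push Not at h1
      have h3 : (2 : ℂ) • T = 0 := by
        have h4 : (2 : ℂ) • T = (T - (1 : ℂ) • ((F' b).comp (T.comp (F b)))) +
            (T - (-1 : ℂ) • ((F' b).comp (T.comp (F b)))) := by module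
        rw [h4, h1, h2, add_zero]
      exact (smul_eq_zero.1 h3).resolve_left two_ne_zero

/-- Correction of the signs. -/
theorem Two.fix [DecidableEq ι] {T : U →ₗ[ℂ] U'} (hT : T ≠ 0) {ε : ι → ℂ}
    (hε : ∀ a, ε a * ε a = 1) (h : ∀ a, (F' a).comp T = ε a • (T.comp (F a)))
    {G : ι → Module.End ℂ U} (hG : ∀ a, G a * G a = 1) (hFG : ∀ a b, a ≠ b → F b * G a = G a * F b)
    (hFG' : ∀ a, F a * G a = -(G a * F a)) (S : Finset ι) :
    ∃ T : U →ₗ[ℂ] U', T ≠ 0 ∧ ∃ ε : ι → ℂ, (∀ a, ε a * ε a = 1) ∧
      (∀ a, (F' a).comp T = ε a • (T.comp (F a))) ∧ ∀ a ∈ S, ε a = 1 := by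
  induction S using Finset.induction_on with
  | empty => exact ⟨T, hT, ε, hε, h, fun a ha => absurd ha (Finset.notMem_empty a)⟩
  | insert b S hb ih =>
    obtain ⟨T, hT, ε, hε, h, hS⟩ := ih
    by_cases h1 : ε b = 1
    · refine ⟨T, hT, ε, hε, h, fun a ha => ?_⟩
      rcases Finset.mem_insert.1 ha with rfl | h2
      · exact h1
      · exact hS a h2
    · have h2 : ε b = -1 := by
        have h3 : (ε b - 1) * (ε b + 1) = 0 := by linear_combination hε b
        exact eq_neg_of_add_eq_zero_left ((mul_eq_zero.1 h3).resolve_left (sub_ne_zero.2 h1))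
      refine ⟨T.comp (G b), fun h3 => hT ?_, Function.update ε b 1, fun a => ?_, fun a => ?_,
        fun a ha => ?_⟩
      · refine LinearMap.ext fun u => ?_
        have h4 : G b (G b u) = u := LinearMap.congr_fun (hG b) u
        have h5 := LinearMap.congr_fun h3 (G b u)
        rw [LinearMap.comp_apply, h4] at h5
        exact h5
      · by_cases hab : a = b
        · rw [hab, Function.update_self, one_mul]
        · rw [Function.update_of_ne hab, hε]
      · by_cases hab : a = b
        · subst hab
          rw [Function.update_self, one_smul]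
          refine LinearMap.ext fun u => ?_
          have h4 := LinearMap.congr_fun (h a) (G a u)
          have h5 : F a (G a u) = -G a (F a u) := LinearMap.congr_fun (hFG' a) u
          rw [LinearMap.comp_apply, LinearMap.smul_apply, LinearMap.comp_apply, h5, h2, map_neg,
            neg_smul, one_smul, neg_neg] at h4
          exact h4
        · rw [Function.update_of_ne hab]
          refine LinearMap.ext fun u => ?_
          have h4 := LinearMap.congr_fun (h a) (G b u)
          have h5 : F a (G b u) = G b (F a u) := LinearMap.congr_fun (hFG b a (Ne.symm hab)) u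
          rw [LinearMap.comp_apply, LinearMap.smul_apply, LinearMap.comp_apply, h5] at h4
          exact h4
      · by_cases hab : a = b
        · rw [hab, Function.update_self]
        · rw [Function.update_of_ne hab]
          exact hS a ((Finset.mem_insert.1 ha).resolve_left hab)

end Pool.Agent.N192.GP
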