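import Pool.Agent.N192.GP.ClM
import Pool.Agent.N192.GP.Twist

set_option autoImplicit false
set_option linter.unusedSectionVars false

/-!
# Isomorphisms of orthogonal Lie algebras and spin representations
-/

open Module

noncomputable section

namespace Pool.Agent.N192.GP

open Pool.Agent.Y102

section Sign

variable {U : Type} [AddCommGroup U] [Module ℂ U]

theorem two_of_sign {x w : Module.End ℂ U} (hx : x * x = -1) {s : ℂ} (h : x * w = s • (w * x)) :
    x * (x * w - w * x) - (x * w - w * x) * x = (-2 * (1 - s)) • w := by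
  have h1 : x * (x * w) = -w := by rw [← mul_assoc, hx, neg_one_mul]
  have h2 : w * x * x = -w := by rw [mul_assoc, hx, mul_neg_one]
  have h3 : x * (w * x) = -(s • w) := by
    rw [← mul_assoc, h, smul_mul_assoc, h2, smul_neg]
  rw [mul_sub, sub_mul, h1, h2, h3, mul_assoc x w x, h3]
  module

theorem three_of_sign {x w : Module.End ℂ U} (hx : x * x = -1) {s : ℂ} (hs : s * s = 1)
    (h : x * w = s • (w * x)) :
    x * (x * (x * w - w * x) - (x * w - w * x) * x) - (x * (x * w - w * x) -
      (x * w - w * x) * x) * x = (-4 : ℂ) • (x * w - w * x) := by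
  rw [two_of_sign hx h, mul_smul_comm, smul_mul_assoc, ← smul_sub, h]
  have h1 : s • (w * x) - w * x = (s - 1) • (w * x) := by module
  rw [h1, smul_smul, smul_smul]
  congr 1
  linear_combination (2 : ℂ) * hs

variable {r : ℕ} {F : Fin r → Module.End ℂ U}

/-- The products of two generators, zero for equal ones. -/
def pp (F : Fin r → Module.End ℂ U) (a b : Fin r) : Module.End ℂ U :=
  if a = b then 0 else F a * F b

theorem sg_mul (hF : SP.CE F) {a b : Fin r} (hab : a ≠ b) (i j : Fin r) :
    F a * F b * (F i * F j) = (SP.simple_sg a b i * SP.simple_sg a b j) •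
      (F i * F j * (F a * F b)) := by
  rw [← mul_assoc, SP.simple_comm hF hab i, smul_mul_assoc, mul_assoc (F i), SP.simple_comm hF hab j,
    mul_smul_comm, smul_smul, mul_assoc]

theorem cas_pp (hF : SP.CE F) {w : Module.End ℂ U} (hw : w ∈ SP.soE F) :
    ∑ a, ∑ b, (pp F a b * (pp F a b * w - w * pp F a b) -
      (pp F a b * w - w * pp F a b) * pp F a b) = (-16 * ((r : ℂ) - 2)) • w := by
  induction hw using Submodule.span_induction with
  | mem w hw =>
    obtain ⟨i, j, hij, rfl⟩ := hw
    have h1 : ∀ a b, (pp F a b * (pp F a b * (F i * F j) - (F i * F j) * pp F a b) -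
        (pp F a b * (F i * F j) - (F i * F j) * pp F a b) * pp F a b) =
        (-4 * (((if a = i then 1 else 0) + (if a = j then 1 else 0)) *
          (1 - (if b = i then 1 else 0) - (if b = j then 1 else 0)) +
          ((if b = i then 1 else 0) + (if b = j then 1 else 0)) *
          (1 - (if a = i then 1 else 0) - (if a = j then 1 else 0))) : ℂ) • (F i * F j) := by
      intro a b
      by_cases hab : a = b
      · subst hab
        unfold pp
        rw [if_pos rfl]
        simp only [zero_mul, mul_zero, sub_zero]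
        by_cases h1 : a = i
        · have h2 : ¬a = j := fun h => hij (h1.symm.trans h)
          simp [h1, hij]
        · by_cases h2 : a = j
          · simp [h2, Ne.symm hij]
          · simp [h1, h2]
      · unfold pp
        rw [if_neg hab, two_of_sign (SP.simple_sq hF hab) (sg_mul hF hab i j)]
        congr 1
        unfold SP.simple_sg
        by_cases h1 : a = i
        · have e1 : b ≠ i := fun h => hab (h1.trans h.symm)
          by_cases h2 : b = j
          · have e2 : a ≠ j := fun h => hab (h.trans h2.symm)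
            simp [h1, h2, hij, Ne.symm hij]
          · simp [h1, h2, hij, Ne.symm hij, e1, Ne.symm e1, Ne.symm h2]
            norm_num
        · by_cases h2 : a = j
          · by_cases h3 : b = i
            · simp [h2, h3, hij, Ne.symm hij]
            · have e1 : b ≠ j := fun h => hab (h2.trans h.symm)
              simp [h2, h3, hij, Ne.symm hij, e1, Ne.symm e1, Ne.symm h3]
              norm_num
          · by_cases h3 : b = i
            · simp [h1, h2, h3, hij, Ne.symm hij, Ne.symm h1, Ne.symm h2]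
              norm_num
            · by_cases h4 : b = j
              · simp [h1, h2, h3, h4, hij, Ne.symm hij, Ne.symm h1, Ne.symm h2]
                norm_num
              · simp [h1, h2, h3, h4, Ne.symm h1, Ne.symm h2, Ne.symm h3, Ne.symm h4]
    simp only [h1, ← Finset.sum_smul]
    congr 1
    simp only [← Finset.mul_sum, Finset.sum_add_distrib, ← Finset.sum_mul, Finset.sum_sub_distrib,
      Finset.sum_ite_eq', Finset.mem_univ, if_true, Finset.sum_const, Finset.card_univ,
      Fintype.card_fin, nsmul_eq_mul]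
    ring
  | zero => simp
  | add u v _ _ hu hv =>
    rw [smul_add, ← hu, ← hv]
    simp only [← Finset.sum_add_distrib]
    refine Finset.sum_congr rfl fun a _ => Finset.sum_congr rfl fun b _ => ?_
    simp only [mul_add, add_mul, mul_sub, sub_mul]
    abel
  | smul t u _ hu =>
    rw [smul_comm, ← hu]
    simp only [Finset.smul_sum]
    refine Finset.sum_congr rfl fun a _ => Finset.sum_congr rfl fun b _ => ?_
    simp only [mul_smul_comm, smul_mul_assoc, smul_sub, mul_sub, sub_mul]

/-- the third power of the bracket with a product of two generators -/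
theorem three_C {N k : ℕ} {E : Fin N → Module.End ℂ U} {c : Fin N → Fin k} (hE : SP.CE E)
    {i j : Fin N} (hij : i ≠ j) {w : Module.End ℂ U} (hw : w ∈ SP.soC E c) :
    E i * E j * (E i * E j * (E i * E j * w - w * (E i * E j)) -
      (E i * E j * w - w * (E i * E j)) * (E i * E j)) - (E i * E j * (E i * E j * w -
      w * (E i * E j)) - (E i * E j * w - w * (E i * E j)) * (E i * E j)) * (E i * E j) =
      (-4 : ℂ) • (E i * E j * w - w * (E i * E j)) := by
  obtain ⟨x, hx⟩ : ∃ x, x = E i * E j := ⟨_, rfl⟩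
  have hxx : x * x = -1 := by rw [hx]; exact SP.simple_sq hE hij
  have hsg : ∀ a b : Fin N, x * (E a * E b) = (SP.simple_sg i j a * SP.simple_sg i j b) •
      (E a * E b * x) := fun a b => by rw [hx]; exact sg_mul hE hij a b
  rw [← hx]
  induction hw using Submodule.span_induction with
  | mem w hw =>
    obtain ⟨a, b, hab, -, rfl⟩ := hw
    refine three_of_sign hxx ?_ (hsg a b)
    have h1 := SP.simple_sg_sq i j a
    have h2 := SP.simple_sg_sq i j b
    linear_combination (SP.simple_sg i j b * SP.simple_sg i j b) * h1 + h2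
  | zero => simp
  | add u v _ _ hu hv =>
    have h1 : ∀ z : Module.End ℂ U, x * (x * (x * z - z * x) - (x * z - z * x) * x) -
        (x * (x * z - z * x) - (x * z - z * x) * x) * x - (-4 : ℂ) • (x * z - z * x) =
        x * x * x * z - (3 : ℂ) • (x * x * z * x) + (3 : ℂ) • (x * z * x * x) - z * x * x * x +
          (4 : ℂ) • (x * z - z * x) := by
      intro z
      simp only [mul_sub, sub_mul, mul_assoc]
      module
    have hu' := sub_eq_zero.2 hu
    have hv' := sub_eq_zero.2 hv
    rw [h1] at hu' hv'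
    rw [← sub_eq_zero, h1]
    have h2 := congrArg₂ (· + ·) hu' hv'
    simp only [add_zero] at h2
    rw [← h2]
    simp only [mul_add, add_mul, smul_add, mul_assoc]
    module
  | smul t u _ hu =>
    simp only [mul_smul_comm, smul_mul_assoc, ← smul_sub]
    rw [hu, smul_comm]

end Sign

section Enum

theorem exists_enum {N k r : ℕ} {c : Fin N → Fin k} {s : Fin k}
    (hs : (Finset.univ.filter fun j => c j = s).card = r) :
    ∃ e : Fin r → Fin N, Function.Injective e ∧ (∀ a, c (e a) = s) ∧ ∀ i, c i = s → ∃ a, e a = i := by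
  classical
  set F := Finset.univ.filter fun j => c j = s with hF
  let e : F ≃ Fin r := F.equivFinOfCardEq hs
  refine ⟨fun a => (e.symm a).1, fun a b h => e.symm.injective (Subtype.ext h),
    fun a => (Finset.mem_filter.1 (e.symm a).2).2, fun i hi => ?_⟩
  exact ⟨e ⟨i, Finset.mem_filter.2 ⟨Finset.mem_univ _, hi⟩⟩, by simp⟩

variable {U : Type} [AddCommGroup U] [Module ℂ U] {N k r : ℕ} {E : Fin N → Module.End ℂ U}
  {c : Fin N → Fin k}

theorem enum_CE (hE : SP.CE E) {e : Fin r → Fin N} (he : Function.Injective e) :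
    SP.CE fun a => E (e a) :=
  ⟨fun a => hE.sq _, fun a b hab => hE.anti _ _ fun h => hab (he h)⟩

theorem enum_soE {s : Fin k} {e : Fin r → Fin N} (he : Function.Injective e)
    (h1 : ∀ a, c (e a) = s) (h2 : ∀ i, c i = s → ∃ a, e a = i) :
    SP.soE (fun a => E (e a)) = SP.soS E c s := by
  refine le_antisymm (Submodule.span_mono ?_) (Submodule.span_mono ?_)
  · rintro _ ⟨a, b, hab, rfl⟩
    exact ⟨_, _, fun h => hab (he h), h1 _, h1 _, rfl⟩
  · rintro _ ⟨i, j, hij, hi, hj, rfl⟩
    obtain ⟨a, rfl⟩ := h2 i hi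
    obtain ⟨b, rfl⟩ := h2 j hj
    exact ⟨a, b, fun h => hij (by rw [h]), rfl⟩

/-- An ideal contains one colour, or its projection to it is trivial. -/
theorem dicho [FiniteDimensional ℂ U] [Nontrivial U] (hE : SP.CE E)
    {s : Fin k} (hs6 : 6 ≤ (Finset.univ.filter fun j => c j = s).card)
    {I : Submodule ℂ (Module.End ℂ U)} (hI : Idl I (SP.soC E c)) :
    SP.soS E c s ≤ I ∨ ∀ x ∈ I, SP.pS E c s x = 0 := by
  rcases SP.ColMain_simple hE hs6 (I ⊓ SP.soS E c s) inf_le_right (fun x hx y hy =>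
      ⟨hI.2 x (SP.soS_le s hx) y hy.1, SP.soS_br hE hx hy.2⟩) with h1 | h
  swap
  · exact Or.inl (inf_eq_right.1 h)
  right
  have hpos : 0 < finrank ℂ (SP.soS E c s) := by
    rw [finrank_soS hE rfl]
    obtain ⟨r, hr⟩ : ∃ r, r = (Finset.univ.filter fun j => c j = s).card := ⟨_, rfl⟩
    rw [← hr] at hs6 ⊢
    have h2 : 6 * 5 ≤ r * (r - 1) := Nat.mul_le_mul hs6 (by omega)
    omega
  let Z : Submodule ℂ (Module.End ℂ U) :=
    { carrier := {x | x ∈ SP.soS E c s ∧ ∀ y ∈ SP.soS E c s, y * x - x * y = 0}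
      zero_mem' := ⟨Submodule.zero_mem _, fun y _ => by rw [mul_zero, zero_mul, sub_zero]⟩
      add_mem' := fun {a b} ha hb => ⟨Submodule.add_mem _ ha.1 hb.1, fun y hy => by
        have h2 := ha.2 y hy
        have h3 := hb.2 y hy
        have h4 : y * (a + b) - (a + b) * y = (y * a - a * y) + (y * b - b * y) := by
          rw [mul_add, add_mul]
          abel
        rw [h4, h2, h3, add_zero]⟩
      smul_mem' := fun t a ha => ⟨Submodule.smul_mem _ t ha.1, fun y hy => by
        rw [mul_smul_comm, smul_mul_assoc, ← smul_sub, ha.2 y hy, smul_zero]⟩ }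
  have hZ : Z = ⊥ := by
    rcases SP.ColMain_simple hE hs6 Z (fun x hx => hx.1) (fun x hx y hy => by
      rw [hy.2 x hx]
      exact Z.zero_mem) with h | h
    · exact h
    · exfalso
      have h2 : SP.soS E c s ≤ ⊥ := by
        refine (SP.ColMain_perfect hE hs6).trans (Submodule.span_le.2 ?_)
        rintro _ ⟨x, hx, y, hy, rfl⟩
        have h3 : y ∈ Z := by rw [h]; exact hy
        rw [h3.2 x hx]
        exact Submodule.zero_mem _
      rw [le_bot_iff] at h2
      rw [h2, finrank_bot] at hpos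
      exact lt_irrefl _ hpos
  intro x hx
  have h3 : SP.pS E c s x ∈ Z := by
    refine ⟨SP.pS_mem hE (hI.1 hx), fun y hy => ?_⟩
    have h4 := SP.pS_br hE (σ := s) (SP.soS_le s hy) (hI.1 hx)
    rw [SP.pS_same hE hy] at h4
    rw [← h4]
    have h5 : y * x - x * y ∈ I ⊓ SP.soS E c s := by
      refine ⟨hI.2 y (SP.soS_le s hy) x hx, ?_⟩
      have h6 := SP.Link_part hE hy (hI.1 hx)
      have h7 : y * x - x * y = y * SP.pS E c s x - SP.pS E c s x * y := by
        rw [← neg_sub, h6, neg_sub]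
      rw [h7]
      exact SP.soS_br hE hy (SP.pS_mem hE (hI.1 hx))
    rw [h1] at h5
    rw [(Submodule.mem_bot ℂ).1 h5, map_zero]
  rw [hZ] at h3
  exact (Submodule.mem_bot ℂ).1 h3

theorem soS_idl (hE : SP.CE E) {s : Fin k} : Idl (SP.soS E c s) (SP.soC E c) := by
  refine ⟨SP.soS_le s, fun x hx y hy => ?_⟩
  rw [SP.Link_part hE hy hx]
  exact SP.soS_br hE (SP.pS_mem hE hx) hy

end Enum

/-- Two Lie algebras of spin type which are linked by an isomorphism. -/
structure Lk {U U' : Type} [AddCommGroup U] [Module ℂ U] [AddCommGroup U'] [Module ℂ U']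
    {N k N' k' : ℕ} (E : Fin N → Module.End ℂ U) (c : Fin N → Fin k)
    (E' : Fin N' → Module.End ℂ U') (c' : Fin N' → Fin k')
    (𝔮 : Submodule ℂ (Module.End ℂ U × Module.End ℂ U')) : Prop where
  br : Br 𝔮
  fst : 𝔮.map (LinearMap.fst ℂ _ _) = SP.soC E c
  snd : 𝔮.map (LinearMap.snd ℂ _ _) = SP.soC E' c'
  inj : ∀ Y, ((0, Y) : Module.End ℂ U × Module.End ℂ U') ∈ 𝔮 → Y = 0
  inj' : ∀ X, ((X, 0) : Module.End ℂ U × Module.End ℂ U') ∈ 𝔮 → X = 0

section Link

variable {U U' : Type} [AddCommGroup U] [Module ℂ U] [AddCommGroup U'] [Module ℂ U']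
    {N k N' k' : ℕ} {E : Fin N → Module.End ℂ U} {c : Fin N → Fin k}
    {E' : Fin N' → Module.End ℂ U'} {c' : Fin N' → Fin k'}
    {𝔮 : Submodule ℂ (Module.End ℂ U × Module.End ℂ U')} (h : Lk E c E' c' 𝔮)
include h

namespace Lk

theorem mem_fst {x : Module.End ℂ U} (hx : x ∈ SP.soC E c) : ∃ y, (x, y) ∈ 𝔮 := by
  rw [← h.fst] at hx
  obtain ⟨⟨x', y⟩, hp, rfl⟩ := hx
  exact ⟨y, hp⟩

theorem mem_snd {y : Module.End ℂ U'} (hy : y ∈ SP.soC E' c') : ∃ x, (x, y) ∈ 𝔮 := by
  rw [← h.snd] at hy
  obtain ⟨⟨x, y'⟩, hp, rfl⟩ := hy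
  exact ⟨x, hp⟩

theorem fst_mem {x : Module.End ℂ U} {y : Module.End ℂ U'} (hp : (x, y) ∈ 𝔮) :
    x ∈ SP.soC E c := by
  rw [← h.fst]
  exact ⟨_, hp, rfl⟩

theorem snd_mem {x : Module.End ℂ U} {y : Module.End ℂ U'} (hp : (x, y) ∈ 𝔮) :
    y ∈ SP.soC E' c' := by
  rw [← h.snd]
  exact ⟨_, hp, rfl⟩

theorem uniq {x : Module.End ℂ U} {y y' : Module.End ℂ U'} (hp : (x, y) ∈ 𝔮)
    (hp' : (x, y') ∈ 𝔮) : y = y' := by
  have h1 := 𝔮.sub_mem hp hp'
  have h2 : ((x, y) : Module.End ℂ U × Module.End ℂ U') - (x, y') = (0, y - y') :=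
    Prod.ext (sub_self x) rfl
  rw [h2] at h1
  exact sub_eq_zero.1 (h.inj _ h1)

theorem brk {x x' : Module.End ℂ U} {y y' : Module.End ℂ U'} (hp : (x, y) ∈ 𝔮)
    (hp' : (x', y') ∈ 𝔮) : (x * x' - x' * x, y * y' - y' * y) ∈ 𝔮 :=
  h.br _ hp _ hp'

variable [FiniteDimensional ℂ U] [Nontrivial U] [FiniteDimensional ℂ U'] [Nontrivial U']
  (hE : SP.CE E) (hE' : SP.CE E') {r : ℕ}
  (hc : ∀ s, (Finset.univ.filter fun j => c j = s).card = r)
  (hc' : ∀ s, (Finset.univ.filter fun j => c' j = s).card = r) (h6 : 6 ≤ r)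

include hE hE' hc hc' h6

/-- The colours correspond. -/
theorem colour (s : Fin k) : ∃ t : Fin k',
    (∀ x y, (x, y) ∈ 𝔮 → x ∈ SP.soS E c s → y ∈ SP.soS E' c' t) ∧
      ∀ y ∈ SP.soS E' c' t, ∃ x ∈ SP.soS E c s, (x, y) ∈ 𝔮 := by
  have hpos : 0 < finrank ℂ (SP.soS E c s) := by
    rw [finrank_soS hE (hc s)]
    have h2 : 6 * 5 ≤ r * (r - 1) := Nat.mul_le_mul h6 (by omega)
    omega
  let X : Submodule ℂ (Module.End ℂ U × Module.End ℂ U') :=
    𝔮 ⊓ (SP.soS E c s).comap (LinearMap.fst ℂ _ _)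
  let I : Submodule ℂ (Module.End ℂ U') := X.map (LinearMap.snd ℂ _ _)
  have hI : ∀ y, y ∈ I ↔ ∃ x ∈ SP.soS E c s, (x, y) ∈ 𝔮 := by
    intro y
    constructor
    · rintro ⟨⟨x, y'⟩, hp, rfl⟩
      exact ⟨x, hp.2, hp.1⟩
    · rintro ⟨x, hx, hp⟩
      exact ⟨(x, y), ⟨hp, hx⟩, rfl⟩
  have hIdl : Idl I (SP.soC E' c') := by
    refine ⟨fun y hy => ?_, fun w hw y hy => ?_⟩
    · obtain ⟨x, -, hp⟩ := (hI y).1 hy
      exact h.snd_mem hp
    · obtain ⟨x, hx, hp⟩ := (hI y).1 hy
      obtain ⟨v, hv⟩ := h.mem_snd hw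
      exact (hI _).2 ⟨v * x - x * v, (soS_idl hE).2 v (h.fst_mem hv) x hx, h.brk hv hp⟩
  have hfin : finrank ℂ I ≤ r * (r - 1) / 2 := by
    have e1 : finrank ℂ I ≤ finrank ℂ X := Submodule.finrank_map_le _ _
    have e2 := finrank_ker X (LinearMap.fst ℂ (Module.End ℂ U) (Module.End ℂ U'))
    have e3 : X ⊓ LinearMap.ker (LinearMap.fst ℂ (Module.End ℂ U) (Module.End ℂ U')) = ⊥ := by
      rw [eq_bot_iff]
      rintro ⟨x, y⟩ ⟨⟨hp, -⟩, h0⟩
      have h1 : x = 0 := h0
      subst h1
      rw [Submodule.mem_bot, h.inj y hp]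
      rfl
    have e4 : finrank ℂ (X.map (LinearMap.fst ℂ (Module.End ℂ U) (Module.End ℂ U'))) ≤
        r * (r - 1) / 2 := by
      rw [← finrank_soS hE (hc s)]
      refine Submodule.finrank_mono ?_
      rintro _ ⟨⟨x, y⟩, hp, rfl⟩
      exact hp.2
    rw [e3, finrank_bot, zero_add] at e2
    exact e1.trans (e2.symm.trans_le e4)
  obtain ⟨t, ht⟩ : ∃ t, SP.soS E' c' t ≤ I := by
    by_contra hcon
    push Not at hcon
    have h1 : ∀ t, ∀ y ∈ I, SP.pS E' c' t y = 0 := fun t =>
      (dicho hE' (by rw [hc']; exact h6) hIdl).resolve_left (hcon t)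
    have h2 : SP.soS E c s = ⊥ := by
      rw [eq_bot_iff]
      intro x hx
      obtain ⟨y, hp⟩ := h.mem_fst (SP.soS_le s hx)
      have hy : y ∈ I := (hI y).2 ⟨x, hx, hp⟩
      have h3 : y = 0 := by
        rw [SP.pS_sum hE' (h.snd_mem hp)]
        exact Finset.sum_eq_zero fun t _ => h1 t y hy
      rw [h3] at hp
      rw [Submodule.mem_bot]
      exact h.inj' x hp
    rw [h2, finrank_bot] at hpos
    exact lt_irrefl _ hpos
  have hIt : SP.soS E' c' t = I := by
    refine Submodule.eq_of_le_of_finrank_le ht ?_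
    rw [finrank_soS hE' (hc' t)]
    exact hfin
  refine ⟨t, fun x y hp hx => ?_, fun y hy => ?_⟩
  · rw [hIt]
    exact (hI y).2 ⟨x, hx, hp⟩
  · rw [hIt] at hy
    exact (hI y).1 hy

/-- The squares. -/
theorem sq (h8 : r ≠ 8) {i j : Fin N} (hij : i ≠ j) (hcij : c i = c j) {y : Module.End ℂ U'}
    (hy : (E i * E j, y) ∈ 𝔮) : y * y = -1 := by
  obtain ⟨t, ht1, ht2⟩ := h.colour hE hE' hc hc' h6 (c i)
  obtain ⟨e, he, he1, he2⟩ := exists_enum (hc (c i))
  obtain ⟨e', he', he1', he2'⟩ := exists_enum (hc' t)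
  have hF := enum_CE hE he
  have hF' := enum_CE hE' he'
  have hso := enum_soE (E := E) he he1 he2
  have hso' := enum_soE (E := E') he' he1' he2'
  have hppm : ∀ a b, pp (fun a => E (e a)) a b ∈ SP.soS E c (c i) := by
    intro a b
    unfold pp
    split_ifs with hab
    · exact Submodule.zero_mem _
    · exact Submodule.subset_span ⟨_, _, fun h' => hab (he h'), he1 a, he1 b, rfl⟩
  choose Y hY using fun a b => h.mem_fst (SP.soS_le (c i) (hppm a b))
  have hrel : RelE (fun a => E' (e' a)) Y := by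
    refine ⟨fun a b => ?_, fun a b => ?_, fun a b d hab hbd had => ?_, fun a b z hz => ?_,
      fun z hz => ?_⟩
    · rw [hso']
      exact ht1 _ _ (hY a b) (hppm a b)
    · refine h.uniq (hY a b) ?_
      have h1 := 𝔮.neg_mem (hY b a)
      have h2 : pp (fun a => E (e a)) a b = -pp (fun a => E (e a)) b a := by
        unfold pp
        by_cases hab : a = b
        · rw [if_pos hab, if_pos hab.symm, neg_zero]
        · rw [if_neg hab, if_neg (Ne.symm hab), hF.anti a b hab]
      rw [h2]
      exact h1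
    · refine h.uniq (h.brk (hY a b) (hY b d)) ?_
      have h1 := 𝔮.smul_mem (2 : ℂ) (hY a d)
      have h2 : pp (fun a => E (e a)) a b * pp (fun a => E (e a)) b d -
          pp (fun a => E (e a)) b d * pp (fun a => E (e a)) a b =
          (2 : ℂ) • pp (fun a => E (e a)) a d := by
        unfold pp
        rw [if_neg hab, if_neg hbd, if_neg had]
        exact SP.simple_br hF hab hbd had
      rw [h2]
      exact h1
    · rw [hso'] at hz
      obtain ⟨w, hw, hp⟩ := ht2 z hz
      by_cases hab : a = b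
      · have h1 : Y a b = 0 := by
          refine h.uniq (hY a b) ?_
          unfold pp
          rw [if_pos hab]
          exact 𝔮.zero_mem
        rw [h1]
        simp
      · have g1 := h.brk (hY a b) hp
        have g2 := h.brk (hY a b) g1
        have g3 := h.brk (hY a b) g2
        refine h.uniq g3 ?_
        have g4 := 𝔮.smul_mem (-4 : ℂ) g1
        have g5 := three_C hE (c := c) (fun h' => hab (he h') : e a ≠ e b) (SP.soS_le (c i) hw)
        have g6 : pp (fun a => E (e a)) a b = E (e a) * E (e b) := by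
          unfold pp
          rw [if_neg hab]
        rw [g6] at g4 ⊢
        rw [g5]
        exact g4
    · rw [hso'] at hz
      obtain ⟨w, hw, hp⟩ := ht2 z hz
      have g1 : ∀ a b, (pp (fun a => E (e a)) a b * (pp (fun a => E (e a)) a b * w -
          w * pp (fun a => E (e a)) a b) - (pp (fun a => E (e a)) a b * w -
          w * pp (fun a => E (e a)) a b) * pp (fun a => E (e a)) a b,
          Y a b * (Y a b * z - z * Y a b) - (Y a b * z - z * Y a b) * Y a b) ∈ 𝔮 :=
        fun a b => h.brk (hY a b) (h.brk (hY a b) hp)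
      have g2 := 𝔮.sum_mem (t := Finset.univ) fun a _ => 𝔮.sum_mem (t := Finset.univ)
        fun b _ => g1 a b
      have g3 : ∀ f : Fin r → Fin r → Module.End ℂ U × Module.End ℂ U',
          ∑ a, ∑ b, f a b = (∑ a, ∑ b, (f a b).1, ∑ a, ∑ b, (f a b).2) := by
        intro f
        refine Prod.ext ?_ ?_
        · simp only [Prod.fst_sum]
        · simp only [Prod.snd_sum]
      rw [g3] at g2
      simp only at g2
      rw [cas_pp hF (by rw [hso]; exact hw)] at g2
      exact h.uniq g2 (𝔮.smul_mem (-16 * ((r : ℂ) - 2)) hp)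
  obtain ⟨a, rfl⟩ := he2 i rfl
  obtain ⟨b, rfl⟩ := he2 j hcij.symm
  have hab : a ≠ b := fun h' => hij (by rw [h'])
  have h1 := hrel.sq hF' (by omega) h8 hab
  have h2 : Y a b = y := by
    refine h.uniq (hY a b) ?_
    unfold pp
    rw [if_neg hab]
    exact hy
  rwa [h2] at h1

end Lk

end Link

end Pool.Agent.N192.GP
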