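import Pool.Agent.N192.GP.Comp
import Pool.Agent.N192.GP.InterQ

set_option autoImplicit false
set_option linter.unusedSectionVars false

/-!
# Links of members of spin type are compatible with Hodge structures
-/

open Module Function TensorProduct

noncomputable section

namespace Pool.Agent.N192.GP

open Pool.Agent.Y102 Pool.Agent.W516.DR

variable {T : Type} [Fintype T] [DecidableEq T] {n : T → ℕ}
  {η : ∀ t, Basis (Fin (n t)) ℂ ((Fin (n t) → ℚ) →ₗ[ℚ] ℂ)}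

/-- The intertwining map over the rational numbers. -/
theorem exists_f {s t : T} (h : Linked η s t) {r : ℕ} (hs : Spin (gg η s) r)
    (ht : Spin (gg η t) r) (h6 : 6 ≤ r)
    [Nontrivial (ℂ ⊗[ℚ] (Fin (n s) → ℚ))] [Nontrivial (ℂ ⊗[ℚ] (Fin (n t) → ℚ))] :
    ∃ f : (Fin (n s) → ℚ) →ₗ[ℚ] (Fin (n t) → ℚ), f ≠ 0 ∧
      ∀ X Y, (X, Y) ∈ (LG η).map (prq s t) → Y.comp f = f.comp X := by
  obtain ⟨N, k, E, c, hE, hc, hg⟩ := hs
  obtain ⟨N', k', E', c', hE', hc', hg'⟩ := ht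
  have hLk : Lk E c E' c' (cx2 ((LG η).map (prq s t))) := by
    refine ⟨cx2_br qq_br, ?_, ?_, fun Y hY => ?_, fun X hX => ?_⟩
    · rw [cx2_fst, qq_fst, hg]
    · rw [cx2_snd, qq_snd, hg']
    · have h1 : ∀ lam : ℂ →ₗ[ℚ] ℚ, cmpE lam Y = 0 := by
        intro lam
        have h2 := cx2_comp hY lam
        have h3 : cmpE lam (0 : Module.End ℂ (ℂ ⊗[ℚ] (Fin (n s) → ℚ))) = 0 :=
          LinearMap.ext fun w => by rw [cmpE_apply, LinearMap.zero_apply, map_zero]; rfl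
        simp only at h2
        rw [h3] at h2
        exact h.inj h2
      have h2 : ∀ w, Y ((1 : ℂ) ⊗ₜ[ℚ] w) = 0 := fun w => eq_zero_of_cmp fun lam =>
        LinearMap.congr_fun (h1 lam) w
      refine LinearMap.ext fun z => ?_
      induction z with
      | zero => rw [map_zero, map_zero]
      | add z z' hz hz' => rw [map_add, map_add, hz, hz']
      | tmul a w =>
        have h3 : a ⊗ₜ[ℚ] w = a • ((1 : ℂ) ⊗ₜ[ℚ] w) := by rw [smul_tmul', smul_eq_mul, mul_one]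
        rw [h3, map_smul, h2, smul_zero, LinearMap.zero_apply]
    · have h1 : ∀ lam : ℂ →ₗ[ℚ] ℚ, cmpE lam X = 0 := by
        intro lam
        have h2 := cx2_comp hX lam
        have h3 : cmpE lam (0 : Module.End ℂ (ℂ ⊗[ℚ] (Fin (n t) → ℚ))) = 0 :=
          LinearMap.ext fun w => by rw [cmpE_apply, LinearMap.zero_apply, map_zero]; rfl
        simp only at h2
        rw [h3] at h2
        exact h.inj' h2
      have h2 : ∀ w, X ((1 : ℂ) ⊗ₜ[ℚ] w) = 0 := fun w => eq_zero_of_cmp fun lam =>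
        LinearMap.congr_fun (h1 lam) w
      refine LinearMap.ext fun z => ?_
      induction z with
      | zero => rw [map_zero, map_zero]
      | add z z' hz hz' => rw [map_add, map_add, hz, hz']
      | tmul a w =>
        have h3 : a ⊗ₜ[ℚ] w = a • ((1 : ℂ) ⊗ₜ[ℚ] w) := by rw [smul_tmul', smul_eq_mul, mul_one]
        rw [h3, map_smul, h2, smul_zero, LinearMap.zero_apply]
  obtain ⟨f₀, hf₀, hf₁⟩ := hLk.exists_T' hE hE' hc hc' h6
  -- the components
  let F : (ℂ →ₗ[ℚ] ℚ) → (Fin (n s) → ℚ) →ₗ[ℚ] (Fin (n t) → ℚ) := fun lam =>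
    cmp lam ∘ₗ (f₀.restrictScalars ℚ) ∘ₗ (TensorProduct.mk ℚ ℂ (Fin (n s) → ℚ) 1)
  have hF : ∀ lam w, F lam w = cmp lam (f₀ ((1 : ℂ) ⊗ₜ[ℚ] w)) := fun _ _ => rfl
  obtain ⟨lam, hlam⟩ : ∃ lam, F lam ≠ 0 := by
    by_contra hcon
    push Not at hcon
    have h2 : ∀ w, f₀ ((1 : ℂ) ⊗ₜ[ℚ] w) = 0 := fun w => eq_zero_of_cmp fun lam =>
        LinearMap.congr_fun (hcon lam) w
    refine hf₀ (LinearMap.ext fun z => ?_)
    induction z with
    | zero => rw [map_zero, map_zero]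
    | add z z' hz hz' => rw [map_add, map_add, hz, hz']
    | tmul a w =>
      have h3 : a ⊗ₜ[ℚ] w = a • ((1 : ℂ) ⊗ₜ[ℚ] w) := by rw [smul_tmul', smul_eq_mul, mul_one]
      rw [h3, map_smul, h2, smul_zero, LinearMap.zero_apply]
  refine ⟨F lam, hlam, fun X Y hXY => LinearMap.ext fun w => ?_⟩
  have h1 := LinearMap.congr_fun (hf₁ _ _ (cx2_mem hXY)) ((1 : ℂ) ⊗ₜ[ℚ] w)
  rw [LinearMap.comp_apply, LinearMap.comp_apply] at h1
  simp only [LinearMap.baseChange_tmul] at h1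
  have h2 := congrArg (cmp lam) h1
  rw [cmp_bcg] at h2
  exact h2

theorem gg_bot {s : T} (hs : ¬Nontrivial (ℂ ⊗[ℚ] (Fin (n s) → ℚ))) : gg η s = ⊥ := by
  rw [not_nontrivial_iff_subsingleton] at hs
  rw [eq_bot_iff]
  intro X hX
  refine mem_of_bc ?_
  have h5 : X.baseChange ℂ = 0 := LinearMap.ext fun v => Subsingleton.elim _ _
  rw [h5]
  exact Submodule.zero_mem _

theorem Linked.bot {s t : T} (h : Linked η s t) (hs : gg η s = ⊥) : gg η t = ⊥ := by
  rw [eq_bot_iff]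
  rintro _ ⟨ℓ, hℓ, rfl⟩
  rw [Submodule.mem_bot]
  refine (h ℓ hℓ).1 ?_
  have h1 : pr s ℓ ∈ gg η s := ⟨ℓ, hℓ, rfl⟩
  rw [hs] at h1
  exact (Submodule.mem_bot ℚ).1 h1

/-- **Links respect the Hodge structures.** -/
theorem link_compat {s t : T} (h : Linked η s t) {r : ℕ} (hs : Spin (gg η s) r)
    (ht : Spin (gg η t) r) (h6 : 6 ≤ r) (hsimple : NoIdeals (gg η t)) {ι : Type}
    {Js : ι → Module.End ℚ (Fin (n s) → ℚ)} {Jt : ι → Module.End ℚ (Fin (n t) → ℚ)}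
    (hJs : ∀ l, Js l ∈ gg η s) (hJt : ∀ l, Jt l ∈ gg η t)
    (H1 : ∀ f : (Fin (n s) → ℚ) →ₗ[ℚ] (Fin (n t) → ℚ),
      (∀ (D : Derivation QBar ℂ ℂ) (lam : ℂ →ₗ[ℚ] ℚ),
        (NN (η t) D lam).comp f = f.comp (NN (η s) D lam)) → ∀ l, (Jt l).comp f = f.comp (Js l))
    (H2 : ∀ f : (Fin (n s) → ℚ) →ₗ[ℚ] (Fin (n t) → ℚ), (∀ l, (Jt l).comp f = 0) → f = 0) (l : ι) :
    (Js l, Jt l) ∈ (LG η).map (prq s t) := by
  have hzero : gg η s = ⊥ → gg η t = ⊥ → (Js l, Jt l) ∈ (LG η).map (prq s t) := by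
    intro h1 h2
    have e1 := hJs l
    have e2 := hJt l
    rw [h1, Submodule.mem_bot] at e1
    rw [h2, Submodule.mem_bot] at e2
    rw [e1, e2]
    exact Submodule.zero_mem _
  by_cases hns : Nontrivial (ℂ ⊗[ℚ] (Fin (n s) → ℚ))
  swap
  · exact hzero (gg_bot hns) (h.bot (gg_bot hns))
  by_cases hnt : Nontrivial (ℂ ⊗[ℚ] (Fin (n t) → ℚ))
  swap
  · exact hzero (h.symm.bot (gg_bot hnt)) (gg_bot hnt)
  obtain ⟨f, hf, hf1⟩ := exists_f h hs ht h6
  have hNN : ∀ (D : Derivation QBar ℂ ℂ) (lam : ℂ →ₗ[ℚ] ℚ),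
        (NN (η t) D lam).comp f = f.comp (NN (η s) D lam) := by
    intro D lam
    have h1 := hf1 _ _ (⟨gn η D lam, gn_mem_LG η D lam, rfl⟩ :
      (pr s (gn η D lam), pr t (gn η D lam)) ∈ (LG η).map (prq s t))
    refine LinearMap.ext fun w => ?_
    have h2 := LinearMap.congr_fun h1 w
    simp only [pr_apply, LinearMap.comp_apply, LinearMap.sub_apply, LinearMap.smul_apply,
      Module.End.one_apply, map_sub, map_smul] at h2
    exact sub_left_injective h2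
  have hJ := H1 f hNN
  -- the ideal of the elements which kill the image
  let K : Submodule ℚ (Module.End ℚ (Fin (n t) → ℚ)) :=
    { carrier := {Z | Z ∈ gg η t ∧ Z.comp f = 0}
      zero_mem' := ⟨Submodule.zero_mem _, LinearMap.zero_comp f⟩
      add_mem' := fun {a b} ha hb => ⟨Submodule.add_mem _ ha.1 hb.1, by
        rw [LinearMap.add_comp, ha.2, hb.2, add_zero]⟩
      smul_mem' := fun c a ha => ⟨Submodule.smul_mem _ c ha.1, by
        rw [LinearMap.smul_comp, ha.2, smul_zero]⟩ }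
  have hK : Idl K (gg η t) := by
    refine ⟨fun Z hZ => hZ.1, fun W hW Z hZ => ⟨gg_br t W hW Z hZ.1, ?_⟩⟩
    have hW' := hW
    rw [← qq_snd (s := s)] at hW'
    obtain ⟨⟨V, W'⟩, hp, rfl⟩ := hW'
    have h1 := hf1 _ _ hp
    change ((W' * Z - Z * W' : Module.End ℚ (Fin (n t) → ℚ))).comp f = 0
    have h2 : Z.comp f = 0 := hZ.2
    rw [LinearMap.sub_comp, Module.End.mul_eq_comp, Module.End.mul_eq_comp, LinearMap.comp_assoc,
      LinearMap.comp_assoc, h2, h1, ← LinearMap.comp_assoc, h2, LinearMap.comp_zero,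
      LinearMap.zero_comp, sub_zero]
  rcases hsimple K hK with h1 | h1
  · have h2 := hJs l
    rw [← qq_fst (t := t)] at h2
    obtain ⟨⟨X, Y⟩, hp, hX⟩ := h2
    have hX' : X = Js l := hX
    subst hX'
    have h3 : Y ∈ gg η t := by
      rw [← qq_snd (s := s)]
      exact ⟨_, hp, rfl⟩
    have h4 : Y - Jt l ∈ K := by
      refine ⟨Submodule.sub_mem _ h3 (hJt l), ?_⟩
      rw [LinearMap.sub_comp, hf1 _ _ hp, hJ, sub_self]
    rw [h1, Submodule.mem_bot, sub_eq_zero] at h4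
    rw [← h4]
    exact hp
  · exfalso
    refine hf (H2 f fun l => ?_)
    have h2 := hJt l
    rw [← h1] at h2
    exact h2.2

end Pool.Agent.N192.GP
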