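import Pool.Agent.N192.GP.Fam
import Pool.Agent.Y102.V15

set_option autoImplicit false
set_option linter.unusedSectionVars false

/-!
# The Lie algebra generated by the logarithmic derivatives of the periods
-/

open Module Function TensorProduct

noncomputable section

namespace Pool.Agent.N192.GP

open Pool.Agent.Y102 Pool.Agent.W516.DR Pool.Agent.H204R3.GP Pool.Agent.W516.KC
  Pool.Agent.H204R3.SP

section

variable {T : Type} [Fintype T] [DecidableEq T] {n : T → ℕ}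
  (η : ∀ t, Basis (Fin (n t)) ℂ ((Fin (n t) → ℚ) →ₗ[ℚ] ℂ))

/-- The Lie algebra generated by the components. -/
def LG : Submodule ℚ (RR n) := sInf {𝔩 | Br 𝔩 ∧ ∀ D lam, gn η D lam ∈ 𝔩}

theorem LG_le {𝔩 : Submodule ℚ (RR n)} (h1 : Br 𝔩) (h2 : ∀ D lam, gn η D lam ∈ 𝔩) :
    LG η ≤ 𝔩 := sInf_le ⟨h1, h2⟩

theorem LG_br : Br (LG η) := by
  intro x hx y hy
  unfold LG at hx hy ⊢
  rw [Submodule.mem_sInf] at hx hy ⊢
  intro 𝔩 h
  exact h.1 x (hx 𝔩 h) y (hy 𝔩 h)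

theorem gn_mem_LG (D : Derivation QBar ℂ ℂ) (lam : ℂ →ₗ[ℚ] ℚ) : gn η D lam ∈ LG η := by
  unfold LG
  rw [Submodule.mem_sInf]
  intro 𝔩 h
  exact h.2 D lam

theorem LG_le_LL : LG η ≤ LL η := LG_le η (LL_br η) (gn_mem η)

/-- Forms on which the Lie algebra acts by the scalars of the twist are de Rham-Betti classes. -/
theorem tw_of_LG {κ : Type} [Fintype κ] [DecidableEq κ] {w : ℤ}
    {φ : MultilinearMap ℚ (fun _ : κ => Bt n) ℚ}
    (h : ∀ ℓ ∈ LG η, ActsBy (act ℓ.1) φ ((w : ℚ) * ℓ.2)) : IsTw (eB η) w φ := by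
  refine tw_of_acts (eB η) fun D lam => ?_
  have h1 := h _ (gn_mem_LG η D lam)
  have h2 : act (gn η D lam).1 = NN (eB η) D lam := by
    refine LinearMap.ext fun v => funext fun t => ?_
    rw [NN_eB]
    rfl
  rw [h2] at h1
  exact h1

/-- The elements which preserve a subspace of a member. -/
def stab (t : T) (U : Submodule ℚ (Fin (n t) → ℚ)) : Submodule ℚ (RR n) where
  carrier := {ℓ | ∀ u ∈ U, ℓ.1 t u ∈ U}
  zero_mem' := fun _ _ => U.zero_mem
  add_mem' := fun hx hy u hu => U.add_mem (hx u hu) (hy u hu)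
  smul_mem' := fun c _ hx u hu => U.smul_mem c (hx u hu)

theorem stab_br (t : T) (U : Submodule ℚ (Fin (n t) → ℚ)) : Br (stab t U) :=
  fun x hx y hy u hu => U.sub_mem (hx (y.1 t u) (hy u hu)) (hy (x.1 t u) (hx u hu))

theorem NN_stable {W ι : Type} [AddCommGroup W] [Module ℚ W] [FiniteDimensional ℚ W]
    [Fintype ι] [DecidableEq ι] (η : Basis ι ℂ (W →ₗ[ℚ] ℂ)) {U : Submodule ℚ W}
    (hU : IsDeRhamBettiSubspace QBar (η : ι → (W →ₗ[ℚ] ℂ)) U) (D : Derivation QBar ℂ ℂ)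
    (lam : ℂ →ₗ[ℚ] ℚ) {u : W} (hu : u ∈ U) : NN η D lam u ∈ U := by
  have h1 := stable_of_sub η (τ := tau) U hU D lam hu
  rw [X0_eq] at h1
  have h2 : NN η D lam u = (NN η D lam - (tt D lam / 2) • (1 : Module.End ℚ W)) u +
      (tt D lam / 2) • u := by
    rw [LinearMap.sub_apply, LinearMap.smul_apply, Module.End.one_apply, sub_add_cancel]
  rw [h2]
  exact U.add_mem h1 (U.smul_mem _ hu)

theorem LG_stab {t : T} {U : Submodule ℚ (Fin (n t) → ℚ)}
    (hU : IsDeRhamBettiSubspace QBar (η t : Fin (n t) → ((Fin (n t) → ℚ) →ₗ[ℚ] ℂ)) U) :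
    LG η ≤ stab t U :=
  LG_le η (stab_br t U) fun D lam _ hu => NN_stable (η t) hU D lam hu

/-- The elements which commute with an endomorphism of a member. -/
def cent (t : T) (P : Module.End ℚ (Fin (n t) → ℚ)) : Submodule ℚ (RR n) where
  carrier := {ℓ | ℓ.1 t * P = P * ℓ.1 t}
  zero_mem' := by
    change (0 : Module.End ℚ (Fin (n t) → ℚ)) * P = P * 0
    rw [zero_mul, mul_zero]
  add_mem' := by
    intro x y hx hy
    change (x.1 t + y.1 t) * P = P * (x.1 t + y.1 t)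
    rw [add_mul, mul_add]
    exact congrArg₂ (· + ·) hx hy
  smul_mem' := by
    intro c x hx
    change (c • x.1 t) * P = P * (c • x.1 t)
    rw [smul_mul_assoc, mul_smul_comm]
    exact congrArg (c • ·) hx

theorem cent_br (t : T) (P : Module.End ℚ (Fin (n t) → ℚ)) : Br (cent t P) := by
  intro x hx y hy
  have h1 : x.1 t * P = P * x.1 t := hx
  have h2 : y.1 t * P = P * y.1 t := hy
  change (x.1 t * y.1 t - y.1 t * x.1 t) * P = P * (x.1 t * y.1 t - y.1 t * x.1 t)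
  rw [sub_mul, mul_sub, mul_assoc, h2, ← mul_assoc, h1, mul_assoc (y.1 t), h1, ← mul_assoc (y.1 t),
    h2, mul_assoc, mul_assoc]

theorem pr_gn (t : T) (D : Derivation QBar ℂ ℂ) (lam : ℂ →ₗ[ℚ] ℚ) :
    pr t (gn η D lam) = X0 (η t) tau D lam := (X0_eq (η t) D lam).symm

/-- The normalized projections kill the forms of the middle weight. -/
theorem pr_kills {κ : Type} [Fintype κ] [DecidableEq κ] {t : T} {w : ℤ}
    (hw : (Fintype.card κ : ℤ) = 2 * w)
    {φ : MultilinearMap ℚ (fun _ : κ => Fin (n t) → ℚ) ℚ} (h : IsTw (η t) w φ) {ℓ : RR n}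
    (hℓ : ℓ ∈ LG η) : Kills (pr t ℓ) φ := by
  have h1 := LL_acts η h (LG_le_LL η hℓ)
  have h2 := h1.add ((actsBy_one (φ := φ)).smul (-(ℓ.2 / 2)))
  have h3 : (w : ℚ) * ℓ.2 + -(ℓ.2 / 2) * (Fintype.card κ : ℚ) = 0 := by
    have : (Fintype.card κ : ℚ) = 2 * w := by exact_mod_cast hw
    rw [this]
    ring
  rw [h3] at h2
  rw [← actsBy_zero_iff]
  have h4 : pr t ℓ = ℓ.1 t + (-(ℓ.2 / 2)) • (1 : Module.End ℚ (Fin (n t) → ℚ)) := by
    rw [pr_apply]
    module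
  rw [h4]
  exact h2

end

/-- Lie algebras which are full in the Lie algebra of an abelian variety. -/
theorem full_of {g : ℕ} (A : AbVar g) {𝔥 : Submodule ℚ (Module.End ℚ A.H1)}
    (hbr : ∀ X ∈ 𝔥, ∀ Y ∈ 𝔥, X * Y - Y * X ∈ 𝔥)
    (h0 : ∀ (D : Derivation QBar ℂ ℂ) (lam : ℂ →ₗ[ℚ] ℚ), X0 A.basis tau D lam ∈ 𝔥)
    (hk : ∀ (m : ℕ) (φ : MultilinearMap ℚ (fun _ : Fin m × Fin 2 => A.H1) ℚ),
      IsTw A.basis m φ → ∀ X ∈ 𝔥, Kills X φ) : A.Full 𝔥 := by
  have hle : 𝔥 ≤ A.LA := by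
    intro X hX m φ hφ
    refine hk m φ ?_ X hX
    obtain ⟨a, ha⟩ := hφ
    refine ⟨a, fun v => ?_⟩
    rw [zpow_natCast, A.coe_basis]
    exact ha v
  exact ⟨hle.trans A.LA_le_NA, hbr, A.semi_of_le hle h0, fun P hP X hX =>
    A.NA_comm hX (A.mem_EA.2 (A.end_of_central h0 hP))⟩

end Pool.Agent.N192.GP
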