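import Pool.Agent.N192.GP.Multi

set_option autoImplicit false
set_option linter.unusedSectionVars false
set_option linter.unusedVariables false

/-!
# Representations of Lie algebras with orthogonal quotients: the irreducible case
-/

open Module LieModule

noncomputable section

namespace Pool.Agent.N192.GP

/-- The span of the generators. -/
def sp {U : Type*} [AddCommGroup U] [Module ℂ U] (r : ℕ) (Z : ℕ → ℕ → End ℂ U) :
    Submodule ℂ (End ℂ U) :=
  Submodule.span ℂ {x | ∃ a b, a < r ∧ b < r ∧ a ≠ b ∧ x = Z a b}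

/-- The Lie algebra `L` is mapped onto the sum of orthogonal Lie algebras of rank `r`, the colours of
which are in `S`. -/
structure Dat {L : Type*} [LieRing L] [LieAlgebra ℂ L] {U : Type*} [AddCommGroup U] [Module ℂ U]
    {σ : Type*} (r : ℕ) (S : Finset σ) (q : σ → L →ₗ[ℂ] End ℂ U) (Z : σ → ℕ → ℕ → End ℂ U) :
    Prop where
  lie : ∀ s ∈ S, ∀ x y, q s ⁅x, y⁆ = q s x * q s y - q s y * q s x
  rel : ∀ s ∈ S, SoRel r (Z s)
  mem : ∀ s ∈ S, ∀ x, q s x ∈ sp r (Z s)
  surj : ∀ s ∈ S, ∀ a b, a < r → b < r → a ≠ b → ∃ x, q s x = Z s a b ∧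
    ∀ t ∈ S, t ≠ s → q t x = 0
  simple : ∀ s ∈ S, ∀ J : Submodule ℂ (End ℂ U), J ≤ sp r (Z s) →
    (∀ x ∈ sp r (Z s), ∀ y ∈ J, x * y - y * x ∈ J) → J = ⊥ ∨ J = sp r (Z s)
  ne : ∀ s ∈ S, Z s 0 1 ≠ 0

variable {L : Type*} [LieRing L] [LieAlgebra ℂ L] [FiniteDimensional ℂ L]
  {M : Type*} [AddCommGroup M] [Module ℂ M] [LieRingModule L M] [LieModule ℂ L M]
  [FiniteDimensional ℂ M]

/-- Ideals on which the trace form vanishes. -/
theorem ideal_bot [IsIrreducible ℂ L M] [IsFaithful ℂ L M] (I : LieIdeal ℂ L)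
    (hI : ∀ x ∈ I, ∀ y ∈ I, LinearMap.trace ℂ M (toEnd ℂ L M x * toEnd ℂ L M y) = 0) :
    I = ⊥ := by
  have hnt := nontrivial_of_isIrreducible ℂ L M
  have h1 : traceForm ℂ I M = 0 := by
    ext ⟨x, hx⟩ ⟨y, hy⟩
    exact hI x hx y hy
  have h2 := isNilpotent_derivedSeries_of_traceForm_eq_zero h1
  have h3 := nontrivial_max_triv_of_isNilpotent ℂ (LieAlgebra.derivedSeries ℂ I 1) M
  obtain ⟨⟨m, hm⟩, hm0⟩ := exists_ne (0 : maxTrivSubmodule ℂ (LieAlgebra.derivedSeries ℂ I 1) M)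
  rw [mem_maxTrivSubmodule] at hm
  have hm' : m ≠ 0 := fun h => hm0 (Subtype.ext h)
  -- the invariants of the derived algebra
  let N : LieSubmodule ℂ L M :=
    { carrier := {m | ∀ x ∈ I, ∀ y ∈ I, ⁅⁅x, y⁆, m⁆ = 0}
      zero_mem' := fun x _ y _ => lie_zero _
      add_mem' := fun {a b} ha hb x hx y hy => by rw [lie_add, ha x hx y hy, hb x hx y hy, add_zero]
      smul_mem' := fun c a ha x hx y hy => by rw [lie_smul, ha x hx y hy, smul_zero]
      lie_mem := by
        intro z a ha x hx y hy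
        have e1 : ⁅⁅x, y⁆, ⁅z, a⁆⁆ = ⁅z, ⁅⁅x, y⁆, a⁆⁆ - (⁅⁅⁅z, x⁆, y⁆, a⁆ + ⁅⁅x, ⁅z, y⁆⁆, a⁆) := by
          rw [← add_lie, ← leibniz_lie, lie_lie z ⁅x, y⁆ a]
          abel
        rw [e1, ha x hx y hy, lie_zero, ha _ (lie_mem_right ℂ L I z x hx) y hy,
          ha x hx _ (lie_mem_right ℂ L I z y hy), add_zero, sub_zero] }
  have hN : m ∈ N := by
    intro x hx y hy
    have h4 : (⁅(⟨x, hx⟩ : I), (⟨y, hy⟩ : I)⁆ : I) ∈ LieAlgebra.derivedSeries ℂ I 1 := by
      rw [LieAlgebra.derivedSeries_def, LieAlgebra.derivedSeriesOfIdeal_succ,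
        LieAlgebra.derivedSeriesOfIdeal_zero]
      exact LieSubmodule.lie_mem_lie (LieSubmodule.mem_top _) (LieSubmodule.mem_top _)
    exact hm ⟨_, h4⟩
  have hNtop : N = ⊤ := by
    have : Nontrivial N := ⟨⟨⟨m, hN⟩, 0, fun h => hm' (congrArg Subtype.val h)⟩⟩
    exact N.eq_top_of_isIrreducible ℂ L M
  have hab : ∀ x ∈ I, ∀ y ∈ I, ⁅x, y⁆ = 0 := by
    intro x hx y hy
    refine (isFaithful_iff' ℂ L M).1 ‹IsFaithful ℂ L M› _ fun m => ?_
    have h5 : m ∈ N := by rw [hNtop]; exact LieSubmodule.mem_top m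
    exact h5 x hx y hy
  have hsol : LieAlgebra.IsSolvable I := by
    have : IsLieAbelian I := ⟨fun x y => Subtype.ext (hab x x.2 y y.2)⟩
    infer_instance
  have hrad : I ≤ LieAlgebra.radical ℂ L := (LieAlgebra.LieIdeal.solvable_iff_le_radical ℂ L I).1 hsol
  obtain ⟨hc, hsc⟩ := LieAlgebra.hasCentralRadical_and_of_isIrreducible_of_isFaithful ℂ L M
  rw [LieSubmodule.eq_bot_iff]
  intro x hx
  have h6 : x ∈ LieAlgebra.center ℂ L := by
    rw [← (LieAlgebra.hasCentralRadical_iff ℂ L).1 hc]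
    exact hrad hx
  obtain ⟨t, ht⟩ := Submodule.mem_span_singleton.1 ((hsc x).1 h6)
  have h7 := hI x hx x hx
  rw [← ht] at h7
  have h8 : (t • LinearMap.id : M →ₗ[ℂ] M) * (t • LinearMap.id) = (t * t) • LinearMap.id := by
    rw [smul_mul_smul_comm]
    rfl
  rw [h8, map_smul, LinearMap.trace_id, smul_eq_mul] at h7
  have h9 : (finrank ℂ M : ℂ) ≠ 0 := by
    exact_mod_cast (finrank_pos (R := ℂ) (M := M)).ne'
  have h10 : t = 0 := by
    rcases mul_eq_zero.1 h7 with h | h
    · exact mul_self_eq_zero.1 h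
    · exact absurd h h9
  rw [h10, zero_smul] at ht
  exact (toEnd_eq_zero_iff (R := ℂ) (L := L) (M := M)).1 ht.symm

variable {U : Type*} [AddCommGroup U] [Module ℂ U] {σ : Type*} [DecidableEq σ] {r : ℕ}
  {S : Finset σ} {q : σ → L →ₗ[ℂ] End ℂ U} {Z : σ → ℕ → ℕ → End ℂ U}

theorem mem_sp {Z : ℕ → ℕ → End ℂ U} {a b : ℕ} (ha : a < r) (hb : b < r) (hab : a ≠ b) :
    Z a b ∈ sp r Z := Submodule.subset_span ⟨a, b, ha, hb, hab, rfl⟩

/-- The common kernel. -/
def kerS (S : Finset σ) (q : σ → L →ₗ[ℂ] End ℂ U) : Submodule ℂ L where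
  carrier := {x | ∀ s ∈ S, q s x = 0}
  zero_mem' := fun s _ => map_zero _
  add_mem' := fun {a b} ha hb s hs => by rw [map_add, ha s hs, hb s hs, add_zero]
  smul_mem' := fun c a ha s hs => by rw [map_smul, ha s hs, smul_zero]

theorem mem_kerS {x : L} : x ∈ kerS S q ↔ ∀ s ∈ S, q s x = 0 := Iff.rfl

/-- The trace form. -/
def tf (L M : Type*) [LieRing L] [LieAlgebra ℂ L] [AddCommGroup M] [Module ℂ M]
    [LieRingModule L M] [LieModule ℂ L M] : LinearMap.BilinForm ℂ L := traceForm ℂ L M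

/-- The orthogonal complement of the kernel. -/
theorem exists_compl [IsIrreducible ℂ L M] [IsFaithful ℂ L M] (D : Dat r S q Z) :
    ∃ A : Submodule ℂ L, (∀ z : L, ∀ x ∈ A, ⁅z, x⁆ ∈ A) ∧
      (∀ x ∈ A, (∀ s ∈ S, q s x = 0) → x = 0) ∧
      ∀ x, ∃ y ∈ A, ∀ s ∈ S, q s y = q s x := by
  have hP : ∀ z : L, ∀ x ∈ kerS S q, ⁅z, x⁆ ∈ kerS S q := by
    intro z x hx s hs
    have hx' : q s x = 0 := hx s hs
    rw [D.lie s hs, hx', mul_zero, zero_mul, sub_zero]
  let B : LinearMap.BilinForm ℂ L := traceForm ℂ L M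
  have hB : ∀ x y, B x y = LinearMap.trace ℂ M (toEnd ℂ L M x * toEnd ℂ L M y) := fun x y => rfl
  have hrefl : B.IsRefl := by
    intro x y h
    rw [hB] at h ⊢
    rw [LinearMap.trace_mul_comm]
    exact h
  have hAP : ∀ z : L, ∀ x ∈ B.orthogonal (kerS S q), ⁅z, x⁆ ∈ B.orthogonal (kerS S q) := by
    intro z x hx p hp
    have e1 : B ⁅z, p⁆ x = -B p ⁅z, x⁆ := traceForm_apply_lie_apply' ℂ L M z p x
    have e2 : B ⁅z, p⁆ x = 0 := hx _ (hP z p hp)
    change B p ⁅z, x⁆ = 0
    rw [e2] at e1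
    exact neg_eq_zero.1 e1.symm
  let I : LieIdeal ℂ L :=
    { kerS S q ⊓ B.orthogonal (kerS S q) with
      lie_mem := by
        intro z x hx
        exact ⟨hP z x hx.1, hAP z x hx.2⟩ }
  have hI : I = ⊥ := by
    refine ideal_bot (M := M) I fun x hx y hy => ?_
    have h1 : B x y = 0 := hy.2 x hx.1
    rwa [hB] at h1
  have hI' : ∀ x ∈ kerS S q, x ∈ B.orthogonal (kerS S q) → x = 0 := by
    intro x h1 h2
    have h3 : x ∈ I := ⟨h1, h2⟩
    rw [hI] at h3
    exact (LieSubmodule.mem_bot x).1 h3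
  have hnd : (B.restrict (kerS S q)).Nondegenerate := by
    have key : ∀ x : kerS S q, (∀ y : kerS S q, B.restrict (kerS S q) x y = 0) → x = 0 := by
      intro x hx
      refine Subtype.ext (hI' x x.2 fun p hp => ?_)
      exact hrefl _ _ (hx ⟨p, hp⟩)
    refine ⟨key, fun x hx => key x fun y => ?_⟩
    exact hrefl _ _ (hx y)
  have hc := B.isCompl_orthogonal_of_restrict_nondegenerate hrefl hnd
  refine ⟨B.orthogonal (kerS S q), hAP, fun x hx h0 => hI' x h0 hx, fun x => ?_⟩
  have h1 : x ∈ kerS S q ⊔ B.orthogonal (kerS S q) := by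
    rw [hc.sup_eq_top]
    trivial
  obtain ⟨p, hp, y, hy, rfl⟩ := Submodule.mem_sup.1 h1
  refine ⟨y, hy, fun s hs => ?_⟩
  rw [map_add, hp s hs, zero_add]

/-- The irreducible case. -/
theorem irr (h6 : 6 ≤ r) [IsIrreducible ℂ L M] [IsFaithful ℂ L M] (D : Dat r S q Z) :
    S.card * beta r ≤ finrank ℂ M := by
  classical
  have hnt := nontrivial_of_isIrreducible ℂ L M
  obtain ⟨A, hA1, hA2, hA3⟩ := exists_compl (M := M) D
  -- the lifts of the generators
  have key : ∀ s ∈ S, ∀ a b, a < r → b < r → a ≠ b → ∃ x ∈ A, q s x = Z s a b ∧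
      ∀ t ∈ S, t ≠ s → q t x = 0 := by
    intro s hs a b ha hb hab
    obtain ⟨x, hx1, hx2⟩ := D.surj s hs a b ha hb hab
    obtain ⟨y, hy, hy2⟩ := hA3 x
    exact ⟨y, hy, by rw [hy2 s hs, hx1], fun t ht hts => by rw [hy2 t ht, hx2 t ht hts]⟩
  choose! α hα1 hα2 hα3 using key
  have hAeq : ∀ x ∈ A, ∀ y ∈ A, (∀ s ∈ S, q s x = q s y) → x = y := by
    intro x hx y hy h
    have h1 := hA2 (x - y) (A.sub_mem hx hy) fun s hs => by rw [map_sub, h s hs, sub_self]
    exact sub_eq_zero.1 h1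
  have hlie : ∀ x : L, ∀ y : L, toEnd ℂ L M ⁅x, y⁆ =
      toEnd ℂ L M x * toEnd ℂ L M y - toEnd ℂ L M y * toEnd ℂ L M x := by
    intro x y
    refine LinearMap.ext fun m => ?_
    change ⁅⁅x, y⁆, m⁆ = ⁅x, ⁅y, m⁆⁆ - ⁅y, ⁅x, m⁆⁆
    exact lie_lie x y m
  let W : σ → ℕ → ℕ → End ℂ M := fun s a b => toEnd ℂ L M (α s a b)
  have hsys : Sys r S W := by
    refine ⟨fun s hs => ⟨fun a b ha hb hab => ?_, fun a b c ha hb hc hab hbc hac => ?_,
      fun a b c d ha hb hc hd hab hcd hac had hbc hbd => ?_⟩,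
      fun s hs t ht hst a b c d ha hb hab hc hd hcd => ?_, fun s hs v hv => ?_⟩
    · have h1 : α s a b = -α s b a := by
        refine hAeq _ (hα1 s hs a b ha hb hab) _ (A.neg_mem (hα1 s hs b a hb ha hab.symm))
          fun t ht => ?_
        rw [map_neg]
        by_cases hts : t = s
        · subst hts
          rw [hα2 t ht a b ha hb hab, hα2 t ht b a hb ha hab.symm,
            (D.rel t ht).anti a b ha hb hab]
        · rw [hα3 s hs a b ha hb hab t ht hts, hα3 s hs b a hb ha hab.symm t ht hts, neg_zero]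
      change toEnd ℂ L M (α s a b) = -toEnd ℂ L M (α s b a)
      rw [h1, map_neg]
    · have h1 : ⁅α s a b, α s b c⁆ = (2 : ℂ) • α s a c := by
        refine hAeq _ (hA1 _ _ (hα1 s hs b c hb hc hbc)) _
          (A.smul_mem _ (hα1 s hs a c ha hc hac)) fun t ht => ?_
        rw [map_smul, D.lie t ht]
        by_cases hts : t = s
        · subst hts
          rw [hα2 t ht a b ha hb hab, hα2 t ht b c hb hc hbc, hα2 t ht a c ha hc hac,
            (D.rel t ht).br a b c ha hb hc hab hbc hac]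
        · rw [hα3 s hs a b ha hb hab t ht hts, hα3 s hs a c ha hc hac t ht hts, zero_mul,
            mul_zero, sub_zero, smul_zero]
      have h2 := hlie (α s a b) (α s b c)
      rw [h1, map_smul] at h2
      exact h2.symm
    · have h1 : ⁅α s a b, α s c d⁆ = 0 := by
        refine hA2 _ (hA1 _ _ (hα1 s hs c d hc hd hcd)) fun t ht => ?_
        rw [D.lie t ht]
        by_cases hts : t = s
        · subst hts
          rw [hα2 t ht a b ha hb hab, hα2 t ht c d hc hd hcd,
            (D.rel t ht).comm a b c d ha hb hc hd hab hcd hac had hbc hbd, sub_self]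
        · rw [hα3 s hs a b ha hb hab t ht hts, zero_mul, mul_zero, sub_zero]
      have h2 := hlie (α s a b) (α s c d)
      rw [h1, map_zero] at h2
      exact sub_eq_zero.1 h2.symm
    · have h1 : ⁅α s a b, α t c d⁆ = 0 := by
        refine hA2 _ (hA1 _ _ (hα1 t ht c d hc hd hcd)) fun u hu => ?_
        rw [D.lie u hu]
        by_cases hus : u = s
        · have hut : u ≠ t := fun h => hst (hus.symm.trans h)
          rw [hα3 t ht c d hc hd hcd u hu hut, zero_mul, mul_zero, sub_zero]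
        · rw [hα3 s hs a b ha hb hab u hu hus, zero_mul, mul_zero, sub_zero]
      have h2 := hlie (α s a b) (α t c d)
      rw [h1, map_zero] at h2
      exact sub_eq_zero.1 h2.symm
    · -- no invariants
      let T : Submodule ℂ L := Submodule.span ℂ {x | ∃ a b, a < r ∧ b < r ∧ a ≠ b ∧ x = α s a b}
      have hTA : T ≤ A := by
        rw [Submodule.span_le]
        rintro _ ⟨a, b, ha, hb, hab, rfl⟩
        exact hα1 s hs a b ha hb hab
      have hT0 : ∀ x ∈ T, ∀ t ∈ S, t ≠ s → q t x = 0 := by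
        intro x hx t ht hts
        have h1 : T ≤ LinearMap.ker (q t) := by
          rw [Submodule.span_le]
          rintro _ ⟨a, b, ha, hb, hab, rfl⟩
          exact hα3 s hs a b ha hb hab t ht hts
        exact h1 hx
      have hT : ∀ x ∈ A, (∀ t ∈ S, t ≠ s → q t x = 0) → x ∈ T := by
        intro x hx h0
        have h1 : sp r (Z s) ≤ T.map (q s) := by
          unfold sp
          rw [Submodule.span_le]
          rintro _ ⟨a, b, ha, hb, hab, rfl⟩
          exact ⟨α s a b, Submodule.subset_span ⟨a, b, ha, hb, hab, rfl⟩, hα2 s hs a b ha hb hab⟩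
        obtain ⟨y, hy, hy2⟩ := h1 (D.mem s hs x)
        have h2 : x = y := by
          refine hAeq _ hx _ (hTA hy) fun t ht => ?_
          by_cases hts : t = s
          · rw [hts]; exact hy2.symm
          · rw [h0 t ht hts, hT0 y hy t ht hts]
        rw [h2]
        exact hy
      let N : LieSubmodule ℂ L M :=
        { carrier := {m | ∀ x ∈ T, ⁅x, m⁆ = 0}
          zero_mem' := fun x _ => lie_zero _
          add_mem' := fun {a b} ha hb x hx => by rw [lie_add, ha x hx, hb x hx, add_zero]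
          smul_mem' := fun c a ha x hx => by rw [lie_smul, ha x hx, smul_zero]
          lie_mem := by
            intro z m hm x hx
            have h1 : ⁅z, x⁆ ∈ T := by
              refine hT _ (hA1 z x (hTA hx)) fun t ht hts => ?_
              rw [D.lie t ht, hT0 x hx t ht hts, mul_zero, zero_mul, sub_zero]
            have h2 : ⁅x, ⁅z, m⁆⁆ = ⁅z, ⁅x, m⁆⁆ - ⁅⁅z, x⁆, m⁆ := by
              rw [lie_lie z x m]
              abel
            rw [h2, hm x hx, hm _ h1, lie_zero, sub_zero] }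
      by_contra hv0
      have hvN : v ∈ N := by
        intro x hx
        induction hx using Submodule.span_induction with
        | mem x hx =>
          obtain ⟨a, b, ha, hb, hab, rfl⟩ := hx
          exact hv a b ha hb hab
        | zero => exact zero_lie _
        | add x y _ _ hx hy => rw [add_lie, hx, hy, add_zero]
        | smul c x _ hx => rw [smul_lie, hx, smul_zero]
      have : Nontrivial N := ⟨⟨⟨v, hvN⟩, 0, fun h => hv0 (congrArg Subtype.val h)⟩⟩
      have hNtop : N = ⊤ := N.eq_top_of_isIrreducible ℂ L M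
      have h3 : α s 0 1 = 0 := by
        refine (isFaithful_iff' ℂ L M).1 ‹IsFaithful ℂ L M› _ fun m => ?_
        have h5 : m ∈ N := by rw [hNtop]; exact LieSubmodule.mem_top m
        exact h5 _ (Submodule.subset_span ⟨0, 1, by omega, by omega, by omega, rfl⟩)
      have h4 := hα2 s hs 0 1 (by omega) (by omega) (by omega)
      rw [h3, map_zero] at h4
      exact D.ne s hs h4.symm
  exact Sys.dim h6 S.card hsys rfl

end Pool.Agent.N192.GP
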