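import Pool.Agent.N192.GP.MultiG
import Pool.Agent.N192.GP.LieD

set_option autoImplicit false
set_option linter.unusedSectionVars false
set_option linter.unusedVariables false

/-!
# Representations of Lie algebras with orthogonal quotients of different ranks
-/

open Module LieModule

noncomputable section

namespace Pool.Agent.N192.GP

attribute [local instance 100] LieRing.ofAssociativeRing

/-- The Lie algebra `L` is mapped onto the sum of orthogonal Lie algebras, the colours of which are in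
`S`. -/
structure DatG {L : Type*} [LieRing L] [LieAlgebra ℂ L] {σ : Type*} {U : σ → Type*}
    [∀ s, AddCommGroup (U s)] [∀ s, Module ℂ (U s)] (r : σ → ℕ) (S : Finset σ)
    (q : ∀ s, L →ₗ[ℂ] End ℂ (U s)) (Z : ∀ s, ℕ → ℕ → End ℂ (U s)) : Prop where
  lie : ∀ s ∈ S, ∀ x y, q s ⁅x, y⁆ = q s x * q s y - q s y * q s x
  rel : ∀ s ∈ S, SoRel (r s) (Z s)
  mem : ∀ s ∈ S, ∀ x, q s x ∈ sp (r s) (Z s)
  surj : ∀ s ∈ S, ∀ a b, a < r s → b < r s → a ≠ b → ∃ x, q s x = Z s a b ∧
    ∀ t ∈ S, t ≠ s → q t x = 0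
  simple : ∀ s ∈ S, ∀ J : Submodule ℂ (End ℂ (U s)), J ≤ sp (r s) (Z s) →
    (∀ x ∈ sp (r s) (Z s), ∀ y ∈ J, x * y - y * x ∈ J) → J = ⊥ ∨ J = sp (r s) (Z s)
  ne : ∀ s ∈ S, Z s 0 1 ≠ 0

variable {L : Type*} [LieRing L] [LieAlgebra ℂ L] [FiniteDimensional ℂ L]
  {σ : Type*} [DecidableEq σ] {U : σ → Type*} [∀ s, AddCommGroup (U s)] [∀ s, Module ℂ (U s)]
  {r : σ → ℕ} {q : ∀ s, L →ₗ[ℂ] End ℂ (U s)} {Z : ∀ s, ℕ → ℕ → End ℂ (U s)}

section Irr

variable {M : Type*} [AddCommGroup M] [Module ℂ M] [LieRingModule L M] [LieModule ℂ L M]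
  [FiniteDimensional ℂ M] {S : Finset σ}

/-- The common kernel. -/
def kerG (S : Finset σ) (q : ∀ s, L →ₗ[ℂ] End ℂ (U s)) : Submodule ℂ L where
  carrier := {x | ∀ s ∈ S, q s x = 0}
  zero_mem' := fun s _ => map_zero _
  add_mem' := fun {a b} ha hb s hs => by rw [map_add, ha s hs, hb s hs, add_zero]
  smul_mem' := fun c a ha s hs => by rw [map_smul, ha s hs, smul_zero]

/-- The orthogonal complement of the kernel. -/
theorem exists_complG [IsIrreducible ℂ L M] [IsFaithful ℂ L M] (D : DatG r S q Z) :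
    ∃ A : Submodule ℂ L, (∀ z : L, ∀ x ∈ A, ⁅z, x⁆ ∈ A) ∧
      (∀ x ∈ A, (∀ s ∈ S, q s x = 0) → x = 0) ∧
      ∀ x, ∃ y ∈ A, ∀ s ∈ S, q s y = q s x := by
  have hP : ∀ z : L, ∀ x ∈ kerG S q, ⁅z, x⁆ ∈ kerG S q := by
    intro z x hx s hs
    have hx' : q s x = 0 := hx s hs
    rw [D.lie s hs, hx', mul_zero, zero_mul, sub_zero]
  let B : LinearMap.BilinForm ℂ L := traceForm ℂ L M
  have hB : ∀ x y, B x y = LinearMap.trace ℂ M (toEnd ℂ L M x * toEnd ℂ L M y) := fun x y => rfl
  have hrefl : B.IsRefl := by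
    intro x y h
    rw [hB] at h ⊢
    rw [LinearMap.trace_mul_comm]
    exact h
  have hAP : ∀ z : L, ∀ x ∈ B.orthogonal (kerG S q), ⁅z, x⁆ ∈ B.orthogonal (kerG S q) := by
    intro z x hx p hp
    have e1 : B ⁅z, p⁆ x = -B p ⁅z, x⁆ := traceForm_apply_lie_apply' ℂ L M z p x
    have e2 : B ⁅z, p⁆ x = 0 := hx _ (hP z p hp)
    change B p ⁅z, x⁆ = 0
    rw [e2] at e1
    exact neg_eq_zero.1 e1.symm
  let I : LieIdeal ℂ L :=
    { kerG S q ⊓ B.orthogonal (kerG S q) with
      lie_mem := by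
        intro z x hx
        exact ⟨hP z x hx.1, hAP z x hx.2⟩ }
  have hI : I = ⊥ := by
    refine ideal_bot (M := M) I fun x hx y hy => ?_
    have h1 : B x y = 0 := hy.2 x hx.1
    rwa [hB] at h1
  have hI' : ∀ x ∈ kerG S q, x ∈ B.orthogonal (kerG S q) → x = 0 := by
    intro x h1 h2
    have h3 : x ∈ I := ⟨h1, h2⟩
    rw [hI] at h3
    exact (LieSubmodule.mem_bot x).1 h3
  have hnd : (B.restrict (kerG S q)).Nondegenerate := by
    have key : ∀ x : kerG S q, (∀ y : kerG S q, B.restrict (kerG S q) x y = 0) → x = 0 := by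
      intro x hx
      refine Subtype.ext (hI' x x.2 fun p hp => ?_)
      exact hrefl _ _ (hx ⟨p, hp⟩)
    refine ⟨key, fun x hx => key x fun y => ?_⟩
    exact hrefl _ _ (hx y)
  have hc := B.isCompl_orthogonal_of_restrict_nondegenerate hrefl hnd
  refine ⟨B.orthogonal (kerG S q), hAP, fun x hx h0 => hI' x h0 hx, fun x => ?_⟩
  have h1 : x ∈ kerG S q ⊔ B.orthogonal (kerG S q) := by
    rw [hc.sup_eq_top]
    trivial
  obtain ⟨p, hp, y, hy, rfl⟩ := Submodule.mem_sup.1 h1
  refine ⟨y, hy, fun s hs => ?_⟩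
  rw [map_add, hp s hs, zero_add]

/-- The irreducible case. -/
theorem irrG (h6 : ∀ s ∈ S, 6 ≤ r s) [IsIrreducible ℂ L M] [IsFaithful ℂ L M] (D : DatG r S q Z) :
    ∑ s ∈ S, beta (r s) ≤ finrank ℂ M := by
  classical
  have hnt := nontrivial_of_isIrreducible ℂ L M
  obtain ⟨A, hA1, hA2, hA3⟩ := exists_complG (M := M) D
  -- the lifts of the generators
  have key : ∀ s ∈ S, ∀ a b, a < r s → b < r s → a ≠ b → ∃ x ∈ A, q s x = Z s a b ∧
      ∀ t ∈ S, t ≠ s → q t x = 0 := by
    intro s hs a b ha hb hab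
    obtain ⟨x, hx1, hx2⟩ := D.surj s hs a b ha hb hab
    obtain ⟨y, hy, hy2⟩ := hA3 x
    exact ⟨y, hy, by rw [hy2 s hs, hx1], fun t ht hts => by rw [hy2 t ht, hx2 t ht hts]⟩
  choose! α hα1 hα2 hα3 using key
  have hAeq : ∀ x ∈ A, ∀ y ∈ A, (∀ s ∈ S, q s x = q s y) → x = y := by
    intro x hx y hy h
    have h1 := hA2 (x - y) (A.sub_mem hx hy) fun s hs => by rw [map_sub, h s hs, sub_self]
    exact sub_eq_zero.1 h1
  have hlie : ∀ x : L, ∀ y : L, toEnd ℂ L M ⁅x, y⁆ =
      toEnd ℂ L M x * toEnd ℂ L M y - toEnd ℂ L M y * toEnd ℂ L M x := by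
    intro x y
    refine LinearMap.ext fun m => ?_
    change ⁅⁅x, y⁆, m⁆ = ⁅x, ⁅y, m⁆⁆ - ⁅y, ⁅x, m⁆⁆
    exact lie_lie x y m
  let W : σ → ℕ → ℕ → End ℂ M := fun s a b => toEnd ℂ L M (α s a b)
  have hsys : SysG r S W := by
    refine ⟨fun s hs => ⟨fun a b ha hb hab => ?_, fun a b c ha hb hc hab hbc hac => ?_,
      fun a b c d ha hb hc hd hab hcd hac had hbc hbd => ?_⟩,
      fun s hs t ht hst a b c d ha hb hab hc hd hcd => ?_, fun s hs v hv => ?_⟩
    · have h1 : α s a b = -α s b a := by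
        refine hAeq _ (hα1 s hs a b ha hb hab) _ (A.neg_mem (hα1 s hs b a hb ha hab.symm))
          fun t ht => ?_
        rw [map_neg]
        by_cases hts : t = s
        · subst hts
          rw [hα2 t ht a b ha hb hab, hα2 t ht b a hb ha hab.symm,
            (D.rel t ht).anti a b ha hb hab]
        · rw [hα3 s hs a b ha hb hab t ht hts, hα3 s hs b a hb ha hab.symm t ht hts, neg_zero]
      change toEnd ℂ L M (α s a b) = -toEnd ℂ L M (α s b a)
      rw [h1, map_neg]
    · have h1 : ⁅α s a b, α s b c⁆ = (2 : ℂ) • α s a c := by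
        refine hAeq _ (hA1 _ _ (hα1 s hs b c hb hc hbc)) _
          (A.smul_mem _ (hα1 s hs a c ha hc hac)) fun t ht => ?_
        rw [map_smul, D.lie t ht]
        by_cases hts : t = s
        · subst hts
          rw [hα2 t ht a b ha hb hab, hα2 t ht b c hb hc hbc, hα2 t ht a c ha hc hac,
            (D.rel t ht).br a b c ha hb hc hab hbc hac]
        · rw [hα3 s hs a b ha hb hab t ht hts, hα3 s hs a c ha hc hac t ht hts, zero_mul,
            mul_zero, sub_zero, smul_zero]
      have h2 := hlie (α s a b) (α s b c)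
      rw [h1, map_smul] at h2
      exact h2.symm
    · have h1 : ⁅α s a b, α s c d⁆ = 0 := by
        refine hA2 _ (hA1 _ _ (hα1 s hs c d hc hd hcd)) fun t ht => ?_
        rw [D.lie t ht]
        by_cases hts : t = s
        · subst hts
          rw [hα2 t ht a b ha hb hab, hα2 t ht c d hc hd hcd,
            (D.rel t ht).comm a b c d ha hb hc hd hab hcd hac had hbc hbd, sub_self]
        · rw [hα3 s hs a b ha hb hab t ht hts, zero_mul, mul_zero, sub_zero]
      have h2 := hlie (α s a b) (α s c d)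
      rw [h1, map_zero] at h2
      exact sub_eq_zero.1 h2.symm
    · have h1 : ⁅α s a b, α t c d⁆ = 0 := by
        refine hA2 _ (hA1 _ _ (hα1 t ht c d hc hd hcd)) fun u hu => ?_
        rw [D.lie u hu]
        by_cases hus : u = s
        · have hut : u ≠ t := fun h => hst (hus.symm.trans h)
          rw [hα3 t ht c d hc hd hcd u hu hut, zero_mul, mul_zero, sub_zero]
        · rw [hα3 s hs a b ha hb hab u hu hus, zero_mul, mul_zero, sub_zero]
      have h2 := hlie (α s a b) (α t c d)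
      rw [h1, map_zero] at h2
      exact sub_eq_zero.1 h2.symm
    · -- no invariants
      let T : Submodule ℂ L := Submodule.span ℂ {x | ∃ a b, a < r s ∧ b < r s ∧ a ≠ b ∧ x = α s a b}
      have hTA : T ≤ A := by
        rw [Submodule.span_le]
        rintro _ ⟨a, b, ha, hb, hab, rfl⟩
        exact hα1 s hs a b ha hb hab
      have hT0 : ∀ x ∈ T, ∀ t ∈ S, t ≠ s → q t x = 0 := by
        intro x hx t ht hts
        have h1 : T ≤ LinearMap.ker (q t) := by
          rw [Submodule.span_le]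
          rintro _ ⟨a, b, ha, hb, hab, rfl⟩
          exact hα3 s hs a b ha hb hab t ht hts
        exact h1 hx
      have hT : ∀ x ∈ A, (∀ t ∈ S, t ≠ s → q t x = 0) → x ∈ T := by
        intro x hx h0
        have h1 : sp (r s) (Z s) ≤ T.map (q s) := by
          unfold sp
          rw [Submodule.span_le]
          rintro _ ⟨a, b, ha, hb, hab, rfl⟩
          exact ⟨α s a b, Submodule.subset_span ⟨a, b, ha, hb, hab, rfl⟩, hα2 s hs a b ha hb hab⟩
        obtain ⟨y, hy, hy2⟩ := h1 (D.mem s hs x)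
        have h2 : x = y := by
          refine hAeq _ hx _ (hTA hy) fun t ht => ?_
          by_cases hts : t = s
          · rw [hts]; exact hy2.symm
          · rw [h0 t ht hts, hT0 y hy t ht hts]
        rw [h2]
        exact hy
      let N : LieSubmodule ℂ L M :=
        { carrier := {m | ∀ x ∈ T, ⁅x, m⁆ = 0}
          zero_mem' := fun x _ => lie_zero _
          add_mem' := fun {a b} ha hb x hx => by rw [lie_add, ha x hx, hb x hx, add_zero]
          smul_mem' := fun c a ha x hx => by rw [lie_smul, ha x hx, smul_zero]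
          lie_mem := by
            intro z m hm x hx
            have h1 : ⁅z, x⁆ ∈ T := by
              refine hT _ (hA1 z x (hTA hx)) fun t ht hts => ?_
              rw [D.lie t ht, hT0 x hx t ht hts, mul_zero, zero_mul, sub_zero]
            have h2 : ⁅x, ⁅z, m⁆⁆ = ⁅z, ⁅x, m⁆⁆ - ⁅⁅z, x⁆, m⁆ := by
              rw [lie_lie z x m]
              abel
            rw [h2, hm x hx, hm _ h1, lie_zero, sub_zero] }
      by_contra hv0
      have hvN : v ∈ N := by
        intro x hx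
        induction hx using Submodule.span_induction with
        | mem x hx =>
          obtain ⟨a, b, ha, hb, hab, rfl⟩ := hx
          exact hv a b ha hb hab
        | zero => exact zero_lie _
        | add x y _ _ hx hy => rw [add_lie, hx, hy, add_zero]
        | smul c x _ hx => rw [smul_lie, hx, smul_zero]
      have : Nontrivial N := ⟨⟨⟨v, hvN⟩, 0, fun h => hv0 (congrArg Subtype.val h)⟩⟩
      have hNtop : N = ⊤ := N.eq_top_of_isIrreducible ℂ L M
      have h6s := h6 s hs
      have h3 : α s 0 1 = 0 := by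
        refine (isFaithful_iff' ℂ L M).1 ‹IsFaithful ℂ L M› _ fun m => ?_
        have h5 : m ∈ N := by rw [hNtop]; exact LieSubmodule.mem_top m
        exact h5 _ (Submodule.subset_span ⟨0, 1, by omega, by omega, by omega, rfl⟩)
      have h4 := hα2 s hs 0 1 (by omega) (by omega) (by omega)
      rw [h3, map_zero] at h4
      exact D.ne s hs h4.symm
  exact SysG.dim S.card h6 hsys rfl


end Irr

theorem DatG.mono {S S' : Finset σ} (D : DatG r S q Z) (h : S' ⊆ S) : DatG r S' q Z where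
  lie s hs := D.lie s (h hs)
  rel s hs := D.rel s (h hs)
  mem s hs := D.mem s (h hs)
  surj s hs a b ha hb hab := by
    obtain ⟨x, h1, h2⟩ := D.surj s (h hs) a b ha hb hab
    exact ⟨x, h1, fun t ht => h2 t (h ht)⟩
  simple s hs := D.simple s (h hs)
  ne s hs := D.ne s (h hs)

/-- The irreducible case. -/
theorem irrG' {S : Finset σ} (h6 : ∀ s ∈ S, 6 ≤ r s) {M : Type*} [AddCommGroup M] [Module ℂ M]
    [LieRingModule L M] [LieModule ℂ L M] [FiniteDimensional ℂ M] [Nontrivial M]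
    (hirr : ∀ N : LieSubmodule ℂ L M, N ≠ ⊥ → N = ⊤) (D : DatG r S q Z)
    (hker : ∀ x : L, (∀ m : M, ⁅x, m⁆ = 0) → ∀ s ∈ S, q s x = 0) :
    ∑ s ∈ S, beta (r s) ≤ finrank ℂ M := by
  let L' : LieSubalgebra ℂ (End ℂ M) := (toEnd ℂ L M).range
  have hmem : ∀ x : L, toEnd ℂ L M x ∈ L' := fun x => ⟨x, rfl⟩
  -- the irreducibility
  have hirr' : IsIrreducible ℂ L' M := by
    refine IsIrreducible.mk fun N hN => ?_
    let N' : LieSubmodule ℂ L M :=
      { (N : Submodule ℂ M) with
        lie_mem := by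
          intro x m hm
          have h1 : ⁅(⟨toEnd ℂ L M x, hmem x⟩ : L'), m⁆ ∈ N := N.lie_mem hm
          exact h1 }
    have h1 : N' ≠ ⊥ := by
      intro h
      apply hN
      rw [LieSubmodule.eq_bot_iff] at h ⊢
      exact fun m hm => h m hm
    have h2 := hirr N' h1
    refine LieSubmodule.toSubmodule_injective (Submodule.ext fun m => ⟨fun _ => trivial, fun _ => ?_⟩)
    have h3 : m ∈ N' := by rw [h2]; exact LieSubmodule.mem_top m
    exact h3
  -- a linear section
  obtain ⟨τ, hτ⟩ : ∃ τ : L' →ₗ[ℂ] L, ∀ y : L', toEnd ℂ L M (τ y) = y := by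
    have h1 : Function.Surjective ((toEnd ℂ L M : L →ₗ[ℂ] End ℂ M).rangeRestrict) :=
      LinearMap.surjective_rangeRestrict _
    obtain ⟨g, hg⟩ := LinearMap.exists_rightInverse_of_surjective _
      (LinearMap.range_eq_top.2 h1)
    refine ⟨g, fun y => ?_⟩
    have h2 := congrArg Subtype.val (LinearMap.congr_fun hg y)
    exact h2
  have hker' : ∀ x y : L, toEnd ℂ L M x = toEnd ℂ L M y → ∀ s ∈ S, q s x = q s y := by
    intro x y hxy s hs
    have h1 := hker (x - y) (fun m => by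
      have h2 : ⁅x - y, m⁆ = toEnd ℂ L M x m - toEnd ℂ L M y m := sub_lie x y m
      rw [h2, hxy, sub_self]) s hs
    rw [map_sub] at h1
    exact sub_eq_zero.1 h1
  have D' : DatG r S (fun s => q s ∘ₗ τ) Z := by
    refine ⟨fun s hs x y => ?_, D.rel, fun s hs x => D.mem s hs _,
      fun s hs a b ha hb hab => ?_, D.simple, D.ne⟩
    · have h1 : toEnd ℂ L M (τ ⁅x, y⁆) = toEnd ℂ L M ⁅τ x, τ y⁆ := by
        rw [hτ, LieHom.map_lie, hτ, hτ]
        rfl
      change q s (τ ⁅x, y⁆) = _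
      rw [hker' _ _ h1 s hs, D.lie s hs]
      rfl
    · obtain ⟨x, h1, h2⟩ := D.surj s hs a b ha hb hab
      have h3 : toEnd ℂ L M (τ ⟨toEnd ℂ L M x, hmem x⟩) = toEnd ℂ L M x := hτ _
      refine ⟨⟨toEnd ℂ L M x, hmem x⟩, ?_, fun t ht hts => ?_⟩
      · change q s (τ _) = _
        rw [hker' _ _ h3 s hs, h1]
      · change q t (τ _) = _
        rw [hker' _ _ h3 t ht, h2 t ht hts]
  exact irrG (L := L') h6 D'

/-- **The dimension of a representation `M` of a Lie algebra `L` with `n` orthogonal quotients of rank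
`r`, the kernels of which contain the kernel of `M`, is at least `n beta r`.** -/
theorem datG_dim (n : ℕ) : ∀ {M : Type _} [AddCommGroup M] [Module ℂ M]
    [LieRingModule L M] [LieModule ℂ L M] [FiniteDimensional ℂ M] {S : Finset σ}, (∀ s ∈ S, 6 ≤ r s) →
    finrank ℂ M ≤ n → DatG r S q Z →
    (∀ x : L, (∀ m : M, ⁅x, m⁆ = 0) → ∀ s ∈ S, q s x = 0) →
    ∑ s ∈ S, beta (r s) ≤ finrank ℂ M := by
  classical
  induction n with
  | zero =>
    intro M _ _ _ _ _ S h6 hn D hker
    rcases S.eq_empty_or_nonempty with rfl | ⟨s, hs⟩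
    · simp
    exfalso
    have h6s := h6 s hs
    have hs0 : Subsingleton M := finrank_zero_iff.1 (Nat.le_zero.1 hn)
    obtain ⟨x, h1, -⟩ := D.surj s hs 0 1 (by omega) (by omega) (by omega)
    have h2 := hker x (fun m => Subsingleton.elim _ _) s hs
    exact D.ne s hs (h1.symm.trans h2)
  | succ n ih =>
    intro M _ _ _ _ _ S h6 hn D hker
    rcases S.eq_empty_or_nonempty with rfl | ⟨s₀, hs₀⟩
    · simp
    have h6₀ := h6 s₀ hs₀
    by_cases hirr : ∀ N : LieSubmodule ℂ L M, N ≠ ⊥ → N = ⊤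
    · have : Nontrivial M := by
        by_contra hs0
        rw [not_nontrivial_iff_subsingleton] at hs0
        obtain ⟨x, h1, -⟩ := D.surj s₀ hs₀ 0 1 (by omega) (by omega) (by omega)
        have h2 := hker x (fun m => Subsingleton.elim _ _) s₀ hs₀
        exact D.ne s₀ hs₀ (h1.symm.trans h2)
      exact irrG' h6 hirr D hker
    push Not at hirr
    obtain ⟨N, hN0, hN1⟩ := hirr
    have hfr : finrank ℂ (M ⧸ N) + finrank ℂ N = finrank ℂ M :=
      Submodule.finrank_quotient_add_finrank (N : Submodule ℂ M)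
    have hN0' : (N : Submodule ℂ M) ≠ ⊥ := fun h => hN0 (by
      rw [LieSubmodule.eq_bot_iff]
      intro m hm
      have : m ∈ (N : Submodule ℂ M) := hm
      rw [h] at this
      exact (Submodule.mem_bot ℂ).1 this)
    have hN1' : (N : Submodule ℂ M) ≠ ⊤ := fun h => hN1
      (LieSubmodule.toSubmodule_injective h)
    have hlt1 : finrank ℂ N < finrank ℂ M := Submodule.finrank_lt hN1'
    have hpos : 0 < finrank ℂ N := by
      have : Nontrivial (N : Submodule ℂ M) := (Submodule.nontrivial_iff_ne_bot).2 hN0'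
      exact finrank_pos (R := ℂ) (M := (N : Submodule ℂ M))
    have hk1 : ∀ x : L, (∀ m : N, ⁅x, m⁆ = 0) ↔ ∀ m ∈ N, ⁅x, m⁆ = 0 := by
      intro x
      constructor
      · intro h m hm
        exact congrArg Subtype.val (h ⟨m, hm⟩)
      · intro h m
        exact Subtype.ext (h m.1 m.2)
    have hk2 : ∀ x : L, (∀ m : M ⧸ N, ⁅x, m⁆ = 0) ↔ ∀ m : M, ⁅x, m⁆ ∈ N := by
      intro x
      constructor
      · intro h m
        have h1 : (LieSubmodule.Quotient.mk ⁅x, m⁆ : M ⧸ N) = 0 := h (LieSubmodule.Quotient.mk m)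
        exact (LieSubmodule.Quotient.mk_eq_zero').1 h1
      · intro h m
        induction m using Quotient.inductionOn' with
        | h m => 
          have h1 : (LieSubmodule.Quotient.mk ⁅x, m⁆ : M ⧸ N) = 0 :=
            (LieSubmodule.Quotient.mk_eq_zero').2 (h m)
          exact h1
    let S₁ := S.filter fun s => ∀ x : L, (∀ m : N, ⁅x, m⁆ = 0) → q s x = 0
    let S₂ := S.filter fun s => ∀ x : L, (∀ m : M ⧸ N, ⁅x, m⁆ = 0) → q s x = 0
    have i1 := ih (M := N) (S := S₁) (fun s hs => h6 s (Finset.filter_subset _ _ hs)) (by omega) (D.mono (Finset.filter_subset _ _))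
      fun x hx s hs => (Finset.mem_filter.1 hs).2 x hx
    have i2 := ih (M := M ⧸ N) (S := S₂) (fun s hs => h6 s (Finset.filter_subset _ _ hs)) (by omega) (D.mono (Finset.filter_subset _ _))
      fun x hx s hs => (Finset.mem_filter.1 hs).2 x hx
    have hcov : S ⊆ S₁ ∪ S₂ := by
      intro s hs
      have h6s := h6 s hs
      by_contra hcon
      rw [Finset.mem_union, not_or] at hcon
      have h1 : ¬∀ x : L, (∀ m : N, ⁅x, m⁆ = 0) → q s x = 0 := fun h =>
        hcon.1 (Finset.mem_filter.2 ⟨hs, h⟩)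
      have h2 : ¬∀ x : L, (∀ m : M ⧸ N, ⁅x, m⁆ = 0) → q s x = 0 := fun h =>
        hcon.2 (Finset.mem_filter.2 ⟨hs, h⟩)
      push Not at h1 h2
      obtain ⟨x₁, h1, h1'⟩ := h1
      obtain ⟨x₂, h2, h2'⟩ := h2
      rw [hk1] at h1
      rw [hk2] at h2
      let I₁ : Submodule ℂ L :=
        { carrier := {x | ∀ m ∈ N, ⁅x, m⁆ = 0}
          zero_mem' := fun m _ => zero_lie m
          add_mem' := fun {a b} ha hb m hm => by rw [add_lie, ha m hm, hb m hm, add_zero]
          smul_mem' := fun c a ha m hm => by rw [smul_lie, ha m hm, smul_zero] }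
      let I₂ : Submodule ℂ L :=
        { carrier := {x | ∀ m : M, ⁅x, m⁆ ∈ N}
          zero_mem' := fun m => by rw [zero_lie]; exact N.zero_mem
          add_mem' := fun {a b} ha hb m => by rw [add_lie]; exact N.add_mem (ha m) (hb m)
          smul_mem' := fun c a ha m => by rw [smul_lie]; exact N.smul_mem c (ha m) }
      have hI₁ : ∀ z : L, ∀ x ∈ I₁, ⁅z, x⁆ ∈ I₁ := by
        intro z x hx m hm
        rw [lie_lie, hx m hm, hx _ (N.lie_mem hm), lie_zero, sub_zero]
      have hI₂ : ∀ z : L, ∀ x ∈ I₂, ⁅z, x⁆ ∈ I₂ := by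
        intro z x hx m
        rw [lie_lie]
        exact N.sub_mem (N.lie_mem (hx m)) (hx _)
      -- every element is a value
      have hsur : ∀ z ∈ sp (r s) (Z s), ∃ x : L, q s x = z := by
        intro z hz
        have h3 : sp (r s) (Z s) ≤ (⊤ : Submodule ℂ L).map (q s) := by
          unfold sp
          rw [Submodule.span_le]
          rintro _ ⟨a, b, ha, hb, hab, rfl⟩
          obtain ⟨x, hx, -⟩ := D.surj s hs a b ha hb hab
          exact ⟨x, trivial, hx⟩
        obtain ⟨x, -, hx⟩ := h3 hz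
        exact ⟨x, hx⟩
      have hfull : ∀ I : Submodule ℂ L, (∀ z : L, ∀ x ∈ I, ⁅z, x⁆ ∈ I) →
          (∃ x ∈ I, q s x ≠ 0) → sp (r s) (Z s) ≤ I.map (q s) := by
        rintro I hI ⟨x, hx, hx0⟩
        rcases D.simple s hs (I.map (q s)) (by
          rintro _ ⟨y, -, rfl⟩
          exact D.mem s hs y) (by
          rintro z hz _ ⟨y, hy, rfl⟩
          obtain ⟨w, rfl⟩ := hsur z hz
          exact ⟨⁅w, y⁆, hI w y hy, D.lie s hs w y⟩) with h3 | h3
        · exfalso
          have h4 : q s x ∈ I.map (q s) := ⟨x, hx, rfl⟩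
          rw [h3] at h4
          exact hx0 ((Submodule.mem_bot ℂ).1 h4)
        · exact h3.ge
      have hf1 := hfull I₁ hI₁ ⟨x₁, h1, h1'⟩
      have hf2 := hfull I₂ hI₂ ⟨x₂, h2, h2'⟩
      have hf0 : sp (r s) (Z s) ≤ (I₁ ⊓ I₂).map (q s) := by
        refine sp_perfect (D.rel s hs) (by omega) fun z hz w hw => ?_
        obtain ⟨x, hx, rfl⟩ := hf1 hz
        obtain ⟨y, hy, rfl⟩ := hf2 hw
        refine ⟨⁅x, y⁆, ⟨?_, hI₂ x y hy⟩, D.lie s hs x y⟩
        rw [← lie_skew]
        exact I₁.neg_mem (hI₁ y x hx)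
      have hf00 : sp (r s) (Z s) ≤ ⊥ := by
        refine sp_perfect (D.rel s hs) (by omega) fun z hz w hw => ?_
        obtain ⟨x, hx, rfl⟩ := hf0 hz
        obtain ⟨y, hy, rfl⟩ := hf0 hw
        rw [← D.lie s hs, Submodule.mem_bot]
        refine hker _ (fun m => ?_) s hs
        rw [lie_lie, hx.1 _ (hy.2 m), hy.1 _ (hx.2 m), sub_zero]
      have h3 := hf00 (mem_sp (r := r s) (Z := Z s) (a := 0) (b := 1) (by omega) (by omega)
        (by omega))
      exact D.ne s hs ((Submodule.mem_bot ℂ).1 h3)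
    calc ∑ s ∈ S, beta (r s) ≤ ∑ s ∈ S₁ ∪ S₂, beta (r s) :=
          Finset.sum_le_sum_of_subset hcov
      _ ≤ ∑ s ∈ S₁ ∪ S₂, beta (r s) + ∑ s ∈ S₁ ∩ S₂, beta (r s) := Nat.le_add_right _ _
      _ = ∑ s ∈ S₁, beta (r s) + ∑ s ∈ S₂, beta (r s) := Finset.sum_union_inter
      _ ≤ finrank ℂ N + finrank ℂ (M ⧸ N) := Nat.add_le_add i1 i2
      _ = finrank ℂ M := by rw [← hfr, add_comm]

end Pool.Agent.N192.GP
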