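import Mathlib

set_option autoImplicit false

/-!
# Endomorphisms of the orthogonal Lie algebras: the trace argument
-/

open Matrix

namespace Pool.Agent.N192.GP

variable {r : ℕ}

/-- Square matrices. -/
abbrev Mt (r : ℕ) : Type := Matrix (Fin r) (Fin r) ℂ

/-- The elementary skew matrices. -/
def sk (a b : Fin r) : Mt r := Matrix.single a b 1 - Matrix.single b a 1

theorem sk_skew (a b : Fin r) : (sk a b)ᵀ = -sk a b := by
  unfold sk
  rw [transpose_sub, transpose_single, transpose_single, neg_sub]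

/-- The contraction. -/
def con (L : Mt r →ₗ[ℂ] Mt r) : Mt r := Matrix.of fun c a => ∑ b, L (sk a b) c b

theorem con_add (L L' : Mt r →ₗ[ℂ] Mt r) : con (L + L') = con L + con L' := by
  ext c a
  simp only [con, Matrix.of_apply, LinearMap.add_apply, Matrix.add_apply, Finset.sum_add_distrib]

theorem con_smul (t : ℂ) (L : Mt r →ₗ[ℂ] Mt r) : con (t • L) = t • con L := by
  ext c a
  simp only [con, Matrix.of_apply, LinearMap.smul_apply, Matrix.smul_apply, Finset.smul_sum]

theorem con_zero : con (0 : Mt r →ₗ[ℂ] Mt r) = 0 := by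
  ext c a
  simp [con]

theorem con_sum {ι : Type} (s : Finset ι) (L : ι → Mt r →ₗ[ℂ] Mt r) :
    con (∑ i ∈ s, L i) = ∑ i ∈ s, con (L i) := by
  classical
  induction s using Finset.induction_on with
  | empty => rw [Finset.sum_empty, Finset.sum_empty, con_zero]
  | insert i s hi ih => rw [Finset.sum_insert hi, Finset.sum_insert hi, con_add, ih]

/-- The contraction only depends on the values on skew matrices. -/
theorem con_congr {L L' : Mt r →ₗ[ℂ] Mt r} (h : ∀ Z : Mt r, Zᵀ = -Z → L Z = L' Z) : con L = con L' := by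
  ext c a
  simp only [con, Matrix.of_apply]
  exact Finset.sum_congr rfl fun b _ => by rw [h _ (sk_skew a b)]

/-- The map `Z ↦ A * Z * B`. -/
def mm (A B : Mt r) : Mt r →ₗ[ℂ] Mt r := LinearMap.mulLeft ℂ A ∘ₗ LinearMap.mulRight ℂ B

theorem mm_apply (A B Z : Mt r) : mm A B Z = A * (Z * B) := rfl

theorem con_mm (A B : Mt r) : con (mm A B) = trace B • A - A * Bᵀ := by
  ext c a
  simp only [con, Matrix.of_apply, mm_apply, sk, sub_mul, mul_sub, Matrix.sub_apply,
    Matrix.smul_apply, smul_eq_mul, Finset.sum_sub_distrib]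
  congr 1
  · rw [trace, Finset.sum_mul]
    refine Finset.sum_congr rfl fun b _ => ?_
    rw [← Matrix.mul_assoc, Matrix.mul_apply, Finset.sum_eq_single b]
    · rw [Matrix.mul_single_apply_same, mul_one, diag_apply, mul_comm]
    · intro d _ hd
      rw [Matrix.mul_single_apply_of_ne _ _ _ _ _ hd, zero_mul]
    · intro h
      exact absurd (Finset.mem_univ _) h
  · rw [Matrix.mul_apply]
    refine Finset.sum_congr rfl fun b _ => ?_
    rw [← Matrix.mul_assoc, Matrix.mul_apply, Finset.sum_eq_single a]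
    · rw [Matrix.mul_single_apply_same, mul_one, transpose_apply]
    · intro d _ hd
      rw [Matrix.mul_single_apply_of_ne _ _ _ _ _ hd, zero_mul]
    · intro h
      exact absurd (Finset.mem_univ _) h

theorem tr_skew {Y : Mt r} (h : Yᵀ = -Y) : trace Y = 0 := by
  have h1 := trace_transpose Y
  rw [h, trace_neg] at h1
  linear_combination (-1 / 2 : ℂ) * h1

/-- The square of the commutator with `Y`. -/
theorem con_two {Y : Mt r} (h : Yᵀ = -Y) {L : Mt r →ₗ[ℂ] Mt r}
    (hL : ∀ Z : Mt r, Zᵀ = -Z → L Z = Y * (Y * Z - Z * Y) - (Y * Z - Z * Y) * Y) :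
    con L = ((r : ℂ) - 4) • (Y * Y) + trace (Y * Y) • (1 : Mt r) := by
  have h1 : con L = con (mm (Y * Y) 1 + (-2 : ℂ) • mm Y Y + mm 1 (Y * Y)) := by
    refine con_congr fun Z hZ => ?_
    rw [hL Z hZ, LinearMap.add_apply, LinearMap.add_apply, LinearMap.smul_apply, mm_apply,
      mm_apply, mm_apply]
    simp only [mul_sub, sub_mul, mul_one, one_mul, mul_assoc]
    module
  rw [h1, con_add, con_add, con_smul, con_mm, con_mm, con_mm, trace_one, Fintype.card_fin,
    tr_skew h, transpose_one, transpose_mul, h, mul_one, one_mul]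
  simp only [mul_neg, neg_mul, neg_neg]
  module

/-- The third power of the commutator with `Y`. -/
theorem con_three {Y : Mt r} (h : Yᵀ = -Y)
    (hY : ∀ Z : Mt r, Zᵀ = -Z →
      Y * (Y * (Y * Z - Z * Y) - (Y * Z - Z * Y) * Y) - (Y * (Y * Z - Z * Y) -
        (Y * Z - Z * Y) * Y) * Y = (-4 : ℂ) • (Y * Z - Z * Y)) :
    ((r : ℂ) - 8) • (Y * (Y * Y)) + (3 * trace (Y * Y) + 4 * r - 8) • Y = 0 := by
  have h1 : con (mm (Y * (Y * Y)) 1 + (-3 : ℂ) • mm (Y * Y) Y + (3 : ℂ) • mm Y (Y * Y) +
      (-1 : ℂ) • mm 1 (Y * (Y * Y)) + (4 : ℂ) • mm Y 1 + (-4 : ℂ) • mm 1 Y) = con 0 := by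
    refine con_congr fun Z hZ => ?_
    have h2 := hY Z hZ
    have h3 : Y * (Y * (Y * Z - Z * Y) - (Y * Z - Z * Y) * Y) - (Y * (Y * Z - Z * Y) -
        (Y * Z - Z * Y) * Y) * Y - (-4 : ℂ) • (Y * Z - Z * Y) = 0 := sub_eq_zero.2 h2
    rw [LinearMap.zero_apply, ← h3]
    simp only [LinearMap.add_apply, LinearMap.smul_apply, mm_apply]
    simp only [mul_sub, sub_mul, mul_one, one_mul, mul_assoc]
    module
  rw [con_zero] at h1
  simp only [con_add, con_smul, con_mm] at h1
  have h4 : (Y * (Y * Y))ᵀ = -(Y * (Y * Y)) := by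
    rw [transpose_mul, transpose_mul, h]
    simp only [mul_neg, neg_mul, neg_neg, mul_assoc]
  rw [trace_one, Fintype.card_fin, tr_skew h, tr_skew h4, h4, transpose_one, transpose_mul, h] at h1
  simp only [mul_neg, neg_mul, neg_neg, mul_one, one_mul, mul_assoc] at h1
  rw [← h1]
  module

/-- The matrices of an endomorphism of the orthogonal Lie algebra. -/
structure Rel (Y : Fin r → Fin r → Mt r) : Prop where
  skew : ∀ i j, (Y i j)ᵀ = -Y i j
  anti : ∀ i j, Y i j = -Y j i
  br : ∀ i j k, i ≠ j → j ≠ k → i ≠ k → Y i j * Y j k - Y j k * Y i j = (2 : ℂ) • Y i k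
  three : ∀ i j, ∀ Z : Mt r, Zᵀ = -Z →
      Y i j * (Y i j * (Y i j * Z - Z * Y i j) - (Y i j * Z - Z * Y i j) * Y i j) -
        (Y i j * (Y i j * Z - Z * Y i j) - (Y i j * Z - Z * Y i j) * Y i j) * Y i j =
        (-4 : ℂ) • (Y i j * Z - Z * Y i j)
  cas : ∀ Z : Mt r, Zᵀ = -Z → ∑ i, ∑ j, (Y i j * (Y i j * Z - Z * Y i j) -
    (Y i j * Z - Z * Y i j) * Y i j) = (-16 * ((r : ℂ) - 2)) • Z

variable {Y : Fin r → Fin r → Mt r} (h : Rel Y)
include h

theorem Rel.diag (i : Fin r) : Y i i = 0 := by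
  have h1 := h.anti i i
  have h2 : (2 : ℂ) • Y i i = 0 := by
    rw [two_smul]
    nth_rewrite 2 [h1]
    rw [add_neg_cancel]
  exact (smul_eq_zero.1 h2).resolve_left two_ne_zero

theorem Rel.tr_eq {i j k : Fin r} (hij : i ≠ j) (hjk : j ≠ k) (hik : i ≠ k) :
    trace (Y i k * Y i k) = trace (Y i j * Y i j) := by
  have h1 := h.br i j k hij hjk hik
  have h2 := h.br j k i hjk hik.symm hij.symm
  have h3 : Y j k * Y i k - Y i k * Y j k = (2 : ℂ) • Y i j := by
    rw [h.anti i k, h.anti i j, mul_neg, neg_mul, smul_neg, ← h2]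
    abel
  have h4 : (2 : ℂ) * trace (Y i k * Y i k) = trace ((Y i j * Y j k - Y j k * Y i j) * Y i k) := by
    rw [h1, smul_mul_assoc, trace_smul, smul_eq_mul]
  have h5 : (2 : ℂ) * trace (Y i j * Y i j) = trace (Y i j * (Y j k * Y i k - Y i k * Y j k)) := by
    rw [h3, mul_smul_comm, trace_smul, smul_eq_mul]
  have h6 : trace ((Y i j * Y j k - Y j k * Y i j) * Y i k) =
      trace (Y i j * (Y j k * Y i k - Y i k * Y j k)) := by
    rw [sub_mul, mul_sub, trace_sub, trace_sub, mul_assoc, mul_assoc, trace_mul_comm (Y j k),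
      mul_assoc]
  rw [← h4, ← h5] at h6
  exact mul_left_cancel₀ two_ne_zero h6

theorem Rel.tr_swap (i j : Fin r) : trace (Y i j * Y i j) = trace (Y j i * Y j i) := by
  rw [h.anti i j, neg_mul_neg]

/-- All traces are equal. -/
theorem Rel.tr_all {i j i' j' : Fin r} (hij : i ≠ j) (hij' : i' ≠ j') :
    trace (Y i j * Y i j) = trace (Y i' j' * Y i' j') := by
  -- change of one index
  have key : ∀ a b c : Fin r, a ≠ b → a ≠ c → trace (Y a b * Y a b) = trace (Y a c * Y a c) := by
    intro a b c hab hac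
    by_cases hbc : b = c
    · rw [hbc]
    · exact h.tr_eq hac (Ne.symm hbc) hab
  by_cases h1 : i = j'
  · rw [key i j i' hij (by rw [h1]; exact hij'.symm), h.tr_swap i i', h1]
  · rw [key i j j' hij h1, h.tr_swap i j', key j' i i' (Ne.symm h1) hij'.symm, h.tr_swap j' i']

theorem Rel.tr (h3 : 3 ≤ r) {i j : Fin r} (hij : i ≠ j) : trace (Y i j * Y i j) = -8 := by
  have h1 : con (∑ i, ∑ j, (mm (Y i j * Y i j) 1 + (-2 : ℂ) • mm (Y i j) (Y i j) +
      mm 1 (Y i j * Y i j))) = con ((-16 * ((r : ℂ) - 2)) • mm 1 1) := by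
    refine con_congr fun Z hZ => ?_
    rw [LinearMap.smul_apply, mm_apply, one_mul, mul_one, ← h.cas Z hZ]
    simp only [LinearMap.sum_apply]
    refine Finset.sum_congr rfl fun i _ => Finset.sum_congr rfl fun j _ => ?_
    simp only [LinearMap.add_apply, LinearMap.smul_apply, mm_apply]
    simp only [mul_sub, sub_mul, mul_one, one_mul, mul_assoc]
    module
  rw [con_smul, con_mm, con_sum] at h1
  simp only [con_sum] at h1
  have h2 : ∀ i j, con (mm (Y i j * Y i j) 1 + (-2 : ℂ) • mm (Y i j) (Y i j) +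
      mm 1 (Y i j * Y i j)) = ((r : ℂ) - 4) • (Y i j * Y i j) + trace (Y i j * Y i j) • (1 : Mt r) := by
    intro i j
    refine con_two (h.skew i j) fun Z _ => ?_
    simp only [LinearMap.add_apply, LinearMap.smul_apply, mm_apply]
    simp only [mul_sub, sub_mul, mul_one, one_mul, mul_assoc]
    module
  simp only [h2] at h1
  have h4 := congrArg trace h1
  simp only [trace_sum, trace_add, trace_smul, trace_sub, trace_one, Fintype.card_fin,
    transpose_one, mul_one, smul_eq_mul] at h4
  have h5 : ∀ a b : Fin r, ((r : ℂ) - 4) * trace (Y a b * Y a b) + trace (Y a b * Y a b) * r =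
      (2 * (r : ℂ) - 4) * (if a = b then 0 else trace (Y i j * Y i j)) := by
    intro a b
    by_cases hab : a = b
    · subst hab
      rw [if_pos rfl, h.diag, zero_mul, trace_zero]
      ring
    · rw [if_neg hab, h.tr_all hab hij]
      ring
  simp only [h5, ← Finset.mul_sum] at h4
  have h6 : ∑ a : Fin r, ∑ b : Fin r, (if a = b then 0 else trace (Y i j * Y i j)) =
      (r : ℂ) * ((r : ℂ) - 1) * trace (Y i j * Y i j) := by
    have h7 : ∀ a : Fin r, ∑ b : Fin r, (if a = b then 0 else trace (Y i j * Y i j)) =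
        ((r : ℂ) - 1) * trace (Y i j * Y i j) := by
      intro a
      have h8 : ∀ b : Fin r, (if a = b then 0 else trace (Y i j * Y i j)) =
          trace (Y i j * Y i j) - if a = b then trace (Y i j * Y i j) else 0 := by
        intro b
        split_ifs <;> ring
      simp only [h8, Finset.sum_sub_distrib, Finset.sum_ite_eq, Finset.mem_univ, if_true,
        Finset.sum_const, Finset.card_univ, Fintype.card_fin, nsmul_eq_mul]
      ring
    simp only [h7, Finset.sum_const, Finset.card_univ, Fintype.card_fin, nsmul_eq_mul]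
    ring
  rw [h6] at h4
  have e1 : ((r : ℂ)) ≠ 0 := by
    have : r ≠ 0 := by omega
    exact_mod_cast this
  have e2 : ((r : ℂ) - 1) ≠ 0 := by
    intro h0
    have : (r : ℂ) = (1 : ℕ) := by
      push_cast
      linear_combination h0
    have := Nat.cast_injective this
    omega
  have e3 : ((r : ℂ) - 2) ≠ 0 := by
    intro h0
    have : (r : ℂ) = (2 : ℕ) := by
      push_cast
      linear_combination h0
    have := Nat.cast_injective this
    omega
  have e4 : (2 * ((r : ℂ) - 2) * r * (r - 1)) * (trace (Y i j * Y i j) + 8) = 0 := by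
    linear_combination h4
  have e5 := (mul_eq_zero.1 e4).resolve_left (mul_ne_zero (mul_ne_zero (mul_ne_zero two_ne_zero e3)
    e1) e2)
  linear_combination e5

theorem Rel.cube (h3 : 3 ≤ r) (h8 : r ≠ 8) {i j : Fin r} (hij : i ≠ j) :
    Y i j * (Y i j * Y i j) = (-4 : ℂ) • Y i j := by
  have h1 := con_three (h.skew i j) (h.three i j)
  rw [h.tr h3 hij] at h1
  have e1 : ((r : ℂ) - 8) ≠ 0 := by
    intro h0
    have : (r : ℂ) = (8 : ℕ) := by
      push_cast
      linear_combination h0
    exact h8 (Nat.cast_injective this)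
  have h2 : ((r : ℂ) - 8) • (Y i j * (Y i j * Y i j) + (4 : ℂ) • Y i j) = 0 := by
    rw [← h1]
    module
  have h4 := (smul_eq_zero.1 h2).resolve_left e1
  rw [eq_neg_of_add_eq_zero_left h4, neg_smul]

end Pool.Agent.N192.GP
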