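import Pool.Agent.N192.GP.MatM

set_option autoImplicit false

/-!
# Skew matrices with three eigenvalues and of rank two
-/

open Matrix

namespace Pool.Agent.N192.GP

variable {r : ℕ}

theorem zero_of_idem {Q : Mt r} (h : Q * Q = Q) (h0 : trace Q = 0) : Q = 0 := by
  have h1 : IsIdempotentElem (Matrix.toLin' Q) := by
    change Matrix.toLin' Q * Matrix.toLin' Q = Matrix.toLin' Q
    rw [Module.End.mul_eq_comp, ← Matrix.toLin'_mul, h]
  have h2 := (LinearMap.IsIdempotentElem.trace_eq_zero_iff h1).1 (by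
    rw [Matrix.trace_toLin'_eq, h0])
  exact (map_eq_zero_iff _ (Matrix.toLin' (R := ℂ)).injective).1 h2

theorem rank_two {A : Mt r} (hs : Aᵀ = -A) (hc : A * (A * A) = (-4 : ℂ) • A)
    (ht : trace (A * A) = -8) : ∃ e f : Fin r → ℂ, e ⬝ᵥ e = 1 ∧ f ⬝ᵥ f = 1 ∧ e ⬝ᵥ f = 0 ∧
      ∀ a b, A b a = 2 * (f b * e a - e b * f a) := by
  obtain ⟨P, hP⟩ : ∃ P : Mt r, P = (-1 / 4 : ℂ) • (A * A) := ⟨_, rfl⟩
  have hPP : P * P = P := by
    rw [hP, smul_mul_smul_comm, mul_assoc, hc, mul_smul_comm, smul_smul]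
    norm_num
  have hPT : Pᵀ = P := by
    rw [hP, transpose_smul, transpose_mul, hs, neg_mul_neg]
  have hPt : trace P = 2 := by
    rw [hP, trace_smul, ht, smul_eq_mul]
    norm_num
  have hAP : A * P = A := by
    rw [hP, mul_smul_comm, hc, smul_smul]
    norm_num
  have hAA : A * A = (-4 : ℂ) • P := by
    rw [hP, smul_smul]
    norm_num
  obtain ⟨a₀, ha₀⟩ : ∃ a, P a a ≠ 0 := by
    by_contra hcon
    push Not at hcon
    have h1 : trace P = 0 := Finset.sum_eq_zero fun a _ => hcon a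
    rw [h1] at hPt
    exact two_ne_zero hPt.symm
  obtain ⟨s, hs2⟩ := IsAlgClosed.exists_pow_nat_eq (P a₀ a₀) (n := 2) (by norm_num)
  have hs0 : s ≠ 0 := by
    rintro rfl
    apply ha₀
    rw [← hs2]
    norm_num
  obtain ⟨e, he⟩ : ∃ e : Fin r → ℂ, e = s⁻¹ • (P *ᵥ Pi.single a₀ 1) := ⟨_, rfl⟩
  have hdot : ∀ (X : Mt r) (u v : Fin r → ℂ), (X *ᵥ u) ⬝ᵥ v = u ⬝ᵥ (Xᵀ *ᵥ v) := by
    intro X u v
    rw [dotProduct_comm, dotProduct_mulVec, ← mulVec_transpose, dotProduct_comm]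
  have hPe : P *ᵥ e = e := by
    rw [he, mulVec_smul, mulVec_mulVec, hPP]
  have hee : e ⬝ᵥ e = 1 := by
    rw [he, smul_dotProduct, dotProduct_smul, hdot, hPT, mulVec_mulVec, hPP,
      single_dotProduct, mulVec_single_one, col_apply, one_mul, smul_eq_mul, smul_eq_mul, ← hs2]
    field_simp
  obtain ⟨f, hf⟩ : ∃ f : Fin r → ℂ, f = (1 / 2 : ℂ) • (A *ᵥ e) := ⟨_, rfl⟩
  have hAe : A *ᵥ e = (2 : ℂ) • f := by
    rw [hf, smul_smul]
    norm_num
  have hAf : A *ᵥ f = (-2 : ℂ) • e := by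
    rw [hf, mulVec_smul, mulVec_mulVec, hAA, smul_mulVec, hPe, smul_smul]
    norm_num
  have hff : f ⬝ᵥ f = 1 := by
    nth_rewrite 1 [hf]
    rw [smul_dotProduct, hdot, hs, neg_mulVec, hAf, dotProduct_neg, dotProduct_smul, hee]
    norm_num
  have hef : e ⬝ᵥ f = 0 := by
    have h1 : e ⬝ᵥ (A *ᵥ e) = 0 := by
      have h2 := hdot A e e
      rw [hs, neg_mulVec, dotProduct_neg, dotProduct_comm] at h2
      linear_combination (1 / 2 : ℂ) * h2
    rw [hf, dotProduct_smul, h1, smul_zero]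
  have hPf : P *ᵥ f = f := by
    rw [hP, smul_mulVec, ← mulVec_mulVec, hAf, mulVec_smul, hAe, smul_smul, smul_smul]
    norm_num
  have hvP : ∀ v : Fin r → ℂ, v ᵥ* P = P *ᵥ v := by
    intro v
    rw [← mulVec_transpose, hPT]
  obtain ⟨Q, hQ⟩ : ∃ Q : Mt r, Q = P - vecMulVec e e - vecMulVec f f := ⟨_, rfl⟩
  have hfe : f ⬝ᵥ e = 0 := by rw [dotProduct_comm, hef]
  have hQ0 : Q = 0 := by
    apply zero_of_idem
    · have hvv : ∀ a b c d : Fin r → ℂ, (vecMulVec a b : Mt r) * vecMulVec c d =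
          (b ⬝ᵥ c) • vecMulVec a d := by
        intro a b c d
        rw [vecMulVec_mul_vecMulVec, vecMulVec_smul]
      have e1 : P * vecMulVec e e = vecMulVec e e := by rw [mul_vecMulVec, hPe]
      have e2 : P * vecMulVec f f = vecMulVec f f := by rw [mul_vecMulVec, hPf]
      have e3 : vecMulVec e e * P = vecMulVec e e := by rw [vecMulVec_mul, hvP, hPe]
      have e4 : vecMulVec f f * P = vecMulVec f f := by rw [vecMulVec_mul, hvP, hPf]
      rw [hQ]
      simp only [sub_mul, mul_sub, hPP, e1, e2, e3, e4, hvv, hee, hff, hef, hfe, one_smul,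
        zero_smul]
      abel
    · rw [hQ, trace_sub, trace_sub, hPt, trace_vecMulVec, trace_vecMulVec, hee, hff]
      norm_num
  have hPef : P = vecMulVec e e + vecMulVec f f := by
    rw [hQ] at hQ0
    rw [← sub_eq_zero, ← hQ0]
    abel
  have hA : A = vecMulVec ((2 : ℂ) • f) e + vecMulVec ((-2 : ℂ) • e) f := by
    conv_lhs => rw [← hAP, hPef]
    rw [mul_add, mul_vecMulVec, mul_vecMulVec, hAe, hAf]
  refine ⟨e, f, hee, hff, hef, fun a b => ?_⟩
  rw [hA, Matrix.add_apply, vecMulVec_apply, vecMulVec_apply, Pi.smul_apply, Pi.smul_apply,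
    smul_eq_mul, smul_eq_mul]
  ring

end Pool.Agent.N192.GP
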