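import Pool.Agent.N192.GP.Dim

set_option autoImplicit false
set_option linter.unusedSectionVars false
set_option linter.unusedVariables false

/-!
# Commuting representations of orthogonal Lie algebras
-/

open Module

noncomputable section

namespace Pool.Agent.N192.GP

variable {M : Type*} [AddCommGroup M] [Module ℂ M]

open scoped Classical in
/-- The restriction to a subspace. -/
def resY (Y : ℕ → ℕ → End ℂ M) (N : Submodule ℂ M) (a b : ℕ) : End ℂ N :=
  if h : ∀ x ∈ N, Y a b x ∈ N then (Y a b).restrict h else 0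

theorem resY_apply {Y : ℕ → ℕ → End ℂ M} {N : Submodule ℂ M} {a b : ℕ}
    (h : ∀ x ∈ N, Y a b x ∈ N) (x : N) : (resY Y N a b x : M) = Y a b x := by
  unfold resY
  rw [dif_pos h]
  rfl

variable {r : ℕ}

theorem SoRel.res {Y : ℕ → ℕ → End ℂ M} (h : SoRel r Y) {N : Submodule ℂ M}
    (hN : ∀ a b, a < r → b < r → a ≠ b → ∀ x ∈ N, Y a b x ∈ N) : SoRel r (resY Y N) where
  anti a b ha hb hab := by
    refine LinearMap.ext fun x => Subtype.ext ?_
    rw [resY_apply (hN a b ha hb hab), h.anti a b ha hb hab, LinearMap.neg_apply,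
      LinearMap.neg_apply, Submodule.coe_neg, resY_apply (hN b a hb ha hab.symm)]
  br a b c ha hb hc hab hbc hac := by
    refine LinearMap.ext fun x => Subtype.ext ?_
    have h1 := congrArg (fun f : End ℂ M => f x) (h.br a b c ha hb hc hab hbc hac)
    simp only [LinearMap.sub_apply, Module.End.mul_apply, LinearMap.smul_apply] at h1
    rw [LinearMap.sub_apply, Module.End.mul_apply, Module.End.mul_apply, LinearMap.smul_apply,
      Submodule.coe_sub, Submodule.coe_smul, resY_apply (hN a b ha hb hab),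
      resY_apply (hN b c hb hc hbc), resY_apply (hN b c hb hc hbc),
      resY_apply (hN a b ha hb hab), resY_apply (hN a c ha hc hac), h1]
  comm a b c d ha hb hc hd hab hcd hac had hbc hbd := by
    refine LinearMap.ext fun x => Subtype.ext ?_
    have h1 := congrArg (fun f : End ℂ M => f x)
      (h.comm a b c d ha hb hc hd hab hcd hac had hbc hbd)
    simp only [Module.End.mul_apply] at h1
    rw [Module.End.mul_apply, Module.End.mul_apply, resY_apply (hN a b ha hb hab),
      resY_apply (hN c d hc hd hcd), resY_apply (hN c d hc hd hcd),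
      resY_apply (hN a b ha hb hab), h1]

/-- Commuting representations without invariants. -/
structure Sys {σ : Type*} (r : ℕ) (S : Finset σ) (Y : σ → ℕ → ℕ → End ℂ M) : Prop where
  rel : ∀ s ∈ S, SoRel r (Y s)
  comm : ∀ s ∈ S, ∀ t ∈ S, s ≠ t → ∀ a b c d, a < r → b < r → a ≠ b → c < r → d < r → c ≠ d →
    Y s a b * Y t c d = Y t c d * Y s a b
  inv : ∀ s ∈ S, ∀ v, (∀ a b, a < r → b < r → a ≠ b → Y s a b v = 0) → v = 0

theorem Sys.res {σ : Type*} {S : Finset σ} {Y : σ → ℕ → ℕ → End ℂ M} (h : Sys r S Y)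
    {N : Submodule ℂ M} {S' : Finset σ} (hS : S' ⊆ S)
    (hN : ∀ s ∈ S', ∀ a b, a < r → b < r → a ≠ b → ∀ x ∈ N, Y s a b x ∈ N) :
    Sys r S' (fun s => resY (Y s) N) where
  rel s hs := (h.rel s (hS hs)).res (hN s hs)
  comm s hs t ht hst a b c d ha hb hab hc hd hcd := by
    refine LinearMap.ext fun x => Subtype.ext ?_
    have h1 := congrArg (fun f : End ℂ M => f x)
      (h.comm s (hS hs) t (hS ht) hst a b c d ha hb hab hc hd hcd)
    simp only [Module.End.mul_apply] at h1
    rw [Module.End.mul_apply, Module.End.mul_apply, resY_apply (hN s hs a b ha hb hab),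
      resY_apply (hN t ht c d hc hd hcd), resY_apply (hN t ht c d hc hd hcd),
      resY_apply (hN s hs a b ha hb hab), h1]
  inv s hs v hv := by
    refine Subtype.ext (h.inv s (hS hs) v fun a b ha hb hab => ?_)
    rw [← resY_apply (hN s hs a b ha hb hab), hv a b ha hb hab, Submodule.coe_zero]

/-- **Commuting representations without invariants of `n` orthogonal Lie algebras of rank `r` have
dimension at least `n beta r`.** -/
theorem Sys.dim {σ : Type*} [DecidableEq σ] (h6 : 6 ≤ r) (n : ℕ) : ∀ {M : Type _} [AddCommGroup M]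
    [Module ℂ M] [FiniteDimensional ℂ M] [Nontrivial M] {S : Finset σ}
    {Y : σ → ℕ → ℕ → End ℂ M}, Sys r S Y → S.card = n → n * beta r ≤ finrank ℂ M := by
  induction n with
  | zero => intro M _ _ _ _ S Y _ _; omega
  | succ n ih =>
    intro M _ _ _ _ S Y h hn
    obtain ⟨s, hs⟩ : S.Nonempty := Finset.card_pos.1 (by omega)
    obtain ⟨v, hv⟩ := exists_ne (0 : M)
    obtain ⟨a, b, ha, hb, hab, hne⟩ : ∃ a b, a < r ∧ b < r ∧ a ≠ b ∧ Y s a b v ≠ 0 := by
      by_contra hcon
      push Not at hcon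
      exact hv (h.inv s hs v hcon)
    have hne' : Y s a b ≠ 0 := fun h0 => hne (by rw [h0, LinearMap.zero_apply])
    have hR := h.rel s hs
    rcases Nat.eq_zero_or_pos n with h0 | hpos
    · rw [h0, zero_add, one_mul]
      exact hR.dim h6 ha hb hab hne'
    -- an eigenvalue of the first generator of the Cartan subalgebra
    obtain ⟨χ, hχ, hχ0⟩ := hR.occ (m := 1) (by omega) (by omega) ha hb hab hne' 0
    obtain ⟨w, hw, hw0⟩ := (Submodule.ne_bot_iff _).1 hχ
    have hw1 : w ∈ (Hh (Y s) 0).maxGenEigenspace (χ 0) := mem_WS.1 hw 0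
    obtain ⟨G, G', -, g2, -, g4⟩ := hR.exists_rot (a := 0) (b := 2) (by omega) (by omega)
      (by omega)
    have hG : G * Hh (Y s) 0 = -(Hh (Y s) 0 * G) := by
      unfold Hh
      rw [mul_smul_comm, (g4 (2 * 0 + 1) (by omega) (by omega) (by omega)).1, smul_neg,
        smul_mul_assoc]
    have hw2 : G w ∈ (Hh (Y s) 0).maxGenEigenspace (-χ 0) := gen_flip hG hw1
    have hw3 : G w ≠ 0 := by
      intro h1
      have h2 : (G' * G) w = G' (G w) := rfl
      rw [g2, h1, map_zero] at h2
      exact hw0 h2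
    have hN : ∀ μ : ℂ, ∀ t ∈ S.erase s, ∀ a b, a < r → b < r → a ≠ b →
        ∀ x ∈ (Hh (Y s) 0).maxGenEigenspace μ, Y t a b x ∈ (Hh (Y s) 0).maxGenEigenspace μ := by
      intro μ t ht a b ha hb hab x hx
      refine gen_map (T' := Hh (Y s) 0) ?_ hx
      unfold Hh
      rw [mul_smul_comm, smul_mul_assoc]
      congr 1
      exact h.comm t (Finset.mem_of_mem_erase ht) s hs (Finset.ne_of_mem_erase ht) a b _ _ ha hb
        hab (by omega) (by omega) (by omega)
    have hcard : (S.erase s).card = n := by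
      rw [Finset.card_erase_of_mem hs, hn, Nat.add_sub_cancel]
    have key : ∀ μ : ℂ, (∃ x ∈ (Hh (Y s) 0).maxGenEigenspace μ, x ≠ 0) →
        n * beta r ≤ finrank ℂ ((Hh (Y s) 0).maxGenEigenspace μ) := by
      rintro μ ⟨x, hx, hx0⟩
      have : Nontrivial ((Hh (Y s) 0).maxGenEigenspace μ) :=
        ⟨⟨⟨x, hx⟩, 0, fun h1 => hx0 (congrArg Subtype.val h1)⟩⟩
      exact ih (h.res (Finset.erase_subset s S) (hN μ)) hcard
    have h1 := key _ ⟨w, hw1, hw0⟩
    have h2 := key _ ⟨G w, hw2, hw3⟩
    have hdis : Disjoint ((Hh (Y s) 0).maxGenEigenspace (χ 0))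
        ((Hh (Y s) 0).maxGenEigenspace (-χ 0)) :=
      End.disjoint_genEigenspace _ (fun h3 => hχ0 (self_eq_neg_C h3)) ⊤ ⊤
    have h3 := Submodule.finrank_sup_add_finrank_inf_eq ((Hh (Y s) 0).maxGenEigenspace (χ 0))
      ((Hh (Y s) 0).maxGenEigenspace (-χ 0))
    rw [hdis.eq_bot, finrank_bot, add_zero] at h3
    have h4 := Submodule.finrank_le ((Hh (Y s) 0).maxGenEigenspace (χ 0) ⊔
      (Hh (Y s) 0).maxGenEigenspace (-χ 0))
    have h5 : beta r ≤ n * beta r := Nat.le_mul_of_pos_left _ hpos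
    rw [Nat.succ_mul]
    omega

end Pool.Agent.N192.GP
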