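import Pool.Agent.N192.GP.Multi

set_option autoImplicit false
set_option linter.unusedSectionVars false
set_option linter.unusedVariables false

/-!
# Commuting representations of orthogonal Lie algebras of different ranks
-/

open Module

noncomputable section

namespace Pool.Agent.N192.GP

variable {M : Type*} [AddCommGroup M] [Module ℂ M]

/-- Commuting representations without invariants. -/
structure SysG {σ : Type*} (r : σ → ℕ) (S : Finset σ) (Y : σ → ℕ → ℕ → End ℂ M) : Prop where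
  rel : ∀ s ∈ S, SoRel (r s) (Y s)
  comm : ∀ s ∈ S, ∀ t ∈ S, s ≠ t → ∀ a b c d, a < r s → b < r s → a ≠ b → c < r t → d < r t →
    c ≠ d → Y s a b * Y t c d = Y t c d * Y s a b
  inv : ∀ s ∈ S, ∀ v, (∀ a b, a < r s → b < r s → a ≠ b → Y s a b v = 0) → v = 0

theorem SysG.res {σ : Type*} {r : σ → ℕ} {S : Finset σ} {Y : σ → ℕ → ℕ → End ℂ M}
    (h : SysG r S Y) {N : Submodule ℂ M} {S' : Finset σ} (hS : S' ⊆ S)
    (hN : ∀ s ∈ S', ∀ a b, a < r s → b < r s → a ≠ b → ∀ x ∈ N, Y s a b x ∈ N) :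
    SysG r S' (fun s => resY (Y s) N) where
  rel s hs := (h.rel s (hS hs)).res (hN s hs)
  comm s hs t ht hst a b c d ha hb hab hc hd hcd := by
    refine LinearMap.ext fun x => Subtype.ext ?_
    have h1 := congrArg (fun f : End ℂ M => f x)
      (h.comm s (hS hs) t (hS ht) hst a b c d ha hb hab hc hd hcd)
    simp only [Module.End.mul_apply] at h1
    rw [Module.End.mul_apply, Module.End.mul_apply, resY_apply (hN s hs a b ha hb hab),
      resY_apply (hN t ht c d hc hd hcd), resY_apply (hN t ht c d hc hd hcd),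
      resY_apply (hN s hs a b ha hb hab), h1]
  inv s hs v hv := by
    refine Subtype.ext (h.inv s (hS hs) v fun a b ha hb hab => ?_)
    rw [← resY_apply (hN s hs a b ha hb hab), hv a b ha hb hab, Submodule.coe_zero]

/-- **Commuting representations without invariants of orthogonal Lie algebras of ranks `r s` have
dimension at least the sum of the `beta (r s)`.** -/
theorem SysG.dim {σ : Type*} [DecidableEq σ] {r : σ → ℕ} (n : ℕ) : ∀ {M : Type _} [AddCommGroup M]
    [Module ℂ M] [FiniteDimensional ℂ M] [Nontrivial M] {S : Finset σ} (_ : ∀ s ∈ S, 6 ≤ r s)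
    {Y : σ → ℕ → ℕ → End ℂ M}, SysG r S Y → S.card = n → ∑ s ∈ S, beta (r s) ≤ finrank ℂ M := by
  induction n with
  | zero =>
    intro M _ _ _ _ S _ Y _ hn
    rw [Finset.card_eq_zero.1 hn, Finset.sum_empty]
    exact Nat.zero_le _
  | succ n ih =>
    intro M _ _ _ _ S h6 Y h hn
    obtain ⟨s, hs, hmin⟩ := S.exists_min_image (fun s => beta (r s)) (Finset.card_pos.1 (by omega))
    have h6s := h6 s hs
    obtain ⟨v, hv⟩ := exists_ne (0 : M)
    obtain ⟨a, b, ha, hb, hab, hne⟩ : ∃ a b, a < r s ∧ b < r s ∧ a ≠ b ∧ Y s a b v ≠ 0 := by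
      by_contra hcon
      push Not at hcon
      exact hv (h.inv s hs v hcon)
    have hne' : Y s a b ≠ 0 := fun h0 => hne (by rw [h0, LinearMap.zero_apply])
    have hR := h.rel s hs
    have hcard : (S.erase s).card = n := by
      rw [Finset.card_erase_of_mem hs, hn, Nat.add_sub_cancel]
    have hsum : ∑ t ∈ S, beta (r t) = ∑ t ∈ S.erase s, beta (r t) + beta (r s) :=
      (Finset.sum_erase_add _ _ hs).symm
    rcases Nat.eq_zero_or_pos n with h0 | hpos
    · have h1 : S.erase s = ∅ := Finset.card_eq_zero.1 (hcard.trans h0)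
      rw [hsum, h1, Finset.sum_empty, zero_add]
      exact hR.dim h6s ha hb hab hne'
    -- an eigenvalue of the first generator of the Cartan subalgebra
    obtain ⟨χ, hχ, hχ0⟩ := hR.occ (m := 1) (by omega) (by omega) ha hb hab hne' 0
    obtain ⟨w, hw, hw0⟩ := (Submodule.ne_bot_iff _).1 hχ
    have hw1 : w ∈ (Hh (Y s) 0).maxGenEigenspace (χ 0) := mem_WS.1 hw 0
    obtain ⟨G, G', -, g2, -, g4⟩ := hR.exists_rot (a := 0) (b := 2) (by omega) (by omega)
      (by omega)
    have hG : G * Hh (Y s) 0 = -(Hh (Y s) 0 * G) := by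
      unfold Hh
      rw [mul_smul_comm, (g4 (2 * 0 + 1) (by omega) (by omega) (by omega)).1, smul_neg,
        smul_mul_assoc]
    have hw2 : G w ∈ (Hh (Y s) 0).maxGenEigenspace (-χ 0) := gen_flip hG hw1
    have hw3 : G w ≠ 0 := by
      intro h1
      have h2 : (G' * G) w = G' (G w) := rfl
      rw [g2, h1, map_zero] at h2
      exact hw0 h2
    have hN : ∀ μ : ℂ, ∀ t ∈ S.erase s, ∀ a b, a < r t → b < r t → a ≠ b →
        ∀ x ∈ (Hh (Y s) 0).maxGenEigenspace μ, Y t a b x ∈ (Hh (Y s) 0).maxGenEigenspace μ := by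
      intro μ t ht a b ha hb hab x hx
      refine gen_map (T' := Hh (Y s) 0) ?_ hx
      unfold Hh
      rw [mul_smul_comm, smul_mul_assoc]
      congr 1
      exact h.comm t (Finset.mem_of_mem_erase ht) s hs (Finset.ne_of_mem_erase ht) a b _ _ ha hb
        hab (by omega) (by omega) (by omega)
    have key : ∀ μ : ℂ, (∃ x ∈ (Hh (Y s) 0).maxGenEigenspace μ, x ≠ 0) →
        ∑ t ∈ S.erase s, beta (r t) ≤ finrank ℂ ((Hh (Y s) 0).maxGenEigenspace μ) := by
      rintro μ ⟨x, hx, hx0⟩
      have : Nontrivial ((Hh (Y s) 0).maxGenEigenspace μ) :=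
        ⟨⟨⟨x, hx⟩, 0, fun h1 => hx0 (congrArg Subtype.val h1)⟩⟩
      exact ih (fun t ht => h6 t (Finset.mem_of_mem_erase ht))
        (h.res (Finset.erase_subset s S) (hN μ)) hcard
    have h1 := key _ ⟨w, hw1, hw0⟩
    have h2 := key _ ⟨G w, hw2, hw3⟩
    have hdis : Disjoint ((Hh (Y s) 0).maxGenEigenspace (χ 0))
        ((Hh (Y s) 0).maxGenEigenspace (-χ 0)) :=
      End.disjoint_genEigenspace _ (fun h3 => hχ0 (self_eq_neg_C h3)) ⊤ ⊤
    have h3 := Submodule.finrank_sup_add_finrank_inf_eq ((Hh (Y s) 0).maxGenEigenspace (χ 0))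
      ((Hh (Y s) 0).maxGenEigenspace (-χ 0))
    rw [hdis.eq_bot, finrank_bot, add_zero] at h3
    have h4 := Submodule.finrank_le ((Hh (Y s) 0).maxGenEigenspace (χ 0) ⊔
      (Hh (Y s) 0).maxGenEigenspace (-χ 0))
    have h5 : beta (r s) ≤ ∑ t ∈ S.erase s, beta (r t) := by
      obtain ⟨t, ht⟩ := Finset.card_pos.1 (hcard ▸ hpos)
      exact (hmin t (Finset.mem_of_mem_erase ht)).trans
        (Finset.single_le_sum (f := fun t => beta (r t)) (fun _ _ => Nat.zero_le _) ht)
    rw [hsum]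
    omega

end Pool.Agent.N192.GP
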