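import Pool.Agent.N192.GP.Cod

set_option autoImplicit false
set_option linter.unusedSectionVars false

/-!
# Two Lie algebras of spin type of different ranks
-/

open Module Function TensorProduct

noncomputable section

namespace Pool.Agent.N192.GP

open Pool.Agent.Y102 Pool.Agent.W516.DR

/-- The Lie algebra `𝔤` is of spin type, of rank `r`. -/
def Spin {W : Type} [AddCommGroup W] [Module ℚ W] [FiniteDimensional ℚ W]
    (𝔤 : Submodule ℚ (Module.End ℚ W)) (r : ℕ) : Prop :=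
  ∃ (N k : ℕ) (E : Fin N → Module.End ℂ (ℂ ⊗[ℚ] W)) (c : Fin N → Fin k), SP.CE E ∧
    (∀ s, (Finset.univ.filter fun j => c j = s).card = r) ∧ cx 𝔤 = SP.soC E c

variable {W₁ W₂ : Type} [AddCommGroup W₁] [Module ℚ W₁] [FiniteDimensional ℚ W₁]
  [AddCommGroup W₂] [Module ℚ W₂] [FiniteDimensional ℚ W₂]

/-- The complex span of a space of pairs. -/
def cx2 (𝔮 : Submodule ℚ (Module.End ℚ W₁ × Module.End ℚ W₂)) :
    Submodule ℂ (Module.End ℂ (ℂ ⊗[ℚ] W₁) × Module.End ℂ (ℂ ⊗[ℚ] W₂)) :=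
  Submodule.span ℂ {P | ∃ p ∈ 𝔮, P = (p.1.baseChange ℂ, p.2.baseChange ℂ)}

variable {𝔮 : Submodule ℚ (Module.End ℚ W₁ × Module.End ℚ W₂)}

theorem cx2_mem {p : Module.End ℚ W₁ × Module.End ℚ W₂} (hp : p ∈ 𝔮) :
    ((p.1.baseChange ℂ, p.2.baseChange ℂ) :
      Module.End ℂ (ℂ ⊗[ℚ] W₁) × Module.End ℂ (ℂ ⊗[ℚ] W₂)) ∈ cx2 𝔮 :=
  Submodule.subset_span ⟨p, hp, rfl⟩

theorem cx2_br (h : Br 𝔮) : Br (cx2 𝔮) := by
  intro x hx y hy
  induction hx using Submodule.span_induction with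
  | mem x hx =>
    obtain ⟨P, hP, rfl⟩ := hx
    induction hy using Submodule.span_induction with
    | mem y hy =>
      obtain ⟨Q, hQ, rfl⟩ := hy
      have h1 := cx2_mem (h P hP Q hQ)
      rw [Prod.fst_sub, Prod.snd_sub, Prod.fst_mul, Prod.fst_mul, Prod.snd_mul, Prod.snd_mul,
        bc_br, bc_br] at h1
      exact h1
    | zero => rw [mul_zero, zero_mul, sub_zero]; exact Submodule.zero_mem _
    | add a b _ _ ha hb =>
      rw [mul_add, add_mul, add_sub_add_comm]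
      exact Submodule.add_mem _ ha hb
    | smul c a _ ha =>
      rw [mul_smul_comm, smul_mul_assoc, ← smul_sub]
      exact Submodule.smul_mem _ c ha
  | zero => rw [mul_zero, zero_mul, sub_zero]; exact Submodule.zero_mem _
  | add a b _ _ ha hb =>
    rw [mul_add, add_mul, add_sub_add_comm]
    exact Submodule.add_mem _ ha hb
  | smul c a _ ha =>
    rw [mul_smul_comm, smul_mul_assoc, ← smul_sub]
    exact Submodule.smul_mem _ c ha

theorem cx2_fst : (cx2 𝔮).map (LinearMap.fst ℂ _ _) = cx (𝔮.map (LinearMap.fst ℚ _ _)) := by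
  unfold cx2
  rw [Submodule.map_span]
  congr 1
  ext X
  constructor
  · rintro ⟨_, ⟨p, hp, rfl⟩, rfl⟩
    exact ⟨p.1, ⟨p, hp, rfl⟩, rfl⟩
  · rintro ⟨_, ⟨p, hp, rfl⟩, rfl⟩
    exact ⟨_, ⟨p, hp, rfl⟩, rfl⟩

theorem cx2_snd : (cx2 𝔮).map (LinearMap.snd ℂ _ _) = cx (𝔮.map (LinearMap.snd ℚ _ _)) := by
  unfold cx2
  rw [Submodule.map_span]
  congr 1
  ext X
  constructor
  · rintro ⟨_, ⟨p, hp, rfl⟩, rfl⟩
    exact ⟨p.2, ⟨p, hp, rfl⟩, rfl⟩
  · rintro ⟨_, ⟨p, hp, rfl⟩, rfl⟩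
    exact ⟨_, ⟨p, hp, rfl⟩, rfl⟩

theorem cx2_comp {P : Module.End ℂ (ℂ ⊗[ℚ] W₁) × Module.End ℂ (ℂ ⊗[ℚ] W₂)} (h : P ∈ cx2 𝔮)
    (lam : ℂ →ₗ[ℚ] ℚ) : (cmpE lam P.1, cmpE lam P.2) ∈ 𝔮 := by
  have key : ∀ lam : ℂ →ₗ[ℚ] ℚ, (cmpE lam P.1, cmpE lam P.2) ∈ 𝔮 := by
    induction h using Submodule.span_induction with
    | mem P hP =>
      intro lam
      obtain ⟨p, hp, rfl⟩ := hP
      have h1 : ((cmpE lam (p.1.baseChange ℂ), cmpE lam (p.2.baseChange ℂ)) :
          Module.End ℚ W₁ × Module.End ℚ W₂) = lam 1 • p := by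
        refine Prod.ext (LinearMap.ext fun w => ?_) (LinearMap.ext fun w => ?_)
        · rw [cmpE_apply, LinearMap.baseChange_tmul, cmp_tmul]
          rfl
        · rw [cmpE_apply, LinearMap.baseChange_tmul, cmp_tmul]
          rfl
      rw [h1]
      exact Submodule.smul_mem _ _ hp
    | zero =>
      intro lam
      have h1 : ((cmpE lam (0 : Module.End ℂ (ℂ ⊗[ℚ] W₁)),
          cmpE lam (0 : Module.End ℂ (ℂ ⊗[ℚ] W₂))) : Module.End ℚ W₁ × Module.End ℚ W₂) = 0 := by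
        refine Prod.ext (LinearMap.ext fun w => ?_) (LinearMap.ext fun w => ?_)
        · rw [cmpE_apply, LinearMap.zero_apply, map_zero]
          rfl
        · rw [cmpE_apply, LinearMap.zero_apply, map_zero]
          rfl
      exact h1 ▸ Submodule.zero_mem _
    | add a b _ _ ha hb =>
      intro lam
      have h1 : ((cmpE lam (a + b).1, cmpE lam (a + b).2) :
          Module.End ℚ W₁ × Module.End ℚ W₂) = (cmpE lam a.1, cmpE lam a.2) +
            (cmpE lam b.1, cmpE lam b.2) := by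
        refine Prod.ext (LinearMap.ext fun w => ?_) (LinearMap.ext fun w => ?_)
        · change cmpE lam (a.1 + b.1) w = cmpE lam a.1 w + cmpE lam b.1 w
          rw [cmpE_apply, cmpE_apply, cmpE_apply, LinearMap.add_apply, map_add]
        · change cmpE lam (a.2 + b.2) w = cmpE lam a.2 w + cmpE lam b.2 w
          rw [cmpE_apply, cmpE_apply, cmpE_apply, LinearMap.add_apply, map_add]
      rw [h1]
      exact Submodule.add_mem _ (ha lam) (hb lam)
    | smul c a _ ha =>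
      intro lam
      have h2 : ∀ {W : Type} [AddCommGroup W] [Module ℚ W] [FiniteDimensional ℚ W]
          (X : Module.End ℂ (ℂ ⊗[ℚ] W)), cmpE lam (c • X) =
            cmpE (lam ∘ₗ LinearMap.mulLeft ℚ c) X := by
        intro W _ _ _ X
        refine LinearMap.ext fun w => ?_
        rw [cmpE_apply, cmpE_apply, LinearMap.smul_apply]
        induction X ((1 : ℂ) ⊗ₜ[ℚ] w) with
        | zero => rw [smul_zero, map_zero, map_zero]
        | add x y hx hy => rw [smul_add, map_add, map_add, hx, hy]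
        | tmul d v => rw [TensorProduct.smul_tmul', cmp_tmul, cmp_tmul]; rfl
      have h1 : ((cmpE lam (c • a).1, cmpE lam (c • a).2) :
          Module.End ℚ W₁ × Module.End ℚ W₂) = (cmpE (lam ∘ₗ LinearMap.mulLeft ℚ c) a.1,
            cmpE (lam ∘ₗ LinearMap.mulLeft ℚ c) a.2) := by
        rw [Prod.smul_fst, Prod.smul_snd, h2, h2]
      rw [h1]
      exact ha _
  exact key lam

theorem mem_of_cx2 {X : Module.End ℚ W₁} {Y : Module.End ℚ W₂}
    (h : ((X.baseChange ℂ, Y.baseChange ℂ) :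
      Module.End ℂ (ℂ ⊗[ℚ] W₁) × Module.End ℂ (ℂ ⊗[ℚ] W₂)) ∈ cx2 𝔮) : (X, Y) ∈ 𝔮 := by
  obtain ⟨lam, hlam⟩ := exists_lam
  have h1 := cx2_comp h lam
  have h2 : cmpE lam (X.baseChange ℂ) = X := by
    refine LinearMap.ext fun w => ?_
    rw [cmpE_apply, LinearMap.baseChange_tmul, cmp_tmul, hlam, one_smul]
  have h3 : cmpE lam (Y.baseChange ℂ) = Y := by
    refine LinearMap.ext fun w => ?_
    rw [cmpE_apply, LinearMap.baseChange_tmul, cmp_tmul, hlam, one_smul]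
  rwa [h2, h3] at h1

/-- The Lie algebra of larger rank splits off. -/
theorem pair_fst (hbr : Br 𝔮) {r r' : ℕ} (hr : r' < r) (h6 : 6 ≤ r)
    (h1 : Spin (𝔮.map (LinearMap.fst ℚ _ _)) r) (h2 : Spin (𝔮.map (LinearMap.snd ℚ _ _)) r')
    {X : Module.End ℚ W₁} (hX : X ∈ 𝔮.map (LinearMap.fst ℚ _ _)) : (X, 0) ∈ 𝔮 := by
  classical
  rcases subsingleton_or_nontrivial (ℂ ⊗[ℚ] W₁) with hs | hn
  · have h3 : X = 0 := by
      have h4 : X ∈ (⊥ : Submodule ℚ (Module.End ℚ W₁)) := by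
        refine mem_of_bc ?_
        have h5 : X.baseChange ℂ = 0 := LinearMap.ext fun v => Subsingleton.elim _ _
        rw [h5]
        exact Submodule.zero_mem _
      exact (Submodule.mem_bot ℚ).1 h4
    rw [h3]
    exact 𝔮.zero_mem
  obtain ⟨N, k, E, c, hE, hc, hg⟩ := h1
  obtain ⟨N', k', E', c', hE', hc', hg'⟩ := h2
  let R := Module.End ℂ (ℂ ⊗[ℚ] W₁) × Module.End ℂ (ℂ ⊗[ℚ] W₂)
  let p : R →ₗ[ℂ] Module.End ℂ (ℂ ⊗[ℚ] W₁) := LinearMap.fst ℂ _ _
  let q : Fin k' → R →ₗ[ℂ] Module.End ℂ (ℂ ⊗[ℚ] W₂) := fun t =>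
    (SP.pS E' c' t) ∘ₗ LinearMap.snd ℂ _ _
  have hq : ∀ t x, q t x = SP.pS E' c' t x.2 := fun _ _ => rfl
  have hp : Hm p (cx2 𝔮) := fun x _ y _ => rfl
  have hmap : (cx2 𝔮).map p = SP.soC E c := by rw [← hg, ← cx2_fst]
  have hsnd : ∀ x ∈ cx2 𝔮, x.2 ∈ SP.soC E' c' := by
    intro x hx
    rw [← hg', ← cx2_snd]
    exact ⟨x, hx, rfl⟩
  have hperf : SP.soC E c ≤ brk (SP.soC E c) (SP.soC E c) :=
    SP.soC_perfect hE fun i => by
      rw [hc]
      omega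
  have hidl : ∀ t, Idl (cx2 𝔮 ⊓ LinearMap.ker (q t)) (cx2 𝔮) := by
    intro t
    refine ⟨inf_le_left, fun x hx y hy => ⟨cx2_br hbr x hx y hy.1, ?_⟩⟩
    change q t (x * y - y * x) = 0
    have h3 : SP.pS E' c' t y.2 = 0 := hy.2
    rw [hq, Prod.snd_sub, Prod.snd_mul, Prod.snd_mul, SP.pS_br hE' (hsnd x hx) (hsnd y hy.1), h3,
      mul_zero, zero_mul, sub_zero]
  have hfull : ∀ t, SP.soC E c ≤ (cx2 𝔮 ⊓ LinearMap.ker (q t)).map p := by
    intro t
    refine full_of_finrank hp hmap (hidl t) (δ := r * (r - 1) / 2)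
      (fun I hI hne => codim hE h6 hc I hI hne) ?_
    have h3 := finrank_ker (cx2 𝔮) (q t)
    have h4 : finrank ℂ ((cx2 𝔮).map (q t)) ≤ r' * (r' - 1) / 2 := by
      refine (Submodule.finrank_mono ?_).trans (finrank_soS_le hE' (hc' t))
      rintro _ ⟨x, hx, rfl⟩
      exact SP.pS_mem hE' (hsnd x hx)
    have h5 : r' * (r' - 1) / 2 < r * (r - 1) / 2 := by
      have e1 : r' * (r' - 1) ≤ (r - 1) * (r - 2) := Nat.mul_le_mul (by omega) (by omega)
      obtain ⟨s, rfl⟩ : ∃ s, r = s + 2 := ⟨r - 2, by omega⟩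
      have e2 : (s + 2) * (s + 2 - 1) = (s + 2 - 1) * (s + 2 - 2) + 2 * (s + 1) := by
        simp only [Nat.add_sub_cancel]
        have e3 : s + 2 - 1 = s + 1 := by omega
        rw [e3]
        ring
      omega
    exact h3.symm.trans_lt (Nat.add_lt_add_left (h4.trans_lt h5) _)
  have hrib := ribet hp hperf hmap.ge hidl Finset.univ fun t _ => hfull t
  have hX' : X.baseChange ℂ ∈ SP.soC E c := hg ▸ bc_mem hX
  obtain ⟨x, hx, hxX⟩ := hrib hX'
  have hx0 : x.2 = 0 := by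
    rw [SP.pS_sum hE' (hsnd x hx.1)]
    refine Finset.sum_eq_zero fun t _ => ?_
    have h3 := (Submodule.mem_iInf _).1 ((Submodule.mem_iInf _).1 hx.2 t) (Finset.mem_univ t)
    exact h3.2
  have h3 : (X.baseChange ℂ, (0 : Module.End ℚ W₂).baseChange ℂ) = x := by
    refine Prod.ext hxX.symm ?_
    rw [LinearMap.baseChange_zero]
    exact hx0.symm
  refine mem_of_cx2 ?_
  rw [h3]
  exact hx.1

/-- The Lie algebra of smaller rank splits off. -/
theorem pair_snd (hbr : Br 𝔮) {r r' : ℕ} (hr : r' < r) (h6 : 6 ≤ r)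
    (h1 : Spin (𝔮.map (LinearMap.fst ℚ _ _)) r) (h2 : Spin (𝔮.map (LinearMap.snd ℚ _ _)) r')
    {Y : Module.End ℚ W₂} (hY : Y ∈ 𝔮.map (LinearMap.snd ℚ _ _)) : (0, Y) ∈ 𝔮 := by
  obtain ⟨⟨X, Y'⟩, hp, rfl⟩ := hY
  have h3 := pair_fst hbr hr h6 h1 h2 (X := X) ⟨_, hp, rfl⟩
  have h4 := 𝔮.sub_mem hp h3
  have h5 : ((X, Y') : Module.End ℚ W₁ × Module.End ℚ W₂) - (X, 0) = (0, Y') := by
    refine Prod.ext ?_ ?_
    · exact sub_self X
    · exact sub_zero Y'
  rw [h5] at h4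
  exact h4

end Pool.Agent.N192.GP
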