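import Pool.Agent.N192.GP.Clos

set_option autoImplicit false
set_option linter.unusedSectionVars false

/-!
# Separation in the family of abelian varieties and of structures
-/

open Module Function TensorProduct

noncomputable section

namespace Pool.Agent.N192.GP

open Pool.Agent.Y102 Pool.Agent.W516.DR Pool.Agent.H204R3.GP Pool.Agent.W516.KC
  Pool.Agent.H204R3.SP

/-- Structures of very small dimension. -/
theorem sepU_tiny {s V : UU} {r : ℕ} (hs : Spin (ggU s) r) (h6 : 6 ≤ r)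
    (hd : V.1 * V.1 < r * (r - 1) / 2) : SepU s V := by
  have hs' : Spin (gg (fun b => (σp s V b).2.basis) false) r := by
    rw [pair_gg]
    exact hs
  refine sepU_of_pair (sep_of_inj (n := fun b => (σp s V b).1)
    (η := fun b => (σp s V b).2.basis) (s := false) (t := true) rfl
    (hs'.perf (by omega)) (hs'.codim h6)
    ((LinearMap.proj true).comp (LinearMap.fst ℚ _ _)) (fun ℓ _ h => h) ?_)
  rw [Module.finrank_linearMap, Module.finrank_fin_fun]
  exact hd

section

variable {I J : Type} [Fintype I] [DecidableEq I] [Fintype J] [DecidableEq J]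
  {g : I → ℕ} (A : ∀ i, AbVar (g i)) {d : J → ℕ} (V : ∀ j, DRS (d j))

/-- The structure of an abelian variety. -/
def DA (i : I) : DRS (2 * g i) := ⟨ηA A i, (ηA A i).linearIndependent⟩

theorem DA_basis (i : I) : (DA A i).basis = ηA A i :=
  Basis.eq_of_apply_eq fun j => congrFun (DA A i).coe_basis j

/-- The members. -/
def σσ : I ⊕ J → UU
  | Sum.inl i => ⟨2 * g i, DA A i⟩
  | Sum.inr j => ⟨d j, V j⟩

/-- The identifications. -/
def ρρ : ∀ t, Module.End ℚ (Fin (σσ A V t).1 → ℚ) →ₐ[ℚ] Module.End ℚ (Fin (nn g d t) → ℚ)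
  | Sum.inl i => AlgHom.id ℚ (Module.End ℚ (Fin (2 * g i) → ℚ))
  | Sum.inr j => AlgHom.id ℚ (Module.End ℚ (Fin (d j) → ℚ))

theorem ρρ_NN (t : I ⊕ J) (D : Derivation QBar ℂ ℂ) (lam : ℂ →ₗ[ℚ] ℚ) :
    ρρ A V t (NN (σσ A V t).2.basis D lam) = NN (ηη A V t) D lam := by
  rcases t with i | j
  · change NN (DA A i).basis D lam = NN (ηA A i) D lam
    rw [DA_basis]
  · rfl

theorem ggU_eq (i : I) : ggU ⟨2 * g i, DA A i⟩ = gg (ηη A V) (Sum.inl i) := by
  have h0 := map_resU (ηη A V) (σσ A V) (ρρ A V) (ρρ_NN A V)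
  unfold gg ggU
  rw [← h0, ← Submodule.map_comp]
  rfl

variable {A V}

theorem sep_final {i : I} {j : J} (h : SepU ⟨2 * g i, DA A i⟩ ⟨d j, V j⟩) :
    Sep (ηη A V) (Sum.inl i) (Sum.inr j) :=
  sep_of_sepU (ηη A V) (σσ A V) (ρρ A V) (ρρ_NN A V) (s := Sum.inl i) (t := Sum.inr j) h

theorem spin_ggU {i : I} {r : ℕ} (h : SpinMat (A i) r) : Spin (ggU ⟨2 * g i, DA A i⟩) r := by
  rw [ggU_eq A (fun j : Empty => (j.elim : DRS (Empty.elim j)))]
  exact gg_spin h

end

end Pool.Agent.N192.GP
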