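import Pool.Agent.N192.GP.LG

set_option autoImplicit false
set_option linter.unusedSectionVars false

/-!
# Small de Rham-Betti structures
-/

open Module Function TensorProduct

noncomputable section

namespace Pool.Agent.N192.GP

open Pool.Agent.Y102 Pool.Agent.W516.DR

section

variable {T : Type} [Fintype T] [DecidableEq T] {n : T → ℕ}
  (η : ∀ t, Basis (Fin (n t)) ℂ ((Fin (n t) → ℚ) →ₗ[ℚ] ℂ))

/-- The elements which act trivially on the twist. -/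
def tw0 : Submodule ℚ (RR n) := LinearMap.ker (LinearMap.snd ℚ _ _)

theorem mem_tw0 {ℓ : RR n} : ℓ ∈ tw0 ↔ ℓ.2 = 0 := Iff.rfl

/-- The elements which act trivially on a member. -/
def at0 (t : T) : Submodule ℚ (RR n) where
  carrier := {ℓ | ℓ.1 t = 0}
  zero_mem' := rfl
  add_mem' := by
    intro x y hx hy
    change x.1 t + y.1 t = 0
    have h1 : x.1 t = 0 := hx
    have h2 : y.1 t = 0 := hy
    rw [h1, h2, add_zero]
  smul_mem' := by
    intro c x hx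
    change c • x.1 t = 0
    have h1 : x.1 t = 0 := hx
    rw [h1, smul_zero]

theorem mem_at0 {t : T} {ℓ : RR n} : ℓ ∈ at0 t ↔ ℓ.1 t = 0 := Iff.rfl

theorem br_snd (x y : RR n) : (x * y - y * x).2 = 0 := by
  rw [Prod.snd_sub, Prod.snd_mul, Prod.snd_mul, mul_comm, sub_self]

theorem br_fst (x y : RR n) (t : T) : (x * y - y * x).1 t = x.1 t * y.1 t - y.1 t * x.1 t := rfl

theorem idl_tw0 : Idl (LG η ⊓ tw0) (LG η) :=
  ⟨inf_le_left, fun x hx y hy => ⟨LG_br η x hx y hy.1, br_snd x y⟩⟩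

theorem idl_at0 (t : T) : Idl (LG η ⊓ at0 t) (LG η) := by
  refine ⟨inf_le_left, fun x hx y hy => ⟨LG_br η x hx y hy.1, ?_⟩⟩
  have h1 : y.1 t = 0 := hy.2
  change (x * y - y * x).1 t = 0
  rw [br_fst, h1, mul_zero, zero_mul, sub_zero]

variable {η} {s : T} {𝔤 : Submodule ℚ (Module.End ℚ (Fin (n s) → ℚ))}

theorem sep_tw0 (hg : (LG η).map (pr s) = 𝔤) (hperf : 𝔤 ≤ brk 𝔤 𝔤) :
    𝔤 ≤ (LG η ⊓ tw0).map (pr s) :=
  step (pr_hm s (LG η)) hperf le_rfl le_rfl hg.ge hg.ge fun x hx y hy =>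
    ⟨LG_br η x hx y hy, br_snd x y⟩

/-- The member `t` is of CM type. -/
theorem sep_comm (hg : (LG η).map (pr s) = 𝔤) (hperf : 𝔤 ≤ brk 𝔤 𝔤) {t : T}
    (hc : ∀ x ∈ LG η, ∀ y ∈ LG η, x.1 t * y.1 t = y.1 t * x.1 t) :
    𝔤 ≤ (LG η ⊓ at0 t).map (pr s) :=
  step (pr_hm s (LG η)) hperf le_rfl le_rfl hg.ge hg.ge fun x hx y hy =>
    ⟨LG_br η x hx y hy, by
      change (x * y - y * x).1 t = 0
      rw [br_fst, hc x hx y hy, sub_self]⟩

/-- The general form of the dimension argument. -/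
theorem sep_of_inj (hg : (LG η).map (pr s) = 𝔤) (hperf : 𝔤 ≤ brk 𝔤 𝔤) {δ : ℕ}
    (hid : ∀ I : Submodule ℚ (Module.End ℚ (Fin (n s) → ℚ)), Idl I 𝔤 → I ≠ 𝔤 →
      finrank ℚ I + δ ≤ finrank ℚ 𝔤) {t : T} {Q : Type} [AddCommGroup Q] [Module ℚ Q]
    [FiniteDimensional ℚ Q] (q : RR n →ₗ[ℚ] Q) (hq : ∀ ℓ ∈ LG η ⊓ tw0, q ℓ = 0 → ℓ.1 t = 0)
    (hd : finrank ℚ Q < δ) : 𝔤 ≤ (LG η ⊓ at0 t).map (pr s) := by
  have h1 := sep_tw0 hg hperf
  have h2 : (LG η ⊓ tw0).map (pr s) = 𝔤 :=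
    le_antisymm (hg ▸ Submodule.map_mono inf_le_left) h1
  have h3 : Idl ((LG η ⊓ tw0) ⊓ at0 t) (LG η ⊓ tw0) := by
    refine ⟨inf_le_left, fun x hx y hy => ⟨(idl_tw0 η).2 x hx.1 y hy.1,
      ((idl_at0 η t).2 x hx.1 y ⟨hy.1.1, hy.2⟩).2⟩⟩
  have h4 := finrank_inf_ge (LG η ⊓ tw0) (⊤ : Submodule ℚ (RR n)) (q ∘ₗ Submodule.subtype _)
    (𝔢 := at0 t) le_top fun x hx h => hq x hx h
  have h5 := full_of_finrank (pr_hm s _) h2 h3 hid (by omega)
  exact h5.trans (Submodule.map_mono (inf_le_inf_right _ inf_le_left))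

variable {t : T} {B : (Fin (n t) → ℚ) →ₗ[ℚ] (Fin (n t) → ℚ) →ₗ[ℚ] ℚ}

/-- The values of the form `(u, v) ↦ B (ℓ u) v` on the pairs of basis vectors. -/
def qB (B : (Fin (n t) → ℚ) →ₗ[ℚ] (Fin (n t) → ℚ) →ₗ[ℚ] ℚ) {J : Type}
    (f g : J → Fin (n t)) : RR n →ₗ[ℚ] (J → ℚ) where
  toFun ℓ := fun p => B (ℓ.1 t (Pi.single (f p) 1)) (Pi.single (g p) 1)
  map_add' x y := by
    funext p
    change B ((x.1 t + y.1 t) _) _ = _
    rw [LinearMap.add_apply, map_add, LinearMap.add_apply]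
    rfl
  map_smul' c x := by
    funext p
    change B ((c • x.1 t) _) _ = _
    rw [LinearMap.smul_apply, map_smul, LinearMap.smul_apply]
    rfl

theorem eq_zero_of_B (hB : ∀ u, (∀ v, B u v = 0) → u = 0)
    {X : Module.End ℚ (Fin (n t) → ℚ)} (h : ∀ i j : Fin (n t),
      B (X (Pi.single i 1)) (Pi.single j 1) = 0) : X = 0 := by
  refine (Pi.basisFun ℚ (Fin (n t))).ext fun i => ?_
  rw [Pi.basisFun_apply, LinearMap.zero_apply]
  apply hB
  intro v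
  have h1 : B (X (Pi.single i 1)) = 0 := by
    refine (Pi.basisFun ℚ (Fin (n t))).ext fun j => ?_
    rw [Pi.basisFun_apply, LinearMap.zero_apply]
    exact h i j
  rw [h1, LinearMap.zero_apply]

theorem card_up' (d : ℕ) : Fintype.card (Σ j : Fin d, Fin j) = d * (d - 1) / 2 := by
  rw [Fintype.card_sigma]
  simp only [Fintype.card_fin]
  rw [Fin.sum_univ_eq_sum_range fun i => i, Finset.sum_range_id]

theorem card_up1 (d : ℕ) : Fintype.card (Σ j : Fin d, Fin (j + 1)) = (d + 1) * d / 2 := by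
  rw [Fintype.card_sigma]
  simp only [Fintype.card_fin]
  rw [Fin.sum_univ_eq_sum_range fun i => i + 1, Finset.sum_add_distrib, Finset.sum_range_id,
    Finset.sum_const, Finset.card_range, smul_eq_mul, mul_one]
  have h1 : (d + 1) * d = d * (d - 1) + d * 2 := by
    rcases d with _ | d
    · rfl
    · rw [Nat.add_sub_cancel]
      ring
  rw [h1, Nat.add_mul_div_right _ _ (by norm_num)]

/-- A member with a symmetric polarization. -/
theorem sep_symm (hg : (LG η).map (pr s) = 𝔤) (hperf : 𝔤 ≤ brk 𝔤 𝔤) {δ : ℕ}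
    (hid : ∀ I : Submodule ℚ (Module.End ℚ (Fin (n s) → ℚ)), Idl I 𝔤 → I ≠ 𝔤 →
      finrank ℚ I + δ ≤ finrank ℚ 𝔤) (hB : ∀ u, (∀ v, B u v = 0) → u = 0)
    (hs : ∀ u v, B u v = B v u)
    (hinv : ∀ ℓ ∈ LG η ⊓ tw0, ∀ u v, B (ℓ.1 t u) v + B u (ℓ.1 t v) = 0)
    (hd : n t * (n t - 1) / 2 < δ) : 𝔤 ≤ (LG η ⊓ at0 t).map (pr s) := by
  refine sep_of_inj hg hperf hid (qB B (fun p : Σ j : Fin (n t), Fin j =>
    ⟨p.2, p.2.2.trans p.1.2⟩) fun p => p.1) (fun ℓ hℓ h => ?_) (by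
      rw [Module.finrank_fintype_fun_eq_card, card_up']
      exact hd)
  have h1 : ∀ i j : Fin (n t), i < j → B (ℓ.1 t (Pi.single i 1)) (Pi.single j 1) = 0 :=
    fun i j hij => congrFun h ⟨j, ⟨i, hij⟩⟩
  have h2 : ∀ i j : Fin (n t), B (ℓ.1 t (Pi.single i 1)) (Pi.single j 1) =
      -B (ℓ.1 t (Pi.single j 1)) (Pi.single i 1) := by
    intro i j
    have h3 := hinv ℓ hℓ (Pi.single i 1) (Pi.single j 1)
    rw [hs (Pi.single i 1)] at h3
    exact eq_neg_of_add_eq_zero_left h3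
  refine eq_zero_of_B hB fun i j => ?_
  rcases lt_trichotomy i j with h3 | h3 | h3
  · exact h1 i j h3
  · subst h3
    have h4 := h2 i i
    linarith
  · rw [h2, h1 j i h3, neg_zero]

/-- A member with an alternating polarization. -/
theorem sep_alt (hg : (LG η).map (pr s) = 𝔤) (hperf : 𝔤 ≤ brk 𝔤 𝔤) {δ : ℕ}
    (hid : ∀ I : Submodule ℚ (Module.End ℚ (Fin (n s) → ℚ)), Idl I 𝔤 → I ≠ 𝔤 →
      finrank ℚ I + δ ≤ finrank ℚ 𝔤) (hB : ∀ u, (∀ v, B u v = 0) → u = 0)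
    (hs : ∀ u v, B u v = -B v u)
    (hinv : ∀ ℓ ∈ LG η ⊓ tw0, ∀ u v, B (ℓ.1 t u) v + B u (ℓ.1 t v) = 0)
    (hd : (n t + 1) * n t / 2 < δ) : 𝔤 ≤ (LG η ⊓ at0 t).map (pr s) := by
  refine sep_of_inj hg hperf hid (qB B (fun p : Σ j : Fin (n t), Fin (j + 1) =>
    ⟨p.2, (Nat.lt_succ_iff.1 p.2.2).trans_lt p.1.2⟩) fun p => p.1) (fun ℓ hℓ h => ?_) (by
      rw [Module.finrank_fintype_fun_eq_card, card_up1]
      exact hd)
  have h1 : ∀ i j : Fin (n t), i ≤ j → B (ℓ.1 t (Pi.single i 1)) (Pi.single j 1) = 0 :=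
    fun i j hij => congrFun h ⟨j, ⟨i, Nat.lt_succ_iff.2 hij⟩⟩
  have h2 : ∀ i j : Fin (n t), B (ℓ.1 t (Pi.single i 1)) (Pi.single j 1) =
      B (ℓ.1 t (Pi.single j 1)) (Pi.single i 1) := by
    intro i j
    have h3 := hinv ℓ hℓ (Pi.single i 1) (Pi.single j 1)
    rw [hs (Pi.single i 1)] at h3
    linarith
  refine eq_zero_of_B hB fun i j => ?_
  rcases le_total i j with h3 | h3
  · exact h1 i j h3
  · rw [h2, h1 j i h3]

end

section Filt

variable {T : Type} [Fintype T] [DecidableEq T] {n : T → ℕ}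
  {η : ∀ t, Basis (Fin (n t)) ℂ ((Fin (n t) → ℚ) →ₗ[ℚ] ℂ)}
  {s t : T} {𝔤 : Submodule ℚ (Module.End ℚ (Fin (n s) → ℚ))}
  {F : ℕ → Submodule ℚ (Fin (n t) → ℚ)}

/-- The elements which lower the filtration at one place. -/
def low (U U' : Submodule ℚ (Fin (n t) → ℚ)) : Submodule ℚ (RR n) where
  carrier := {ℓ | ∀ u ∈ U, ℓ.1 t u ∈ U'}
  zero_mem' := fun _ _ => U'.zero_mem
  add_mem' := fun hx hy u hu => U'.add_mem (hx u hu) (hy u hu)
  smul_mem' := fun c _ hx u hu => U'.smul_mem c (hx u hu)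

variable (U U' : Submodule ℚ (Fin (n t) → ℚ))

/-- The action on a graded piece. -/
def qg : (stab t U ⊓ stab t U' : Submodule ℚ (RR n)) →ₗ[ℚ]
    (↥U' ⧸ U.submoduleOf U') →ₗ[ℚ] (↥U' ⧸ U.submoduleOf U') where
  toFun ℓ := Submodule.mapQ _ _ ((ℓ.1.1 t).restrict ℓ.2.2) fun u hu => ℓ.2.1 _ hu
  map_add' x y := by
    refine LinearMap.ext fun u => ?_
    induction u using Submodule.Quotient.induction_on with
    | H u => rfl
  map_smul' c x := by
    refine LinearMap.ext fun u => ?_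
    induction u using Submodule.Quotient.induction_on with
    | H u => rfl

theorem qg_zero {ℓ : RR n} (hℓ : ℓ ∈ (stab t U ⊓ stab t U' : Submodule ℚ (RR n)))
    (h : qg U U' ⟨ℓ, hℓ⟩ = 0) : ℓ ∈ low U' U := by
  intro u hu
  have h1 := congrArg (fun f : (↥U' ⧸ U.submoduleOf U') →ₗ[ℚ] (↥U' ⧸ U.submoduleOf U') =>
    f (Submodule.Quotient.mk ⟨u, hu⟩)) h
  have h2 : qg U U' ⟨ℓ, hℓ⟩ (Submodule.Quotient.mk ⟨u, hu⟩) =
      Submodule.Quotient.mk ⟨ℓ.1 t u, hℓ.2 u hu⟩ := rfl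
  simp only [LinearMap.zero_apply] at h1
  rw [h2, Submodule.Quotient.mk_eq_zero] at h1
  exact h1

theorem finrank_gr (h : U ≤ U') : finrank ℚ ((↥U' ⧸ U.submoduleOf U') →ₗ[ℚ]
    (↥U' ⧸ U.submoduleOf U')) = (finrank ℚ U' - finrank ℚ U) * (finrank ℚ U' - finrank ℚ U) := by
  rw [Module.finrank_linearMap, Submodule.finrank_quotient]
  have h1 : finrank ℚ (U.submoduleOf U') = finrank ℚ U :=
    LinearEquiv.finrank_eq (Submodule.submoduleOfEquivOfLe h)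
  rw [h1]

/-- A member with a filtration with small graded pieces. -/
theorem sep_filt (hg : (LG η).map (pr s) = 𝔤) (hperf : 𝔤 ≤ brk 𝔤 𝔤) {δ : ℕ}
    (hid : ∀ I : Submodule ℚ (Module.End ℚ (Fin (n s) → ℚ)), Idl I 𝔤 → I ≠ 𝔤 →
      finrank ℚ I + δ ≤ finrank ℚ 𝔤) {m : ℕ} (h0 : F 0 = ⊥) (hm : F m = ⊤)
    (hmono : ∀ a, F a ≤ F (a + 1)) (hst : ∀ a ≤ m, LG η ≤ stab t (F a))
    (hd : ∀ a < m, (finrank ℚ (F (a + 1)) - finrank ℚ (F a)) *
      (finrank ℚ (F (a + 1)) - finrank ℚ (F a)) < δ) : 𝔤 ≤ (LG η ⊓ at0 t).map (pr s) := by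
  have h1 : ∀ a, a < m → Idl (LG η ⊓ low (F (a + 1)) (F a)) (LG η) := by
    intro a ha
    refine ⟨inf_le_left, fun x hx y hy => ⟨LG_br η x hx y hy.1, fun u hu => ?_⟩⟩
    rw [br_fst]
    exact (F a).sub_mem (hst a ha.le hx _ (hy.2 u hu)) (hy.2 _ (hst (a + 1) ha hx u hu))
  have h2 : ∀ a, a < m → 𝔤 ≤ (LG η ⊓ low (F (a + 1)) (F a)).map (pr s) := by
    intro a ha
    refine full_of_finrank (pr_hm s _) hg (h1 a ha) hid ?_
    have h3 := finrank_inf_ge (LG η) (stab t (F a) ⊓ stab t (F (a + 1))) (qg (F a) (F (a + 1)))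
      (𝔢 := low (F (a + 1)) (F a)) (le_inf (hst a ha.le) (hst (a + 1) ha))
      fun x hx h => qg_zero _ _ _ h
    rw [finrank_gr _ _ (hmono a)] at h3
    have h4 := hd a ha
    omega
  -- the intersection
  let 𝔫 : Fin m → Submodule ℚ (RR n) := fun a => LG η ⊓ low (F (a + 1)) (F a)
  have h3 := ribet (pr_hm s (LG η)) hperf hg.ge (𝔫 := 𝔫) (fun a => h1 a a.2) Finset.univ
    fun a _ => h2 a a.2
  -- the chain
  let 𝔟 : ℕ → Submodule ℚ (RR n) := fun b => LG η ⊓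
    { carrier := {ℓ | ∀ a ≤ m, ∀ u ∈ F a, ℓ.1 t u ∈ F (a - (b + 1))}
      zero_mem' := fun a _ _ _ => (F (a - (b + 1))).zero_mem
      add_mem' := fun hx hy a ha u hu => (F (a - (b + 1))).add_mem (hx a ha u hu) (hy a ha u hu)
      smul_mem' := fun c _ hx a ha u hu => (F (a - (b + 1))).smul_mem c (hx a ha u hu) }
  have h4 : 𝔤 ≤ (𝔟 m).map (pr s) := by
    refine nilp (pr_hm s (LG η)) hperf (𝔫 := 𝔟) (fun b => inf_le_left) ?_ ?_ m
    · refine h3.trans (Submodule.map_mono fun x hx => ⟨hx.1, fun a ha u hu => ?_⟩)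
      rcases a with _ | a
      · rw [h0, Submodule.mem_bot] at hu
        rw [hu, map_zero]
        exact Submodule.zero_mem _
      · have h5 := (Submodule.mem_iInf _).1 ((Submodule.mem_iInf _).1 hx.2 ⟨a, ha⟩)
          (Finset.mem_univ _)
        exact h5.2 u hu
    · intro b x hx y hy
      refine ⟨LG_br η x hx.1 y hy.1, fun a ha u hu => ?_⟩
      rw [br_fst]
      refine (F _).sub_mem ?_ ?_
      · have h5 := hy.2 a ha u hu
        have h6 := hx.2 (a - (b + 1)) (by omega) _ h5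
        have h7 : a - (b + 1) - (0 + 1) = a - (b + 1 + 1) := by omega
        rw [h7] at h6
        exact h6
      · have h5 := hx.2 a ha u hu
        have h6 := hy.2 (a - (0 + 1)) (by omega) _ h5
        have h7 : a - (0 + 1) - (b + 1) = a - (b + 1 + 1) := by omega
        rw [h7] at h6
        exact h6
  refine h4.trans (Submodule.map_mono fun x hx => ⟨hx.1, LinearMap.ext fun u => ?_⟩)
  have h5 := hx.2 m le_rfl u (by rw [hm]; trivial)
  have h6 : m - (m + 1) = 0 := by omega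
  rw [h6, h0, Submodule.mem_bot] at h5
  exact h5

end Filt

end Pool.Agent.N192.GP
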