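import Pool.Agent.N192.GP.Small
import Pool.Agent.N192.GP.Pair

set_option autoImplicit false
set_option linter.unusedSectionVars false

/-!
# The splitting theorem
-/

open Module Function TensorProduct

noncomputable section

namespace Pool.Agent.N192.GP

open Pool.Agent.Y102 Pool.Agent.W516.DR

variable {T : Type} [Fintype T] [DecidableEq T] {n : T → ℕ}
  {η : ∀ t, Basis (Fin (n t)) ℂ ((Fin (n t) → ℚ) →ₗ[ℚ] ℂ)}
  {s t : T} {𝔤 : Submodule ℚ (Module.End ℚ (Fin (n s) → ℚ))}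

theorem Spin.perf {W : Type} [AddCommGroup W] [Module ℚ W] [FiniteDimensional ℚ W]
    {𝔤 : Submodule ℚ (Module.End ℚ W)} {r : ℕ} (h : Spin 𝔤 r) (h3 : 3 ≤ r) : 𝔤 ≤ brk 𝔤 𝔤 := by
  obtain ⟨N, k, E, c, hE, hc, hg⟩ := h
  exact perfQ hE h3 hc hg

theorem Spin.codim {W : Type} [AddCommGroup W] [Module ℚ W] [FiniteDimensional ℚ W]
    {𝔤 : Submodule ℚ (Module.End ℚ W)} {r : ℕ} (h : Spin 𝔤 r) (h6 : 6 ≤ r)
    (I : Submodule ℚ (Module.End ℚ W)) (hI : Idl I 𝔤) (hne : I ≠ 𝔤) :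
    finrank ℚ I + r * (r - 1) / 2 ≤ finrank ℚ 𝔤 := by
  obtain ⟨N, k, E, c, hE, hc, hg⟩ := h
  exact codimQ hE h6 hc hg I hI hne

/-- The Lie algebra splits off if it splits off from each other member. -/
theorem split (hg : (LG η).map (pr s) = 𝔤) (hperf : 𝔤 ≤ brk 𝔤 𝔤)
    (h : ∀ t, t ≠ s → 𝔤 ≤ (LG η ⊓ at0 t).map (pr s)) {X : Module.End ℚ (Fin (n s) → ℚ)}
    (hX : X ∈ 𝔤) : ((Pi.single s X, 0) : RR n) ∈ LG η := by
  classical
  let 𝔫 : T → Submodule ℚ (RR n) := fun t => if t = s then LG η ⊓ tw0 else LG η ⊓ at0 t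
  have h1 : ∀ t, Idl (𝔫 t) (LG η) := by
    intro t
    by_cases ht : t = s
    · simp only [𝔫, if_pos ht]
      exact idl_tw0 η
    · simp only [𝔫, if_neg ht]
      exact idl_at0 η t
  obtain ⟨ℓ, hℓ, hℓX⟩ := ribet (pr_hm s (LG η)) hperf hg.ge h1 Finset.univ (fun t _ => by
    by_cases ht : t = s
    · simp only [𝔫, if_pos ht]
      exact sep_tw0 hg hperf
    · simp only [𝔫, if_neg ht]
      exact h t ht) hX
  have h2 : ∀ t, ℓ ∈ 𝔫 t := fun t =>
    (Submodule.mem_iInf _).1 ((Submodule.mem_iInf _).1 hℓ.2 t) (Finset.mem_univ t)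
  have h3 : ℓ.2 = 0 := by
    have h4 := h2 s
    simp only [𝔫, if_true] at h4
    exact h4.2
  have h4 : ∀ t, t ≠ s → ℓ.1 t = 0 := by
    intro t ht
    have h5 := h2 t
    simp only [𝔫, if_neg ht] at h5
    exact h5.2
  have h5 : ((Pi.single s X, 0) : RR n) = ℓ := by
    refine Prod.ext (funext fun t => ?_) h3.symm
    by_cases ht : t = s
    · subst ht
      rw [pr_apply, h3, zero_div, zero_smul, sub_zero] at hℓX
      change (Pi.single t X : ∀ t, Module.End ℚ (Fin (n t) → ℚ)) t = ℓ.1 t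
      rw [Pi.single_eq_same, hℓX]
    · change (Pi.single s X : ∀ t, Module.End ℚ (Fin (n t) → ℚ)) t = ℓ.1 t
      rw [Pi.single_eq_of_ne ht, h4 t ht]
  rw [h5]
  exact hℓ.1

/-- The space of pairs. -/
def prq (s t : T) : RR n →ₗ[ℚ] Module.End ℚ (Fin (n s) → ℚ) × Module.End ℚ (Fin (n t) → ℚ) :=
  (pr s).prod (pr t)

theorem prq_br : Br ((LG η ⊓ tw0).map (prq s t)) := by
  rintro _ ⟨x, hx, rfl⟩ _ ⟨y, hy, rfl⟩
  refine ⟨x * y - y * x, (idl_tw0 η).2 x hx.1 y hy, ?_⟩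
  exact Prod.ext (pr_hm s (LG η) x hx.1 y hy.1) (pr_hm t (LG η) x hx.1 y hy.1)

theorem prq_fst (h : (LG η).map (pr s) ≤ brk ((LG η).map (pr s)) ((LG η).map (pr s))) :
    ((LG η ⊓ tw0).map (prq s t)).map (LinearMap.fst ℚ _ _) = (LG η).map (pr s) := by
  rw [← Submodule.map_comp]
  exact le_antisymm (Submodule.map_mono inf_le_left) (sep_tw0 rfl h)

theorem prq_snd (h : (LG η).map (pr t) ≤ brk ((LG η).map (pr t)) ((LG η).map (pr t))) :
    ((LG η ⊓ tw0).map (prq s t)).map (LinearMap.snd ℚ _ _) = (LG η).map (pr t) := by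
  rw [← Submodule.map_comp]
  exact le_antisymm (Submodule.map_mono inf_le_left) (sep_tw0 rfl h)

/-- Two members of spin type and of different ranks. -/
theorem sep_pair {r r' : ℕ} (h1 : Spin ((LG η).map (pr s)) r) (h2 : Spin ((LG η).map (pr t)) r')
    (h3 : 3 ≤ r) (h3' : 3 ≤ r') (hne : r ≠ r') (h7 : 6 ≤ max r r') :
    (LG η).map (pr s) ≤ (LG η ⊓ at0 t).map (pr s) := by
  have e1 := prq_fst (t := t) (h1.perf h3)
  have e2 := prq_snd (s := s) (h2.perf h3')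
  have key : ∀ X ∈ (LG η).map (pr s), (X, (0 : Module.End ℚ (Fin (n t) → ℚ))) ∈
      (LG η ⊓ tw0).map (prq s t) := by
    intro X hX
    rcases lt_or_gt_of_ne hne with h | h
    · -- the other member is larger
      have f1 := prq_fst (s := t) (t := s) (h2.perf h3')
      have f2 := prq_snd (s := t) (t := s) (h1.perf h3)
      have h8 := pair_snd (prq_br (s := t) (t := s) (η := η)) h
        (by rw [max_eq_right h.le] at h7; exact h7) (by rw [f1]; exact h2) (by rw [f2]; exact h1)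
        (Y := X) (by rw [f2]; exact hX)
      obtain ⟨ℓ, hℓ, h9⟩ := h8
      refine ⟨ℓ, hℓ, ?_⟩
      have h10 : pr t ℓ = 0 := congrArg Prod.fst h9
      have h11 : pr s ℓ = X := congrArg Prod.snd h9
      exact Prod.ext h11 h10
    · exact pair_fst (prq_br (s := s) (t := t) (η := η)) h
        (by rw [max_eq_left h.le] at h7; exact h7) (by rw [e1]; exact h1) (by rw [e2]; exact h2)
        (by rw [e1]; exact hX)
  intro X hX
  obtain ⟨ℓ, hℓ, h9⟩ := key X hX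
  have h10 : pr t ℓ = 0 := congrArg Prod.snd h9
  have h11 : pr s ℓ = X := congrArg Prod.fst h9
  refine ⟨ℓ, ⟨hℓ.1, ?_⟩, h11⟩
  have h12 : ℓ.2 = 0 := hℓ.2
  rw [pr_apply, h12, zero_div, zero_smul, sub_zero] at h10
  exact h10

end Pool.Agent.N192.GP
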