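import Pool.Agent.N192.GP.SepE
import Pool.Agent.R917.MT

set_option autoImplicit false
set_option linter.unusedSectionVars false

/-!
# Algebraic groups which contain the periods of a family
-/

open Module Function TensorProduct Matrix

noncomputable section

namespace Pool.Agent.N192.GT

open Pool.Agent.Y102 Pool.Agent.W516.DR Pool.Agent.H204R3.GP Pool.Agent.W516.KC
  Pool.Agent.H204R3.SP Pool.Agent.TH119.MX
open Pool.Agent.N192.GP hiding XX QQ
open Pool.Agent.R917 (QQ QA QQ_le_QA mem_QA lamF lamF_apply derQ hm hm_apply)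

section Gen

variable {W R : Type} [AddCommGroup W] [Module ℚ W] [FiniteDimensional ℚ W] [Fintype R]
  [DecidableEq R] (b : Basis R ℚ W)

/-- The matrix over the complex numbers. -/
def tC (X : Module.End ℚ W) : Matrix R R ℂ := (LinearMap.toMatrix b b X).map (algebraMap ℚ ℂ)

theorem tC_apply (X : Module.End ℚ W) (i j : R) : tC b X i j = ((b.repr (X (b j)) i : ℚ) : ℂ) := by
  unfold tC
  rw [Matrix.map_apply, LinearMap.toMatrix_apply]
  rfl

theorem tC_zero : tC b 0 = 0 := by
  ext i j
  rw [tC_apply, LinearMap.zero_apply, map_zero]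
  simp

theorem tC_add (X Y : Module.End ℚ W) : tC b (X + Y) = tC b X + tC b Y := by
  ext i j
  rw [Matrix.add_apply, tC_apply, tC_apply, tC_apply, LinearMap.add_apply, map_add,
    Finsupp.add_apply, Rat.cast_add]

theorem tC_sub (X Y : Module.End ℚ W) : tC b (X - Y) = tC b X - tC b Y := by
  ext i j
  rw [Matrix.sub_apply, tC_apply, tC_apply, tC_apply, LinearMap.sub_apply, map_sub,
    Finsupp.sub_apply, Rat.cast_sub]

theorem tC_smul (c : ℚ) (X : Module.End ℚ W) : tC b (c • X) = (c : ℂ) • tC b X := by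
  ext i j
  rw [Matrix.smul_apply, tC_apply, tC_apply, LinearMap.smul_apply, map_smul,
    Finsupp.smul_apply, smul_eq_mul, smul_eq_mul, Rat.cast_mul]

theorem tC_mul (X Y : Module.End ℚ W) : tC b (X * Y) = tC b X * tC b Y := by
  unfold tC
  rw [LinearMap.toMatrix_mul, Matrix.map_mul]

/-- The rational Lie algebra of a group of matrices which acts on the dual space. -/
def lieW (H : Set (Matrix R R ℂ)) : Submodule ℚ (Module.End ℚ W) where
  carrier := {X | ∀ d, Stab H d (tC b X)ᵀ}
  zero_mem' := fun d => by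
    rw [tC_zero, Matrix.transpose_zero]
    exact Stab.zero
  add_mem' := fun {X Y} hX hY d => by
    rw [tC_add, Matrix.transpose_add]
    exact (hX d).add (hY d)
  smul_mem' := fun c X hX d => by
    rw [tC_smul, Matrix.transpose_smul]
    exact (hX d).smul _

theorem lieW_br {H : Set (Matrix R R ℂ)} {X Y : Module.End ℚ W}
    (hX : X ∈ lieW b H) (hY : Y ∈ lieW b H) : X * Y - Y * X ∈ lieW b H := by
  intro d
  have h1 := (hY d).comm (hX d)
  rw [tC_sub, tC_mul, tC_mul, Matrix.transpose_sub, Matrix.transpose_mul,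
    Matrix.transpose_mul]
  exact h1

variable (F : Basis R ℂ (W →ₗ[ℚ] ℂ))

/-- The square matrix of the periods. -/
def PW : Matrix R R ℂ := Matrix.of fun j k => F k (b j)

theorem PW_apply (j k : R) : PW b F j k = F k (b j) := rfl

theorem det_PW : (PW b F).det ≠ 0 := by
  intro h0
  obtain ⟨v, hv, h1⟩ := Matrix.exists_mulVec_eq_zero_iff.2 h0
  apply hv
  have h2 : ∑ i, v i • F i = 0 := by
    refine b.ext fun j => ?_
    have h3 := congrFun h1 j
    rw [Matrix.mulVec, dotProduct, Pi.zero_apply] at h3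
    rw [LinearMap.sum_apply, LinearMap.zero_apply, ← h3]
    refine Finset.sum_congr rfl fun i _ => ?_
    rw [LinearMap.smul_apply, PW_apply, smul_eq_mul, mul_comm]
  funext j
  exact Fintype.linearIndependent_iff.1 F.linearIndependent _ h2 j

theorem exists_invW : ∃ P' : Matrix R R ℂ, PW b F * P' = 1 ∧ P' * PW b F = 1 := by
  have h1 : IsUnit (PW b F).det := isUnit_iff_ne_zero.2 (det_PW b F)
  exact ⟨(PW b F)⁻¹, Matrix.mul_nonsing_inv _ h1, Matrix.nonsing_inv_mul _ h1⟩

theorem XX_b (D : Derivation QBar ℂ ℂ) {P' : Matrix R R ℂ} (h2 : P' * PW b F = 1) (j : R) :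
    XX F D ((1 : ℂ) ⊗ₜ[ℚ] b j) = ∑ i, ((PW b F).map D * P') j i ⊗ₜ[ℚ] b i := by
  refine ext_etaL F fun k => ?_
  rw [etaL_XX_one, map_sum]
  have h3 : ∀ i, etaL F k (((PW b F).map D * P') j i ⊗ₜ[ℚ] b i) =
      ((PW b F).map D * P') j i * PW b F i k := by
    intro i
    rw [etaL_tmul, PW_apply]
  rw [Finset.sum_congr rfl fun i _ => h3 i]
  have h4 : ∑ i, ((PW b F).map D * P') j i * PW b F i k =
      ((PW b F).map D * P' * PW b F) j k := (Matrix.mul_apply).symm
  rw [h4, Matrix.mul_assoc, h2, Matrix.mul_one, Matrix.map_apply, PW_apply]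

theorem tC_NN (D : Derivation QBar ℂ ℂ) {P' : Matrix R R ℂ} (h2 : P' * PW b F = 1)
    (lam : ℂ →ₗ[ℚ] ℚ) :
    (tC b (NN F D lam))ᵀ = ((PW b F).map D * P').map (lamF lam) := by
  ext j i
  rw [Matrix.transpose_apply, Matrix.map_apply, lamF_apply, tC_apply, NN_apply, XX_b b F D h2,
    map_sum, map_sum, Finsupp.finsetSum_apply]
  congr 1
  rw [Finset.sum_eq_single i]
  · rw [cmp_tmul, map_smul, Finsupp.smul_apply, Basis.repr_self, Finsupp.single_eq_same,
      smul_eq_mul, mul_one]
  · intro k _ hk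
    rw [cmp_tmul, map_smul, Finsupp.smul_apply, Basis.repr_self, Finsupp.single_eq_of_ne hk.symm,
      smul_zero]
  · intro h
    exact absurd (Finset.mem_univ _) h

/-- The group contains a point of the torsor of periods. -/
structure PtW (H : Set (Matrix R R ℂ)) : Prop where
  grp : AlgGrp QQ H
  pt : ∃ T T' : Matrix R R ℂ, T * T' = 1 ∧ (∀ i j, T' i j ∈ QA) ∧ PW b F * T ∈ H

variable {b F} {H : Set (Matrix R R ℂ)}

theorem PtW.nn_mem (h : PtW b F H) (D : Derivation QBar ℂ ℂ) (lam : ℂ →ₗ[ℚ] ℚ) :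
    NN F D lam ∈ lieW b H := by
  obtain ⟨P', h1, h2⟩ := exists_invW b F
  obtain ⟨T, T', h3, h4, h5⟩ := h.pt
  intro d
  rw [tC_NN b F D h2 lam]
  refine h.grp.stab_map (lamF lam) ?_
  exact h.grp.stab_der QQ_le_QA (fun x hx => mem_QA.1 hx) h1 h2 h3 h4 h5 (derQ D)

theorem stab_sumW {ι : Type} (s : Finset ι) {d : ℕ} (Y : ι → Matrix R R ℂ)
    (h : ∀ k ∈ s, Stab H d (Y k)) : Stab H d (∑ k ∈ s, Y k) := by
  classical
  induction s using Finset.induction_on with
  | empty =>
    rw [Finset.sum_empty]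
    exact Stab.zero
  | insert a s ha ih =>
    rw [Finset.sum_insert ha]
    exact (h a (Finset.mem_insert_self _ _)).add
      (ih fun k hk => h k (Finset.mem_insert_of_mem hk))

end Gen

section Fam

variable {T : Type} [Fintype T] [DecidableEq T] {n : T → ℕ}
  (η : ∀ t, Basis (Fin (n t)) ℂ ((Fin (n t) → ℚ) →ₗ[ℚ] ℂ))

/-- The basis of the Betti side. -/
def bB (n : T → ℕ) : Basis (Σ t, Fin (n t)) ℚ (Bt n) := Pi.basis fun t => Pi.basisFun ℚ (Fin (n t))

variable {R : Type} [Fintype R] [DecidableEq R] (e e' : (Σ t, Fin (n t)) ≃ R)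
  {H : Set (Matrix R R ℂ)}

/-- The Lie algebra generated by the periods is in the Lie algebra of the group. -/
theorem PtW.LG_mem (h : PtW ((bB n).reindex e) ((eB η).reindex e') H) {ℓ : RR n} (hℓ : ℓ ∈ LG η) :
    act ℓ.1 ∈ lieW ((bB n).reindex e) H := by
  let 𝔩 : Submodule ℚ (RR n) := (lieW ((bB n).reindex e) H).comap
    (act.toLinearMap.comp (LinearMap.fst ℚ (∀ t, Module.End ℚ (Fin (n t) → ℚ)) ℚ))
  have h1 : LG η ≤ 𝔩 := by
    refine LG_le η (fun x hx y hy => ?_) fun D lam => ?_
    · have h2 := lieW_br ((bB n).reindex e) (show act x.1 ∈ lieW _ H from hx)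
        (show act y.1 ∈ lieW _ H from hy)
      have h3 : act (x * y - y * x).1 = act x.1 * act y.1 - act y.1 * act x.1 := by
        rw [Prod.fst_sub, Prod.fst_mul, Prod.fst_mul, map_sub, map_mul, map_mul]
      change act (x * y - y * x).1 ∈ lieW ((bB n).reindex e) H
      rw [h3]
      exact h2
    · have h2 := h.nn_mem D lam
      rw [NN_reindex] at h2
      have h3 : act (gn η D lam).1 = NN (eB η) D lam := by
        refine LinearMap.ext fun v => funext fun t => ?_
        rw [NN_eB]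
        rfl
      change act (gn η D lam).1 ∈ lieW ((bB n).reindex e) H
      rw [h3]
      exact h2
  exact h1 hℓ

end Fam

end Pool.Agent.N192.GT
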