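import Pool.Agent.N192.GP.Tor

set_option autoImplicit false
set_option linter.unusedSectionVars false

/-!
# The Hodge group of a product of abelian varieties of spin type and the periods
-/

open Module Function TensorProduct Matrix

noncomputable section

namespace Pool.Agent.N192.GT

open Pool.Agent.Y102 Pool.Agent.W516.DR Pool.Agent.H204R3.GP Pool.Agent.W516.KC
  Pool.Agent.H204R3.SP Pool.Agent.TH119.MX
open Pool.Agent.N192.GP hiding XX QQ
open Pool.Agent.R917 (QQ QA QQ_le_QA mem_QA lamF lamF_apply derQ hm hm_apply)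

variable {I J : Type} [Fintype I] [DecidableEq I] [Fintype J] [DecidableEq J]
  {g : I → ℕ} {d : J → ℕ}

/-- The rows. -/
abbrev Row (g : I → ℕ) (d : J → ℕ) : Type := (Σ i, Fin (2 * g i)) ⊕ (Σ j, Fin (d j))

/-- The columns. -/
abbrev Col (g : I → ℕ) (d : J → ℕ) : Type := (Σ i, Fin (g i) ⊕ Fin (g i)) ⊕ (Σ j, Fin (d j))

/-- The equivalence. -/
def eR (g : I → ℕ) (d : J → ℕ) : (Σ t, Fin (nn g d t)) ≃ Row g d :=
  Equiv.sumSigmaDistrib fun t => Fin (nn g d t)

/-- The basis of the Betti side. -/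
def bR (g : I → ℕ) (d : J → ℕ) : Basis (Row g d) ℚ (Bt (nn g d)) := (bB (nn g d)).reindex (eR g d)

theorem rep_bR (x : Bt (nn g d)) (a : Row g d) :
    (bR g d).repr x a = (bB (nn g d)).repr x ((eR g d).symm a) := by
  unfold bR
  rw [Basis.repr_reindex_apply]

theorem bR_apply (a : Row g d) : bR g d a = bB (nn g d) ((eR g d).symm a) := by
  unfold bR
  rw [Basis.reindex_apply]

section Gen

variable {T : Type} [Fintype T] [DecidableEq T] {n : T → ℕ}

theorem bB_same (X : ∀ t, Module.End ℚ (Fin (n t) → ℚ)) (t : T) (p q : Fin (n t)) :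
    (bB n).repr (act X (bB n ⟨t, p⟩)) ⟨t, q⟩ = X t (Pi.single p 1) q := by
  unfold bB
  rw [Pi.basis_apply, Pi.basis_repr, act_apply, Pi.single_eq_same, Pi.basisFun_apply,
    Pi.basisFun_repr]

theorem bB_ne (X : ∀ t, Module.End ℚ (Fin (n t) → ℚ)) {t t' : T} (h : t ≠ t') (p : Fin (n t))
    (q : Fin (n t')) : (bB n).repr (act X (bB n ⟨t, p⟩)) ⟨t', q⟩ = 0 := by
  unfold bB
  rw [Pi.basis_apply, Pi.basis_repr, act_apply, Pi.single_eq_of_ne h.symm, map_zero, map_zero]
  rfl

end Gen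

theorem rep_same {X : ∀ t, Module.End ℚ (Fin (nn g d t) → ℚ)} {i : I} (p q : Fin (2 * g i))
    {Y : Module.End ℚ (Fin (2 * g i) → ℚ)} (hY : X (Sum.inl i) = Y) :
    (bR g d).repr (act X (bR g d (Sum.inl ⟨i, p⟩))) (Sum.inl ⟨i, q⟩) = Y (Pi.single p 1) q := by
  rw [rep_bR, bR_apply, ← hY]
  exact bB_same (n := nn g d) X (Sum.inl i) p q

theorem rep_ne (X : ∀ t, Module.End ℚ (Fin (nn g d t) → ℚ)) {i i' : I} (hii : i ≠ i')
    {p : Fin (2 * g i)} {q : Fin (2 * g i')} :
    (bR g d).repr (act X (bR g d (Sum.inl ⟨i, p⟩))) (Sum.inl ⟨i', q⟩) = 0 := by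
  rw [rep_bR, bR_apply]
  exact bB_ne (n := nn g d) X (t := Sum.inl i) (t' := Sum.inl i')
    (fun h => hii (Sum.inl_injective h)) p q

theorem rep_lr (X : ∀ t, Module.End ℚ (Fin (nn g d t) → ℚ)) {i : I} {j : J}
    {p : Fin (2 * g i)} {q : Fin (d j)} :
    (bR g d).repr (act X (bR g d (Sum.inl ⟨i, p⟩))) (Sum.inr ⟨j, q⟩) = 0 := by
  rw [rep_bR, bR_apply]
  exact bB_ne (n := nn g d) X (t := Sum.inl i) (t' := Sum.inr j) Sum.inl_ne_inr p q

theorem rep_rl (X : ∀ t, Module.End ℚ (Fin (nn g d t) → ℚ)) {i : I} {j : J}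
    {p : Fin (d j)} {q : Fin (2 * g i)} :
    (bR g d).repr (act X (bR g d (Sum.inr ⟨j, p⟩))) (Sum.inl ⟨i, q⟩) = 0 := by
  rw [rep_bR, bR_apply]
  exact bB_ne (n := nn g d) X (t := Sum.inr j) (t' := Sum.inl i) Sum.inr_ne_inl p q

theorem rep_rr {X : ∀ t, Module.End ℚ (Fin (nn g d t) → ℚ)} (hX : ∀ j, X (Sum.inr j) = 0)
    {j j' : J} {p : Fin (d j)} {q : Fin (d j')} :
    (bR g d).repr (act X (bR g d (Sum.inr ⟨j, p⟩))) (Sum.inr ⟨j', q⟩) = 0 := by
  rw [rep_bR, bR_apply]
  by_cases h : j = j'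
  · subst h
    refine (bB_same (n := nn g d) X (Sum.inr j) p q).trans ?_
    rw [hX j]
    rfl
  · exact bB_ne (n := nn g d) X (t := Sum.inr j) (t' := Sum.inr j')
      (fun h' => h (Sum.inr_injective h')) p q

variable {A : ∀ i, AbVar (g i)} {V : ∀ j, DRS (d j)} {r : I → ℕ}

/-- The action of two complex numbers. -/
def rho (A : ∀ i, AbVar (g i)) (d : J → ℕ) (z w : ℂ) : Matrix (Row g d) (Row g d) ℂ :=
  fromBlocks (blockDiagonal' fun i => hm (A i) z) 0 0 (w • 1)

theorem rho_mul (z w z' w' : ℂ) : rho A d (z * z') (w * w') = rho A d z w * rho A d z' w' := by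
  unfold rho
  rw [fromBlocks_multiply]
  simp only [Matrix.mul_zero, Matrix.zero_mul, add_zero, zero_add]
  rw [← blockDiagonal'_mul]
  congr 1
  · congr 1
    funext i
    exact R917.hm_mul (A i) z z'
  · rw [smul_mul_smul_comm, mul_one]

theorem rho_add (z w z' w' : ℂ) : rho A d (z + z') (w + w') = rho A d z w + rho A d z' w' := by
  unfold rho
  rw [fromBlocks_add, ← blockDiagonal'_add, add_zero, add_zero, add_smul]
  congr 2
  funext i
  exact R917.hm_add (A i) z z'

theorem rho_one : rho A d 1 1 = 1 := by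
  unfold rho
  have h1 : (fun i => hm (A i) 1) = fun i => (1 : Matrix (Fin (2 * g i)) (Fin (2 * g i)) ℂ) := by
    funext i
    exact R917.hm_one (A i)
  rw [h1, one_smul]
  change fromBlocks (blockDiagonal' 1) 0 0 1 = 1
  rw [blockDiagonal'_one, fromBlocks_one]

theorem rho_zero : rho A d 0 0 = 0 := by
  unfold rho
  have h1 : (fun i => hm (A i) 0) = fun i => (0 : Matrix (Fin (2 * g i)) (Fin (2 * g i)) ℂ) := by
    funext i
    exact R917.hm_zero (A i)
  rw [h1, zero_smul]
  change fromBlocks (blockDiagonal' 0) 0 0 0 = 0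
  rw [blockDiagonal'_zero, fromBlocks_zero]

theorem rho_real (s : ℝ) (z w : ℂ) : rho A d (s * z) (s * w) = (s : ℂ) • rho A d z w := by
  unfold rho
  rw [fromBlocks_smul, ← blockDiagonal'_smul, smul_zero, smul_zero, mul_smul]
  congr 2
  funext i
  exact R917.hm_real (A i) s z

/-- The ring homomorphism. -/
def rhoR (A : ∀ i, AbVar (g i)) (d : J → ℕ) : ℂ × ℂ →+* Matrix (Row g d) (Row g d) ℂ where
  toFun p := rho A d p.1 p.2
  map_one' := rho_one
  map_mul' p q := rho_mul p.1 p.2 q.1 q.2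
  map_zero' := rho_zero
  map_add' p q := rho_add p.1 p.2 q.1 q.2

theorem continuous_rho (A : ∀ i, AbVar (g i)) (d : J → ℕ) :
    Continuous fun p : ℂ × ℂ => rho A d p.1 p.2 := by
  unfold rho
  refine Continuous.matrix_fromBlocks ?_ continuous_const continuous_const ?_
  · refine Continuous.matrix_blockDiagonal' (continuous_pi fun i => ?_)
    exact (R917.continuous_hm (A i)).comp continuous_fst
  · exact continuous_snd.smul continuous_const

section norms

attribute [local instance] Matrix.linftyOpNormedRing Matrix.linftyOpNormedAlgebra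

theorem rho_exp (z w : ℂ) : rho A d (Complex.exp z) (Complex.exp w) =
    NormedSpace.exp (rho A d z w) := by
  have h1 := NormedSpace.map_exp (rhoR A d) (continuous_rho A d) (z, w)
  have h2 : NormedSpace.exp ((z, w) : ℂ × ℂ) = (Complex.exp z, Complex.exp w) := by
    rw [Complex.exp_eq_exp_ℂ]
    exact Prod.ext (Prod.fst_exp _) (Prod.snd_exp _)
  rw [h2] at h1
  exact h1

end norms

variable {H : Set (Matrix (Row g d) (Row g d) ℂ)}

/-- The de Rham side. -/
def fR (A : ∀ i, AbVar (g i)) (V : ∀ j, DRS (d j)) :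
    Basis (Row g d) ℂ (Bt (nn g d) →ₗ[ℚ] ℂ) := (eB (ηη A V)).reindex (eR g d)

/-- The complex structure is in the Lie algebra of the group. -/
theorem stab_J (h : Good A V r) (hH : PtW (bR g d) (fR A V) H) (δ : ℕ) :
    Stab H δ (rho A d Complex.I 0) := by
  classical
  obtain ⟨s, hs⟩ := R917.exists_coords (fun p : Σ i, Fin (2 * g i) × Fin (2 * g i) =>
    (A p.1).lam.repr (Complex.I • (A p.1).lam p.2.1) p.2.2)
  let f : Basis.ofVectorSpaceIndex ℚ ℝ → (ℝ →ₗ[ℚ] ℚ) := fun k => (Basis.ofVectorSpace ℚ ℝ).coord k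
  choose X hX1 hX2 hX3 using fun k => h.J_mem (f k)
  have h1 : rho A d Complex.I 0 = ∑ k ∈ s, ((Basis.ofVectorSpace ℚ ℝ k : ℝ) : ℂ) •
      (tC (bR g d) (act (X k)))ᵀ := by
    ext a c
    rw [Matrix.sum_apply]
    have h0 : ∀ k, (((Basis.ofVectorSpace ℚ ℝ k : ℝ) : ℂ) • (tC (bR g d) (act (X k)))ᵀ) a c =
        ((Basis.ofVectorSpace ℚ ℝ k : ℝ) : ℂ) *
          (((bR g d).repr (act (X k) (bR g d a)) c : ℚ) : ℂ) := by
      intro k
      rw [Matrix.smul_apply, Matrix.transpose_apply, tC_apply, smul_eq_mul]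
    rw [Finset.sum_congr rfl fun k _ => h0 k]
    rcases a with ⟨i, p⟩ | ⟨j, p⟩ <;> rcases c with ⟨i', q⟩ | ⟨j', q⟩
    · unfold rho
      rw [fromBlocks_apply₁₁]
      by_cases hii : i = i'
      · subst hii
        rw [blockDiagonal'_apply_eq, hm_apply]
        have h3 := hs ⟨i, p, q⟩
        rw [h3]
        push_cast
        refine Finset.sum_congr rfl fun k _ => ?_
        rw [mul_comm, rep_same p q (hX2 k i), AbVar.cmpE_apply]
        congr 1
        have h5 : (A i).per (Pi.single p 1) = (A i).lam p := by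
          have h6 := (A i).per_bas p
          unfold AbVar.bas at h6
          rwa [Pi.basisFun_apply] at h6
        rw [h5]
        rfl
      · rw [blockDiagonal'_apply_ne _ _ _ hii]
        refine (Finset.sum_eq_zero fun k _ => ?_).symm
        rw [rep_ne (X k) hii, Rat.cast_zero, mul_zero]
    · unfold rho
      rw [fromBlocks_apply₁₂, Matrix.zero_apply]
      refine (Finset.sum_eq_zero fun k _ => ?_).symm
      rw [rep_lr, Rat.cast_zero, mul_zero]
    · unfold rho
      rw [fromBlocks_apply₂₁, Matrix.zero_apply]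
      refine (Finset.sum_eq_zero fun k _ => ?_).symm
      rw [rep_rl, Rat.cast_zero, mul_zero]
    · unfold rho
      rw [fromBlocks_apply₂₂, zero_smul, Matrix.zero_apply]
      refine (Finset.sum_eq_zero fun k _ => ?_).symm
      rw [rep_rr (hX3 k), Rat.cast_zero, mul_zero]
  rw [h1]
  exact stab_sumW s _ fun k _ => (PtW.LG_mem (ηη A V) (eR g d) (eR g d) hH (hX1 k) δ).smul _

/-- The group contains the circle. -/
theorem rho_mem (h : Good A V r) (hH : PtW (bR g d) (fR A V) H) {z : ℂ} (hz : ‖z‖ = 1) :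
    rho A d z 1 ∈ H := by
  have h1 : Complex.exp (Complex.arg z * Complex.I) = z := by
    have h2 := Complex.norm_mul_exp_arg_mul_I z
    rwa [hz, Complex.ofReal_one, one_mul] at h2
  rw [← h1, ← Complex.exp_zero, rho_exp]
  refine R917.exp_mem hH.grp fun δ => ?_
  have h3 : rho A d (Complex.arg z * Complex.I) 0 = (Complex.arg z : ℂ) • rho A d Complex.I 0 := by
    rw [← rho_real, mul_zero]
  rw [h3]
  exact (stab_J h hH δ).smul _

end Pool.Agent.N192.GT
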