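import Pool.Agent.N192.GP.TorJ

set_option autoImplicit false
set_option linter.unusedSectionVars false

/-!
# The weights, and the statement for subgroups of the general linear group
-/

open Module Function TensorProduct Matrix

noncomputable section

namespace Pool.Agent.N192.GT

open Pool.Agent.Y102 Pool.Agent.W516.DR Pool.Agent.H204R3.GP Pool.Agent.W516.KC
  Pool.Agent.H204R3.SP Pool.Agent.TH119.MX
open Pool.Agent.N192.GP hiding XX QQ
open Pool.Agent.R917 (QQ QA QQ_le_QA mem_QA lamF lamF_apply derQ hm hm_apply)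

section Blocks

variable {m n : Type} [Fintype m] [DecidableEq m] [Fintype n] [DecidableEq n]

/-- Block diagonal matrices. -/
def fbR : Matrix m m ℂ × Matrix n n ℂ →+* Matrix (m ⊕ n) (m ⊕ n) ℂ where
  toFun p := fromBlocks p.1 0 0 p.2
  map_one' := fromBlocks_one
  map_mul' p q := by
    rw [fromBlocks_multiply]
    simp only [Matrix.mul_zero, Matrix.zero_mul, add_zero, zero_add]
    rfl
  map_zero' := fromBlocks_zero
  map_add' p q := by
    rw [fromBlocks_add, add_zero, add_zero]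
    rfl

section norms

attribute [local instance] Matrix.linftyOpNormedRing Matrix.linftyOpNormedAlgebra

set_option backward.isDefEq.respectTransparency false in
theorem exp_fb (P : Matrix m m ℂ) (Q : Matrix n n ℂ) :
    NormedSpace.exp (fromBlocks P 0 0 Q) =
      fromBlocks (NormedSpace.exp P) 0 0 (NormedSpace.exp Q) := by
  have hc : Continuous fun p : Matrix m m ℂ × Matrix n n ℂ => fromBlocks p.1 0 0 p.2 :=
    Continuous.matrix_fromBlocks continuous_fst continuous_const continuous_const continuous_snd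
  have h1 := NormedSpace.map_exp (fbR (m := m) (n := n)) hc (P, Q)
  have h2 : NormedSpace.exp ((P, Q) : Matrix m m ℂ × Matrix n n ℂ) =
      (NormedSpace.exp P, NormedSpace.exp Q) := Prod.ext (Prod.fst_exp _) (Prod.snd_exp _)
  rw [h2] at h1
  exact h1.symm

end norms

end Blocks

variable {I J : Type} [Fintype I] [DecidableEq I] [Fintype J] [DecidableEq J]
  {g : I → ℕ} {d : J → ℕ} {A : ∀ i, AbVar (g i)} {V : ∀ j, DRS (d j)} {r : I → ℕ}
  {H : Set (Matrix (Row g d) (Row g d) ℂ)}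

theorem exp_bd (A : ∀ i, AbVar (g i)) (d : J → ℕ) (w : ℂ) :
    NormedSpace.exp (blockDiagonal' fun i => hm (A i) w) =
      blockDiagonal' fun i => hm (A i) (Complex.exp w) := by
  have h1 := rho_exp (A := A) (d := d) w 0
  unfold rho at h1
  rw [exp_fb] at h1
  exact (fromBlocks_inj.1 h1).1.symm

/-- The element which defines the weights. -/
theorem exists_weight (h : Good A V r) : ∃ ℓ ∈ LG (ηη A V), ∀ i,
    ℓ.1 (Sum.inl i) = (1 : Module.End ℚ (Fin (2 * g i) → ℚ)) := by
  obtain ⟨D, lam, hne⟩ := R917.exists_der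
  have h0 : tt D lam / 2 ≠ 0 := by
    have h1 : lam (D tau / (2 * tau)) = tt D lam / 2 := by
      unfold tt
      have h2 : D tau / (2 * tau) = (2⁻¹ : ℚ) • (D tau / tau) := by
        rw [Rat.smul_def]
        push_cast
        rw [mul_comm (2 : ℂ) tau, ← div_div, div_eq_mul_inv _ (2 : ℂ), mul_comm]
      rw [h2, map_smul, smul_eq_mul]
      ring
    rwa [h1] at hne
  obtain ⟨X, hX, h1, h2⟩ := h.pr_mem (gn_mem_LG _ D lam)
  refine ⟨(tt D lam / 2)⁻¹ • (gn (ηη A V) D lam - (X, 0)),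
    (LG (ηη A V)).smul_mem _ ((LG (ηη A V)).sub_mem (gn_mem_LG _ D lam) hX), fun i => ?_⟩
  have h3 : (tt D lam / 2)⁻¹ • ((gn (ηη A V) D lam).1 (Sum.inl i) - X (Sum.inl i)) =
      (1 : Module.End ℚ (Fin (nn g d (Sum.inl i)) → ℚ)) := by
    rw [h1 i, pr_apply, sub_sub_cancel, smul_smul]
    change ((tt D lam / 2)⁻¹ * (tt D lam / 2)) • (1 : Module.End ℚ (Fin (2 * g i) → ℚ)) = 1
    rw [inv_mul_cancel₀ h0, one_smul]
  exact h3

theorem stab_weight (h : Good A V r) (hH : PtW (bR g d) (fR A V) H) :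
    ∃ M : Matrix (Σ j, Fin (d j)) (Σ j, Fin (d j)) ℂ, ∀ δ,
      Stab H δ (fromBlocks (1 : Matrix (Σ i, Fin (2 * g i)) (Σ i, Fin (2 * g i)) ℂ) 0 0 M) := by
  obtain ⟨ℓ, hℓ, h1⟩ := exists_weight h
  refine ⟨((tC (bR g d) (act ℓ.1))ᵀ).toBlocks₂₂, fun δ => ?_⟩
  have h2 : (tC (bR g d) (act ℓ.1))ᵀ = fromBlocks
      (1 : Matrix (Σ i, Fin (2 * g i)) (Σ i, Fin (2 * g i)) ℂ) 0 0
      ((tC (bR g d) (act ℓ.1))ᵀ).toBlocks₂₂ := by
    ext a c
    rcases a with ⟨i, p⟩ | ⟨j, p⟩ <;> rcases c with ⟨i', q⟩ | ⟨j', q⟩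
    · rw [fromBlocks_apply₁₁, Matrix.transpose_apply, tC_apply]
      by_cases hii : i = i'
      · subst hii
        rw [rep_same p q (h1 i), Module.End.one_apply, Matrix.one_apply, Pi.single_apply]
        by_cases hpq : p = q
        · subst hpq
          rw [if_pos rfl, if_pos rfl, Rat.cast_one]
        · rw [if_neg (Ne.symm hpq), if_neg, Rat.cast_zero]
          intro h'
          exact hpq (eq_of_heq (Sigma.mk.inj h').2)
      · rw [rep_ne ℓ.1 hii, Matrix.one_apply_ne, Rat.cast_zero]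
        intro h'
        exact hii (Sigma.mk.inj h').1
    · rw [fromBlocks_apply₁₂, Matrix.transpose_apply, tC_apply, rep_lr, Rat.cast_zero,
        Matrix.zero_apply]
    · rw [fromBlocks_apply₂₁, Matrix.transpose_apply, tC_apply, rep_rl, Rat.cast_zero,
        Matrix.zero_apply]
    · rfl
  have h3 := PtW.LG_mem (ηη A V) (eR g d) (eR g d) hH hℓ δ
  have h4 : ∀ Z : Matrix (Row g d) (Row g d) ℂ, (tC (bR g d) (act ℓ.1))ᵀ = Z → Stab H δ Z := by
    rintro _ rfl
    exact h3
  exact h4 _ h2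

/-- The image of the Deligne torus. -/
theorem torus_mem (h : Good A V r) (hH : PtW (bR g d) (fR A V) H) {z : ℂ} (hz : z ≠ 0) :
    ∃ v : Matrix (Σ j, Fin (d j)) (Σ j, Fin (d j)) ℂ,
      fromBlocks (blockDiagonal' fun i => hm (A i) z) 0 0 v ∈ H := by
  obtain ⟨M, hM⟩ := stab_weight h hH
  have h1 : blockDiagonal' (fun i => hm (A i) (Complex.log z)) =
      ((Complex.log z).re : ℂ) • (1 : Matrix (Σ i, Fin (2 * g i)) (Σ i, Fin (2 * g i)) ℂ) +
        ((Complex.log z).im : ℂ) • blockDiagonal' fun i => hm (A i) Complex.I := by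
    rw [← blockDiagonal'_one, ← blockDiagonal'_smul, ← blockDiagonal'_smul,
      ← blockDiagonal'_add]
    congr 1
    funext i
    exact R917.hm_eq (A i) (Complex.log z)
  refine ⟨NormedSpace.exp (((Complex.log z).re : ℂ) • M), ?_⟩
  rw [← Complex.exp_log hz, ← exp_bd A d, ← exp_fb, Complex.exp_log hz, h1]
  refine R917.exp_mem hH.grp fun δ => ?_
  have h2 : fromBlocks (((Complex.log z).re : ℂ) •
      (1 : Matrix (Σ i, Fin (2 * g i)) (Σ i, Fin (2 * g i)) ℂ) +
        ((Complex.log z).im : ℂ) • blockDiagonal' fun i => hm (A i) Complex.I) 0 0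
        (((Complex.log z).re : ℂ) • M) =
      ((Complex.log z).re : ℂ) • fromBlocks 1 0 0 M +
        ((Complex.log z).im : ℂ) • rho A d Complex.I 0 := by
    unfold rho
    rw [fromBlocks_smul, fromBlocks_smul, fromBlocks_add]
    simp only [zero_smul, smul_zero, add_zero]
  rw [h2]
  exact ((hM δ).smul _).add ((stab_J h hH δ).smul _)

/-! ### From subgroups of the general linear group -/

/-- The inverse of a matrix of algebraic numbers. -/
theorem alg_invR {R : Type} [Fintype R] [DecidableEq R] {T : Matrix R R ℂ}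
    (hT : ∀ i j, IsAlgebraic ℚ (T i j)) (hdet : T.det ≠ 0) :
    ∃ T' : Matrix R R ℂ, T * T' = 1 ∧ ∀ i j, T' i j ∈ QA := by
  let K : IntermediateField ℚ ℂ := algebraicClosure ℚ ℂ
  let S : Matrix R R K := Matrix.of fun i j => ⟨T i j, mem_algebraicClosure_iff.2 (hT i j)⟩
  have hS : S.map (algebraMap K ℂ) = T := by
    ext i j
    rfl
  have hdS : S.det ≠ 0 := by
    intro h0
    apply hdet
    rw [← hS, ← RingHom.mapMatrix_apply, ← RingHom.map_det, h0, map_zero]
  refine ⟨(S⁻¹).map (algebraMap K ℂ), ?_, fun i j => ?_⟩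
  · rw [← hS, ← Matrix.map_mul, Matrix.mul_nonsing_inv _ (isUnit_iff_ne_zero.2 hdS),
      Matrix.map_one _ (map_zero _) (map_one _)]
  · rw [Matrix.map_apply]
    exact (S⁻¹ i j).2

/-- The matrix of the periods. -/
def per (A : ∀ i, AbVar (g i)) (V : ∀ j, DRS (d j)) : Matrix (Row g d) (Col g d) ℂ :=
  fromBlocks (blockDiagonal' fun i => Matrix.of fun p q => (A i).dR q (Pi.single p 1)) 0 0
    (blockDiagonal' fun j => Matrix.of fun p q => (V j).eta q (Pi.single p 1))

/-- The equivalence of the columns and the rows. -/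
def eC (g : I → ℕ) (d : J → ℕ) : Col g d ≃ Row g d :=
  Equiv.sumCongr (Equiv.sigmaCongrRight fun i => N192.GP.eqv (g i)) (Equiv.refl _)

theorem fR_apply (a : Row g d) : fR A V a = eB (ηη A V) ((eR g d).symm a) := by
  unfold fR
  rw [Basis.reindex_apply]

section Gen

variable {T : Type} [Fintype T] [DecidableEq T] {n : T → ℕ}
  (η : ∀ t, Basis (Fin (n t)) ℂ ((Fin (n t) → ℚ) →ₗ[ℚ] ℂ))

theorem eB_bB_same (t : T) (p q : Fin (n t)) : eB η ⟨t, q⟩ (bB n ⟨t, p⟩) =
    η t q (Pi.single p 1) := by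
  unfold bB
  rw [Pi.basis_apply, eB_apply, Pi.single_eq_same, Pi.basisFun_apply]

theorem eB_bB_ne {t t' : T} (h : t ≠ t') (p : Fin (n t)) (q : Fin (n t')) :
    eB η ⟨t', q⟩ (bB n ⟨t, p⟩) = 0 := by
  unfold bB
  rw [Pi.basis_apply, eB_apply, Pi.single_eq_of_ne h.symm, map_zero]

end Gen

theorem per_eq (A : ∀ i, AbVar (g i)) (V : ∀ j, DRS (d j)) :
    per A V = (PW (bR g d) (fR A V)).submatrix id (eC g d) := by
  ext a c
  rw [Matrix.submatrix_apply, id, PW_apply, bR_apply, fR_apply]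
  unfold per
  rcases a with ⟨i, p⟩ | ⟨j, p⟩ <;> rcases c with ⟨i', q⟩ | ⟨j', q⟩
  · rw [fromBlocks_apply₁₁]
    by_cases hii : i = i'
    · subst hii
      rw [blockDiagonal'_apply_eq]
      refine Eq.symm ((eB_bB_same (ηη A V) (Sum.inl i) p (N192.GP.eqv (g i) q)).trans ?_)
      have h1 : ηη A V (Sum.inl i) (N192.GP.eqv (g i) q) = (A i).dR q := by
        change ηA A i (N192.GP.eqv (g i) q) = _
        unfold ηA
        rw [Basis.reindex_apply, Equiv.symm_apply_apply, (A i).coe_basis]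
      exact LinearMap.congr_fun h1 _
    · rw [blockDiagonal'_apply_ne _ _ _ hii]
      exact (eB_bB_ne (ηη A V) (t := Sum.inl i) (t' := Sum.inl i')
        (fun h' => hii (Sum.inl_injective h')) p (N192.GP.eqv (g i') q)).symm
  · rw [fromBlocks_apply₁₂, Matrix.zero_apply]
    exact (eB_bB_ne (ηη A V) (t := Sum.inl i) (t' := Sum.inr j') Sum.inl_ne_inr p q).symm
  · rw [fromBlocks_apply₂₁, Matrix.zero_apply]
    exact (eB_bB_ne (ηη A V) (t := Sum.inr j) (t' := Sum.inl i') Sum.inr_ne_inl p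
      (N192.GP.eqv (g i') q)).symm
  · rw [fromBlocks_apply₂₂]
    by_cases hjj : j = j'
    · subst hjj
      rw [blockDiagonal'_apply_eq]
      refine Eq.symm ((eB_bB_same (ηη A V) (Sum.inr j) p q).trans ?_)
      have h1 : ηη A V (Sum.inr j) q = (V j).eta q := by
        change (V j).basis q = _
        rw [(V j).coe_basis]
      exact LinearMap.congr_fun h1 _
    · rw [blockDiagonal'_apply_ne _ _ _ hjj]
      exact (eB_bB_ne (ηη A V) (t := Sum.inr j) (t' := Sum.inr j')
        (fun h' => hjj (Sum.inr_injective h')) p q).symm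

theorem pt_of {G : Subgroup (GL (Row g d) ℂ)}
    (hG : ∃ S : Set (MvPolynomial (Row g d × Row g d) ℚ), ∀ x : GL (Row g d) ℂ,
      x ∈ G ↔ ∀ p ∈ S, MvPolynomial.aeval
        (fun b : Row g d × Row g d => (x : Matrix _ _ ℂ) b.1 b.2) p = 0)
    {T : Matrix (Col g d) (Row g d) ℂ} (hT : ∀ i j, IsAlgebraic ℚ (T i j))
    {x : GL (Row g d) ℂ} (hx : x ∈ G) (hxT : (x : Matrix _ _ ℂ) = per A V * T) :
    PtW (bR g d) (fR A V)
      {M : Matrix (Row g d) (Row g d) ℂ | ∃ x ∈ G, (x : Matrix _ _ ℂ) = M} := by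
  refine ⟨R917.algGrp_of hG, ?_⟩
  have h1 : PW (bR g d) (fR A V) * T.submatrix (eC g d).symm id = per A V * T := by
    rw [per_eq]
    have h2 : (PW (bR g d) (fR A V)).submatrix id (eC g d) * T =
        ((PW (bR g d) (fR A V)).submatrix id (eC g d)).submatrix id (eC g d).symm *
          T.submatrix (eC g d).symm id := by
      rw [Matrix.submatrix_mul_equiv, Matrix.submatrix_id_id]
    rw [h2, Matrix.submatrix_submatrix, Equiv.self_comp_symm]
    rfl
  have h2 : (T.submatrix (eC g d).symm id).det ≠ 0 := by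
    intro h0
    have h3 : (x : Matrix (Row g d) (Row g d) ℂ).det = 0 := by
      rw [hxT, ← h1, Matrix.det_mul, h0, mul_zero]
    exact (Matrix.GeneralLinearGroup.det x).ne_zero h3
  obtain ⟨T', h3, h4⟩ := alg_invR (T := T.submatrix (eC g d).symm id) (fun i j => hT _ _) h2
  exact ⟨_, T', h3, h4, ⟨x, hx, by rw [hxT, h1]⟩⟩

end Pool.Agent.N192.GT
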