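import Pool.Agent.Y102.AV16

set_option autoImplicit false
set_option linter.unusedSectionVars false

/-!
# Twisted de Rham-Betti forms of arbitrary de Rham-Betti structures
-/

open Module Function TensorProduct

noncomputable section

namespace Pool.Agent.N192.GP

open Pool.Agent.Y102 Pool.Agent.W516.DR Pool.Agent.H204R3.GP Pool.Agent.W516.KC
  Pool.Agent.H204R3.SP

variable {W ι κ : Type} [AddCommGroup W] [Module ℚ W] [Fintype ι] [Fintype κ]
  [DecidableEq κ]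

/-- The form `φ` is a de Rham-Betti class in the twist `w`. -/
def IsTw (F : ι → (W →ₗ[ℚ] ℂ)) (w : ℤ) (φ : MultilinearMap ℚ (fun _ : κ => W) ℚ) : Prop :=
  ∃ a, Compat F tau w a φ

variable [FiniteDimensional ℚ W] [DecidableEq ι] (η : Basis ι ℂ (W →ₗ[ℚ] ℂ))

/-- The rational components of the logarithmic derivatives of the periods. -/
def NN (D : Derivation QBar ℂ ℂ) (lam : ℂ →ₗ[ℚ] ℚ) : Module.End ℚ W := cmpE lam (XX η D)

theorem NN_apply (D : Derivation QBar ℂ ℂ) (lam : ℂ →ₗ[ℚ] ℚ) (u : W) :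
    NN η D lam u = cmp lam (XX η D ((1 : ℂ) ⊗ₜ[ℚ] u)) := rfl

/-- The logarithmic derivative of `2 π i`. -/
def tt (D : Derivation QBar ℂ ℂ) (lam : ℂ →ₗ[ℚ] ℚ) : ℚ := lam (D tau / tau)

variable {w : ℤ} {φ : MultilinearMap ℚ (fun _ : κ => W) ℚ}

theorem der_ee (D : Derivation QBar ℂ ℂ) (J : κ → ι) :
    D (tau ^ w * bcm (Ω := ℂ) (Module.finBasis ℚ W) φ (fun l => ee η (J l))) =
      tau ^ w * ((w : ℂ) * (D tau / tau) *
        bcm (Ω := ℂ) (Module.finBasis ℚ W) φ (fun l => ee η (J l)) -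
      ∑ j, bcm (Ω := ℂ) (Module.finBasis ℚ W) φ (update (fun l => ee η (J l)) j
        (XX η D (ee η (J j))))) := by
  have htau : (tau : ℂ) ≠ 0 := AbVar.tau_ne
  set Φ := bcm (Ω := ℂ) (Module.finBasis ℚ W) φ with hΦ
  have h3 : ∀ j, Φ (update (fun l => ee η (J l)) j (XX η D (ee η (J j)))) =
      -Φ (update (fun l => ee η (J l)) j (dW D (ee η (J j)))) := by
    intro j
    rw [XX_ee, MultilinearMap.map_update_neg]
  rw [Finset.sum_congr rfl (fun j _ => h3 j), Finset.sum_neg_distrib, Derivation.leibniz,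
    Derivation.leibniz_zpow, der_bcm, smul_eq_mul, smul_eq_mul, smul_eq_mul, zsmul_eq_mul,
    zpow_sub_one₀ htau]
  field_simp
  ring

theorem XX_acts (h : IsTw η w φ) (D : Derivation QBar ℂ ℂ) :
    ActsBy (XX η D) (bcm (Ω := ℂ) (Module.finBasis ℚ W) φ) ((w : ℂ) * (D tau / tau)) := by
  obtain ⟨a, h⟩ := h
  have htau : (tau : ℂ) ≠ 0 := AbVar.tau_ne
  refine actsBy_of_basis (ee η) fun J => ?_
  have h1 : tau ^ w * bcm (Ω := ℂ) (Module.finBasis ℚ W) φ (fun l => ee η (J l)) =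
      algebraMap QBar ℂ (a J) :=
    coef_unique η (Module.finBasis ℚ W) φ (tau ^ w) (fun J => algebraMap QBar ℂ (a J))
      (fun v => h v) J
  have h2 := der_ee η (w := w) (φ := φ) D J
  rw [h1, Derivation.map_algebraMap] at h2
  have h5 : (tau : ℂ) ^ w ≠ 0 := zpow_ne_zero _ htau
  have h6 := (mul_eq_zero.1 h2.symm).resolve_left h5
  exact (sub_eq_zero.1 h6).symm

theorem comp_key (D : Derivation QBar ℂ ℂ) (lam : ℂ →ₗ[ℚ] ℚ) (v : κ → W) :
    lam (∑ j, bcm (Ω := ℂ) (Module.finBasis ℚ W) φ (update (fun l => (1 : ℂ) ⊗ₜ[ℚ] v l) j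
      (XX η D ((1 : ℂ) ⊗ₜ[ℚ] v j)))) = ∑ j, φ (update v j (NN η D lam (v j))) := by
  rw [map_sum]
  exact Finset.sum_congr rfl fun j _ => by rw [cmp_bcm, NN_apply]

theorem lam_scal (c : ℤ) (z : ℂ) (q : ℚ) (lam : ℂ →ₗ[ℚ] ℚ) :
    lam ((c : ℂ) * z * algebraMap ℚ ℂ q) = (c : ℚ) * lam z * q := by
  have h1 : (c : ℂ) * z * algebraMap ℚ ℂ q = ((c : ℚ) * q) • z := by
    rw [Algebra.smul_def, map_mul]
    have : algebraMap ℚ ℂ (c : ℚ) = (c : ℂ) := by simp
    rw [this]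
    ring
  rw [h1, map_smul, smul_eq_mul]
  ring

/-- De Rham-Betti forms are multiplied by the scalar of the twist. -/
theorem NN_acts (h : IsTw η w φ) (D : Derivation QBar ℂ ℂ) (lam : ℂ →ₗ[ℚ] ℚ) :
    ActsBy (NN η D lam) φ ((w : ℚ) * tt D lam) := by
  intro v
  have h1 := congrArg lam (XX_acts η h D (fun l => (1 : ℂ) ⊗ₜ[ℚ] v l))
  rw [comp_key, bcm_one, lam_scal] at h1
  exact h1

/-- The converse. -/
theorem tw_of_acts (h : ∀ (D : Derivation QBar ℂ ℂ) (lam : ℂ →ₗ[ℚ] ℚ),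
    ActsBy (NN η D lam) φ ((w : ℚ) * tt D lam)) : IsTw η w φ := by
  have htau : (tau : ℂ) ≠ 0 := AbVar.tau_ne
  have h0 : ∀ D : Derivation QBar ℂ ℂ,
      ActsBy (XX η D) (bcm (Ω := ℂ) (Module.finBasis ℚ W) φ) ((w : ℂ) * (D tau / tau)) := by
    intro D
    refine actsBy_of_basis ((Module.finBasis ℚ W).baseChange ℂ) fun I => ?_
    rw [← sub_eq_zero]
    apply eq_zero_of_dual (k := ℚ)
    intro lam
    have h1 : (fun l => (Module.finBasis ℚ W).baseChange ℂ (I l)) =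
        fun l => (1 : ℂ) ⊗ₜ[ℚ] (Module.finBasis ℚ W) (I l) := by
      funext l
      rw [Basis.baseChange_apply]
    have h2 := comp_key η (φ := φ) D lam (fun l => (Module.finBasis ℚ W) (I l))
    simp only [Basis.baseChange_apply] at h2 ⊢
    rw [map_sub, h2, h D lam, bcm_one, lam_scal, tt, sub_self]
  have h1 : ∀ J : κ → ι, ∃ a : QBar, algebraMap QBar ℂ a =
      tau ^ w * bcm (Ω := ℂ) (Module.finBasis ℚ W) φ (fun l => ee η (J l)) := by
    intro J
    apply mem_K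
    intro D
    rw [der_ee η, h0 D (fun l => ee η (J l)), sub_self, mul_zero]
  choose a ha using h1
  refine ⟨a, fun v => ?_⟩
  have h2 := coef_expand η (Module.finBasis ℚ W) φ v
  have h3 : ((φ v : ℚ) : ℂ) = algebraMap ℚ ℂ (φ v) := rfl
  rw [h3, h2, Finset.mul_sum]
  refine Finset.sum_congr rfl fun J _ => ?_
  rw [ha, mul_assoc]

theorem tw_iff : IsTw η w φ ↔ ∀ (D : Derivation QBar ℂ ℂ) (lam : ℂ →ₗ[ℚ] ℚ),
    ActsBy (NN η D lam) φ ((w : ℚ) * tt D lam) := ⟨fun h D lam => NN_acts η h D lam, tw_of_acts η⟩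

/-- The relation with the normalized components. -/
theorem X0_eq (D : Derivation QBar ℂ ℂ) (lam : ℂ →ₗ[ℚ] ℚ) :
    X0 η tau D lam = NN η D lam - (tt D lam / 2) • (1 : Module.End ℚ W) := by
  refine LinearMap.ext fun u => ?_
  rw [X0_apply, LinearMap.sub_apply, NN_apply, LinearMap.smul_apply, Module.End.one_apply]
  congr 2
  have h1 : D tau / (2 * tau) = (1 / 2 : ℚ) • (D tau / tau) := by
    rw [Algebra.smul_def]
    have htau : (tau : ℂ) ≠ 0 := AbVar.tau_ne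
    have h2 : algebraMap ℚ ℂ (1 / 2 : ℚ) = 1 / 2 := by simp
    rw [h2]
    field_simp
  rw [h1, map_smul, smul_eq_mul, tt]
  ring

end Pool.Agent.N192.GP
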