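import Pool.Agent.N192.GP.AbFam

set_option autoImplicit false
set_option linter.unusedSectionVars false

/-!
# The universal family, and the tensor category generated by small structures
-/

open Module Function TensorProduct

noncomputable section

namespace Pool.Agent.N192.GP

open Pool.Agent.Y102 Pool.Agent.W516.DR Pool.Agent.H204R3.GP Pool.Agent.W516.KC
  Pool.Agent.H204R3.SP

/-- All de Rham-Betti structures. -/
abbrev UU : Type := Σ d : ℕ, DRS d

/-- The algebra of the families of endomorphisms of all structures, with a scalar. -/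
abbrev RU : Type := (∀ V : UU, Module.End ℚ (Fin V.1 → ℚ)) × ℚ

/-- The components of the logarithmic derivatives. -/
def gU (D : Derivation QBar ℂ ℂ) (lam : ℂ →ₗ[ℚ] ℚ) : RU :=
  (fun V => NN V.2.basis D lam, tt D lam)

/-- The Lie algebra generated by the components. -/
def LU : Submodule ℚ RU := sInf {𝔩 | Br 𝔩 ∧ ∀ D lam, gU D lam ∈ 𝔩}

theorem LU_le {𝔩 : Submodule ℚ RU} (h1 : Br 𝔩) (h2 : ∀ D lam, gU D lam ∈ 𝔩) :
    LU ≤ 𝔩 := sInf_le ⟨h1, h2⟩

theorem LU_br : Br LU := by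
  intro x hx y hy
  unfold LU at hx hy ⊢
  rw [Submodule.mem_sInf] at hx hy ⊢
  intro 𝔩 h
  exact h.1 x (hx 𝔩 h) y (hy 𝔩 h)

theorem gU_mem (D : Derivation QBar ℂ ℂ) (lam : ℂ →ₗ[ℚ] ℚ) : gU D lam ∈ LU := by
  unfold LU
  rw [Submodule.mem_sInf]
  intro 𝔩 h
  exact h.2 D lam

/-- The elements which act trivially on a structure. -/
def atU (V : UU) : Submodule ℚ RU where
  carrier := {ℓ | ℓ.1 V = 0}
  zero_mem' := rfl
  add_mem' := by
    intro x y hx hy
    change x.1 V + y.1 V = 0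
    have h1 : x.1 V = 0 := hx
    have h2 : y.1 V = 0 := hy
    rw [h1, h2, add_zero]
  smul_mem' := by
    intro c x hx
    change c • x.1 V = 0
    have h1 : x.1 V = 0 := hx
    rw [h1, smul_zero]

/-- The elements which act trivially on the twist. -/
def twU : Submodule ℚ RU := LinearMap.ker (LinearMap.snd ℚ _ _)

theorem brU_snd (x y : RU) : (x * y - y * x).2 = 0 := by
  rw [Prod.snd_sub, Prod.snd_mul, Prod.snd_mul, mul_comm, sub_self]

theorem brU_fst (x y : RU) (V : UU) :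
    (x * y - y * x).1 V = x.1 V * y.1 V - y.1 V * x.1 V := rfl

/-- The normalized projection. -/
def prU (s : UU) : RU →ₗ[ℚ] Module.End ℚ (Fin s.1 → ℚ) where
  toFun ℓ := ℓ.1 s - (ℓ.2 / 2) • 1
  map_add' x y := by
    rw [Prod.fst_add, Prod.snd_add, Pi.add_apply, add_div, add_smul]
    abel
  map_smul' c x := by
    rw [Prod.smul_fst, Prod.smul_snd, Pi.smul_apply, RingHom.id_apply, smul_sub, smul_smul,
      smul_eq_mul, mul_div_assoc]

theorem prU_apply (s : UU) (ℓ : RU) : prU s ℓ = ℓ.1 s - (ℓ.2 / 2) • 1 := rfl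

theorem prU_hm (s : UU) (𝔩 : Submodule ℚ RU) : Hm (prU s) 𝔩 := by
  intro x _ y _
  rw [prU_apply, prU_apply, prU_apply, brU_snd, brU_fst]
  simp only [sub_mul, mul_sub, smul_mul_assoc, mul_smul_comm, one_mul, mul_one]
  module

/-- The Lie algebra of a structure. -/
def ggU (s : UU) : Submodule ℚ (Module.End ℚ (Fin s.1 → ℚ)) := LU.map (prU s)

/-- The Lie algebra of `s` is separated from the structure `V`. -/
def SepU (s V : UU) : Prop := ggU s ≤ (LU ⊓ atU V).map (prU s)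

/-! ### Finite families -/

section Fin

variable {T : Type} [Fintype T] [DecidableEq T] {n : T → ℕ}
  (η : ∀ t, Basis (Fin (n t)) ℂ ((Fin (n t) → ℚ) →ₗ[ℚ] ℂ)) (σ : T → UU)
  (ρ : ∀ t, Module.End ℚ (Fin (σ t).1 → ℚ) →ₐ[ℚ] Module.End ℚ (Fin (n t) → ℚ))

/-- The restriction. -/
def resU : RU →ₗ[ℚ] RR n where
  toFun ℓ := (fun t => ρ t (ℓ.1 (σ t)), ℓ.2)
  map_add' x y := by
    refine Prod.ext (funext fun t => ?_) rfl
    exact map_add (ρ t) _ _
  map_smul' c x := by
    refine Prod.ext (funext fun t => ?_) rfl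
    exact map_smul (ρ t) _ _

theorem resU_mul (x y : RU) : resU σ ρ (x * y) = resU σ ρ x * resU σ ρ y := by
  refine Prod.ext (funext fun t => ?_) rfl
  exact map_mul (ρ t) _ _

theorem map_resU (h : ∀ t D lam, ρ t (NN (σ t).2.basis D lam) = NN (η t) D lam) :
    LU.map (resU σ ρ) = LG η := by
  have h1 : ∀ D lam, resU σ ρ (gU D lam) = gn η D lam := fun D lam =>
    Prod.ext (funext fun t => h t D lam) rfl
  apply le_antisymm
  · rw [Submodule.map_le_iff_le_comap]
    refine LU_le (fun x hx y hy => ?_) fun D lam => ?_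
    · rw [Submodule.mem_comap, map_sub, resU_mul, resU_mul]
      exact LG_br η _ hx _ hy
    · rw [Submodule.mem_comap, h1]
      exact gn_mem_LG η D lam
  · refine LG_le η ?_ fun D lam => ⟨_, gU_mem D lam, h1 D lam⟩
    rintro _ ⟨x, hx, rfl⟩ _ ⟨y, hy, rfl⟩
    exact ⟨x * y - y * x, LU_br x hx y hy, by rw [map_sub, resU_mul, resU_mul]⟩

/-- The transfer to a finite family. -/
theorem sep_of_sepU (h : ∀ t D lam, ρ t (NN (σ t).2.basis D lam) = NN (η t) D lam) {s t : T}
    (hs : SepU (σ s) (σ t)) : Sep η s t := by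
  have h0 := map_resU η σ ρ h
  rintro _ ⟨ℓ, hℓ, rfl⟩
  rw [← h0] at hℓ
  obtain ⟨x, hx, rfl⟩ := hℓ
  obtain ⟨y, hy, h1⟩ := hs ⟨x, hx, rfl⟩
  refine ⟨resU σ ρ y, ⟨?_, ?_⟩, ?_⟩
  · rw [← h0]
    exact ⟨y, hy.1, rfl⟩
  · have h2 : y.1 (σ t) = 0 := hy.2
    change ρ t (y.1 (σ t)) = 0
    rw [h2, map_zero]
  · have h2 : ∀ z : RU, pr s (resU σ ρ z) = ρ s (prU (σ s) z) := by
      intro z
      rw [prU_apply, map_sub, map_smul, map_one, pr_apply]
      rfl
    rw [h2, h2, h1]

end Fin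

/-! ### Pairs -/

/-- The pair of two structures. -/
def σp (s V : UU) (b : Bool) : UU := cond b V s

theorem pair_map (s V : UU) : LU.map (resU (n := fun b => (σp s V b).1) (σp s V)
    fun b => AlgHom.id ℚ _) = LG fun b => (σp s V b).2.basis :=
  map_resU _ _ _ fun _ _ _ => rfl

theorem pair_gg (s V : UU) : gg (fun b => (σp s V b).2.basis) false = ggU s := by
  unfold gg ggU
  rw [← pair_map, ← Submodule.map_comp]
  rfl

/-- The transfer from the pairs. -/
theorem sepU_of_pair {s V : UU} (h : Sep (fun b => (σp s V b).2.basis) false true) : SepU s V := by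
  intro X hX
  rw [← pair_gg s V] at hX
  obtain ⟨ℓ, ⟨hℓ, h1⟩, h2⟩ := h hX
  rw [← pair_map] at hℓ
  obtain ⟨y, hy, rfl⟩ := hℓ
  exact ⟨y, ⟨hy, h1⟩, h2⟩

/-- Small structures are separated. -/
theorem sepU_small {s V : UU} {r : ℕ} (hs : Spin (ggU s) r) (h3 : 3 ≤ r)
    (hV : SmallT V.2.eta r) : SepU s V := by
  refine sepU_of_pair (sep_of_small (r := r) ?_ h3 ?_)
  · rw [pair_gg]
    exact hs
  · change SmallT (V.2.basis : Fin V.1 → ((Fin V.1 → ℚ) →ₗ[ℚ] ℂ)) r
    rw [V.2.coe_basis]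
    exact hV

end Pool.Agent.N192.GP
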