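import Pool.Agent.N192.GP.Flip
import Pool.Agent.N192.GP.Cnt

set_option autoImplicit false
set_option linter.unusedSectionVars false

/-!
# The dimension of the representations of orthogonal Lie algebras
-/

open Module

noncomputable section

namespace Pool.Agent.N192.GP

variable {M : Type*} [AddCommGroup M] [Module ℂ M]

theorem gen_map {S T T' : End ℂ M} (h : S * T = T' * S) {μ : ℂ} {v : M}
    (hv : v ∈ T.maxGenEigenspace μ) : S v ∈ T'.maxGenEigenspace μ := by
  rw [End.mem_maxGenEigenspace] at hv ⊢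
  obtain ⟨k, hk⟩ := hv
  refine ⟨k, ?_⟩
  have h1 : SemiconjBy S (T - μ • 1) (T' - μ • 1) := by
    change S * (T - μ • 1) = (T' - μ • 1) * S
    rw [mul_sub, sub_mul, h, mul_smul_comm, smul_mul_assoc, mul_one, one_mul]
  have h2 : S * (T - μ • 1) ^ k = (T' - μ • 1) ^ k * S := h1.pow_right k
  have h3 := congrArg (fun f : End ℂ M => f v) h2
  simp only [Module.End.mul_apply] at h3
  rw [← h3, hk, map_zero]

theorem gen_neg {T : End ℂ M} {μ : ℂ} {v : M} (hv : v ∈ (-T).maxGenEigenspace μ) :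
    v ∈ T.maxGenEigenspace (-μ) := by
  rw [End.mem_maxGenEigenspace] at hv ⊢
  obtain ⟨k, hk⟩ := hv
  refine ⟨k, ?_⟩
  have h1 : T - (-μ) • (1 : End ℂ M) = -(-T - μ • 1) := by
    rw [neg_smul]
    abel
  rw [h1, neg_pow]
  have h2 : ((-1 : End ℂ M) ^ k * (-T - μ • 1) ^ k) v = ((-1 : End ℂ M) ^ k)
      (((-T - μ • 1) ^ k) v) := rfl
  rw [h2, hk, map_zero]

theorem gen_shift {S T : End ℂ M} {t : ℂ} (h : T * S = S * T + t • S) {μ : ℂ} {v : M}
    (hv : v ∈ T.maxGenEigenspace μ) : S v ∈ T.maxGenEigenspace (μ + t) := by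
  rw [End.mem_maxGenEigenspace] at hv ⊢
  obtain ⟨k, hk⟩ := hv
  refine ⟨k, ?_⟩
  have h1 : SemiconjBy S (T - μ • 1) (T - (μ + t) • 1) := by
    change S * (T - μ • 1) = (T - (μ + t) • 1) * S
    rw [mul_sub, sub_mul, h, mul_smul_comm, smul_mul_assoc, mul_one, one_mul, add_smul]
    abel
  have h2 : S * (T - μ • 1) ^ k = (T - (μ + t) • 1) ^ k * S := h1.pow_right k
  have h3 := congrArg (fun f : End ℂ M => f v) h2
  simp only [Module.End.mul_apply] at h3
  rw [← h3, hk, map_zero]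

/-- The generators of the Cartan subalgebra. -/
def Hh (Y : ℕ → ℕ → End ℂ M) (i : ℕ) : End ℂ M := -Complex.I • Y (2 * i) (2 * i + 1)

/-- The weight spaces. -/
def WS (Y : ℕ → ℕ → End ℂ M) (m : ℕ) (χ : Fin m → ℂ) : Submodule ℂ M :=
  ⨅ i : Fin m, (Hh Y i).maxGenEigenspace (χ i)

/-- The weights. -/
def XX (Y : ℕ → ℕ → End ℂ M) (m : ℕ) : Set (Fin m → ℂ) := {χ | WS Y m χ ≠ ⊥}

theorem mem_WS {Y : ℕ → ℕ → End ℂ M} {m : ℕ} {χ : Fin m → ℂ} {v : M} :
    v ∈ WS Y m χ ↔ ∀ i : Fin m, v ∈ (Hh Y i).maxGenEigenspace (χ i) := by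
  unfold WS
  exact Submodule.mem_iInf _

variable {r : ℕ} {Y : ℕ → ℕ → End ℂ M} {m : ℕ}

theorem SoRel.Hh_comm (h : SoRel r Y) (hm : 2 * m ≤ r) (i j : Fin m) :
    Commute (Hh Y i) (Hh Y j) := by
  rcases eq_or_ne i j with rfl | hij
  · exact Commute.refl _
  · have h1 : (i : ℕ) ≠ j := fun h => hij (Fin.ext h)
    have h2 := i.2
    have h3 := j.2
    have h4 : Commute (Y (2 * i) (2 * i + 1)) (Y (2 * j) (2 * j + 1)) :=
      h.comm _ _ _ _ (by omega) (by omega) (by omega) (by omega) (by omega) (by omega) (by omega)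
        (by omega) (by omega) (by omega)
    exact (h4.smul_left _).smul_right _

theorem SoRel.maps (h : SoRel r Y) (hm : 2 * m ≤ r) (i j : Fin m) (φ : ℂ) :
    Set.MapsTo (Hh Y i) ((Hh Y j).maxGenEigenspace φ) ((Hh Y j).maxGenEigenspace φ) :=
  End.mapsTo_maxGenEigenspace_of_comm (h.Hh_comm hm j i) φ

variable [FiniteDimensional ℂ M]

theorem SoRel.indep (h : SoRel r Y) (hm : 2 * m ≤ r) : iSupIndep fun χ : Fin m → ℂ => WS Y m χ :=
  End.independent_iInf_maxGenEigenspace_of_forall_mapsTo (fun i : Fin m => Hh Y i) (h.maps hm)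

theorem SoRel.fin (h : SoRel r Y) (hm : 2 * m ≤ r) : (XX Y m).Finite :=
  WellFoundedGT.finite_ne_bot_of_iSupIndep (h.indep hm)

theorem SoRel.ncard_le (h : SoRel r Y) (hm : 2 * m ≤ r) : (XX Y m).ncard ≤ finrank ℂ M := by
  have hf : Fintype {χ : Fin m → ℂ // WS Y m χ ≠ ⊥} := (h.fin hm).fintype
  have h1 := (h.indep hm).subtype_ne_bot_le_finrank
  rw [← Nat.card_eq_fintype_card] at h1
  exact h1

theorem SoRel.top (h : SoRel r Y) (hm : 2 * m ≤ r) : ⨆ χ : Fin m → ℂ, WS Y m χ = ⊤ :=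
  End.iSup_iInf_maxGenEigenspace_eq_top_of_forall_mapsTo (fun i : Fin m => Hh Y i) (h.maps hm)
    fun i => End.iSup_maxGenEigenspace_eq_top _

theorem mem_XX_of {S S' : End ℂ M} (hS : S' * S = 1) {χ ψ : Fin m → ℂ} (hχ : χ ∈ XX Y m)
    (h : ∀ i : Fin m, ∀ v ∈ (Hh Y i).maxGenEigenspace (χ i),
      S v ∈ (Hh Y i).maxGenEigenspace (ψ i)) : ψ ∈ XX Y m := by
  obtain ⟨v, hv, hv0⟩ := (Submodule.ne_bot_iff _).1 hχ
  refine (Submodule.ne_bot_iff _).2 ⟨S v, mem_WS.2 fun i => h i v (mem_WS.1 hv i), fun h0 => hv0 ?_⟩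
  have h1 : (S' * S) v = S' (S v) := rfl
  rw [hS, h0, map_zero] at h1
  exact h1

theorem gen_flip {S T : End ℂ M} (h : S * T = -(T * S)) {μ : ℂ} {v : M}
    (hv : v ∈ T.maxGenEigenspace μ) : S v ∈ T.maxGenEigenspace (-μ) :=
  gen_neg (gen_map (by rw [h, neg_mul]) hv)

theorem SoRel.cl2 (h : SoRel r Y) (hm : 2 * m ≤ r) : Cl2 (XX Y m) := by
  intro χ hχ i j hij
  have h1 : (i : ℕ) ≠ j := fun h => hij (Fin.ext h)
  have h2 := i.2
  have h3 := j.2
  obtain ⟨G, G', -, g2, g3, g4⟩ := h.exists_rot (a := 2 * i) (b := 2 * j) (by omega) (by omega)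
    (by omega)
  refine mem_XX_of g2 hχ fun l v hv => ?_
  have h4 := l.2
  unfold flF
  by_cases hli : l = i
  · have h5 : G * Hh Y l = -(Hh Y l * G) := by
      unfold Hh
      rw [hli, mul_smul_comm, (g4 (2 * i + 1) (by omega) (by omega) (by omega)).1, smul_neg,
        smul_mul_assoc]
    rw [if_pos (by rw [hli]; exact Finset.mem_insert_self _ _)]
    exact gen_flip h5 hv
  · by_cases hlj : l = j
    · have h5 : G * Hh Y l = -(Hh Y l * G) := by
        unfold Hh
        rw [hlj, mul_smul_comm, (g4 (2 * j + 1) (by omega) (by omega) (by omega)).2, smul_neg,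
          smul_mul_assoc]
      rw [if_pos (by rw [hlj]; exact Finset.mem_insert_of_mem (Finset.mem_singleton_self _))]
      exact gen_flip h5 hv
    · have h6 : (l : ℕ) ≠ i := fun h => hli (Fin.ext h)
      have h7 : (l : ℕ) ≠ j := fun h => hlj (Fin.ext h)
      rw [if_neg (by simp [hli, hlj])]
      refine gen_map (T' := Hh Y l) ?_ hv
      unfold Hh
      rw [mul_smul_comm, smul_mul_assoc]
      congr 1
      exact (g3 _ (h.comm _ _ _ _ (by omega) (by omega) (by omega) (by omega) (by omega)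
        (by omega) (by omega) (by omega) (by omega) (by omega))).symm

theorem SoRel.cl1 (h : SoRel r Y) (hm : 2 * m < r) : Cl1 (XX Y m) := by
  intro χ hχ i
  have h2 := i.2
  obtain ⟨G, G', -, g2, g3, g4⟩ := h.exists_rot (a := 2 * i) (b := 2 * m) (by omega) (by omega)
    (by omega)
  refine mem_XX_of g2 hχ fun l v hv => ?_
  have h4 := l.2
  unfold flF
  by_cases hli : l = i
  · have h5 : G * Hh Y l = -(Hh Y l * G) := by
      unfold Hh
      rw [hli, mul_smul_comm, (g4 (2 * i + 1) (by omega) (by omega) (by omega)).1, smul_neg,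
        smul_mul_assoc]
    rw [if_pos (by rw [hli]; exact Finset.mem_singleton_self _)]
    exact gen_flip h5 hv
  · have h6 : (l : ℕ) ≠ i := fun h => hli (Fin.ext h)
    rw [if_neg (by simp [hli])]
    refine gen_map (T' := Hh Y l) ?_ hv
    unfold Hh
    rw [mul_smul_comm, smul_mul_assoc]
    congr 1
    exact (g3 _ (h.comm _ _ _ _ (by omega) (by omega) (by omega) (by omega) (by omega)
      (by omega) (by omega) (by omega) (by omega) (by omega))).symm

/-- If the generators in the rows of `a` and `b` vanish, all generators vanish. -/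
theorem SoRel.zero_of (h : SoRel r Y) {a b : ℕ} (ha : a < r) (hb : b < r) (hab : a ≠ b)
    (hr : 3 ≤ r) (h0 : ∀ c, c < r → c ≠ a → c ≠ b → Y a c = 0 ∧ Y b c = 0) {c d : ℕ} (hc : c < r)
    (hd : d < r) (hcd : c ≠ d) : Y c d = 0 := by
  have key : ∀ x y z : ℕ, x < r → y < r → z < r → x ≠ y → y ≠ z → x ≠ z → Y x y = 0 →
      Y x z = 0 := by
    intro x y z hx hy hz hxy hyz hxz h1
    have h2 := h.br x y z hx hy hz hxy hyz hxz
    rw [h1, zero_mul, mul_zero, sub_zero] at h2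
    exact (smul_eq_zero.1 h2.symm).resolve_left two_ne_zero
  have key2 : ∀ x y : ℕ, x < r → y < r → x ≠ y → Y x y = 0 → Y y x = 0 := by
    intro x y hx hy hxy h1
    rw [h.anti y x hy hx hxy.symm, h1, neg_zero]
  obtain ⟨e, he, hea, heb⟩ : ∃ e, e < r ∧ e ≠ a ∧ e ≠ b := by
    by_contra hcon
    push Not at hcon
    have h1 := hcon 0 (by omega)
    have h2 := hcon 1 (by omega)
    have h3 := hcon 2 (by omega)
    omega
  have h1 := h0 e he hea heb
  have hrow : ∀ z, z < r → z ≠ a → Y a z = 0 := by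
    intro z hz hza
    by_cases hze : z = e
    · rw [hze]; exact h1.1
    · exact key a e z ha he hz hea.symm (Ne.symm hze) hza.symm h1.1
  by_cases hca : c = a
  · rw [hca]
    exact hrow d hd (fun h => hcd (hca.trans h.symm))
  · have h2 := key2 a c ha hc (Ne.symm hca) (hrow c hc hca)
    by_cases hda : d = a
    · rw [hda]; exact h2
    · exact key c a d hc ha hd hca (Ne.symm hda) hcd h2

theorem SoRel.occ (h : SoRel r Y) (hm : 2 * m ≤ r) (hr : 3 ≤ r) {c d : ℕ} (hc : c < r)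
    (hd : d < r) (hcd : c ≠ d) (hne : Y c d ≠ 0) : Occ (XX Y m) := by
  intro i
  by_contra hcon
  push Not at hcon
  have hi := i.2
  have h1 : (Hh Y i).maxGenEigenspace 0 = ⊤ := by
    rw [eq_top_iff, ← h.top hm]
    refine iSup_le fun χ => ?_
    by_cases hχ : WS Y m χ = ⊥
    · rw [hχ]; exact bot_le
    · intro v hv
      have h2 := mem_WS.1 hv i
      rwa [hcon χ hχ] at h2
  have h2 : ∀ S : End ℂ M, ∀ t : ℂ, t ≠ 0 → Hh Y i * S = S * Hh Y i + t • S → S = 0 := by
    intro S t ht hS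
    refine LinearMap.ext fun v => ?_
    have h3 : v ∈ (Hh Y i).maxGenEigenspace 0 := by rw [h1]; trivial
    have h4 := gen_shift hS h3
    rw [zero_add] at h4
    have h5 : Disjoint ((Hh Y i).maxGenEigenspace 0) ((Hh Y i).maxGenEigenspace t) :=
      End.disjoint_genEigenspace _ (Ne.symm ht) ⊤ ⊤
    exact Submodule.disjoint_def.1 h5 _ (by rw [h1]; trivial) h4
  apply hne
  refine h.zero_of (a := 2 * i) (b := 2 * i + 1) (by omega) (by omega) (by omega) hr
    (fun e he hea heb => ?_) hc hd hcd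
  have e1 := h2 _ 2 two_ne_zero (h.plus (a := 2 * i) (b := 2 * i + 1) (c := e) (by omega) (by omega)
    he (by omega) (Ne.symm heb) (Ne.symm hea))
  have e2 := h2 _ (-2) (neg_ne_zero.2 two_ne_zero) (by
    rw [neg_smul, ← sub_eq_add_neg]
    exact h.minus (a := 2 * i) (b := 2 * i + 1) (c := e) (by omega) (by omega)
      he (by omega) (Ne.symm heb) (Ne.symm hea))
  constructor
  · have e3 : (2 : ℂ) • Y (2 * i) e = (Y (2 * i) e + Complex.I • Y (2 * i + 1) e) +
        (Y (2 * i) e - Complex.I • Y (2 * i + 1) e) := by module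
    rw [e1, e2, add_zero] at e3
    exact (smul_eq_zero.1 e3).resolve_left two_ne_zero
  · have e3 : (2 : ℂ) • Complex.I • Y (2 * i + 1) e = (Y (2 * i) e + Complex.I • Y (2 * i + 1) e) -
        (Y (2 * i) e - Complex.I • Y (2 * i + 1) e) := by module
    rw [e1, e2, sub_zero] at e3
    exact (smul_eq_zero.1 ((smul_eq_zero.1 e3).resolve_left two_ne_zero)).resolve_left
      Complex.I_ne_zero

end Pool.Agent.N192.GP
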